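import Pool.Agent.LibGMW.Loc

/-! The field generated by the coordinates of some factors. -/

open scoped Classical

namespace Pool.Agent.LibGMW

open Pool.Agent.LibGMM MvPolynomial

variable {K : Type} [Field K] [Algebra ℂ K] {J : Type} [Fintype J] {m : J → ℕ}

/-- The function field of the image of the projection to the product of the factors in `S`. -/
noncomputable def Emb.base (E : Emb K m) (S : Set J) : IntermediateField ℂ K :=
  IntermediateField.adjoin ℂ {y | ∃ j ∈ S, ∃ r r', y = (E.x j r : K) / E.x j r'}

end Pool.Agent.LibGMW
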