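import Pool.Agent.LibGMW.Defs
import Pool.Agent.LibGMM.H1

/-! TASK DETB: factors of multihomogeneous polynomials. -/

open scoped Classical

namespace Pool.Agent.LibGMW

open Pool.Agent.LibGMM MvPolynomial

/-- Multiplication of the variables of the group `j` by the new variable. -/
private noncomputable def DetB_phi {J : Type} {m : J → ℕ} (j : J) :
    MvPolynomial (Σ j, Fin (m j + 1)) ℂ →ₐ[ℂ] Polynomial (MvPolynomial (Σ j, Fin (m j + 1)) ℂ) :=
  aeval fun v : Σ j, Fin (m j + 1) =>
    Polynomial.C (X v) * (if v.1 = j then Polynomial.X else 1)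

private theorem DetB_phi_monomial {J : Type} [Fintype J] {m : J → ℕ} (j : J)
    (b : (Σ j, Fin (m j + 1)) →₀ ℕ) (r : ℂ) :
    DetB_phi j (monomial b r) =
      Polynomial.C (monomial b r) * Polynomial.X ^ (∑ s, b ⟨j, s⟩) := by
  have h0 : (algebraMap ℂ (Polynomial (MvPolynomial (Σ j, Fin (m j + 1)) ℂ))) r =
      Polynomial.C (C r) := rfl
  unfold DetB_phi
  rw [aeval_monomial, h0, Finsupp.prod_fintype _ _ (fun v => pow_zero _)]
  simp only [mul_pow]
  rw [Finset.prod_mul_distrib]
  have h1 : ∏ v : Σ j, Fin (m j + 1), (if v.1 = j then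
      (Polynomial.X : Polynomial (MvPolynomial (Σ j, Fin (m j + 1)) ℂ)) else 1) ^ b v =
      Polynomial.X ^ (∑ s, b ⟨j, s⟩) := by
    rw [Fintype.prod_sigma, Finset.prod_eq_single j]
    · simp only [if_true]
      rw [Finset.prod_pow_eq_pow_sum]
    · intro j' _ hj'
      apply Finset.prod_eq_one
      intro s _
      rw [if_neg hj', one_pow]
    · simp
  rw [h1, monomial_eq, Finsupp.prod_fintype _ _ (fun v => pow_zero _), Polynomial.C_mul,
    map_prod Polynomial.C]
  simp only [Polynomial.C_pow]
  ring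

private theorem DetB_coeff {J : Type} [Fintype J] {m : J → ℕ} (j : J)
    (F : MvPolynomial (Σ j, Fin (m j + 1)) ℂ) (b : (Σ j, Fin (m j + 1)) →₀ ℕ) (hb : b ∈ F.support) :
    coeff b ((DetB_phi j F).coeff (∑ s, b ⟨j, s⟩)) = coeff b F := by
  conv_lhs => rw [MvPolynomial.as_sum F]
  rw [map_sum]
  simp only [DetB_phi_monomial, Polynomial.finsetSum_coeff, Polynomial.coeff_C_mul_X_pow,
    MvPolynomial.coeff_sum]
  rw [Finset.sum_eq_single b]
  · rw [if_pos rfl, MvPolynomial.coeff_monomial, if_pos rfl]
  · intro c _ hcb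
    split_ifs with h
    · rw [MvPolynomial.coeff_monomial, if_neg hcb]
    · rw [MvPolynomial.coeff_zero]
  · intro h
    exact absurd hb h

/-- The factors of a multihomogeneous polynomial are multihomogeneous. (The polynomial `F * Q` is
multihomogeneous: compare the monomials of smallest and of largest degree in the group `j` of the two
factors; or use `MvPolynomial.IsWeightedHomogeneous`/`IsHomogeneous` results of Mathlib; or put
`X (j, s) ↦ C (t j) * X (j, s)`.) -/
theorem exists_multiHom_of_dvd {J : Type} [Fintype J] {m : J → ℕ}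
    (F G : MvPolynomial (Σ j, Fin (m j + 1)) ℂ) (e : J → ℕ) (hG : MultiHom G e) (h0 : G ≠ 0)
    (h : F ∣ G) : ∃ d : J → ℕ, MultiHom F d ∧ ∀ j, d j ≤ e j := by
  obtain ⟨Q, hQ⟩ := h
  have hsum : ∀ (j : J), DetB_phi j F * DetB_phi j Q = Polynomial.C G * Polynomial.X ^ e j := by
    intro j
    rw [← map_mul, ← hQ]
    conv_lhs => rw [MvPolynomial.as_sum G]
    rw [map_sum]
    conv_rhs => rw [MvPolynomial.as_sum G]
    rw [map_sum Polynomial.C, Finset.sum_mul]
    refine Finset.sum_congr rfl fun b hb => ?_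
    rw [DetB_phi_monomial, hG b hb j]
  have hne : ∀ j : J, (Polynomial.C G * Polynomial.X ^ e j :
      Polynomial (MvPolynomial (Σ j, Fin (m j + 1)) ℂ)) ≠ 0 := fun j =>
    mul_ne_zero (Polynomial.C_ne_zero.2 h0) (pow_ne_zero _ Polynomial.X_ne_zero)
  refine ⟨fun j => (DetB_phi j F).natDegree, ?_, ?_⟩
  · intro b hb j
    have hF := left_ne_zero_of_mul ((hsum j).symm ▸ hne j)
    have hR := right_ne_zero_of_mul ((hsum j).symm ▸ hne j)
    have h1 := congrArg Polynomial.natDegree (hsum j)
    have h2 := congrArg Polynomial.natTrailingDegree (hsum j)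
    rw [Polynomial.natDegree_mul hF hR, Polynomial.natDegree_C_mul_X_pow _ _ h0] at h1
    rw [Polynomial.natTrailingDegree_mul hF hR, Polynomial.natTrailingDegree_mul
      (Polynomial.C_ne_zero.2 h0) (pow_ne_zero _ Polynomial.X_ne_zero),
      Polynomial.natTrailingDegree_C, Polynomial.natTrailingDegree_X_pow] at h2
    have h3 := Polynomial.natTrailingDegree_le_natDegree (DetB_phi j F)
    have h4 := Polynomial.natTrailingDegree_le_natDegree (DetB_phi j Q)
    have h5 : (DetB_phi j F).coeff (∑ s, b ⟨j, s⟩) ≠ 0 := by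
      intro h
      have := DetB_coeff j F b hb
      rw [h, MvPolynomial.coeff_zero] at this
      exact (MvPolynomial.mem_support_iff.1 hb) this.symm
    have h6 := Polynomial.natTrailingDegree_le_of_ne_zero h5
    have h7 := Polynomial.le_natDegree_of_ne_zero h5
    show _ = (DetB_phi j F).natDegree
    omega
  · intro j
    have hF := left_ne_zero_of_mul ((hsum j).symm ▸ hne j)
    have hR := right_ne_zero_of_mul ((hsum j).symm ▸ hne j)
    have h1 := congrArg Polynomial.natDegree (hsum j)
    rw [Polynomial.natDegree_mul hF hR, Polynomial.natDegree_C_mul_X_pow _ _ h0] at h1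
    show (DetB_phi j F).natDegree ≤ e j
    omega

end Pool.Agent.LibGMW
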