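import Pool.Agent.LibGMW.DetA
import Pool.Agent.LibGMW.DetB

/-! TASK DETC: the determinant of `M` divides all relations between the coordinates with labels
`j ≠ l, i`. -/

open scoped Classical

namespace Pool.Agent.LibGMW

open Pool.Agent.LibGMM MvPolynomial

variable {P R : Type} [Fintype P] [Fintype R] {n : ℕ} {m e : R → ℕ}
  {K : Type} [Field K] [Algebra ℂ K] {T : FormTensor P n m e} {l i : P}

/-- The determinant divides all relations. The homomorphism which sends `X (i, b)` to
`adj b a₀` (where `adj b₀ a₀ ≠ 0` at the generic point) and the other variables to themselves sends the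
equation `eqn T l a` to `∑ b, M a b * adj b a₀`, which is `0` or `det M` (`eqn_eq`,
`Matrix.mul_adjugate`), so by `D.relations` the determinant divides `W ^ N * G` with
`W = adj b₀ a₀ * ∏ X (j, 0)`, `j ≠ l, i` (choose `s i = b₀`). The determinant and `W ^ N` have no
common prime factor `q` (`UniqueFactorizationMonoid.isRelPrime_iff_no_prime_factors`,
`IsRelPrime.dvd_of_dvd_mul_left`): the determinant vanishes at the generic point (`det_eq_zero`,
`D.mat_mulVec`), so one of its prime factors `p` (`exists_multiHom_of_dvd`) does; `q` divides `p` by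
`Multilin.prime_dvd`, so `q` and `p` are associated and `q` vanishes at the generic point, but `W` does
not. -/
theorem Multilin.det_dvd (D : Multilin K T l) (h : l ≠ i) (hdims : ∀ j, 1 ≤ dims (P := P) n m j)
    (hdet : (matP T l i).det ≠ 0) (hadj : ∃ a b, (D.mat i).adjugate a b ≠ 0)
    (G : MvPolynomial (Σ j : P ⊕ R, Fin (dims n m j + 1)) ℂ) (e : P ⊕ R → ℕ) (hG : MultiHom G e)
    (hl : e (Sum.inl l) = 0) (hi : e (Sum.inl i) = 0)
    (h0 : aeval (fun v : Σ j, Fin (dims n m j + 1) => (D.x v.1 v.2 : K)) G = 0) :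
    (matP T l i).det ∣ G := by
  set ev : MvPolynomial (Σ j : P ⊕ R, Fin (dims n m j + 1)) ℂ →ₐ[ℂ] K :=
    aeval (fun v : Σ j, Fin (dims n m j + 1) => (D.x v.1 v.2 : K)) with hev
  obtain ⟨b₀, a₀, hba⟩ := hadj
  let u : (j : P ⊕ R) → Fin (dims n m j + 1) → MvPolynomial (Σ j : P ⊕ R, Fin (dims n m j + 1)) ℂ :=
    Function.update (fun j s => X ⟨j, s⟩) (Sum.inl i) (fun b => (matP T l i).adjugate b a₀)
  have hui : u (Sum.inl i) = fun b => (matP T l i).adjugate b a₀ := Function.update_self _ _ _
  have huj : ∀ j, j ≠ Sum.inl i → u j = fun s => X ⟨j, s⟩ := fun j hj =>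
    Function.update_of_ne hj _ _
  have hcongr : ∀ (F : MvPolynomial (Σ j : P ⊕ R, Fin (dims n m j + 1)) ℂ) (d : P ⊕ R → ℕ),
      MultiHom F d → d (Sum.inl i) = 0 →
      aeval (fun w : Σ j, Fin (dims n m j + 1) => u w.1 w.2) F = F := by
    intro F d hF hd
    conv_rhs => rw [← MvPolynomial.aeval_X_left_apply (R := ℂ) F]
    refine aeval_congr F d hF _ _ fun w hw => ?_
    have hw' : w.1 ≠ Sum.inl i := by
      intro hc
      rw [hc] at hw
      exact hw hd
    show u w.1 w.2 = _
    rw [huj w.1 hw']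
  have heqn : ∀ a, (matP T l i).det ∣
      aeval (fun w : Σ j, Fin (dims n m j + 1) => u w.1 w.2) (eqn T l a) := by
    intro a
    rw [eqn_eq T h, map_sum]
    have h1 := congrFun (congrFun (Matrix.mul_adjugate (matP T l i)) a) a₀
    rw [Matrix.mul_apply] at h1
    have h2 : ∑ b, aeval (fun w : Σ j, Fin (dims n m j + 1) => u w.1 w.2)
        (matP T l i a b * X ⟨Sum.inl i, b⟩) = ∑ b, matP T l i a b * (matP T l i).adjugate b a₀ := by
      refine Finset.sum_congr rfl fun b _ => ?_
      rw [map_mul, aeval_X, hcongr _ _ (matP_multiHom T l i a b) (by simp [degLI])]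
      show matP T l i a b * u (Sum.inl i) b = _
      rw [hui]
    rw [h2, h1, Matrix.smul_apply, smul_eq_mul]
    exact dvd_mul_right _ _
  have hker : ∀ F ∈ Ideal.span (Set.range (eqn T l)),
      (matP T l i).det ∣ aeval (fun w : Σ j, Fin (dims n m j + 1) => u w.1 w.2) F := by
    intro F hF
    induction hF using Submodule.span_induction with
    | mem x hx =>
      obtain ⟨a, rfl⟩ := hx
      exact heqn a
    | zero => rw [map_zero]; exact dvd_zero _
    | add x y _ _ hx hy => rw [map_add]; exact dvd_add hx hy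
    | smul c x _ hx => rw [smul_eq_mul, map_mul]; exact dvd_mul_of_dvd_right hx _
  have hex : ∀ j : P ⊕ R, ∃ s : Fin (dims n m j + 1), ev (u j s) ≠ 0 := by
    intro j
    by_cases hji : j = Sum.inl i
    · subst hji
      refine ⟨b₀, ?_⟩
      rw [hui]
      show ev ((matP T l i).adjugate b₀ a₀) ≠ 0
      rw [hev, ← D.mat_adjugate]
      exact hba
    · refine ⟨0, ?_⟩
      rw [huj j hji]
      show ev (X ⟨j, 0⟩) ≠ 0
      rw [hev, aeval_X]
      exact Units.ne_zero _
  choose s hs using hex
  obtain ⟨N, hN⟩ := D.relations G e hG hl h0 s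
  have h2 := hker _ hN
  rw [map_mul, map_pow, map_prod, hcongr G e hG hi] at h2
  simp only [aeval_X] at h2
  -- the generic point
  have hdetev : ev (matP T l i).det = 0 := by
    rw [hev, ← D.mat_det]
    refine det_eq_zero (D.mat i) (fun b => (D.x (Sum.inl i) b : K)) ?_ (D.mat_mulVec h)
    intro hc
    have := congrFun hc 0
    exact Units.ne_zero _ this
  obtain ⟨f, hf, u', hfu⟩ := UniqueFactorizationMonoid.exists_prime_factors _ hdet
  have hfev : ev f.prod = 0 := by
    have h3 := congrArg ev hfu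
    rw [map_mul, hdetev] at h3
    rcases mul_eq_zero.1 h3 with h4 | h4
    · exact h4
    · exact absurd h4 ((u'.isUnit.map ev).ne_zero)
  rw [map_multiset_prod, Multiset.prod_eq_zero_iff, Multiset.mem_map] at hfev
  obtain ⟨p, hpf, hpev⟩ := hfev
  have hp := hf p hpf
  have hpd : p ∣ (matP T l i).det := (Multiset.dvd_prod hpf).trans ⟨_, hfu.symm⟩
  obtain ⟨d, hd, hde⟩ := exists_multiHom_of_dvd p _ _ (det_multiHom T l i) hdet hpd
  have hdl : d (Sum.inl l) = 0 := by
    have := hde (Sum.inl l)
    simpa [degLI] using this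
  have hdi : d (Sum.inl i) = 0 := by
    have := hde (Sum.inl i)
    simpa [degLI] using this
  have hrel : IsRelPrime (matP T l i).det
      ((∏ j ∈ Finset.univ.erase (Sum.inl l), u j (s j)) ^ N) := by
    rw [UniqueFactorizationMonoid.isRelPrime_iff_no_prime_factors hdet]
    intro q hq1 hq2 hq
    have h3 := hq.dvd_of_dvd_pow hq2
    have h4 := D.prime_dvd h hdims q hq hq1 p d hd hdl hdi hpev
    have h5 := (hq.associated_of_dvd hp h4).symm.dvd
    have h6 : ev (∏ j ∈ Finset.univ.erase (Sum.inl l), u j (s j)) = 0 := by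
      obtain ⟨c, hc⟩ := h5.trans h3
      rw [hc, map_mul, hpev, zero_mul]
    rw [map_prod, Finset.prod_eq_zero_iff] at h6
    obtain ⟨j, _, hj⟩ := h6
    exact hs j hj
  exact hrel.dvd_of_dvd_mul_left h2

end Pool.Agent.LibGMW
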