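import Pool.Agent.LibGMW.Frac

/-! TASK KLOC: prime divisors of `X_l` on the product of the factors with labels `j ≠ l, i`. -/

open scoped Classical

namespace Pool.Agent.LibGMW

open Pool.Agent.LibGMM MvPolynomial

/-- The localization of `A` at the centre of `Q`. -/
def KLoc_loc {K : Type} [Field K] [Algebra ℂ K] (A : Subalgebra ℂ K) (Q : DVal K) :
    Subalgebra ℂ K where
  carrier := {y | ∃ a ∈ A, ∃ b ∈ A, b ≠ 0 ∧ Q.ord b = 0 ∧ y = a / b}
  mul_mem' := by
    rintro x y ⟨a, ha, b, hb, hb0, hbQ, rfl⟩ ⟨a', ha', b', hb', hb0', hbQ', rfl⟩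
    refine ⟨a * a', mul_mem ha ha', b * b', mul_mem hb hb', mul_ne_zero hb0 hb0', ?_, ?_⟩
    · rw [Q.ord_mul b b' hb0 hb0', hbQ, hbQ', add_zero]
    · rw [div_mul_div_comm]
  add_mem' := by
    rintro x y ⟨a, ha, b, hb, hb0, hbQ, rfl⟩ ⟨a', ha', b', hb', hb0', hbQ', rfl⟩
    refine ⟨a * b' + b * a', add_mem (mul_mem ha hb') (mul_mem hb ha'), b * b', mul_mem hb hb',
      mul_ne_zero hb0 hb0', ?_, ?_⟩
    · rw [Q.ord_mul b b' hb0 hb0', hbQ, hbQ', add_zero]
    · rw [div_add_div _ _ hb0 hb0']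
  algebraMap_mem' := by
    intro c
    refine ⟨algebraMap ℂ K c, A.algebraMap_mem c, 1, A.one_mem, one_ne_zero, Q.ord_one, ?_⟩
    rw [div_one]

theorem KLoc_mem {K : Type} [Field K] [Algebra ℂ K] {A : Subalgebra ℂ K} {Q : DVal K} {y : K} :
    y ∈ KLoc_loc A Q ↔ ∃ a ∈ A, ∃ b ∈ A, b ≠ 0 ∧ Q.ord b = 0 ∧ y = a / b := Iff.rfl

theorem KLoc_le {K : Type} [Field K] [Algebra ℂ K] {A : Subalgebra ℂ K} {Q : DVal K} :
    A ≤ KLoc_loc A Q := by
  intro a ha
  exact ⟨a, ha, 1, A.one_mem, one_ne_zero, Q.ord_one, by rw [div_one]⟩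

theorem KLoc_inv {K : Type} [Field K] [Algebra ℂ K] {A : Subalgebra ℂ K} {Q : DVal K} {y : K}
    (hy : y ∈ KLoc_loc A Q) (h0 : y ≠ 0) (hQ : Q.ord y = 0) : y⁻¹ ∈ KLoc_loc A Q := by
  obtain ⟨a, ha, b, hb, hb0, hbQ, rfl⟩ := hy
  have ha0 : a ≠ 0 := fun h => h0 (by rw [h, zero_div])
  rw [Q.ord_div ha0 hb0, hbQ, sub_zero] at hQ
  exact ⟨b, hb, a, ha, ha0, hQ, by rw [inv_div]⟩

theorem KLoc_ord {K : Type} [Field K] [Algebra ℂ K] {A : Subalgebra ℂ K} {Q : DVal K}
    (hA : A ≤ Q.ring) {y : K} (hy : y ∈ KLoc_loc A Q) : 0 ≤ Q.ord y := by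
  obtain ⟨a, ha, b, hb, hb0, hbQ, rfl⟩ := hy
  by_cases ha0 : a = 0
  · rw [ha0, zero_div, Q.ord_zero]
  · rw [Q.ord_div ha0 hb0, hbQ, sub_zero]
    exact hA ha

variable {P R : Type} [Fintype P] [Fintype R] {n : ℕ} {m e : R → ℕ}
  {K : Type} [Field K] [Algebra ℂ K] {T : FormTensor P n m e} {l i : P}

/-- The ring of a prime divisor `Q` is a localization of a chart of the product of the factors with
labels `j ≠ l, i`. Choose a chart `s` with `IsLocal (D.proj univ s) Q` (`Emb.exists_isLocal`). By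
`D.Small i` and `Emb.aeval_multiHom` an entry `(b₀, a₀)` of the adjugate of `M`, divided by
`∏ (x j (s j)) ^ n` (`j ≠ l, i`), is an element of `D.proj (others l i) s` of order `0`; all the other
entries of its column are in this ring too, so `x i b / x i b₀` (a ratio of entries of the column) is
in the localization `{a / b | a, b ∈ D.proj (others l i) s, b ≠ 0, ord b = 0}`, which is closed under
sums, products and inverses of elements of order `0`. So `x i b₀` has minimal order, and all elements of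
`D.proj univ s` are in this localization, and hence all elements of the ring of `Q`. -/
theorem Multilin.exists_isLocal' (D : Multilin K T l) (h : l ≠ i) (hs : D.Small i) (Q : DVal K)
    (hQ : D.model.IsPrimeDiv Q) :
    ∃ s : (j : P ⊕ R) → Fin (dims n m j + 1), (∀ j r, Q.ord (D.x j (s j) : K) ≤ Q.ord (D.x j r : K)) ∧
      IsLocal (D.proj (others l i) s) Q := by
  obtain ⟨s, hs1, hs2⟩ := D.toEmb.exists_isLocal Q hQ
  have hmin : ∀ j r, Q.ord (D.x j (s j) : K) ≤ Q.ord (D.x j r : K) := fun j r =>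
    D.toEmb.ord_le_of_proj_le Q Set.univ s hs1 j (Set.mem_univ j) r
  set A : Subalgebra ℂ K := D.proj (others l i) s with hA
  have hAuniv : A ≤ D.proj Set.univ s := by
    refine Algebra.adjoin_mono ?_
    rintro _ ⟨j, _, r, rfl⟩
    exact ⟨j, Set.mem_univ j, r, rfl⟩
  have hAQ : A ≤ Q.ring := hAuniv.trans hs1
  refine ⟨s, hmin, hAQ, ?_⟩
  obtain ⟨b₀, a₀, hadj, hord⟩ := hs.2 Q hQ
  obtain ⟨y₀, hy₀, e₀⟩ := D.Frac_adj (i := i) s b₀ a₀
  have hprod : (∏ j, (D.x j (s j) : K) ^ degLI e l i n j) ≠ 0 := by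
    rw [Finset.prod_ne_zero_iff]
    intro j _
    exact pow_ne_zero _ (Units.ne_zero _)
  have hy0 : y₀ ≠ 0 := by
    intro h0
    rw [h0, mul_zero] at e₀
    exact hadj e₀
  have hordy : Q.ord y₀ = 0 := by
    have h1 : Q.ord ((D.mat i).adjugate b₀ a₀) =
        Q.ord (∏ j, (D.x j (s j) : K) ^ degLI e l i n j) + Q.ord y₀ := by
      rw [e₀]
      exact Q.ord_mul _ _ hprod hy0
    have h2 : Q.ord (∏ j, (D.x j (s j) : K) ^ degLI e l i n j) =
        ∑ j, (degLI e l i n j : ℤ) * Q.ord (D.x j (s j) : K) := by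
      rw [Q.ord_prod _ _ (fun j _ => pow_ne_zero _ (Units.ne_zero _))]
      exact Finset.sum_congr rfl fun j _ => Q.ord_pow _ _
    have h3 : (∑ j, (degLI e l i n j : ℤ) * Q.ord (D.x j (s j) : K)) =
        ∑ j ∈ (Finset.univ.erase (Sum.inl l)).erase (Sum.inl i),
          ((n * degs e j : ℕ) : ℤ) * Q.ord (D.x j (s j) : K) := by
      rw [← Finset.sum_subset (Finset.subset_univ ((Finset.univ.erase (Sum.inl l)).erase (Sum.inl i)))]
      · refine Finset.sum_congr rfl fun j hj => ?_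
        have h4 : ¬ (j = Sum.inl l ∨ j = Sum.inl i) := by
          rw [Finset.mem_erase, Finset.mem_erase] at hj
          push Not
          exact ⟨hj.2.1, hj.1⟩
        unfold degLI
        rw [if_neg h4]
      · intro j _ hj
        have h4 : j = Sum.inl l ∨ j = Sum.inl i := by
          by_contra hcon
          push Not at hcon
          exact hj (Finset.mem_erase.2 ⟨hcon.2, Finset.mem_erase.2 ⟨hcon.1, Finset.mem_univ j⟩⟩)
        unfold degLI
        rw [if_pos h4]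
        simp
    have h5 : (Q.ord ((D.mat i).adjugate b₀ a₀) : ℝ) =
        ((∑ j ∈ (Finset.univ.erase (Sum.inl l)).erase (Sum.inl i),
          ((n * degs e j : ℕ) : ℤ) * Q.ord (D.x j (s j) : K) : ℤ) : ℝ) := by
      rw [hord]
      push_cast
      rw [← Finset.sum_neg_distrib]
      refine Finset.sum_congr rfl fun j _ => ?_
      have h6 := D.toEmb.hyp_eq j Q (s j) (hmin j)
      rw [h6]
      ring
    have h7 : Q.ord ((D.mat i).adjugate b₀ a₀) =
        ∑ j ∈ (Finset.univ.erase (Sum.inl l)).erase (Sum.inl i),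
          ((n * degs e j : ℕ) : ℤ) * Q.ord (D.x j (s j) : K) := by exact_mod_cast h5
    omega
  -- the ratios of the coordinates with label `i`
  have hx0 : (D.x (Sum.inl i) b₀ : K) ≠ 0 := Units.ne_zero _
  have hratio : ∀ b, (D.x (Sum.inl i) b : K) / (D.x (Sum.inl i) b₀ : K) ∈ KLoc_loc A Q := by
    intro b
    have h1 := D.Frac_ratio h hadj b
    have h2 : (D.x (Sum.inl i) b : K) / (D.x (Sum.inl i) b₀ : K) =
        (D.mat i).adjugate b a₀ / (D.mat i).adjugate b₀ a₀ := by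
      rw [div_eq_div_iff hx0 hadj, h1]
    obtain ⟨y₁, hy₁, e₁⟩ := D.Frac_adj (i := i) s b a₀
    refine ⟨y₁, hy₁, y₀, hy₀, hy0, hordy, ?_⟩
    rw [h2, e₁, e₀, mul_div_mul_left _ _ hprod]
  have hordr : ∀ b, Q.ord (D.x (Sum.inl i) b₀ : K) ≤ Q.ord (D.x (Sum.inl i) b : K) := by
    intro b
    have h1 := KLoc_ord hAQ (hratio b)
    rw [Q.ord_div (Units.ne_zero _) hx0] at h1
    omega
  have hgen : D.proj Set.univ s ≤ KLoc_loc A Q := by
    refine Algebra.adjoin_le ?_
    rintro _ ⟨j, _, r, rfl⟩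
    by_cases hjl : j = Sum.inl l
    · subst hjl
      rw [D.one, D.one]
      simp only [Units.val_one, div_one]
      exact Subalgebra.one_mem _
    · by_cases hji : j = Sum.inl i
      · subst hji
        have h3 : (D.x (Sum.inl i) r : K) / D.x (Sum.inl i) (s (Sum.inl i)) =
            ((D.x (Sum.inl i) r : K) / (D.x (Sum.inl i) b₀ : K)) *
              ((D.x (Sum.inl i) (s (Sum.inl i)) : K) / (D.x (Sum.inl i) b₀ : K))⁻¹ := by
          rw [← div_eq_mul_inv, div_div_div_cancel_right₀ hx0]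
        rw [h3]
        refine mul_mem (hratio r) (KLoc_inv (hratio _) ?_ ?_)
        · exact div_ne_zero (Units.ne_zero _) hx0
        · rw [Q.ord_div (Units.ne_zero _) hx0]
          have h4 := hmin (Sum.inl i) b₀
          have h5 := hordr (s (Sum.inl i))
          omega
      · exact KLoc_le (Algebra.subset_adjoin ⟨j, ⟨hjl, hji⟩, r, rfl⟩)
  intro y hy
  obtain ⟨a, ha, b, hb, hb0, hbQ, rfl⟩ := hs2 y hy
  rw [div_eq_mul_inv]
  exact mul_mem (hgen ha) (KLoc_inv (hgen hb) hb0 hbQ)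

end Pool.Agent.LibGMW
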