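import Pool.Agent.LibGMW.PreHyp
import Pool.Agent.LibGMW.DetC
import Pool.Agent.LibGMW.KLoc

/-! The canonical class of `X_l`. -/

open scoped Classical

namespace Pool.Agent.LibGMW

open Pool.Agent.LibGMM MvPolynomial

section sub

variable {J : Type} [Fintype J] {m : J → ℕ} (S : Set J)

/-- The indices of the groups of variables in `S`. -/
abbrev subDim (m : J → ℕ) (S : Set J) : S → ℕ := fun j => m j.1

/-- The inclusion of the variables. -/
def subIdx (S : Set J) (v : Σ j : S, Fin (subDim m S j + 1)) : Σ j, Fin (m j + 1) :=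
  ⟨v.1.1, v.2⟩

theorem subIdx_injective : Function.Injective (subIdx (m := m) S) := by
  rintro ⟨⟨j, hj⟩, s⟩ ⟨⟨j', hj'⟩, s'⟩ h
  simp only [subIdx, Sigma.mk.injEq] at h
  obtain ⟨h1, h2⟩ := h
  subst h1
  rw [heq_eq_eq] at h2
  subst h2
  rfl

/-- Polynomials in the variables of the groups in `S` as polynomials in all variables. -/
noncomputable def subUp : MvPolynomial (Σ j : S, Fin (subDim m S j + 1)) ℂ →ₐ[ℂ]
    MvPolynomial (Σ j, Fin (m j + 1)) ℂ := rename (subIdx S)

/-- The variables not in `S` are put equal to `1`. -/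
noncomputable def subDown : MvPolynomial (Σ j, Fin (m j + 1)) ℂ →ₐ[ℂ]
    MvPolynomial (Σ j : S, Fin (subDim m S j + 1)) ℂ :=
  aeval fun v => if h : v.1 ∈ S then X ⟨⟨v.1, h⟩, v.2⟩ else 1

theorem subDown_subUp (G : MvPolynomial (Σ j : S, Fin (subDim m S j + 1)) ℂ) :
    subDown S (subUp S G) = G := by
  have h : (subDown S).comp (subUp S) =
      AlgHom.id ℂ (MvPolynomial (Σ j : S, Fin (subDim m S j + 1)) ℂ) := by
    apply MvPolynomial.algHom_ext
    rintro ⟨⟨j, hj⟩, s⟩
    simp [subUp, subDown, subIdx, hj]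
  exact congrArg (fun f => f G) h

theorem subUp_subDown (G : MvPolynomial (Σ j, Fin (m j + 1)) ℂ) (e : J → ℕ) (hG : MultiHom G e)
    (he : ∀ j, j ∉ S → e j = 0) : subUp S (subDown S G) = G := by
  have h1 : subUp S (subDown S G) =
      aeval (fun v : Σ j, Fin (m j + 1) =>
        if v.1 ∈ S then (X v : MvPolynomial (Σ j, Fin (m j + 1)) ℂ) else 1) G := by
    have h : (subUp S).comp (subDown S) =
        (aeval (fun v : Σ j, Fin (m j + 1) =>
        if v.1 ∈ S then (X v : MvPolynomial (Σ j, Fin (m j + 1)) ℂ) else 1) :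
        MvPolynomial (Σ j, Fin (m j + 1)) ℂ →ₐ[ℂ] _) := by
      apply MvPolynomial.algHom_ext
      rintro ⟨j, s⟩
      by_cases hj : j ∈ S
      · simp [subUp, subDown, subIdx, hj]
      · simp [subUp, subDown, hj]
    exact congrArg (fun f => f G) h
  rw [h1, aeval_congr G e hG _ X, aeval_X_left_apply]
  intro v hv
  have : v.1 ∈ S := by
    by_contra h
    exact hv (he _ h)
  rw [if_pos this]

theorem subDown_multiHom (G : MvPolynomial (Σ j, Fin (m j + 1)) ℂ) (e : J → ℕ)
    (hG : MultiHom G e) (he : ∀ j, j ∉ S → e j = 0) :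
    MultiHom (m := subDim m S) (subDown S G) (fun j => e j.1) := by
  intro c hc j
  have h1 : (subUp S (subDown S G)).support =
      Finset.image (Finsupp.mapDomain (subIdx S)) (subDown S G).support :=
    support_rename_of_injective (subIdx_injective S)
  rw [subUp_subDown S G e hG he] at h1
  have h2 : Finsupp.mapDomain (subIdx S) c ∈ G.support := by
    rw [h1]
    exact Finset.mem_image_of_mem _ hc
  refine Eq.trans ?_ (hG _ h2 j.1)
  refine Finset.sum_congr rfl fun s _ => ?_
  exact (Finsupp.mapDomain_apply (subIdx_injective S) c ⟨j, s⟩).symm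

theorem subUp_multiHom (G : MvPolynomial (Σ j : S, Fin (subDim m S j + 1)) ℂ) (e : S → ℕ)
    (hG : MultiHom (m := subDim m S) G e) :
    MultiHom (subUp S G) (fun j => if h : j ∈ S then e ⟨j, h⟩ else 0) := by
  intro c hc j
  have h1 : (subUp S G).support = Finset.image (Finsupp.mapDomain (subIdx S)) G.support :=
    support_rename_of_injective (subIdx_injective S)
  rw [h1, Finset.mem_image] at hc
  obtain ⟨c', hc', rfl⟩ := hc
  by_cases hj : j ∈ S
  · have h5 : (fun j => if h : j ∈ S then e ⟨j, h⟩ else 0 : J → ℕ) j = e ⟨j, hj⟩ := dif_pos hj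
    rw [h5, ← hG c' hc' ⟨j, hj⟩]
    refine Finset.sum_congr rfl fun s _ => ?_
    exact Finsupp.mapDomain_apply (subIdx_injective S) c' ⟨⟨j, hj⟩, s⟩
  · refine Eq.trans ?_ (dif_neg hj).symm
    refine Finset.sum_eq_zero fun s _ => ?_
    apply Finsupp.mapDomain_of_notMem_range
    rintro ⟨⟨⟨j', hj'⟩, s'⟩, h⟩
    simp only [subIdx, Sigma.mk.injEq] at h
    exact hj (h.1 ▸ hj')

end sub

variable {P R : Type} [Fintype P] [Fintype R] {n : ℕ} {m e : R → ℕ}
  {K : Type} [Field K] [Algebra ℂ K] {T : FormTensor P n m e} {l i : P}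

theorem Multilin.aeval_subUp (D : Multilin K T l) (S : Set (P ⊕ R))
    (G : MvPolynomial (Σ j : S, Fin (subDim (dims n m) S j + 1)) ℂ) :
    aeval (fun v : Σ j, Fin (dims n m j + 1) => (D.x v.1 v.2 : K)) (subUp S G) =
      aeval (fun v : Σ j : S, Fin (subDim (dims n m) S j + 1) => (D.x v.1.1 v.2 : K)) G := by
  unfold subUp
  rw [aeval_rename]
  rfl

theorem Multilin.det_ne (D : Multilin K T l) (h : l ≠ i) : (D.mat i).det = 0 := by
  refine det_eq_zero (D.mat i) (fun b => (D.x (Sum.inl i) b : K)) ?_ (D.mat_mulVec h)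
  intro h0
  exact (D.x (Sum.inl i) (0 : Fin (n + 1))).ne_zero (congrFun h0 (0 : Fin (n + 1)))

/-- The chart of the hypersurface `det M = 0`. -/
theorem Multilin.chart_sub (D : Multilin K T l) (S : Set (P ⊕ R))
    (s : (j : P ⊕ R) → Fin (dims n m j + 1)) :
    chart (segre (m := subDim (dims n m) S) fun (j : S) r => D.x j.1 r) (fun j => s j.1) =
      D.proj S s := by
  apply le_antisymm
  · refine Algebra.adjoin_le ?_
    rintro _ ⟨t, rfl⟩
    have h1 : ((segre (m := subDim (dims n m) S) (fun (j : S) r => D.x j.1 r) t : Kˣ) : K) /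
        (segre (m := subDim (dims n m) S) (fun (j : S) r => D.x j.1 r) (fun j => s j.1) : Kˣ) =
        ∏ j : S, (D.x j.1 (t j) : K) / D.x j.1 (s j.1) := by
      unfold segre
      push_cast
      rw [Finset.prod_div_distrib]
    simp only
    rw [h1]
    exact Subalgebra.prod_mem _ fun j _ => Algebra.subset_adjoin ⟨j.1, j.2, t j, rfl⟩
  · refine Algebra.adjoin_le ?_
    rintro _ ⟨j, hj, r, rfl⟩
    refine Algebra.subset_adjoin ⟨Function.update (fun j : S => s j.1) ⟨j, hj⟩ r, ?_⟩
    have h1 : ((segre (m := subDim (dims n m) S) (fun (j : S) r => D.x j.1 r)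
        (Function.update (fun j : S => s j.1) ⟨j, hj⟩ r) : Kˣ) : K) /
        (segre (m := subDim (dims n m) S) (fun (j : S) r => D.x j.1 r) (fun j => s j.1) : Kˣ) =
        ∏ j' : S, (D.x j'.1 (Function.update (fun j : S => s j.1) ⟨j, hj⟩ r j') : K) /
          D.x j'.1 (s j'.1) := by
      unfold segre
      push_cast
      rw [Finset.prod_div_distrib]
    simp only
    rw [h1, ← Finset.mul_prod_erase Finset.univ _ (Finset.mem_univ (⟨j, hj⟩ : S)),
      Function.update_self, Finset.prod_eq_one, mul_one]
    intro j' hj'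
    rw [Function.update_of_ne (Finset.ne_of_mem_erase hj')]
    exact div_self (Units.ne_zero _)

/-- The hypersurface `det M = 0` in the product of the factors with labels `j ≠ l, i`. -/
noncomputable def Multilin.preHyp (D : Multilin K T l) (h : l ≠ i)
    (hdims : ∀ j, 1 ≤ dims (P := P) n m j) (hdet : (matP T l i).det ≠ 0)
    (hadj : ∃ a b, (D.mat i).adjugate a b ≠ 0) :
    PreHyp K (J := others (P := P) (R := R) l i) (subDim (dims n m) (others l i))
      (fun j => (n + 1) * degs e j.1) where
  x := fun j r => D.x j.1 r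
  F := subDown (others l i) (matP T l i).det
  F_ne := by
    intro h0
    apply hdet
    have hout : ∀ j, j ∉ others (P := P) (R := R) l i → degLI e l i (n + 1) j = 0 := by
      intro j hj
      simp only [others, Set.mem_ofPred_eq, not_and_or, not_not] at hj
      simp only [degLI, hj, if_true]
    rw [← subUp_subDown (others l i) _ _ (det_multiHom T l i) hout, h0, map_zero]
  homog := by
    have hout : ∀ j, j ∉ others (P := P) (R := R) l i → degLI e l i (n + 1) j = 0 := by
      intro j hj
      simp only [others, Set.mem_ofPred_eq, not_and_or, not_not] at hj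
      simp only [degLI, hj, if_true]
    have h1 := subDown_multiHom (others l i) _ _ (det_multiHom T l i) hout
    have h2 : (fun j : others (P := P) (R := R) l i => degLI e l i (n + 1) j.1) =
        fun j => (n + 1) * degs e j.1 := by
      funext j
      have hj := j.2
      simp only [others, Set.mem_ofPred_eq] at hj
      simp only [degLI, hj.1, hj.2, or_self, if_false]
    rw [h2] at h1
    exact h1
  vanish := by
    have hout : ∀ j, j ∉ others (P := P) (R := R) l i → degLI e l i (n + 1) j = 0 := by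
      intro j hj
      simp only [others, Set.mem_ofPred_eq, not_and_or, not_not] at hj
      simp only [degLI, hj, if_true]
    have h1 := D.aeval_subUp (others l i) (subDown (others l i) (matP T l i).det)
    rw [subUp_subDown (others l i) _ _ (det_multiHom T l i) hout, ← D.mat_det i, D.det_ne h] at h1
    exact h1.symm
  minimal := by
    intro G e hG h0
    have h1 := D.aeval_subUp (others l i) G
    have h2 := D.det_dvd h hdims hdet hadj (subUp (others l i) G) _
      (subUp_multiHom (others l i) G e hG) (by simp [others]) (by simp [others]) (h1.trans h0)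
    obtain ⟨Q, hQ⟩ := h2
    refine ⟨subDown (others l i) Q, ?_⟩
    rw [← map_mul, ← hQ, subDown_subUp]
  frac := by
    intro s y
    have h1 := D.chart_sub (others l i) (fun j => if hj : j ∈ others l i then s ⟨j, hj⟩ else 0)
    have h2 : (fun j : others (P := P) (R := R) l i =>
        (if hj : j.1 ∈ others l i then s ⟨j.1, hj⟩ else 0 : Fin (dims n m j.1 + 1))) = s := by
      funext j
      rw [dif_pos j.2]
    rw [h2] at h1
    have h3 := D.frac_proj h hadj (fun j => if hj : j ∈ others l i then s ⟨j, hj⟩ else 0) y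
    rw [← h1] at h3
    exact h3

/-- The canonical class: `K_X = ∑ ((n + 1) d j - dim j - 1) H j`, the sum over all `j ≠ l, i`. -/
theorem Multilin.canonical_class (D : Multilin K T l) (h : l ≠ i)
    (hdims : ∀ j, 1 ≤ dims (P := P) n m j) (hdet : (matP T l i).det ≠ 0) (hs : D.Small i)
    (he : ∀ r, 1 ≤ e r) (ω : TopForm K) (hω : ω ≠ 0) :
    ∃ u : Kˣ, ∀ Q, D.model.IsPrimeDiv Q →
      (canOrd Q ω : ℝ) = ∑ j ∈ (Finset.univ.erase (Sum.inl l)).erase (Sum.inl i),
        (((n : ℝ) + 1) * degs e j - dims n m j - 1) * D.hyp j Q + Q.ord u := by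
  obtain ⟨u, hu⟩ := (D.preHyp h hdims hdet hs.1).canonical_class (fun j => by
      have h1 : 1 ≤ degs e j.1 := by
        rcases j with ⟨p | r, _⟩
        · exact le_rfl
        · exact he r
      exact Nat.mul_pos (Nat.succ_pos n) h1) ω hω
  refine ⟨u, fun Q hQ => ?_⟩
  obtain ⟨s, hs1, hs2⟩ := D.exists_isLocal' h hs Q hQ
  have h1 := D.chart_sub (others l i) s
  have h2 := hu Q (fun j => s j.1) (by
      change chart (segre (m := subDim (dims n m) (others l i))
        fun (j : others (P := P) (R := R) l i) r => D.x j.1 r) (fun j => s j.1) ≤ _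
      rw [h1]; exact hs2.1) (by
      intro x hx
      change ∃ a ∈ chart (segre (m := subDim (dims n m) (others l i))
        fun (j : others (P := P) (R := R) l i) r => D.x j.1 r) (fun j => s j.1), ∃ b ∈
        chart (segre (m := subDim (dims n m) (others l i))
        fun (j : others (P := P) (R := R) l i) r => D.x j.1 r) (fun j => s j.1), _
      rw [h1]; exact hs2.2 x hx)
  rw [h2]
  congr 1
  have h3 : (Finset.univ.erase (Sum.inl l)).erase (Sum.inl i) =
      Finset.univ.filter fun j : P ⊕ R => j ∈ others l i := by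
    ext j
    simp [others, and_comm]
  have h4 : ∑ j ∈ (Finset.univ.erase (Sum.inl l)).erase (Sum.inl i),
      (((n : ℝ) + 1) * degs e j - dims n m j - 1) * D.hyp j Q =
      ∑ j : others (P := P) (R := R) l i,
        (((n : ℝ) + 1) * degs e j.1 - dims n m j.1 - 1) * D.hyp j.1 Q := by
    rw [h3, Finset.sum_subtype (p := fun j => j ∈ others l i) _ (by simp)
      (fun j => (((n : ℝ) + 1) * degs e j - dims n m j - 1) * D.hyp j Q)]
  rw [h4]
  refine Finset.sum_congr rfl fun j _ => ?_
  rw [D.hyp_eq j.1 Q (s j.1) (hs1 j.1)]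
  push_cast
  congr 1

end Pool.Agent.LibGMW
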