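import Pool.Agent.LibGMW.Mat
import Pool.Agent.LibGMM.Api

/-! Flops: compatible identifications of the function fields of `X_l` and `X_i`. -/

open scoped Classical

namespace Pool.Agent.LibGMW

open Pool.Agent.LibGMM MvPolynomial

variable {P R : Type} [Fintype P] [Fintype R] {n : ℕ} {m e : R → ℕ}
  {K : Type} [Field K] [Algebra ℂ K] {T : FormTensor P n m e} {l i : P}

/-- The automorphism `σ` of `K` identifies the coordinates of `X_i` with those of `X_l` for all
labels `j ≠ l, i`, and the coordinates with label `l` of `X_i` with a vector in the left kernel of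
the matrix `M`. -/
structure Compat (D : Multilin K T l) (D' : Multilin K T i) (σ : K ≃ₐ[ℂ] K) : Prop where
  coord : ∀ j, j ≠ Sum.inl l → j ≠ Sum.inl i →
    ∃ u : Kˣ, ∀ s, σ (D'.x j s : K) = u * (D.x j s : K)
  ker : ∀ b, ∑ a : Fin (n + 1), σ (D'.x (Sum.inl l) a : K) * D.mat i a b = 0

/-- The action of the flop `X_l ⇢ X_i` on the coordinates of classes. -/
noncomputable def flip {P R A : Type} [CommRing A] (n : ℕ) (e : R → ℕ) (l i : P) (b : P ⊕ R → A) :
    P ⊕ R → A :=
  fun j => if j = Sum.inl l then - b (Sum.inl i) else if j = Sum.inl i then 0 else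
    b j + ((n * degs e j : ℕ) : A) * b (Sum.inl i)

end Pool.Agent.LibGMW
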