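import Mathlib

/-! TASK LIN: the adjugate of a square matrix of corank one. -/

namespace Pool.Agent.LibGMW

variable {K : Type} [Field K] {N : ℕ}

/-- If an entry `adj b0 a0` of the adjugate of `M` is not zero, a vector in the kernel of `M` with
`v b0 = 0` is zero. (The matrix `M.updateRow a0 (Pi.single b0 1)` has determinant `adj b0 a0`, see
`Matrix.adjugate_apply`, and kills `v`; `Matrix.eq_zero_of_mulVec_eq_zero`.) -/
theorem ker_eq_zero (M : Matrix (Fin (N + 1)) (Fin (N + 1)) K) (a0 b0 : Fin (N + 1))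
    (h : M.adjugate b0 a0 ≠ 0) (v : Fin (N + 1) → K) (hv : ∀ a, ∑ b, M a b * v b = 0)
    (h0 : v b0 = 0) : v = 0 := by
  rw [Matrix.adjugate_apply] at h
  apply Matrix.eq_zero_of_mulVec_eq_zero h
  funext a
  rw [Matrix.mulVec, dotProduct, Pi.zero_apply]
  by_cases ha : a = a0
  · subst ha
    rw [Finset.sum_eq_single b0]
    · rw [h0, mul_zero]
    · intro b _ hb
      rw [Matrix.updateRow_self, Pi.single_eq_of_ne hb, zero_mul]
    · intro hb
      exact absurd (Finset.mem_univ _) hb
  · rw [← hv a]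
    apply Finset.sum_congr rfl
    intro b _
    rw [Matrix.updateRow_ne ha]

/-- Two vectors in the kernel are proportional. -/
theorem ker_prop (M : Matrix (Fin (N + 1)) (Fin (N + 1)) K) (a0 b0 : Fin (N + 1))
    (h : M.adjugate b0 a0 ≠ 0) (v x : Fin (N + 1) → K) (hv : ∀ a, ∑ b, M a b * v b = 0)
    (hx : ∀ a, ∑ b, M a b * x b = 0) (b : Fin (N + 1)) : v b * x b0 = v b0 * x b := by
  have h1 := ker_eq_zero M a0 b0 h (fun b => v b * x b0 - v b0 * x b) (fun a => by
    have h2 : ∑ b, M a b * (v b * x b0 - v b0 * x b) =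
        (∑ b, M a b * v b) * x b0 - v b0 * ∑ b, M a b * x b := by
      rw [Finset.sum_mul, Finset.mul_sum, ← Finset.sum_sub_distrib]
      apply Finset.sum_congr rfl
      intro b _
      ring
    rw [h2, hv a, hx a]
    ring) (by ring)
  have h2 := congrFun h1 b
  simp only [Pi.zero_apply] at h2
  exact sub_eq_zero.1 h2

/-- The same for the left kernel. -/
theorem coker_prop (M : Matrix (Fin (N + 1)) (Fin (N + 1)) K) (a0 b0 : Fin (N + 1))
    (h : M.adjugate b0 a0 ≠ 0) (v z : Fin (N + 1) → K) (hv : ∀ b, ∑ a, v a * M a b = 0)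
    (hz : ∀ b, ∑ a, z a * M a b = 0) (a : Fin (N + 1)) : v a * z a0 = v a0 * z a := by
  apply ker_prop M.transpose b0 a0 _ v z
  · intro b
    rw [← hv b]
    apply Finset.sum_congr rfl
    intro a _
    rw [Matrix.transpose_apply, mul_comm]
  · intro b
    rw [← hz b]
    apply Finset.sum_congr rfl
    intro a _
    rw [Matrix.transpose_apply, mul_comm]
  · rw [← Matrix.adjugate_transpose, Matrix.transpose_apply]
    exact h

/-- The determinant is zero as soon as the kernel is not. -/
theorem det_eq_zero (M : Matrix (Fin (N + 1)) (Fin (N + 1)) K) (x : Fin (N + 1) → K)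
    (hx0 : x ≠ 0) (hx : ∀ a, ∑ b, M a b * x b = 0) : M.det = 0 := by
  apply Matrix.exists_mulVec_eq_zero_iff.1
  exact ⟨x, hx0, funext fun a => hx a⟩

/-- The adjugate of a matrix with one dimensional kernel spanned by `x` and one dimensional left
kernel spanned by `z` is a multiple of the matrix `x b * z a`. -/
theorem adjugate_eq (M : Matrix (Fin (N + 1)) (Fin (N + 1)) K) (x z : Fin (N + 1) → K)
    (hx0 : ∀ b, x b ≠ 0) (hz0 : ∀ a, z a ≠ 0) (hx : ∀ a, ∑ b, M a b * x b = 0)
    (hz : ∀ b, ∑ a, z a * M a b = 0) (hadj : ∃ b a, M.adjugate b a ≠ 0) :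
    ∃ c : K, c ≠ 0 ∧ ∀ b a, M.adjugate b a = c * (x b * z a) := by
  obtain ⟨b1, a1, h1⟩ := hadj
  have hdet : M.det = 0 := det_eq_zero M x (fun h => hx0 0 (congrFun h 0)) hx
  have hker : ∀ a a', ∑ b, M a b * M.adjugate b a' = 0 := by
    intro a a'
    have h2 := congrFun (congrFun (Matrix.mul_adjugate M) a) a'
    rw [hdet, zero_smul, Matrix.mul_apply, Matrix.zero_apply] at h2
    exact h2
  have hcok : ∀ b b', ∑ a, M.adjugate b' a * M a b = 0 := by
    intro b b'
    have h2 := congrFun (congrFun (Matrix.adjugate_mul M) b') b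
    rw [hdet, zero_smul, Matrix.mul_apply, Matrix.zero_apply] at h2
    exact h2
  have e1 : ∀ b a, M.adjugate b a * x b1 = M.adjugate b1 a * x b := fun b a =>
    ker_prop M a1 b1 h1 (fun b => M.adjugate b a) x (fun a' => hker a' a) hx b
  have e2 : ∀ b a, M.adjugate b a * z a1 = M.adjugate b a1 * z a := fun b a =>
    coker_prop M a1 b1 h1 (fun a => M.adjugate b a) z (fun b' => hcok b' b) hz a
  refine ⟨M.adjugate b1 a1 / (x b1 * z a1), div_ne_zero h1 (mul_ne_zero (hx0 _) (hz0 _)), ?_⟩
  intro b a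
  have h3 := e1 b a
  have h4 := e2 b1 a
  have hxb := hx0 b1
  have hza := hz0 a1
  field_simp
  calc M.adjugate b a * x b1 * z a1 = (M.adjugate b a * x b1) * z a1 := rfl
    _ = (M.adjugate b1 a * x b) * z a1 := by rw [h3]
    _ = (M.adjugate b1 a * z a1) * x b := by ring
    _ = (M.adjugate b1 a1 * z a) * x b := by rw [h4]
    _ = _ := by ring

end Pool.Agent.LibGMW
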