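import Pool.Agent.LibGMW.EmbApi
import Pool.Agent.LibGMM.CanChart

/-! TASK LOC: prime divisors and charts. -/

open scoped Classical

namespace Pool.Agent.LibGMW

open Pool.Agent.LibGMM MvPolynomial

variable {K : Type} [Field K] [Algebra ℂ K] {J : Type} [Fintype J] {m : J → ℕ}

/-- The ring of `Q` is the localization of `A` at the centre of `Q`. -/
def IsLocal (A : Subalgebra ℂ K) (Q : DVal K) : Prop :=
  A ≤ Q.ring ∧ ∀ y, 0 ≤ Q.ord y → ∃ a ∈ A, ∃ b ∈ A, b ≠ 0 ∧ Q.ord b = 0 ∧ y = a / b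

namespace Emb

/-- The coordinate ring of the `s`-th affine chart of the image of the projection to the product of
the factors in `S`. -/
def proj (E : Emb K m) (S : Set J) (s : (j : J) → Fin (m j + 1)) : Subalgebra ℂ K :=
  Algebra.adjoin ℂ {y | ∃ j ∈ S, ∃ r, y = (E.x j r : K) / E.x j (s j)}

variable (E : Emb K m)

private theorem Loc_segre_div (s t : (j : J) → Fin (m j + 1)) :
    (segre E.x t : K) / segre E.x s = ∏ j, (E.x j (t j) : K) / E.x j (s j) := by
  unfold segre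
  push_cast
  rw [Finset.prod_div_distrib]

private theorem Loc_mem (S : Set J) (s : (j : J) → Fin (m j + 1)) (j : J) (hj : j ∈ S)
    (r : Fin (m j + 1)) : (E.x j r : K) / E.x j (s j) ∈ E.proj S s :=
  Algebra.subset_adjoin ⟨j, hj, r, rfl⟩

/-- Same proof as `Hypersurface.chart_eq` (LibGMM/CanChart). -/
theorem chart_eq_proj (s : (j : J) → Fin (m j + 1)) :
    chart (segre E.x) s = E.proj Set.univ s := by
  apply le_antisymm
  · refine Algebra.adjoin_le ?_
    rintro _ ⟨t, rfl⟩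
    simp only
    rw [Loc_segre_div E s t]
    exact Subalgebra.prod_mem _ fun j _ => Loc_mem E _ s j (Set.mem_univ j) (t j)
  · refine Algebra.adjoin_le ?_
    rintro _ ⟨j, -, r, rfl⟩
    refine Algebra.subset_adjoin ⟨Function.update s j r, ?_⟩
    simp only
    rw [Loc_segre_div E s, ← Finset.mul_prod_erase Finset.univ _ (Finset.mem_univ j)]
    rw [Function.update_self, Finset.prod_eq_one, mul_one]
    intro i hi
    rw [Function.update_of_ne (Finset.ne_of_mem_erase hi)]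
    exact div_self (Units.ne_zero _)

theorem exists_isLocal (Q : DVal K) (hQ : E.model.IsPrimeDiv Q) :
    ∃ s, IsLocal (E.proj Set.univ s) Q := by
  obtain ⟨p, hc, hp⟩ := hQ
  have hch : chart (segre E.x) (show (j : J) → Fin (m j + 1) from p.i) =
      E.proj Set.univ (show (j : J) → Fin (m j + 1) from p.i) := E.chart_eq_proj _
  refine ⟨p.i, ?_, ?_⟩
  · intro a ha
    have ha' : a ∈ chart E.model.g p.i := hch.ge ha
    exact (hc ⟨a, ha'⟩).1
  · intro y hy
    obtain ⟨a, b, hb, hab⟩ := hp y hy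
    have h1 := hc b
    have h2 : ¬ (b = 0 ∨ 0 < Q.ord b) := fun h => hb (h1.2.2 h)
    push Not at h2
    exact ⟨a, hch.le a.2, b, hch.le b.2, fun h => h2.1 (Subtype.ext h), le_antisymm h2.2 h1.1, hab⟩

/-- Use `NormalModel.exists_centre'` (LibGMM/G5). -/
theorem isPrimeDiv_of_isLocal (Q : DVal K) (s : (j : J) → Fin (m j + 1))
    (h : IsLocal (E.proj Set.univ s) Q) : E.model.IsPrimeDiv Q := by
  rw [← chart_eq_proj] at h
  obtain ⟨h1, h2⟩ := h
  obtain ⟨p, hp, hc⟩ := E.model.exists_centre' Q s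
    (fun t => h1 (Algebra.subset_adjoin ⟨t, rfl⟩))
  refine ⟨p, hc, fun y hy => ?_⟩
  obtain ⟨a, ha, b, hb, hb0, hbo, hab⟩ := h2 y hy
  subst hp
  refine ⟨⟨a, ha⟩, ⟨b, hb⟩, ?_, hab⟩
  intro hbP
  rcases (hc ⟨b, hb⟩).2.1 hbP with h3 | h3
  · exact hb0 (congrArg Subtype.val h3)
  · exact absurd h3 (by simp [hbo])

theorem hyp_eq (j : J) (Q : DVal K) (s : Fin (m j + 1))
    (h : ∀ r, Q.ord (E.x j s : K) ≤ Q.ord (E.x j r : K)) : E.hyp j Q = - (Q.ord (E.x j s : K) : ℝ) := by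
  unfold hyp
  congr 1
  exact le_antisymm (ciInf_le (E.bdd j Q) s) (le_ciInf fun r => by exact_mod_cast h r)

theorem ord_le_of_proj_le (Q : DVal K) (S : Set J) (s : (j : J) → Fin (m j + 1))
    (h : E.proj S s ≤ Q.ring) (j : J) (hj : j ∈ S) (r : Fin (m j + 1)) :
    Q.ord (E.x j (s j) : K) ≤ Q.ord (E.x j r : K) := by
  have h1 : 0 ≤ Q.ord ((E.x j r : K) / E.x j (s j)) := h (Loc_mem E S s j hj r)
  rw [Q.ord_div (Units.ne_zero _) (Units.ne_zero _)] at h1
  omega

theorem proj_le (Q : DVal K) (S : Set J) (s : (j : J) → Fin (m j + 1))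
    (h : ∀ j ∈ S, ∀ r, Q.ord (E.x j (s j) : K) ≤ Q.ord (E.x j r : K)) : E.proj S s ≤ Q.ring := by
  refine Algebra.adjoin_le ?_
  rintro _ ⟨j, hj, r, rfl⟩
  change 0 ≤ Q.ord ((E.x j r : K) / E.x j (s j))
  rw [Q.ord_div (Units.ne_zero _) (Units.ne_zero _)]
  have := h j hj r
  omega

/-- The value of a multihomogeneous polynomial at `x` is its value at the affine coordinates times a
monomial (see `aeval_scale` in LibGMM/H1, `Hypersurface.aeval_multiHom` in LibGMM/CanDer); the latter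
value lies in `E.proj S s` if the polynomial involves only the groups of variables in `S`. -/
theorem aeval_multiHom (S : Set J) (s : (j : J) → Fin (m j + 1))
    (G : MvPolynomial (Σ j, Fin (m j + 1)) ℂ) (e : J → ℕ) (hG : MultiHom G e)
    (he : ∀ j, j ∉ S → e j = 0) :
    ∃ y ∈ E.proj S s, aeval (fun v : Σ j, Fin (m j + 1) => (E.x v.1 v.2 : K)) G =
      (∏ j, (E.x j (s j) : K) ^ e j) * y := by
  set aff : (Σ j, Fin (m j + 1)) → K := fun v => (E.x v.1 v.2 : K) / E.x v.1 (s v.1) with haff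
  refine ⟨aeval aff G, ?_, ?_⟩
  · rw [G.as_sum, map_sum]
    refine Subalgebra.sum_mem _ fun c hc => ?_
    rw [aeval_monomial]
    refine Subalgebra.mul_mem _ (Subalgebra.algebraMap_mem _ _) ?_
    refine Subalgebra.prod_mem _ fun v hv => Subalgebra.pow_mem _ ?_ _
    refine Loc_mem E S s v.1 ?_ v.2
    by_contra hS
    have h1 := hG c hc v.1
    rw [he v.1 hS, Finset.sum_eq_zero_iff] at h1
    exact (Finsupp.mem_support_iff.1 hv) (h1 v.2 (Finset.mem_univ _))
  · conv_lhs => rw [G.as_sum, map_sum]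
    conv_rhs => rw [G.as_sum, map_sum, Finset.mul_sum]
    refine Finset.sum_congr rfl fun c hc => ?_
    rw [aeval_monomial, aeval_monomial, prod_sigma_pow, prod_sigma_pow,
      mul_left_comm, ← Finset.prod_mul_distrib]
    congr 1
    refine Finset.prod_congr rfl fun j _ => ?_
    have h2 : ∏ r, aff ⟨j, r⟩ ^ c ⟨j, r⟩ =
        (∏ r, (E.x j r : K) ^ c ⟨j, r⟩) / (E.x j (s j) : K) ^ (∑ r, c ⟨j, r⟩) := by
      simp only [haff, div_pow, Finset.prod_div_distrib, Finset.prod_pow_eq_pow_sum]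
    rw [h2, hG c hc j]
    have h4 : (E.x j (s j) : K) ^ (e j) ≠ 0 := pow_ne_zero _ (Units.ne_zero _)
    field_simp

/-- The order of the value of a multihomogeneous polynomial. -/
theorem ord_multiHom_ge (G : MvPolynomial (Σ j, Fin (m j + 1)) ℂ) (e : J → ℕ) (hG : MultiHom G e)
    (h0 : aeval (fun v : Σ j, Fin (m j + 1) => (E.x v.1 v.2 : K)) G ≠ 0) (Q : DVal K) :
    - ∑ j, (e j : ℝ) * E.hyp j Q ≤
      (Q.ord (aeval (fun v : Σ j, Fin (m j + 1) => (E.x v.1 v.2 : K)) G) : ℝ) := by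
  choose s hs using fun j => E.exists_hyp_eq j Q
  obtain ⟨y, hy, hyG⟩ := E.aeval_multiHom Set.univ s G e hG (fun j hj => absurd (Set.mem_univ j) hj)
  have hle : E.proj Set.univ s ≤ Q.ring := by
    refine E.proj_le Q _ s fun j _ r => ?_
    have h1 := E.neg_hyp_le j r Q
    rw [hs j, neg_neg] at h1
    exact_mod_cast h1
  have hy0 : y ≠ 0 := by
    rintro rfl
    rw [mul_zero] at hyG
    exact h0 hyG
  have hprod : (∏ j, (E.x j (s j) : K) ^ e j) ≠ 0 :=
    Finset.prod_ne_zero_iff.2 fun j _ => pow_ne_zero _ (Units.ne_zero _)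
  have hyo : 0 ≤ Q.ord y := hle hy
  rw [hyG, Q.ord_mul _ _ hprod hy0, Q.ord_prod _ _ (fun j _ => pow_ne_zero _ (Units.ne_zero _))]
  push_cast
  have h2 : ∑ j, ((Q.ord ((E.x j (s j) : K) ^ e j) : ℤ) : ℝ) = - ∑ j, (e j : ℝ) * E.hyp j Q := by
    rw [← Finset.sum_neg_distrib]
    refine Finset.sum_congr rfl fun j _ => ?_
    rw [Q.ord_pow, hs j]
    push_cast
    ring
  rw [h2]
  have h3 : (0 : ℝ) ≤ (Q.ord y : ℝ) := by exact_mod_cast hyo
  linarith

end Emb

end Pool.Agent.LibGMW
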