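import Pool.Agent.LibGMW.Compat
import Pool.Agent.LibGMW.Lin
import Pool.Agent.LibGMW.Loc
import Pool.Agent.LibGMM.G9

/-! TASK COMPATCLS: the transformation of classes under a flop. -/

open scoped Classical

namespace Pool.Agent.LibGMW

open Pool.Agent.LibGMM MvPolynomial

variable {P R : Type} [Fintype P] [Fintype R] {n : ℕ} {m e : R → ℕ}
  {K : Type} [Field K] [Algebra ℂ K] {T : FormTensor P n m e} {l i : P}

private theorem CompatCls_split (h : l ≠ i) (f : P ⊕ R → ℝ) :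
    ∑ j, f j = f (Sum.inl l) + (f (Sum.inl i) +
      ∑ j ∈ (Finset.univ.erase (Sum.inl l)).erase (Sum.inl i), f j) := by
  have h1 : (Sum.inl i : P ⊕ R) ∈ (Finset.univ.erase (Sum.inl l) : Finset (P ⊕ R)) := by
    refine Finset.mem_erase.2 ⟨?_, Finset.mem_univ _⟩
    intro h2
    exact h (Sum.inl_injective h2).symm
  rw [Finset.add_sum_erase _ f h1, Finset.add_sum_erase _ f (Finset.mem_univ (Sum.inl l))]

/-- minimum of a sum of two independent terms -/
private theorem CompatCls_min {N : ℕ} (f g : Fin (N + 1) → ℝ) (c v : ℝ)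
    (h1 : ∀ b a, v ≤ c + f b + g a) (h2 : ∃ b a, c + f b + g a = v) :
    c + (⨅ b, f b) + (⨅ a, g a) = v := by
  obtain ⟨b1, hb1⟩ := exists_eq_ciInf_of_finite (f := f)
  obtain ⟨a1, ha1⟩ := exists_eq_ciInf_of_finite (f := g)
  obtain ⟨b0, a0, h3⟩ := h2
  have h4 : (⨅ b, f b) ≤ f b0 := ciInf_le (Set.finite_range f).bddBelow b0
  have h5 : (⨅ a, g a) ≤ g a0 := ciInf_le (Set.finite_range g).bddBelow a0
  have h6 := h1 b1 a1
  rw [hb1, ha1] at h6
  linarith

private theorem CompatCls_hyp_smul {N : ℕ} (Q : DVal K) (x y : Fin (N + 1) → K) (u : K) (hu : u ≠ 0)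
    (hx : ∀ s, x s ≠ 0) (h : ∀ s, y s = u * x s) :
    - (⨅ s, (Q.ord (y s) : ℝ)) = - (⨅ s, (Q.ord (x s) : ℝ)) + (Q.ord u⁻¹ : ℝ) := by
  obtain ⟨s1, hs1⟩ := exists_eq_ciInf_of_finite (f := fun s => (Q.ord (x s) : ℝ))
  obtain ⟨s2, hs2⟩ := exists_eq_ciInf_of_finite (f := fun s => (Q.ord (y s) : ℝ))
  have h1 : ∀ s, (Q.ord (y s) : ℝ) = (Q.ord u : ℝ) + (Q.ord (x s) : ℝ) := by
    intro s
    rw [h s, Q.ord_mul _ _ hu (hx s)]
    push_cast
    ring
  have h2 : (⨅ s, (Q.ord (x s) : ℝ)) ≤ (Q.ord (x s2) : ℝ) :=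
    ciInf_le (Set.finite_range _).bddBelow s2
  have h3 : (⨅ s, (Q.ord (y s) : ℝ)) ≤ (Q.ord (y s1) : ℝ) :=
    ciInf_le (Set.finite_range _).bddBelow s1
  have h4 := h1 s1
  have h5 := h1 s2
  rw [DVal.ord_inv]
  push_cast
  linarith

/-- The hyperplane classes of `X_i` on `X_l`. For `j ≠ l, i` this is `hc.coord` (with `u j` the
inverse of the given unit). For the label `l`: with `z a = σ (D'.x l a)` the adjugate of `M` is
`c * (x i b * z a)` (`adjugate_eq`), so the minimum of the orders of its entries is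
`ord c - hyp i Q + min_a ord (z a)`, and it is `- ∑ n * hyp j Q` by `D.Small i` and
`Emb.ord_multiHom_ge` with `adj_multiHom`. -/
theorem Compat.exists_hyp {D : Multilin K T l} {D' : Multilin K T i} {σ : K ≃ₐ[ℂ] K} (h : l ≠ i)
    (hc : Compat D D' σ) (hs : D.Small i) : ∃ u : P ⊕ R → Kˣ, ∀ Q, D.model.IsPrimeDiv Q →
      (∀ j, j ≠ Sum.inl l → j ≠ Sum.inl i →
        D'.hyp j (Q.map σ.symm) = D.hyp j Q + (Q.ord (u j : K) : ℝ)) ∧
      D'.hyp (Sum.inl l) (Q.map σ.symm) = - D.hyp (Sum.inl i) Q +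
        ∑ j ∈ (Finset.univ.erase (Sum.inl l)).erase (Sum.inl i), (n * degs e j : ℕ) * D.hyp j Q +
          (Q.ord (u (Sum.inl l) : K) : ℝ) := by
  have hz0 : ∀ a : Fin (n + 1), σ (D'.x (Sum.inl l) a : K) ≠ 0 := fun a =>
    (map_ne_zero σ).2 (D'.x (Sum.inl l) a).ne_zero
  obtain ⟨c, hc0, hadj⟩ := adjugate_eq (D.mat i) (fun b => (D.x (Sum.inl i) b : K))
    (fun a => σ (D'.x (Sum.inl l) a : K)) (fun b => (D.x (Sum.inl i) b).ne_zero) hz0
    (D.mat_mulVec h) hc.ker hs.1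
  let u : P ⊕ R → Kˣ := fun j => if hj : j ≠ Sum.inl l ∧ j ≠ Sum.inl i then
    (hc.coord j hj.1 hj.2).choose⁻¹ else Units.mk0 c hc0
  refine ⟨u, fun Q hQ => ⟨?_, ?_⟩⟩
  · intro j hjl hji
    have hu : u j = (hc.coord j hjl hji).choose⁻¹ := by
      simp only [u]
      rw [dif_pos ⟨hjl, hji⟩]
    have hspec := (hc.coord j hjl hji).choose_spec
    have h1 := CompatCls_hyp_smul Q (fun s => (D.x j s : K)) (fun s => σ (D'.x j s : K))
      ((hc.coord j hjl hji).choose : K) (Units.ne_zero _) (fun s => (D.x j s).ne_zero) hspec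
    rw [hu, Units.val_inv_eq_inv_val]
    exact h1
  · have hu : u (Sum.inl l) = Units.mk0 c hc0 := by
      simp only [u]
      rw [dif_neg (fun hj => hj.1 rfl)]
    rw [hu, Units.val_mk0]
    have hord : ∀ b a : Fin (n + 1), (Q.ord ((D.mat i).adjugate b a) : ℝ) =
        (Q.ord c : ℝ) + (Q.ord (D.x (Sum.inl i) b : K) : ℝ) +
          (Q.ord (σ (D'.x (Sum.inl l) a : K)) : ℝ) := by
      intro b a
      rw [hadj b a, Q.ord_mul _ _ hc0 (mul_ne_zero (D.x (Sum.inl i) b).ne_zero (hz0 a)),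
        Q.ord_mul _ _ (D.x (Sum.inl i) b).ne_zero (hz0 a)]
      push_cast
      ring
    have hsum : ∑ j, (degLI e l i n j : ℝ) * D.hyp j Q =
        ∑ j ∈ (Finset.univ.erase (Sum.inl l)).erase (Sum.inl i), (n * degs e j : ℕ) * D.hyp j Q := by
      rw [CompatCls_split h]
      have e1 : (degLI e l i n (Sum.inl l) : ℝ) = 0 := by
        simp [degLI]
      have e2 : (degLI e l i n (Sum.inl i) : ℝ) = 0 := by
        simp [degLI]
      rw [e1, e2, zero_mul, zero_mul, zero_add, zero_add]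
      refine Finset.sum_congr rfl fun j hj => ?_
      rw [Finset.mem_erase, Finset.mem_erase] at hj
      have e3 : degLI e l i n j = n * degs e j := by
        unfold degLI
        rw [if_neg]
        rintro (h1 | h1)
        · exact hj.2.1 h1
        · exact hj.1 h1
      rw [e3]
    have hge : ∀ b a : Fin (n + 1), - ∑ j ∈ (Finset.univ.erase (Sum.inl l)).erase (Sum.inl i), (n * degs e j : ℕ) * D.hyp j Q ≤
        (Q.ord c : ℝ) + (Q.ord (D.x (Sum.inl i) b : K) : ℝ) +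
          (Q.ord (σ (D'.x (Sum.inl l) a : K)) : ℝ) := by
      intro b a
      have hne : (D.mat i).adjugate b a ≠ 0 := by
        rw [hadj b a]
        exact mul_ne_zero hc0 (mul_ne_zero (D.x (Sum.inl i) b).ne_zero (hz0 a))
      have h1 : - ∑ j, (degLI e l i n j : ℝ) * D.hyp j Q ≤
          (Q.ord ((D.mat i).adjugate b a) : ℝ) := by
        have h0 := D.mat_adjugate i b a
        rw [h0] at hne
        rw [h0]
        exact D.toEmb.ord_multiHom_ge ((matP T l i).adjugate b a) _ (adj_multiHom T l i b a) hne Q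
      rw [hord] at h1
      rw [← hsum]
      exact h1
    obtain ⟨b0, a0, hne0, heq0⟩ := hs.2 Q hQ
    rw [hord] at heq0
    have hmin := CompatCls_min (fun b : Fin (n + 1) => (Q.ord (D.x (Sum.inl i) b : K) : ℝ))
      (fun a : Fin (n + 1) => (Q.ord (σ (D'.x (Sum.inl l) a : K)) : ℝ)) (Q.ord c : ℝ) _ hge
      ⟨b0, a0, heq0⟩
    have h2 : D'.hyp (Sum.inl l) (Q.map σ.symm) =
        - ⨅ a : Fin (n + 1), (Q.ord (σ (D'.x (Sum.inl l) a : K)) : ℝ) := rfl
    have h3 : D.hyp (Sum.inl i) Q =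
        - ⨅ b : Fin (n + 1), (Q.ord (D.x (Sum.inl i) b : K) : ℝ) := rfl
    rw [h2, h3]
    linarith

/-- The hyperplane class with label `l` of `X_l` is zero. -/
theorem Multilin.hyp_self (D : Multilin K T l) (Q : DVal K) : D.hyp (Sum.inl l) Q = 0 := by
  unfold Emb.hyp
  have h1 : ∀ s, (Q.ord (D.x (Sum.inl l) s : K) : ℝ) = 0 := by
    intro s
    rw [D.one s, Units.val_one, DVal.ord_one, Int.cast_zero]
  simp only [h1, ciInf_const, neg_zero]

/-- The transformation of classes. -/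
theorem Compat.cls {D : Multilin K T l} {D' : Multilin K T i} {σ : K ≃ₐ[ℂ] K} (h : l ≠ i)
    (hc : Compat D D' σ) (hs : D.Small i) : ∃ u : P ⊕ R → Kˣ, ∀ Q, D.model.IsPrimeDiv Q →
      ∀ b : P ⊕ R → ℝ, ∑ j, flip n e l i b j * D'.hyp j (Q.map σ.symm) =
        ∑ j, b j * D.hyp j Q + ∑ j, flip n e l i b j * (Q.ord (u j : K) : ℝ) := by
  obtain ⟨u, hu⟩ := hc.exists_hyp h hs
  refine ⟨u, fun Q hQ b => ?_⟩
  obtain ⟨h1, h2⟩ := hu Q hQ
  have hli : (Sum.inl i : P ⊕ R) ≠ Sum.inl l := fun h3 => h (Sum.inl_injective h3).symm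
  have f1 : flip n e l i b (Sum.inl l) = - b (Sum.inl i) := by
    unfold flip
    rw [if_pos rfl]
  have f2 : flip n e l i b (Sum.inl i) = 0 := by
    unfold flip
    rw [if_neg hli, if_pos rfl]
  have f3 : ∀ j ∈ (Finset.univ.erase (Sum.inl l)).erase (Sum.inl i : P ⊕ R),
      flip n e l i b j = b j + ((n * degs e j : ℕ) : ℝ) * b (Sum.inl i) := by
    intro j hj
    rw [Finset.mem_erase, Finset.mem_erase] at hj
    unfold flip
    rw [if_neg hj.2.1, if_neg hj.1]
  rw [CompatCls_split h, CompatCls_split h (fun j => b j * D.hyp j Q),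
    CompatCls_split h (fun j => flip n e l i b j * (Q.ord (u j : K) : ℝ))]
  rw [f1, f2, h2, D.hyp_self Q]
  have g1 : ∑ j ∈ (Finset.univ.erase (Sum.inl l)).erase (Sum.inl i),
      flip n e l i b j * D'.hyp j (Q.map σ.symm) =
      ∑ j ∈ (Finset.univ.erase (Sum.inl l)).erase (Sum.inl i), b j * D.hyp j Q +
        b (Sum.inl i) * ∑ j ∈ (Finset.univ.erase (Sum.inl l)).erase (Sum.inl i), (n * degs e j : ℕ) * D.hyp j Q +
        ∑ j ∈ (Finset.univ.erase (Sum.inl l)).erase (Sum.inl i),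
          flip n e l i b j * (Q.ord (u j : K) : ℝ) := by
    rw [Finset.mul_sum, ← Finset.sum_add_distrib, ← Finset.sum_add_distrib]
    refine Finset.sum_congr rfl fun j hj => ?_
    have hj' := hj
    rw [Finset.mem_erase, Finset.mem_erase] at hj'
    rw [f3 j hj, h1 j hj'.2.1 hj'.1]
    ring
  rw [g1]
  ring

end Pool.Agent.LibGMW
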