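import Mathlib

/-! TASK FIELD: extending a homomorphism of a subalgebra to an automorphism of the function field. -/

namespace Pool.Agent.LibGMW

private theorem Field_algebraic {K : Type} [Field K] [Algebra ℂ K] (B : Subalgebra ℂ K)
    (h : ∀ y : K, ∃ a ∈ B, ∃ b ∈ B, b ≠ 0 ∧ y = a / b) : Algebra.IsAlgebraic B K := by
  refine ⟨fun z => ?_⟩
  obtain ⟨a, ha, b, hb, hb0, hz⟩ := h z
  refine ⟨Polynomial.C ⟨b, hb⟩ * Polynomial.X - Polynomial.C ⟨a, ha⟩, ?_, ?_⟩
  · intro h
    have h1 := congrArg (fun p => Polynomial.coeff p 1) h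
    simp only [Polynomial.coeff_sub, Polynomial.coeff_C_mul, Polynomial.coeff_X_one, mul_one,
      Polynomial.coeff_C_succ, sub_zero, Polynomial.coeff_zero] at h1
    exact hb0 (congrArg Subtype.val h1)
  · rw [map_sub, map_mul, Polynomial.aeval_C, Polynomial.aeval_C, Polynomial.aeval_X]
    change b * z - a = 0
    rw [hz]
    field_simp
    ring

/-- A homomorphism `φ` of a finitely generated subalgebra `A` with fraction field `K` to `K` whose
image generates the field `K` extends to an automorphism of `K`.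

`φ` is injective: choose a transcendence basis of `K` in the image (e.g. `Algebra.IsAlgebraic`,
`exists_isTranscendenceBasis`), `φ a₁, ..., φ a_d`, `d = trdeg K` finite. The `a_i` are algebraically
independent, hence a transcendence basis of `K` (`AlgebraicIndependent`,
`Algebra.IsAlgebraic.isTranscendenceBasis_of_le_trdeg_of_finite` or similar, as in
LibGMM/CanDim `trdeg_lt`). An element `c ≠ 0` of the kernel satisfies an equation `∑ p_k(a) c ^ k = 0`
with polynomials `p_k` and `p_0(a) ≠ 0`; apply `φ`: `p_0(φ a) = 0`, so `p_0 = 0`. -/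
theorem exists_equiv {K : Type} [Field K] [Algebra ℂ K] (A : Subalgebra ℂ K) (hfg : A.FG)
    (hfrac : ∀ y : K, ∃ a ∈ A, ∃ b ∈ A, b ≠ 0 ∧ y = a / b) (φ : A →ₐ[ℂ] K)
    (hφ : ∀ y : K, ∃ a b : A, φ b ≠ 0 ∧ y = φ a / φ b) :
    ∃ σ : K ≃ₐ[ℂ] K, ∀ a : A, σ a = φ a := by
  classical
  have hinj : Function.Injective φ := by
    obtain ⟨S, hS⟩ := hfg
    have halgA : Algebra.IsAlgebraic (Algebra.adjoin ℂ (S : Set K)) K := by
      rw [hS]
      exact Field_algebraic A hfrac
    have hfin : Algebra.trdeg ℂ K < Cardinal.aleph0 :=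
      (Algebra.IsAlgebraic.trdeg_le_cardinalMk ℂ (S : Set K)).trans_lt
        (Cardinal.lt_aleph0_of_finite _)
    have halg2 : Algebra.IsAlgebraic (Algebra.adjoin ℂ (Set.range φ)) K := by
      refine Field_algebraic _ fun y => ?_
      obtain ⟨a, b, hb, hy⟩ := hφ y
      exact ⟨φ a, Algebra.subset_adjoin ⟨a, rfl⟩, φ b, Algebra.subset_adjoin ⟨b, rfl⟩, hb, hy⟩
    obtain ⟨t, hts, ht⟩ := exists_isTranscendenceBasis_subset (R := ℂ) (Set.range φ)
    choose a ha using (fun i : t => hts i.2)
    have hφa : φ ∘ a = ((↑) : t → K) := funext ha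
    have hind : AlgebraicIndependent ℂ a :=
      AlgebraicIndependent.of_comp φ (by rw [hφa]; exact ht.1)
    have hind' : AlgebraicIndependent ℂ (A.val ∘ a) := hind.map' Subtype.val_injective
    have hbasis : IsTranscendenceBasis ℂ (A.val ∘ a) :=
      hind'.isTranscendenceBasis_of_trdeg_le hfin ht.cardinalMk_eq_trdeg.ge
    have halg3 : Algebra.IsAlgebraic (Algebra.adjoin ℂ (Set.range (A.val ∘ a))) K :=
      hbasis.isAlgebraic
    rw [injective_iff_map_eq_zero]
    intro c hc
    by_contra hc0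
    have hcK : (c : K) ≠ 0 := fun h => hc0 (Subtype.ext h)
    obtain ⟨q, hq0, hq⟩ := (halg3.isAlgebraic (c : K)).exists_nonzero_coeff_and_aeval_eq_zero
      (mem_nonZeroDivisors_of_ne_zero hcK)
    have hle : Algebra.adjoin ℂ (Set.range (A.val ∘ a)) ≤ A := by
      refine Algebra.adjoin_le ?_
      rintro _ ⟨i, rfl⟩
      exact (a i).2
    set ι : Algebra.adjoin ℂ (Set.range (A.val ∘ a)) →+* A :=
      (Subalgebra.inclusion hle).toRingHom with hι
    have h1 : Polynomial.eval₂ ι c q = 0 := by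
      apply Subtype.val_injective
      have h2 := Polynomial.hom_eval₂ q ι (A.val : A →+* K) c
      change (A.val : A →+* K) (Polynomial.eval₂ ι c q) = 0
      rw [h2]
      exact hq
    have h3 := Polynomial.hom_eval₂ q ι (φ : A →+* K) c
    have h4 : (φ : A →+* K) (Polynomial.eval₂ ι c q) = 0 := by rw [h1, map_zero]
    have h5 : (φ : A →+* K) c = 0 := hc
    rw [h4, h5, Polynomial.eval₂_eq_eval_map, ← Polynomial.coeff_zero_eq_eval_zero,
      Polynomial.coeff_map] at h3
    have h6 : ∀ u ∈ Algebra.adjoin ℂ (Set.range (A.val ∘ a)),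
        ∃ p : MvPolynomial t ℂ, MvPolynomial.aeval (A.val ∘ a) p = u := by
      intro u hu
      rw [Algebra.adjoin_range_eq_range_aeval] at hu
      exact hu
    obtain ⟨p, hp⟩ := h6 _ (q.coeff 0).2
    have h7 : ι (q.coeff 0) = MvPolynomial.aeval a p := by
      apply Subtype.val_injective
      change ((q.coeff 0 : Algebra.adjoin ℂ (Set.range (A.val ∘ a))) : K) =
        A.val (MvPolynomial.aeval a p)
      rw [← hp, ← AlgHom.comp_apply, MvPolynomial.comp_aeval]
      rfl
    have h8 : φ (MvPolynomial.aeval a p) = MvPolynomial.aeval ((↑) : t → K) p := by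
      rw [← AlgHom.comp_apply, MvPolynomial.comp_aeval, ← hφa]
      rfl
    have h9 : MvPolynomial.aeval ((↑) : t → K) p = 0 := by
      rw [← h8, ← h7]
      exact h3.symm
    have h10 : p = 0 := (injective_iff_map_eq_zero _).1 ht.1 p h9
    apply hq0
    apply Subtype.val_injective
    rw [← hp, h10]
    simp
  have hfrac' : IsFractionRing A K := by
    refine IsFractionRing.of_field A K fun z => ?_
    obtain ⟨a, ha, b, hb, _, hz⟩ := hfrac z
    exact ⟨⟨a, ha⟩, ⟨b, hb⟩, hz⟩
  set σ₀ : K →ₐ[ℂ] K := IsFractionRing.liftAlgHom (A := A) (K := K) (g := φ) hinj with hσ₀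
  have hσ : ∀ a : A, σ₀ a = φ a := by
    intro a
    rw [hσ₀, IsFractionRing.liftAlgHom_apply]
    exact IsFractionRing.lift_algebraMap hinj a
  have hbij : Function.Bijective σ₀ := by
    refine ⟨σ₀.injective, fun y => ?_⟩
    obtain ⟨a, b, _, hy⟩ := hφ y
    refine ⟨(a : K) / b, ?_⟩
    rw [map_div₀, hσ, hσ, hy]
  exact ⟨AlgEquiv.ofBijective σ₀ hbij, hσ⟩

end Pool.Agent.LibGMW
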