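import Pool.Agent.LibGMW.Mat
import Pool.Agent.LibGMW.Lin
import Pool.Agent.LibGMW.Loc

/-! TASK FRAC: the function field is generated by the coordinates with labels `j ≠ l, i`. -/

open scoped Classical

namespace Pool.Agent.LibGMW

open Pool.Agent.LibGMM MvPolynomial

variable {P R : Type} [Fintype P] [Fintype R] {n : ℕ} {m e : R → ℕ}

/-- The set of the labels `j ≠ l, i`. -/
def others {P R : Type} (l i : P) : Set (P ⊕ R) := {j | j ≠ Sum.inl l ∧ j ≠ Sum.inl i}

variable {K : Type} [Field K] [Algebra ℂ K] {T : FormTensor P n m e} {l i : P}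

/-- The entries of the adjugate in affine coordinates. -/
theorem Multilin.Frac_adj (D : Multilin K T l) (s : (j : P ⊕ R) → Fin (dims n m j + 1))
    (b a : Fin (n + 1)) : ∃ y ∈ D.proj (others l i) s, (D.mat i).adjugate b a =
      (∏ j, (D.x j (s j) : K) ^ degLI e l i n j) * y := by
  obtain ⟨y, hy, h⟩ := D.toEmb.aeval_multiHom (others l i) s ((matP T l i).adjugate b a)
    (degLI e l i n) (adj_multiHom T l i b a) (by
      intro j hj
      unfold degLI
      apply if_pos
      by_contra hcon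
      push Not at hcon
      exact hj ⟨hcon.1, hcon.2⟩)
  refine ⟨y, hy, ?_⟩
  rw [D.mat_adjugate i b a]
  exact h

/-- The ratios of the coordinates with label `i` in terms of the adjugate. -/
theorem Multilin.Frac_ratio (D : Multilin K T l) (h : l ≠ i) {b₀ a₀ : Fin (n + 1)}
    (hadj : (D.mat i).adjugate b₀ a₀ ≠ 0) (b : Fin (n + 1)) :
    (D.x (Sum.inl i) b : K) * (D.mat i).adjugate b₀ a₀ =
      (D.mat i).adjugate b a₀ * (D.x (Sum.inl i) b₀ : K) := by
  have hker := D.mat_mulVec h
  have hx0 : (fun b => (D.x (Sum.inl i) b : K)) ≠ 0 := fun h0 =>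
    Units.ne_zero (D.x (Sum.inl i) 0) (congrFun h0 0)
  have hdet : (D.mat i).det = 0 := det_eq_zero (D.mat i) _ hx0 hker
  have hv : ∀ a, ∑ b, D.mat i a b * (D.mat i).adjugate b a₀ = 0 := by
    intro a
    have h1 := congrFun (congrFun (Matrix.mul_adjugate (D.mat i)) a) a₀
    rw [Matrix.mul_apply, hdet, zero_smul] at h1
    exact h1
  have h2 := ker_prop (D.mat i) a₀ b₀ hadj (fun b => (D.mat i).adjugate b a₀)
    (fun b => (D.x (Sum.inl i) b : K)) hv hker b
  rw [h2, mul_comm]

/-- The ratios of the coordinates with label `i` are ratios of entries of a column of the adjugate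
(`ker_prop`: columns of the adjugate are in the kernel as `det = 0`), which are up to a common factor
in the ring `D.proj (others l i) s` (`Emb.aeval_multiHom`, `adj_multiHom`), so all elements of
`chart (segre D.x) s = D.proj univ s` are fractions of this ring. -/
theorem Multilin.frac_proj (D : Multilin K T l) (h : l ≠ i)
    (hadj : ∃ a b, (D.mat i).adjugate a b ≠ 0) (s : (j : P ⊕ R) → Fin (dims n m j + 1)) (y : K) :
    ∃ a ∈ D.proj (others l i) s, ∃ b ∈ D.proj (others l i) s, b ≠ 0 ∧ y = a / b := by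
  obtain ⟨b₀, a₀, hadj⟩ := hadj
  set L : IntermediateField ℂ K := IntermediateField.adjoin ℂ
    {y | ∃ j ∈ others (R := R) l i, ∃ r, y = (D.x j r : K) / D.x j (s j)} with hL
  have hAL : ∀ z ∈ D.proj (others l i) s, z ∈ L := by
    intro z hz
    exact IntermediateField.algebra_adjoin_le_adjoin ℂ _ hz
  have hratio : ∀ b, (D.x (Sum.inl i) b : K) / (D.x (Sum.inl i) b₀ : K) ∈ L := by
    intro b
    have h1 := D.Frac_ratio h hadj b
    have hx0 : (D.x (Sum.inl i) b₀ : K) ≠ 0 := Units.ne_zero _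
    have h2 : (D.x (Sum.inl i) b : K) / (D.x (Sum.inl i) b₀ : K) =
        (D.mat i).adjugate b a₀ / (D.mat i).adjugate b₀ a₀ := by
      rw [div_eq_div_iff hx0 hadj, h1]
    rw [h2]
    obtain ⟨y₁, hy₁, e₁⟩ := D.Frac_adj (i := i) s b a₀
    obtain ⟨y₂, hy₂, e₂⟩ := D.Frac_adj (i := i) s b₀ a₀
    rw [e₁, e₂, mul_div_mul_left]
    · exact div_mem (hAL _ hy₁) (hAL _ hy₂)
    · rw [Finset.prod_ne_zero_iff]
      intro j _
      exact pow_ne_zero _ (Units.ne_zero _)
  have hgen : D.proj Set.univ s ≤ L.toSubalgebra := by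
    refine Algebra.adjoin_le ?_
    rintro _ ⟨j, _, r, rfl⟩
    by_cases hjl : j = Sum.inl l
    · subst hjl
      rw [D.one, D.one]
      simp only [Units.val_one, div_one]
      exact one_mem L
    · by_cases hji : j = Sum.inl i
      · subst hji
        have hx0 : (D.x (Sum.inl i) b₀ : K) ≠ 0 := Units.ne_zero _
        have h3 : (D.x (Sum.inl i) r : K) / D.x (Sum.inl i) (s (Sum.inl i)) =
            ((D.x (Sum.inl i) r : K) / (D.x (Sum.inl i) b₀ : K)) /
              ((D.x (Sum.inl i) (s (Sum.inl i)) : K) / (D.x (Sum.inl i) b₀ : K)) := by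
          rw [div_div_div_cancel_right₀ hx0]
        rw [h3]
        have h4 : ((D.x (Sum.inl i) r : K) / (D.x (Sum.inl i) b₀ : K)) /
              ((D.x (Sum.inl i) (s (Sum.inl i)) : K) / (D.x (Sum.inl i) b₀ : K)) ∈ L :=
          div_mem (hratio r) (hratio _)
        exact h4
      · exact hAL _ (Algebra.subset_adjoin ⟨j, ⟨hjl, hji⟩, r, rfl⟩)
  obtain ⟨a, ha, b, hb, _, hy⟩ := D.frac s y
  rw [D.toEmb.chart_eq_proj s] at ha hb
  have hyL : y ∈ L := by
    rw [hy]
    exact div_mem (hgen ha) (hgen hb)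
  rw [hL, IntermediateField.mem_adjoin_iff_div] at hyL
  obtain ⟨r, hr, t, ht, hrt⟩ := hyL
  by_cases ht0 : t = 0
  · refine ⟨0, Subalgebra.zero_mem _, 1, Subalgebra.one_mem _, one_ne_zero, ?_⟩
    rw [hrt, ht0]
    simp
  · exact ⟨r, hr, t, ht, ht0, hrt⟩

end Pool.Agent.LibGMW
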