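import Pool.Agent.LibGMW.Hom
import Pool.Agent.LibGMW.Field
import Pool.Agent.LibGMW.Frac

/-! TASK COMPATEX: existence of the flop. -/

open scoped Classical

namespace Pool.Agent.LibGMW

open Pool.Agent.LibGMM MvPolynomial

variable {P R : Type} [Fintype P] [Fintype R] {n : ℕ} {m e : R → ℕ}
  {K : Type} [Field K] [Algebra ℂ K] {T : FormTensor P n m e} {l i : P}

/-- The point of `X_i` given by a vector `z` in the left kernel of `M`. -/
noncomputable def CompatEx_w (D : Multilin K T l) (i : P) (z : Fin (n + 1) → K) :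
    (j : P ⊕ R) → Fin (dims n m j + 1) → K
  | Sum.inl p => fun r => if p = l then z r else if p = i then 1 else (D.x (Sum.inl p) r : K)
  | Sum.inr q => fun r => (D.x (Sum.inr q) r : K)

theorem CompatEx_w_l (D : Multilin K T l) (i : P) (z : Fin (n + 1) → K) (r : Fin (n + 1)) :
    CompatEx_w D i z (Sum.inl l) r = z r := by
  simp [CompatEx_w]

theorem CompatEx_w_i (D : Multilin K T l) (h : l ≠ i) (z : Fin (n + 1) → K) (r : Fin (n + 1)) :
    CompatEx_w D i z (Sum.inl i) r = 1 := by
  simp [CompatEx_w, h.symm]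

theorem CompatEx_w_other (D : Multilin K T l) (i : P) (z : Fin (n + 1) → K) (j : P ⊕ R)
    (hl : j ≠ Sum.inl l) (hi : j ≠ Sum.inl i) (r : Fin (dims n m j + 1)) :
    CompatEx_w D i z j r = (D.x j r : K) := by
  rcases j with p | q
  · have h1 : p ≠ l := fun h => hl (by rw [h])
    have h2 : p ≠ i := fun h => hi (by rw [h])
    show (if p = l then z r else if p = i then 1 else (D.x (Sum.inl p) r : K)) = _
    rw [if_neg h1, if_neg h2]
  · rfl

/-- The chart. -/
noncomputable def CompatEx_s (l : P) (a : Fin (n + 1)) : (j : P ⊕ R) → Fin (dims n m j + 1)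
  | Sum.inl p => if p = l then a else (0 : Fin (n + 1))
  | Sum.inr _ => 0

omit [Fintype P] [Fintype R] in
theorem CompatEx_s_l (l : P) (a : Fin (n + 1)) :
    (CompatEx_s (R := R) (m := m) l a (Sum.inl l) : Fin (n + 1)) = a := by
  simp [CompatEx_s]

theorem CompatEx_eqn (D : Multilin K T l) (h : l ≠ i) (z : Fin (n + 1) → K)
    (hz : ∀ b, ∑ a, z a * D.mat i a b = 0) (a : Fin (n + 1)) :
    aeval (fun v : Σ j, Fin (dims n m j + 1) => CompatEx_w D i z v.1 v.2) (eqn T i a) = 0 := by
  rw [eqn_eq T h.symm a, map_sum, ← hz a]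
  refine Finset.sum_congr rfl fun b _ => ?_
  rw [map_mul, aeval_X, matP_symm T l i b a]
  have h1 : aeval (fun v : Σ j, Fin (dims n m j + 1) => CompatEx_w D i z v.1 v.2)
      (matP T l i b a) = D.mat i b a := by
    rw [D.mat_apply]
    refine aeval_congr _ _ (matP_multiHom T l i b a) _ _ ?_
    intro v hv
    have h2 : ¬ (v.1 = Sum.inl l ∨ v.1 = Sum.inl i) := by
      intro hcon
      apply hv
      unfold degLI
      rw [if_pos hcon]
    push Not at h2
    exact CompatEx_w_other D i z v.1 h2.1 h2.2 v.2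
  rw [h1]
  show D.mat i b a * CompatEx_w D i z (Sum.inl l) b = z b * D.mat i b a
  rw [CompatEx_w_l, mul_comm]

/-- Let `z a = (D.mat i).adjugate b₀ a` be a row of the adjugate which is not zero; it is in the left
kernel (`Matrix.adjugate_mul`, `det_eq_zero`). The point `w` with coordinates `x j` for `j ≠ l, i`, `z`
for `l`, and `1` for `i` is a point of `X_i` (`eqn_eq` for `(i, l)`, `matP_symm`, and the equations do
not involve the group `i`). Apply `Multilin.exists_hom` in the chart `s` with `s j = 0` for `j ≠ l`,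
`z (s l) ≠ 0`, and `exists_equiv`; the image of the homomorphism contains `D.proj (others l i) s`, so
`Multilin.frac_proj` gives the second condition. (Chart rings are finitely generated.) -/
theorem exists_compat (D : Multilin K T l) (D' : Multilin K T i) (h : l ≠ i)
    (hadj : ∃ a b, (D.mat i).adjugate a b ≠ 0) : ∃ σ : K ≃ₐ[ℂ] K, Compat D D' σ := by
  obtain ⟨b₀, a₀, h0⟩ := hadj
  set z : Fin (n + 1) → K := fun a => (D.mat i).adjugate b₀ a with hzdef
  have hker := D.mat_mulVec h
  have hx0 : (fun b => (D.x (Sum.inl i) b : K)) ≠ 0 := fun h0 =>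
    Units.ne_zero (D.x (Sum.inl i) 0) (congrFun h0 0)
  have hdet : (D.mat i).det = 0 := det_eq_zero (D.mat i) _ hx0 hker
  have hz : ∀ b, ∑ a, z a * D.mat i a b = 0 := by
    intro b
    have h1 := congrFun (congrFun (Matrix.adjugate_mul (D.mat i)) b₀) b
    rw [Matrix.mul_apply, hdet, zero_smul] at h1
    exact h1
  set w := CompatEx_w D i z with hw
  set s : (j : P ⊕ R) → Fin (dims n m j + 1) := CompatEx_s l a₀ with hs
  have hws : ∀ j, w j (s j) ≠ 0 := by
    intro j
    by_cases hl : j = Sum.inl l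
    · subst hl
      have h2 : w (Sum.inl l) (s (Sum.inl l)) = z (s (Sum.inl l)) := CompatEx_w_l D i z _
      have h3 : (s (Sum.inl l) : Fin (n + 1)) = a₀ := CompatEx_s_l l a₀
      rw [h2]
      show z (s (Sum.inl l) : Fin (n + 1)) ≠ 0
      rw [h3]
      exact h0
    · by_cases hi : j = Sum.inl i
      · subst hi
        have h2 : w (Sum.inl i) (s (Sum.inl i)) = 1 := CompatEx_w_i D h z _
        rw [h2]
        exact one_ne_zero
      · rw [hw, CompatEx_w_other D i z j hl hi]
        exact Units.ne_zero _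
  obtain ⟨φ, hφ⟩ := D'.exists_hom w (fun r => CompatEx_w_i D h z r) (CompatEx_eqn D h z hz) s hws
  have hfg : (D'.proj Set.univ s).FG := by
    refine Subalgebra.fg_def.2 ⟨_, ?_, rfl⟩
    refine (Set.finite_range fun v : Σ j : P ⊕ R, Fin (dims n m j + 1) =>
      (D'.x v.1 v.2 : K) / D'.x v.1 (s v.1)).subset ?_
    rintro _ ⟨j, _, r, rfl⟩
    exact ⟨⟨j, r⟩, rfl⟩
  have hfrac : ∀ y : K, ∃ a ∈ D'.proj Set.univ s, ∃ b ∈ D'.proj Set.univ s, b ≠ 0 ∧ y = a / b := by
    intro y
    obtain ⟨a, ha, b, hb, hb0, hy⟩ := D'.frac s y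
    rw [D'.toEmb.chart_eq_proj s] at ha hb
    exact ⟨a, ha, b, hb, hb0, hy⟩
  have hrange : D.proj (others l i) s ≤ φ.range := by
    refine Algebra.adjoin_le ?_
    rintro _ ⟨j, hj, r, rfl⟩
    obtain ⟨hm, h2⟩ := hφ j r
    refine ⟨⟨_, hm⟩, ?_⟩
    have h3 : w j r = (D.x j r : K) := CompatEx_w_other D i z j hj.1 hj.2 r
    have h4 : w j (s j) = (D.x j (s j) : K) := CompatEx_w_other D i z j hj.1 hj.2 (s j)
    rw [← h3, ← h4]
    exact h2
  obtain ⟨σ, hσ⟩ := exists_equiv (D'.proj Set.univ s) hfg hfrac φ (by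
    intro y
    obtain ⟨a, ha, b, hb, hb0, hy⟩ := D.frac_proj h ⟨b₀, a₀, h0⟩ s y
    obtain ⟨a', ha'⟩ := hrange ha
    obtain ⟨b', hb'⟩ := hrange hb
    have ha'' : φ a' = a := ha'
    have hb'' : φ b' = b := hb'
    exact ⟨a', b', by rw [hb'']; exact hb0, by rw [ha'', hb'']; exact hy⟩)
  have hσx : ∀ j r, σ (D'.x j r : K) = (w j r / w j (s j)) * σ (D'.x j (s j) : K) := by
    intro j r
    obtain ⟨hm, h2⟩ := hφ j r
    have h3 := hσ ⟨_, hm⟩
    rw [h2] at h3
    have h4 : (D'.x j r : K) = ((D'.x j r : K) / D'.x j (s j)) * D'.x j (s j) :=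
      (div_mul_cancel₀ _ (Units.ne_zero _)).symm
    calc σ (D'.x j r : K) = σ (((D'.x j r : K) / D'.x j (s j)) * D'.x j (s j)) := by rw [← h4]
      _ = σ ((D'.x j r : K) / D'.x j (s j)) * σ (D'.x j (s j) : K) := map_mul _ _ _
      _ = _ := by
          congr 1
  refine ⟨σ, ?_, ?_⟩
  · intro j hl hi
    have h5 : σ (D'.x j (s j) : K) ≠ 0 := by
      rw [map_ne_zero]
      exact Units.ne_zero _
    refine ⟨Units.mk0 (σ (D'.x j (s j) : K) / (D.x j (s j) : K))
      (div_ne_zero h5 (Units.ne_zero _)), fun r => ?_⟩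
    rw [hσx j r, Units.val_mk0]
    have h3 : w j r = (D.x j r : K) := CompatEx_w_other D i z j hl hi r
    have h4 : w j (s j) = (D.x j (s j) : K) := CompatEx_w_other D i z j hl hi (s j)
    rw [h3, h4]
    ring
  · intro b
    have h6 : ∀ a : Fin (n + 1), σ (D'.x (Sum.inl l) a : K) * D.mat i a b =
        (σ (D'.x (Sum.inl l) (s (Sum.inl l)) : K) / w (Sum.inl l) (s (Sum.inl l))) *
          (z a * D.mat i a b) := by
      intro a
      have h7 : w (Sum.inl l) a = z a := CompatEx_w_l D i z a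
      rw [hσx (Sum.inl l) a, h7]
      ring
    rw [Finset.sum_congr rfl fun a _ => h6 a, ← Finset.mul_sum, hz b, mul_zero]

end Pool.Agent.LibGMW
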