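import Pool.Agent.LibGMW.Compat
import Pool.Agent.LibGMW.KLoc
import Pool.Agent.LibGMM.G9

/-! TASK COMPATPR: the flop is an isomorphism in codimension one. -/

open scoped Classical

namespace Pool.Agent.LibGMW

open Pool.Agent.LibGMM MvPolynomial

variable {P R : Type} [Fintype P] [Fintype R] {n : ℕ} {m e : R → ℕ}
  {K : Type} [Field K] [Algebra ℂ K] {T : FormTensor P n m e} {l i : P}

/-- The prime divisors `Q` of `X_l` are prime divisors of `X_i`: by `Multilin.exists_isLocal'` the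
ring of `Q` is the localization of `D.proj (others l i) s`, so the ring of `Q' = Q.map σ.symm` (with
`ord y = Q.ord (σ y)`) is the localization of `D'.proj (others l i) s`. Change `s` to `s'` only at
the label `l` such that `D'.x l (s' l)` has minimal order, then `D'.proj univ s' ≤ Q'.ring`
(`Emb.proj_le`), and `Emb.isPrimeDiv_of_isLocal`. -/
theorem Compat.prime {D : Multilin K T l} {D' : Multilin K T i} {σ : K ≃ₐ[ℂ] K} (h : l ≠ i)
    (hc : Compat D D' σ) (hs : D.Small i) (Q : DVal K) (hQ : D.model.IsPrimeDiv Q) :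
    D'.model.IsPrimeDiv (Q.map σ.symm) := by
  obtain ⟨s, hmin, hloc, hfrac⟩ := D.exists_isLocal' h hs Q hQ
  obtain ⟨a0, ha0⟩ := Finite.exists_min
    (fun a : Fin (dims n m (Sum.inl l) + 1) => (Q.map σ.symm).ord (D'.x (Sum.inl l) a : K))
  have hord : ∀ y, (Q.map σ.symm).ord y = Q.ord (σ y) := fun y => rfl
  set s' : (j : P ⊕ R) → Fin (dims n m j + 1) := Function.update s (Sum.inl l) a0 with hs'
  have hs'1 : ∀ j, j ≠ Sum.inl l → s' j = s j := fun j hj => Function.update_of_ne hj _ _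
  have hs'l : s' (Sum.inl l) = a0 := Function.update_self _ _ _
  -- minimal orders
  have hmin' : ∀ j ∈ (Set.univ : Set (P ⊕ R)), ∀ r,
      (Q.map σ.symm).ord (D'.x j (s' j) : K) ≤ (Q.map σ.symm).ord (D'.x j r : K) := by
    intro j _ r
    by_cases hjl : j = Sum.inl l
    · subst hjl
      rw [hs'l]
      exact ha0 r
    · by_cases hji : j = Sum.inl i
      · subst hji
        rw [D'.one, D'.one]
      · obtain ⟨u, hu⟩ := hc.coord j hjl hji
        rw [hord, hord, hu, hu, Q.ord_mul _ _ u.ne_zero (Units.ne_zero _),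
          Q.ord_mul _ _ u.ne_zero (Units.ne_zero _), hs'1 j hjl]
        have := hmin j r
        omega
  -- the ring
  have hle : D.proj (others l i) s ≤
      (D'.proj Set.univ s').comap (σ.symm : K →ₐ[ℂ] K) := by
    refine Algebra.adjoin_le ?_
    rintro _ ⟨j, ⟨hjl, hji⟩, r, rfl⟩
    obtain ⟨u, hu⟩ := hc.coord j hjl hji
    have h1 : (D.x j r : K) / D.x j (s j) = σ ((D'.x j r : K) / D'.x j (s j)) := by
      rw [map_div₀, hu, hu, mul_div_mul_left _ _ u.ne_zero]
    change (σ.symm : K →ₐ[ℂ] K) ((D.x j r : K) / D.x j (s j)) ∈ D'.proj Set.univ s'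
    rw [h1]
    have h2 : (σ.symm : K →ₐ[ℂ] K) (σ ((D'.x j r : K) / D'.x j (s j))) =
        (D'.x j r : K) / D'.x j (s j) := σ.symm_apply_apply _
    rw [h2]
    refine Algebra.subset_adjoin ⟨j, Set.mem_univ _, r, ?_⟩
    rw [hs'1 j hjl]
  refine D'.toEmb.isPrimeDiv_of_isLocal _ s' ⟨D'.toEmb.proj_le _ _ s' hmin', ?_⟩
  intro y hy
  rw [hord] at hy
  obtain ⟨a, ha, b, hb, hb0, hbo, hab⟩ := hfrac (σ y) hy
  refine ⟨σ.symm a, hle ha, σ.symm b, hle hb, ?_, ?_, ?_⟩
  · intro h0
    apply hb0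
    rw [← σ.apply_symm_apply b, h0, map_zero]
  · rw [hord, σ.apply_symm_apply]
    exact hbo
  · rw [← map_div₀, ← hab, σ.symm_apply_apply]

end Pool.Agent.LibGMW
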