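import Pool.Agent.LibGMW.Compat

/-! TASK COMPATSYM: the flop is symmetric. -/

open scoped Classical

namespace Pool.Agent.LibGMW

open Pool.Agent.LibGMM MvPolynomial

variable {P R : Type} [Fintype P] [Fintype R] {n : ℕ} {m e : R → ℕ}
  {K : Type} [Field K] [Algebra ℂ K] {T : FormTensor P n m e} {l i : P}

/-- Apply `σ` to the condition: `σ (D'.mat l b a)` is `D.mat i a b` times the product of the factors
`u j` (`aeval_matP_scale`, `matP_symm`), and `D.mat_mulVec`. -/
theorem Compat.symm {D : Multilin K T l} {D' : Multilin K T i} {σ : K ≃ₐ[ℂ] K} (h : l ≠ i)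
    (hc : Compat D D' σ) : Compat D' D σ.symm := by
  have hu : ∀ j : P ⊕ R, ∃ u : Kˣ, j ≠ Sum.inl l → j ≠ Sum.inl i →
      ∀ s, σ (D'.x j s : K) = u * (D.x j s : K) := by
    intro j
    by_cases h1 : j = Sum.inl l
    · exact ⟨1, fun h2 => absurd h1 h2⟩
    by_cases h3 : j = Sum.inl i
    · exact ⟨1, fun _ h2 => absurd h3 h2⟩
    obtain ⟨u, hu⟩ := hc.coord j h1 h3
    exact ⟨u, fun _ _ => hu⟩
  choose u hu using hu
  refine ⟨fun j hj1 hj2 => ?_, fun b => ?_⟩
  · refine ⟨Units.map (σ.symm : K →* K) (u j)⁻¹, fun s => ?_⟩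
    have h1 := hu j hj2 hj1 s
    have h2 : (D.x j s : K) = ((u j)⁻¹ : Kˣ) * σ (D'.x j s : K) := by
      rw [h1, ← mul_assoc, Units.inv_mul, one_mul]
    rw [h2, map_mul, AlgEquiv.symm_apply_apply]
    rfl
  · apply σ.injective
    rw [map_sum, map_zero]
    have h3 : ∀ a : Fin (n + 1), σ (D'.mat l a b) =
        (∏ j, (u j : K) ^ degLI e l i 1 j) * D.mat i b a := by
      intro a
      rw [D'.mat_apply, D.mat_apply, matP_symm T l i b a]
      have h4 : σ (aeval (fun v : Σ j, Fin (dims n m j + 1) => (D'.x v.1 v.2 : K))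
          (matP T l i b a)) =
          aeval (fun v : Σ j, Fin (dims n m j + 1) => σ (D'.x v.1 v.2 : K))
            (matP T l i b a) := by
        have h5 := MvPolynomial.comp_aeval (R := ℂ)
          (fun v : Σ j, Fin (dims n m j + 1) => (D'.x v.1 v.2 : K)) (σ : K →ₐ[ℂ] K)
        exact congrArg (fun g => g (matP T l i b a)) h5
      rw [h4]
      exact aeval_matP_scale T l i _ _ (fun j => (u j : K)) (fun j h1 h2 s => hu j h1 h2 s) b a
    have h6 : ∀ a : Fin (n + 1), σ (σ.symm (D.x (Sum.inl i) a : K) * D'.mat l a b) =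
        (∏ j, (u j : K) ^ degLI e l i 1 j) *
          (D.mat i b a * (D.x (Sum.inl i) a : K)) := by
      intro a
      rw [map_mul, AlgEquiv.apply_symm_apply, h3]
      ring
    rw [Finset.sum_congr rfl fun a _ => h6 a, ← Finset.mul_sum, D.mat_mulVec h, mul_zero]

end Pool.Agent.LibGMW
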