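import Pool.Agent.LibGMW.Tdeg
import Pool.Agent.LibGMMT.Multi

/-! The variety `X_l` as a subvariety of the product of the factors with labels `≠ l`. -/

open scoped Classical

namespace Pool.Agent.LibGMW

open Pool.Agent.LibGMM MvPolynomial

/-! ### Charts -/

theorem chart_comp {K : Type} [Field K] [Algebra ℂ K] {ι ι' : Type} (f : ι → ι')
    (hf : Function.Surjective f) (g : ι → Kˣ) (g' : ι' → Kˣ) (h : ∀ i, g i = g' (f i)) (i : ι) :
    chart g i = chart g' (f i) := by
  unfold chart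
  congr 1
  ext y
  constructor
  · rintro ⟨j, rfl⟩
    exact ⟨f j, by simp only [h]⟩
  · rintro ⟨j, rfl⟩
    obtain ⟨j, rfl⟩ := hf j
    exact ⟨j, by simp only [h]⟩

/-- A point of `X` with local ring the ring of `Q`, in terms of the ring of a chart. -/
private def Conv_pt {K : Type} [Field K] [Algebra ℂ K] (A : Subalgebra ℂ K) (Q : DVal K) : Prop :=
  ∃ I : Ideal A, I.IsPrime ∧ (∀ a : A, 0 ≤ Q.ord a ∧ (a ∈ I ↔ (a = 0 ∨ 0 < Q.ord a))) ∧
    ∀ x, 0 ≤ Q.ord x → ∃ a b : A, b ∉ I ∧ x = (a : K) / b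

private theorem Conv_isPrimeDiv {K : Type} [Field K] [Algebra ℂ K] (X : NormalModel K)
    (Q : DVal K) : X.IsPrimeDiv Q ↔ ∃ i, Conv_pt (chart X.g i) Q := by
  constructor
  · rintro ⟨⟨i, I, hI⟩, h1, h2⟩
    exact ⟨i, I, hI, h1, h2⟩
  · rintro ⟨i, I, hI, h1, h2⟩
    exact ⟨⟨i, I, hI⟩, h1, h2⟩

theorem isPrimeDiv_of_comp {K : Type} [Field K] [Algebra ℂ K] (X X' : NormalModel K)
    (f : X.ι → X'.ι) (hf : Function.Surjective f) (h : ∀ i, X.g i = X'.g (f i)) (Q : DVal K)
    (hQ : X'.IsPrimeDiv Q) : X.IsPrimeDiv Q := by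
  rw [Conv_isPrimeDiv] at hQ ⊢
  obtain ⟨i', hi'⟩ := hQ
  obtain ⟨i, rfl⟩ := hf i'
  refine ⟨i, ?_⟩
  rwa [chart_comp f hf X.g X'.g h i]

variable {P R : Type} [Fintype P] [Fintype R] {n : ℕ} {m e : R → ℕ}
  {K : Type} [Field K] [Algebra ℂ K] {T : FormTensor P n m e} {l i : P}

/-- Restriction to the groups of variables with labels `≠ l`. -/
def res (l : P) {A : Type} (q : (j : P ⊕ R) → Fin (dims n m j + 1) → A) :
    (g : {p // p ≠ l} ⊕ R) → Fin (LibGMMT.dims {p // p ≠ l} n m g + 1) → A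
  | Sum.inl p => q (Sum.inl p.1)
  | Sum.inr r => q (Sum.inr r)

/-- Restriction of the indices of the chart. -/
def resIdx (l : P) (t : (j : P ⊕ R) → Fin (dims n m j + 1)) :
    (g : {p // p ≠ l} ⊕ R) → Fin (LibGMMT.dims {p // p ≠ l} n m g + 1)
  | Sum.inl p => t (Sum.inl p.1)
  | Sum.inr r => t (Sum.inr r)

/-- Extension of the indices of the chart. -/
noncomputable def extIdx (l : P)
    (s : (g : {p // p ≠ l} ⊕ R) → Fin (LibGMMT.dims {p // p ≠ l} n m g + 1)) :
    (j : P ⊕ R) → Fin (dims n m j + 1)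
  | Sum.inl p => if h : p ≠ l then s (Sum.inl ⟨p, h⟩) else 0
  | Sum.inr r => s (Sum.inr r)

theorem res_ext (l : P)
    (s : (g : {p // p ≠ l} ⊕ R) → Fin (LibGMMT.dims {p // p ≠ l} n m g + 1)) :
    resIdx l (extIdx l s) = s := by
  funext g
  rcases g with p | r
  · exact dif_pos p.2
  · rfl

/-- Extension of points: the coordinates with label `l` are `1`. -/
noncomputable def ext (l : P) {A : Type} [One A]
    (p : (g : {p // p ≠ l} ⊕ R) → Fin (LibGMMT.dims {p // p ≠ l} n m g + 1) → A) :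
    (j : P ⊕ R) → Fin (dims n m j + 1) → A
  | Sum.inl q => if h : q ≠ l then p (Sum.inl ⟨q, h⟩) else fun _ => 1
  | Sum.inr r => p (Sum.inr r)

theorem res_ext' (l : P) {A : Type} [One A]
    (p : (g : {p // p ≠ l} ⊕ R) → Fin (LibGMMT.dims {p // p ≠ l} n m g + 1) → A) :
    res l (ext l p) = p := by
  funext g
  rcases g with q | r
  · exact dif_pos q.2
  · rfl

theorem prod_ne (l : P) {M : Type} [CommMonoid M] (f : P → M) :
    ∏ p, f p = f l * ∏ p : {p // p ≠ l}, f p.1 := by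
  rw [← Finset.mul_prod_erase Finset.univ f (Finset.mem_univ l)]
  congr 1
  exact Finset.prod_subtype _ (by simp) _

theorem sum_ne (l : P) {M : Type} [AddCommMonoid M] (f : P → M) :
    ∑ p, f p = f l + ∑ p : {p // p ≠ l}, f p.1 := by
  rw [← Finset.add_sum_erase Finset.univ f (Finset.mem_univ l)]
  congr 1
  exact Finset.sum_subtype _ (by simp) _

/-- The homogeneous coordinates in the factors with labels `≠ l`. -/
def Multilin.y (D : Multilin K T l) :
    (g : {p // p ≠ l} ⊕ R) → Fin (LibGMMT.dims {p // p ≠ l} n m g + 1) → Kˣ := res l D.x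

theorem Multilin.segre_res (D : Multilin K T l) (t : (j : P ⊕ R) → Fin (dims n m j + 1)) :
    segre D.x t = segre D.y (resIdx l t) := by
  unfold segre
  rw [Fintype.prod_sum_type, Fintype.prod_sum_type, prod_ne l, D.one, one_mul]
  rfl

theorem resIdx_surjective (l : P) : Function.Surjective
    (resIdx (n := n) (m := m) l) := fun s => ⟨extIdx l s, res_ext l s⟩

theorem Multilin.chart_res (D : Multilin K T l) (t : (j : P ⊕ R) → Fin (dims n m j + 1)) :
    chart (segre D.x) t = chart (segre D.y) (resIdx l t) :=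
  chart_comp _ (resIdx_surjective l) _ _ D.segre_res t

/-- `X_l` in the product of the factors with labels `≠ l`. -/
def Multilin.multi (D : Multilin K T l) : LibGMMT.Multi K (LibGMMT.dims {p // p ≠ l} n m) where
  x := D.y
  frac := by
    intro s y
    rw [← res_ext l s, ← D.chart_res]
    exact D.frac _ y
  normal := by
    intro s y hy
    rw [← res_ext l s, ← D.chart_res] at hy ⊢
    exact D.normal _ y hy

theorem Multilin.isPrimeDiv_of_multi (D : Multilin K T l) (Q : DVal K)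
    (hQ : D.multi.model.IsPrimeDiv Q) : D.model.IsPrimeDiv Q :=
  isPrimeDiv_of_comp D.model D.multi.model (resIdx l) (resIdx_surjective l) D.segre_res Q hQ

theorem Multilin.hyp_inl (D : Multilin K T l) (p : {p // p ≠ l}) (Q : DVal K) :
    D.multi.hyp (Sum.inl p) Q = D.hyp (Sum.inl p.1) Q := rfl

theorem Multilin.hyp_inr (D : Multilin K T l) (r : R) (Q : DVal K) :
    D.multi.hyp (Sum.inr r) Q = D.hyp (Sum.inr r) Q := rfl

/-- Restriction of classes. -/
def resCls (l : P) {A : Type} (a : P ⊕ R → A) : {p // p ≠ l} ⊕ R → A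
  | Sum.inl p => a (Sum.inl p.1)
  | Sum.inr r => a (Sum.inr r)

theorem Multilin.effZ_res (D : Multilin K T l) (a : P ⊕ R → ℤ) (ha : a ∈ D.EffZ) :
    resCls l a ∈ D.multi.EffZ := by
  obtain ⟨g, hg⟩ := ha
  refine ⟨g, fun Q hQ => ?_⟩
  have h1 := hg Q (D.isPrimeDiv_of_multi Q hQ)
  rw [Fintype.sum_sum_type, sum_ne l, D.hyp_self, mul_zero, zero_add] at h1
  rw [Fintype.sum_sum_type]
  exact h1

end Pool.Agent.LibGMW
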