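import Pool.Agent.LibGMW.Conv

/-! The tensor of `X_l`. -/

open scoped Classical

namespace Pool.Agent.LibGMW

open Pool.Agent.LibGMM MvPolynomial

variable {P R : Type} [Fintype P] [Fintype R] {n : ℕ} {m e : R → ℕ}

/-- The tensor, with the index `none` for the label `l`. -/
noncomputable def FormTensor.toTensor (T : FormTensor P n m e) (l : P) :
    LibGMMT.Tensor {p // p ≠ l} n m :=
  fun s => T.coeff fun p => s ((Equiv.optionSubtypeNe l).symm p)

theorem form_toTensor (T : FormTensor P n m e) (l : P) {A : Type} [CommRing A] [Algebra ℂ A]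
    (y : (Σ f : R, Fin (m f + 1)) → A) (v : Option {p // p ≠ l} → Fin (n + 1) → A) :
    LibGMMT.form (T.toTensor l) y v = ∑ t : P → Fin (n + 1), aeval y (T.coeff t) *
      ∏ p, v ((Equiv.optionSubtypeNe l).symm p) (t p) := by
  unfold LibGMMT.form
  refine Fintype.sum_equiv (Equiv.arrowCongr (Equiv.optionSubtypeNe l) (Equiv.refl _)) _ _
    fun s => ?_
  have h1 : ∏ o, v o (s o) = ∏ p, v ((Equiv.optionSubtypeNe l).symm p)
      (s ((Equiv.optionSubtypeNe l).symm p)) :=
    (Equiv.prod_comp (Equiv.optionSubtypeNe l).symm fun o => v o (s o)).symm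
  rw [h1]
  rfl

theorem aeval_entry (T : FormTensor P n m e) {A : Type} [CommRing A] [Algebra ℂ A]
    (q : (j : P ⊕ R) → Fin (dims n m j + 1) → A) (t : P → Fin (n + 1)) :
    aeval (fun v : Σ j : P ⊕ R, Fin (dims n m j + 1) => q v.1 v.2) (T.entry t) =
      aeval (fun v : Σ f : R, Fin (m f + 1) => q (Sum.inr v.1) v.2) (T.coeff t) := by
  unfold FormTensor.entry
  rw [aeval_rename]
  rfl

theorem eqn_toTensor (T : FormTensor P n m e) (l : P) {A : Type} [CommRing A] [Algebra ℂ A]
    (q : (j : P ⊕ R) → Fin (dims n m j + 1) → A) (a : Fin (n + 1)) :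
    LibGMMT.eqn (T.toTensor l) (res l q) a =
      aeval (fun v : Σ j : P ⊕ R, Fin (dims n m j + 1) => q v.1 v.2) (eqn T l a) := by
  unfold LibGMMT.eqn eqn
  rw [form_toTensor, map_sum, Finset.sum_filter]
  refine Finset.sum_congr rfl fun t _ => ?_
  rw [← Finset.mul_prod_erase Finset.univ _ (Finset.mem_univ l), Equiv.optionSubtypeNe_symm_self]
  have h1 : ∏ p ∈ Finset.univ.erase l,
      (((Equiv.optionSubtypeNe l).symm p).elim (Pi.single a 1)
        fun j => res l q (Sum.inl j)) (t p) =
      ∏ p ∈ Finset.univ.erase l, q (Sum.inl p) (t p) := by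
    refine Finset.prod_congr rfl fun p hp => ?_
    rw [Equiv.optionSubtypeNe_symm_of_ne (Finset.ne_of_mem_erase hp)]
    rfl
  rw [h1]
  change _ * ((Pi.single a (1 : A) : Fin (n + 1) → A) (t l) * _) = _
  by_cases h : t l = a
  · rw [if_pos h, map_mul, aeval_entry, map_prod, h, Pi.single_eq_same, one_mul]
    refine congrArg₂ _ rfl (Finset.prod_congr rfl fun p _ => ?_)
    rw [aeval_X]
  · rw [if_neg h, Pi.single_eq_of_ne h, zero_mul, mul_zero]

theorem mat_toTensor (T : FormTensor P n m e) (l : P) {A : Type} [CommRing A] [Algebra ℂ A]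
    (q : (j : P ⊕ R) → Fin (dims n m j + 1) → A) (i : {p // p ≠ l}) (a b : Fin (n + 1)) :
    LibGMMT.mat (T.toTensor l) (res l q) i a b =
      aeval (fun v : Σ j : P ⊕ R, Fin (dims n m j + 1) => q v.1 v.2) (matP T l i.1 a b) := by
  unfold LibGMMT.mat matP
  rw [form_toTensor, map_sum, Finset.sum_filter]
  refine Finset.sum_congr rfl fun t _ => ?_
  rw [← Finset.mul_prod_erase Finset.univ _ (Finset.mem_univ l), Equiv.optionSubtypeNe_symm_self,
    ← Finset.mul_prod_erase (Finset.univ.erase l) _ (Finset.mem_erase.2 ⟨i.2, Finset.mem_univ _⟩),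
    Equiv.optionSubtypeNe_symm_of_ne i.2]
  have h1 : ∏ p ∈ (Finset.univ.erase l).erase i.1,
      (((Equiv.optionSubtypeNe l).symm p).elim (Pi.single a 1)
        (Function.update (fun j => res l q (Sum.inl j)) i (Pi.single b 1))) (t p) =
      ∏ p ∈ (Finset.univ.erase l).erase i.1, q (Sum.inl p) (t p) := by
    refine Finset.prod_congr rfl fun p hp => ?_
    have hpl : p ≠ l := Finset.ne_of_mem_erase (Finset.mem_of_mem_erase hp)
    have hpi : p ≠ i.1 := Finset.ne_of_mem_erase hp
    rw [Equiv.optionSubtypeNe_symm_of_ne hpl]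
    change (Function.update (fun j => res l q (Sum.inl j)) i (Pi.single b 1)) ⟨p, hpl⟩ (t p) = _
    rw [Function.update_of_ne (fun h => hpi (congrArg Subtype.val h))]
    rfl
  rw [h1]
  change _ * ((Pi.single a (1 : A) : Fin (n + 1) → A) (t l) *
    ((Function.update (fun j => res l q (Sum.inl j)) i (Pi.single b 1)) i (t i.1) * _)) = _
  rw [Function.update_self]
  change _ * ((Pi.single a (1 : A) : Fin (n + 1) → A) (t l) *
    ((Pi.single b (1 : A) : Fin (n + 1) → A) (t i.1) * _)) = _
  by_cases h : t l = a ∧ t i.1 = b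
  · rw [if_pos h, map_mul, aeval_entry, map_prod, h.1, h.2, Pi.single_eq_same,
      Pi.single_eq_same, one_mul, one_mul]
    refine congrArg₂ _ rfl (Finset.prod_congr rfl fun p _ => ?_)
    rw [aeval_X]
  · rw [if_neg h]
    rcases not_and_or.1 h with h | h
    · rw [Pi.single_eq_of_ne h, zero_mul, mul_zero]
    · rw [Pi.single_eq_of_ne h, zero_mul, mul_zero, mul_zero]

end Pool.Agent.LibGMW
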