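import Pool.Agent.LibGMM.Hyper

/-!
Complete intersections defined by tensors of forms.

The factors are labelled by `P ⊕ R`; the factor with label `p : P` is a projective space of dimension
`n`, the one with label `r : R` a projective space of dimension `m r`. Let `T` be a tensor with one
index in `{0, ..., n}` for every `p : P`, whose entries are forms of multidegree `e` on the product of
the factors with labels in `R`. It defines, for every `l : P`, the variety `X_l` of the points `(x_j)`,
`j ≠ l`, of the product of the projective spaces with labels `j ≠ l`, such that the contraction of `T`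
with all the `x_p`, `p ≠ l`, is zero: `n + 1` equations of multidegree `(1, ..., 1; e)`.
-/

open scoped Classical

namespace Pool.Agent.LibGMW

open Pool.Agent.LibGMM MvPolynomial

/-- A normal projective variety with function field `K` in the product of the projective spaces of
dimension `m j`, `j : J`, not contained in a coordinate hyperplane: the homogeneous coordinates of its
generic point are `x`. -/
structure Emb (K : Type) [Field K] [Algebra ℂ K] {J : Type} [Fintype J] (m : J → ℕ) where
  x : (j : J) → Fin (m j + 1) → Kˣ
  frac : ∀ (s : (j : J) → Fin (m j + 1)) (y : K),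
    ∃ a ∈ chart (segre x) s, ∃ b ∈ chart (segre x) s, b ≠ 0 ∧ y = a / b
  normal : ∀ (s : (j : J) → Fin (m j + 1)) (y : K),
    IsIntegral (chart (segre x) s) y → y ∈ chart (segre x) s

namespace Emb

variable {K : Type} [Field K] [Algebra ℂ K] {J : Type} [Fintype J] {m : J → ℕ}

/-- The variety in its Segre embedding. -/
noncomputable def model (E : Emb K m) : NormalModel K where
  ι := (j : J) → Fin (m j + 1)
  fin := inferInstance
  ne := ⟨fun _ => 0⟩
  g := segre E.x
  frac := E.frac
  normal := E.normal

/-- The pull-back of the hyperplane class of the factor with label `j`. -/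
noncomputable def hyp (E : Emb K m) (j : J) (Q : DVal K) : ℝ :=
  - ⨅ s : Fin (m j + 1), (Q.ord (E.x j s) : ℝ)

end Emb

/-- The dimensions of the projective spaces: `n` for the labels in `P` and `m r` for `r : R`. -/
abbrev dims {P R : Type} (n : ℕ) (m : R → ℕ) : P ⊕ R → ℕ := Sum.elim (fun _ => n) m

/-- The multidegree of the equations: `1` for the labels in `P` and `e r` for `r : R`. -/
abbrev degs {P R : Type} (e : R → ℕ) : P ⊕ R → ℕ := Sum.elim (fun _ => 1) e

/-- A tensor with an index in `{0, ..., n}` for every label in `P`, whose entries are forms of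
multidegree `e` in the homogeneous coordinates of the product of the projective spaces of dimension
`m r`, `r : R`. -/
structure FormTensor (P : Type) {R : Type} [Fintype R] (n : ℕ) (m e : R → ℕ) where
  coeff : (P → Fin (n + 1)) → MvPolynomial (Σ r : R, Fin (m r + 1)) ℂ
  homog : ∀ t, MultiHom (coeff t) e

variable {P R : Type} [Fintype P] [Fintype R] {n : ℕ} {m e : R → ℕ}

/-- The entries of the tensor as polynomials in the homogeneous coordinates of all factors. -/
noncomputable def FormTensor.entry (T : FormTensor P n m e) (t : P → Fin (n + 1)) :
    MvPolynomial (Σ j : P ⊕ R, Fin (dims n m j + 1)) ℂ :=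
  rename (fun v => ⟨Sum.inr v.1, v.2⟩) (T.coeff t)

/-- The `a`-th equation of `X_l`: the contraction of `T` with the points of all factors with labels
`p ≠ l` in `P`, at the value `a` of the index with label `l`. -/
noncomputable def eqn (T : FormTensor P n m e) (l : P) (a : Fin (n + 1)) :
    MvPolynomial (Σ j : P ⊕ R, Fin (dims n m j + 1)) ℂ :=
  ∑ t ∈ Finset.univ.filter fun t : P → Fin (n + 1) => t l = a,
    T.entry t * ∏ p ∈ Finset.univ.erase l, X ⟨Sum.inl p, t p⟩

/-- The matrix `M` of the contraction of `T` with the points of all factors with labels `p ≠ l, i`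
in `P`. -/
noncomputable def matP (T : FormTensor P n m e) (l i : P) : Matrix (Fin (n + 1)) (Fin (n + 1))
    (MvPolynomial (Σ j : P ⊕ R, Fin (dims n m j + 1)) ℂ) := fun a b =>
  ∑ t ∈ Finset.univ.filter fun t : P → Fin (n + 1) => t l = a ∧ t i = b,
    T.entry t * ∏ p ∈ (Finset.univ.erase l).erase i, X ⟨Sum.inl p, t p⟩

/-- The variety `X_l` of the tensor `T`, with function field `K`: the homogeneous coordinates of its
generic point are `x` (those with label `l`, which do not occur, are put equal to `1`); it is defined
by the equations `eqn T l` (in every affine chart they generate the ideal of all relations between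
the coordinates); it is integral and normal, and not contained in a coordinate hyperplane. -/
structure Multilin (K : Type) [Field K] [Algebra ℂ K] (T : FormTensor P n m e) (l : P) extends
    Emb K (dims (P := P) n m) where
  one : ∀ s, x (Sum.inl l) s = 1
  vanish : ∀ a, aeval (fun v : Σ j, Fin (dims n m j + 1) => (x v.1 v.2 : K)) (eqn T l a) = 0
  relations : ∀ (G : MvPolynomial (Σ j : P ⊕ R, Fin (dims n m j + 1)) ℂ) (d : P ⊕ R → ℕ),
    MultiHom G d → d (Sum.inl l) = 0 →
    aeval (fun v : Σ j, Fin (dims n m j + 1) => (x v.1 v.2 : K)) G = 0 →
    ∀ s : (j : P ⊕ R) → Fin (dims n m j + 1), ∃ N : ℕ,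
      (∏ j ∈ Finset.univ.erase (Sum.inl l), X ⟨j, s j⟩) ^ N * G ∈
        Ideal.span (Set.range (eqn T l))

namespace Multilin

variable {K : Type} [Field K] [Algebra ℂ K] {T : FormTensor P n m e} {l : P}

/-- The matrix `M` at the generic point of `X_l`. -/
noncomputable def mat (D : Multilin K T l) (i : P) : Matrix (Fin (n + 1)) (Fin (n + 1)) K :=
  (matP T l i).map (aeval fun v : Σ j, Fin (dims n m j + 1) => (D.x v.1 v.2 : K))

/-- The projection of `X_l` to the product of the factors with labels `j ≠ l, i` is small: the
matrix `M` has rank `n` at the generic point of `X_l` and at the generic points of all prime divisors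
`Q` of `X_l`, i.e. in homogeneous coordinates of the factors `j ≠ l, i` which are regular and without
common zero at `Q` one of the entries of the adjugate of `M` is a unit at `Q`. -/
def Small (D : Multilin K T l) (i : P) : Prop :=
  (∃ a b, (D.mat i).adjugate a b ≠ 0) ∧
  ∀ Q, D.model.IsPrimeDiv Q → ∃ a b, (D.mat i).adjugate a b ≠ 0 ∧
    (Q.ord ((D.mat i).adjugate a b) : ℝ) =
      - ∑ j ∈ (Finset.univ.erase (Sum.inl l)).erase (Sum.inl i), (n * degs e j : ℕ) * D.hyp j Q

end Multilin

/-- `D` is pseudo-effective: its sum with every positive multiple of the hyperplane class is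
`ℝ`-linearly equivalent to an effective `ℝ`-divisor. -/
def PseudoEffective {K : Type} [Field K] [Algebra ℂ K] (X : NormalModel K) (D : DVal K → ℝ) : Prop :=
  ∀ ε : ℝ, 0 < ε → X.REffective fun Q => D Q + ε * X.hyperplane Q

end Pool.Agent.LibGMW
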