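import Pool.Agent.LibGMW.Mat
import Pool.Agent.LibGMW.Lin

/-! TASK DETA: prime factors of the determinant of `M` divide all relations between the coordinates
with labels `j ≠ l, i`. -/

open scoped Classical

namespace Pool.Agent.LibGMW

open Pool.Agent.LibGMM MvPolynomial

variable {P R : Type} [Fintype P] [Fintype R] {n : ℕ} {m e : R → ℕ}
  {K : Type} [Field K] [Algebra ℂ K] {T : FormTensor P n m e} {l i : P}

/-- A prime polynomial does not divide both variables of a group. -/
private theorem DetA_exists_not_dvd {J : Type} {m : J → ℕ}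
    (q : MvPolynomial (Σ j : J, Fin (m j + 1)) ℂ) (hq : Prime q) (j : J) (hj : 1 ≤ m j) :
    ∃ s : Fin (m j + 1), ¬ q ∣ X ⟨j, s⟩ := by
  by_contra hcon
  push Not at hcon
  have h0 := hcon ⟨0, by omega⟩
  have h1 := hcon ⟨1, by omega⟩
  have a0 := (Prime.associated_of_dvd hq (MvPolynomial.X_prime) h0)
  have a1 := (Prime.associated_of_dvd hq (MvPolynomial.X_prime) h1)
  have h2 := (a0.symm.trans a1).dvd
  rw [MvPolynomial.X_dvd_X] at h2
  simp at h2

private theorem DetA_aeval_mk {σ : Type} (I : Ideal (MvPolynomial σ ℂ)) (G : MvPolynomial σ ℂ) :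
    aeval (fun v : σ => Ideal.Quotient.mk I (X v)) G = Ideal.Quotient.mk I G := by
  have h : (aeval (fun v : σ => Ideal.Quotient.mk I (X v)) : MvPolynomial σ ℂ →ₐ[ℂ] _) =
      Ideal.Quotient.mkₐ ℂ I := by
    apply MvPolynomial.algHom_ext
    intro v
    rw [aeval_X]
    rfl
  rw [h]
  rfl

/-- A prime factor `q` of the determinant divides all relations. Modulo `q` the matrix `M` has
determinant `0`, so there is `v ≠ 0` over the domain `MvPolynomial ⧸ (q)` with `M v = 0`
(`Matrix.exists_mulVec_eq_zero_iff`). The homomorphism which sends the variables `(i, b)` to `v b` and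
the other variables to their classes kills the equations `eqn T l a` (`eqn_eq`) and sends `G` to its
class (`aeval_congr`: `e i = 0`). Use `D.relations` for an index `s` with `v (s i) ≠ 0` and such that
`q` does not divide the variables `(j, s j)`, `j ≠ l, i` (`q` cannot divide both `X (j, 0)` and
`X (j, 1)`). -/
theorem Multilin.prime_dvd (D : Multilin K T l) (h : l ≠ i) (hdims : ∀ j, 1 ≤ dims (P := P) n m j)
    (q : MvPolynomial (Σ j : P ⊕ R, Fin (dims n m j + 1)) ℂ) (hq : Prime q)
    (hqd : q ∣ (matP T l i).det)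
    (G : MvPolynomial (Σ j : P ⊕ R, Fin (dims n m j + 1)) ℂ) (e : P ⊕ R → ℕ) (hG : MultiHom G e)
    (hl : e (Sum.inl l) = 0) (hi : e (Sum.inl i) = 0)
    (h0 : aeval (fun v : Σ j, Fin (dims n m j + 1) => (D.x v.1 v.2 : K)) G = 0) : q ∣ G := by
  have hqp : (Ideal.span {q}).IsPrime := (Ideal.span_singleton_prime hq.ne_zero).2 hq
  set I := Ideal.span {q} with hI
  set φ := Ideal.Quotient.mk I with hφ
  have hdvd : ∀ F, φ F = 0 ↔ q ∣ F := fun F => by
    rw [hφ, Ideal.Quotient.eq_zero_iff_mem, hI, Ideal.mem_span_singleton]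
  have hdet : ((matP T l i).map φ).det = 0 := by
    have h1 := RingHom.map_det φ (matP T l i)
    rw [(hdvd _).2 hqd] at h1
    exact h1.symm
  obtain ⟨v, hv0, hv⟩ := Matrix.exists_mulVec_eq_zero_iff.2 hdet
  obtain ⟨b₀, hb₀⟩ := Function.ne_iff.1 hv0
  let u : (j : P ⊕ R) → Fin (dims n m j + 1) → (MvPolynomial (Σ j : P ⊕ R, Fin (dims n m j + 1)) ℂ ⧸ I) :=
    Function.update (fun j s => φ (X ⟨j, s⟩)) (Sum.inl i) v
  have hui : u (Sum.inl i) = v := Function.update_self _ _ _
  have huj : ∀ j, j ≠ Sum.inl i → u j = fun s => φ (X ⟨j, s⟩) := fun j hj =>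
    Function.update_of_ne hj _ _
  have hcongr : ∀ (F : MvPolynomial (Σ j : P ⊕ R, Fin (dims n m j + 1)) ℂ) (d : P ⊕ R → ℕ),
      MultiHom F d → d (Sum.inl i) = 0 →
      aeval (fun w : Σ j, Fin (dims n m j + 1) => u w.1 w.2) F = φ F := by
    intro F d hF hd
    rw [← DetA_aeval_mk I F]
    refine aeval_congr F d hF _ _ fun w hw => ?_
    have hw' : w.1 ≠ Sum.inl i := by
      intro hc
      rw [hc] at hw
      exact hw hd
    show u w.1 w.2 = _
    rw [huj w.1 hw']
  have heqn : ∀ a, aeval (fun w : Σ j, Fin (dims n m j + 1) => u w.1 w.2) (eqn T l a) = 0 := by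
    intro a
    rw [eqn_eq T h, map_sum]
    have h1 := congrFun hv a
    simp only [Matrix.mulVec, dotProduct, Matrix.map_apply, Pi.zero_apply] at h1
    rw [← h1]
    refine Finset.sum_congr rfl fun b _ => ?_
    rw [map_mul, aeval_X, hcongr _ _ (matP_multiHom T l i a b) (by simp [degLI])]
    show φ (matP T l i a b) * u (Sum.inl i) b = _
    rw [hui]
  have hker : ∀ F ∈ Ideal.span (Set.range (eqn T l)),
      aeval (fun w : Σ j, Fin (dims n m j + 1) => u w.1 w.2) F = 0 := by
    intro F hF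
    have h1 : Ideal.span (Set.range (eqn T l)) ≤ RingHom.ker
        (aeval (fun w : Σ j, Fin (dims n m j + 1) => u w.1 w.2) :
          MvPolynomial (Σ j : P ⊕ R, Fin (dims n m j + 1)) ℂ →ₐ[ℂ] _) := by
      rw [Ideal.span_le]
      rintro _ ⟨a, rfl⟩
      exact heqn a
    exact h1 hF
  have hex : ∀ j : P ⊕ R, ∃ s : Fin (dims n m j + 1), u j s ≠ 0 := by
    intro j
    by_cases hji : j = Sum.inl i
    · subst hji
      exact ⟨b₀, by rw [hui]; exact hb₀⟩
    · obtain ⟨s, hs⟩ := DetA_exists_not_dvd (m := dims n m) q hq j (hdims j)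
      refine ⟨s, ?_⟩
      rw [huj j hji]
      exact fun h1 => hs ((hdvd _).1 h1)
  choose s hs using hex
  obtain ⟨N, hN⟩ := D.relations G e hG hl h0 s
  have h2 := hker _ hN
  rw [map_mul, map_pow, map_prod, hcongr G e hG hi] at h2
  rcases mul_eq_zero.1 h2 with h3 | h3
  · exfalso
    have h4 := eq_zero_of_pow_eq_zero h3
    rw [Finset.prod_eq_zero_iff] at h4
    obtain ⟨j, _, hj⟩ := h4
    rw [aeval_X] at hj
    exact hs j hj
  · exact (hdvd G).1 h3

end Pool.Agent.LibGMW
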