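import Pool.Agent.LibGMW.Defs
import Pool.Agent.LibGMM.G4
import Pool.Agent.LibGMM.G5
import Pool.Agent.LibGMM.G6
import Pool.Agent.LibGMM.G8
import Pool.Agent.LibGMM.G9

/-! Classes in the span of the hyperplane classes. -/

open scoped Classical

namespace Pool.Agent.LibGMW

open Pool.Agent.LibGMM

namespace Emb

variable {K : Type} [Field K] [Algebra ℂ K] {J : Type} [Fintype J] {m : J → ℕ}

/-- The integral classes `∑ a j H j` which contain an effective divisor (up to integral linear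
equivalence). -/
def EffZ (H : Emb K m) : Set (J → ℤ) :=
  {a | ∃ g : Kˣ, ∀ Q, H.model.IsPrimeDiv Q → 0 ≤ (Q.ord g : ℝ) + ∑ j, (a j : ℝ) * H.hyp j Q}

/-- The real classes `∑ b j H j` which contain an effective divisor. -/
def EffR (H : Emb K m) : Set (J → ℝ) :=
  {b | ∃ f : Kˣ →₀ ℝ, ∀ Q, H.model.IsPrimeDiv Q → 0 ≤ ∑ j, b j * H.hyp j Q + ordR Q f}

variable (H : Emb K m)

theorem bdd (j : J) (Q : DVal K) :
    BddBelow (Set.range fun s : Fin (m j + 1) => (Q.ord (H.x j s) : ℝ)) :=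
  Set.Finite.bddBelow (Set.finite_range _)

theorem neg_hyp_le (j : J) (s : Fin (m j + 1)) (Q : DVal K) : - H.hyp j Q ≤ Q.ord (H.x j s) := by
  unfold hyp
  rw [neg_neg]
  exact ciInf_le (H.bdd j Q) s

theorem effR_add {b b' : J → ℝ} (hb : b ∈ H.EffR) (hb' : b' ∈ H.EffR) : b + b' ∈ H.EffR := by
  obtain ⟨f, hf⟩ := hb
  obtain ⟨f', hf'⟩ := hb'
  refine ⟨f + f', fun Q hQ => ?_⟩
  have h1 := hf Q hQ
  have h2 := hf' Q hQ
  rw [ordR_add]
  simp only [Pi.add_apply, add_mul, Finset.sum_add_distrib]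
  linarith

theorem effR_smul {c : ℝ} (hc : 0 ≤ c) {b : J → ℝ} (hb : b ∈ H.EffR) : c • b ∈ H.EffR := by
  obtain ⟨f, hf⟩ := hb
  refine ⟨c • f, fun Q hQ => ?_⟩
  have h1 := mul_nonneg hc (hf Q hQ)
  rw [ordR_smul]
  simp only [Pi.smul_apply, smul_eq_mul, mul_assoc, ← Finset.mul_sum]
  linarith

theorem effR_of_nonneg {b : J → ℝ} (hb : ∀ j, 0 ≤ b j) : b ∈ H.EffR := by
  refine ⟨∑ j, Finsupp.single (H.x j 0) (b j), fun Q _ => ?_⟩
  rw [ordR_sum]
  simp only [ordR_single]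
  rw [← Finset.sum_add_distrib]
  refine Finset.sum_nonneg fun j _ => ?_
  rw [← mul_add]
  refine mul_nonneg (hb j) ?_
  have := H.neg_hyp_le j 0 Q
  linarith

theorem effZ_sub_effR {a : J → ℤ} (ha : a ∈ H.EffZ) : (fun j => (a j : ℝ)) ∈ H.EffR := by
  obtain ⟨g, hg⟩ := ha
  refine ⟨Finsupp.single g 1, fun Q hQ => ?_⟩
  rw [ordR_single]
  have := hg Q hQ
  linarith

theorem exists_hyp_eq (j : J) (Q : DVal K) : ∃ s, H.hyp j Q = - (Q.ord (H.x j s) : ℝ) := by
  obtain ⟨s, hs⟩ := exists_eq_ciInf_of_finite (f := fun s : Fin (m j + 1) => (Q.ord (H.x j s) : ℝ))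
  exact ⟨s, by unfold hyp; rw [← hs]⟩

theorem segre_ord (s : (j : J) → Fin (m j + 1)) (Q : DVal K) :
    (Q.ord (segre H.x s : Kˣ) : ℝ) = ∑ j, (Q.ord (H.x j (s j)) : ℝ) := by
  unfold segre
  rw [Units.coe_prod, DVal.ord_prod]
  · push_cast; rfl
  · intro i _; exact Units.ne_zero _

theorem hyperplane_eq (Q : DVal K) : H.model.hyperplane Q = ∑ j, H.hyp j Q := by
  choose s hs using fun j => H.exists_hyp_eq j Q
  have hfin : BddBelow (Set.range fun i : H.model.ι => (Q.ord (H.model.g i) : ℝ)) := by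
    have := H.model.fin
    exact Set.Finite.bddBelow (Set.finite_range _)
  have := H.model.ne
  apply le_antisymm
  · unfold NormalModel.hyperplane
    rw [neg_le]
    refine le_ciInf fun i => ?_
    have h1 := H.segre_ord i Q
    change _ ≤ (Q.ord (segre H.x i : Kˣ) : ℝ)
    rw [h1, ← Finset.sum_neg_distrib]
    exact Finset.sum_le_sum fun j _ => H.neg_hyp_le j (i j) Q
  · unfold NormalModel.hyperplane
    rw [le_neg]
    refine (ciInf_le hfin s).trans ?_
    change (Q.ord (segre H.x s : Kˣ) : ℝ) ≤ _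
    rw [H.segre_ord s Q, ← Finset.sum_neg_distrib]
    refine Finset.sum_le_sum fun j _ => ?_
    rw [hs j, neg_neg]

theorem big_of_class (D : DVal K → ℝ) (b : J → ℝ)
    (hD : H.model.RLinEq D fun Q => ∑ j, b j * H.hyp j Q) (ε : ℝ) (hε : 0 < ε)
    (h : (fun j => b j - ε) ∈ H.EffR) : H.model.Big D := by
  obtain ⟨f, hf⟩ := hD
  obtain ⟨g, hg⟩ := h
  refine ⟨ε, hε, g - f, fun Q hQ => ?_⟩
  beta_reduce
  rw [hyperplane_eq, ordR_sub, hf Q hQ]
  have h1 := hg Q hQ
  simp only [sub_mul, Finset.sum_sub_distrib, ← Finset.mul_sum] at h1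
  linarith

/-- The linear system of hyperplanes of the `j`-th factor. -/
noncomputable def hypSys (j : J) : Finset Kˣ := Finset.univ.image (H.x j)

theorem bpf_hypSys (j : J) : H.model.BPF (H.hypSys j) := by
  classical
  intro p
  refine ⟨H.x j (p.i j), by simp [hypSys], ?_⟩
  intro h' hh'
  simp only [hypSys, Finset.mem_image, Finset.mem_univ, true_and] at hh'
  obtain ⟨q, rfl⟩ := hh'
  have h1 := H.model.ratio_mem_loc p (Function.update p.i j q)
  have h2 : ((H.model.g (Function.update p.i j q) : Kˣ) : K) / (H.model.g p.i : Kˣ) =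
      (H.x j q : K) / H.x j (p.i j) := by
    change ((segre H.x (Function.update p.i j q) : Kˣ) : K) / (segre H.x p.i : Kˣ) = _
    unfold segre
    rw [← Finset.mul_prod_erase Finset.univ (fun l => H.x l (p.i l)) (Finset.mem_univ j),
      ← Finset.mul_prod_erase Finset.univ (fun l => H.x l (Function.update p.i j q l))
        (Finset.mem_univ j)]
    have h3 : ∏ l ∈ Finset.univ.erase j, H.x l (Function.update p.i j q l) =
        ∏ l ∈ Finset.univ.erase j, H.x l (p.i l) := by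
      refine Finset.prod_congr rfl fun l hl => ?_
      rw [Function.update_of_ne (Finset.mem_erase.1 hl).1]
    rw [h3, Function.update_self, Units.val_mul, Units.val_mul,
      mul_div_mul_right _ _ (Units.ne_zero _)]
  rwa [h2] at h1

theorem sys_hypSys (j : J) (Q : DVal K) : sys Q (H.hypSys j) = H.hyp j Q := by
  classical
  obtain ⟨s, hs⟩ := H.exists_hyp_eq j Q
  rw [hs]
  apply sys_eq Q _ (H.x j s) (by simp [hypSys])
  intro g' hg'
  simp only [hypSys, Finset.mem_image, Finset.mem_univ, true_and] at hg'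
  obtain ⟨q, rfl⟩ := hg'
  rw [Q.ord_div (Units.ne_zero _) (Units.ne_zero _)]
  have h1 := H.neg_hyp_le j q Q
  rw [hs, neg_neg] at h1
  have : Q.ord (H.x j s) ≤ Q.ord (H.x j q) := by exact_mod_cast h1
  omega

theorem semiample_of_nonneg (D : DVal K → ℝ) (b : J → ℝ) (hb : ∀ j, 0 ≤ b j)
    (hD : H.model.RLinEq D fun Q => ∑ j, b j * H.hyp j Q) : H.model.Semiample D := by
  classical
  obtain ⟨f, hf⟩ := hD
  let e := (Fintype.equivFin J).symm
  refine ⟨Fintype.card J, fun k => b (e k), fun k => H.hypSys (e k), fun k => hb _,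
    fun k => H.bpf_hypSys _, f, fun Q hQ => ?_⟩
  rw [hf Q hQ]
  congr 1
  simp only [sys_hypSys]
  exact (Equiv.sum_comp e (fun j => b j * H.hyp j Q)).symm

end Emb

variable {K : Type} [Field K] [Algebra ℂ K] {J : Type} [Fintype J] {m : J → ℕ}

/-- The integer underlying the value of a hyperplane class. -/
private noncomputable def hypZ (H : Emb K m) (j : J) (Q : DVal K) : ℤ :=
  - ⨅ s : Fin (m j + 1), Q.ord (H.x j s)

private theorem hypZ_cast (H : Emb K m) (j : J) (Q : DVal K) :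
    ((hypZ H j Q : ℤ) : ℝ) = H.hyp j Q := by
  unfold hypZ Emb.hyp
  push_cast
  congr 1
  obtain ⟨s, hs⟩ := Finite.exists_min fun s : Fin (m j + 1) => Q.ord (H.x j s : K)
  have h1 : (⨅ s : Fin (m j + 1), Q.ord (H.x j s : K)) = Q.ord (H.x j s : K) :=
    le_antisymm (ciInf_le (Finite.bddBelow_range _) s) (le_ciInf hs)
  have h2 : (⨅ s : Fin (m j + 1), (Q.ord (H.x j s : K) : ℝ)) = (Q.ord (H.x j s : K) : ℝ) :=
    le_antisymm (ciInf_le (Finite.bddBelow_range _) s)
      (le_ciInf fun t => by exact_mod_cast hs t)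
  rw [h1, h2]

private theorem hypZ_zero (H : Emb K m) (j : J) (Q : DVal K)
    (h : ∀ s : Fin (m j + 1), Q.ord (H.x j s : K) = 0) : hypZ H j Q = 0 := by
  unfold hypZ
  simp [h]

private theorem ord_prod_zpow' (O : DVal K) {κ : Type} [Fintype κ] (v : κ → Kˣ) (y : κ → ℤ) :
    O.ord ((∏ k, v k ^ y k : Kˣ) : K) = ∑ k, O.ord (v k) * y k := by
  rw [Units.coe_prod, O.ord_prod _ _ (fun i _ => Units.ne_zero _)]
  refine Finset.sum_congr rfl fun k _ => ?_
  rw [Units.val_zpow_eq_zpow_val, O.ord_zpow]; ring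

private theorem ordR_eq_sum' (O : DVal K) (f : Kˣ →₀ ℝ) :
    ordR O f = ∑ k : f.support, (O.ord ((k : Kˣ) : K) : ℝ) * f k := by
  unfold ordR Finsupp.sum
  rw [← Finset.sum_coe_sort f.support (fun a => f a * (O.ord (a : K) : ℝ))]
  exact Finset.sum_congr rfl fun k _ => mul_comm _ _

/-- A real effective class is a positive combination of integral effective classes. -/
theorem Emb.effR_decomp (H : Emb K m) (b : J → ℝ) (hb : b ∈ H.EffR) :
    ∃ (N : ℕ) (c : Fin N → ℝ) (a : Fin N → J → ℤ), (∀ n, 0 < c n) ∧ (∀ n, a n ∈ H.EffZ) ∧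
      ∀ j, b j = ∑ n, c n * (a n j : ℝ) := by
  classical
  obtain ⟨f, hf⟩ := hb
  let I : Type := {Q : DVal K // H.model.IsPrimeDiv Q}
  let M : I → (J ⊕ f.support) → ℤ := fun Q =>
    Sum.elim (fun j => hypZ H j Q.1) (fun k => Q.1.ord ((k : Kˣ) : K))
  have hM : (Set.range M).Finite := by
    have hfin : ((⋃ k : f.support, {Q | H.model.IsPrimeDiv Q ∧ Q.ord ((k : Kˣ) : K) ≠ 0}) ∪
        (⋃ v : (Σ j, Fin (m j + 1)),
          {Q | H.model.IsPrimeDiv Q ∧ Q.ord ((H.x v.1 v.2 : Kˣ) : K) ≠ 0})).Finite :=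
      (Set.finite_iUnion fun k : f.support => H.model.finite_ord_ne k).union
        (Set.finite_iUnion fun v : (Σ j, Fin (m j + 1)) => H.model.finite_ord_ne (H.x v.1 v.2))
    refine Set.Finite.subset ((hfin.image fun (Q : DVal K) => (Sum.elim (fun j => hypZ H j Q)
      (fun k => Q.ord ((k : Kˣ) : K)) : (J ⊕ f.support) → ℤ)).union (Set.finite_singleton 0)) ?_
    rintro _ ⟨Q, rfl⟩
    by_cases h : M Q = 0
    · right; exact h
    · left
      refine ⟨Q.1, ?_, rfl⟩
      obtain ⟨k, hk⟩ := Function.ne_iff.1 h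
      rcases k with j | k
      · right
        have hk' : hypZ H j Q.1 ≠ 0 := hk
        have : ∃ s : Fin (m j + 1), Q.1.ord (H.x j s : K) ≠ 0 := by
          by_contra hcon
          push Not at hcon
          exact hk' (hypZ_zero H j Q.1 hcon)
        obtain ⟨s, hs⟩ := this
        exact Set.mem_iUnion.2 ⟨⟨j, s⟩, Q.2, hs⟩
      · left
        exact Set.mem_iUnion.2 ⟨k, Q.2, hk⟩
  have hx : ∀ Q : I, 0 ≤ ∑ k : J ⊕ f.support, (M Q k : ℝ) *
      (Sum.elim b (fun k : f.support => f k) k : ℝ) := by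
    intro Q
    have := hf Q.1 Q.2
    rw [ordR_eq_sum'] at this
    rw [Fintype.sum_sum_type]
    refine this.trans (le_of_eq ?_)
    congr 1
    refine Finset.sum_congr rfl fun j _ => ?_
    change b j * H.hyp j Q.1 = ((hypZ H j Q.1 : ℤ) : ℝ) * b j
    rw [hypZ_cast]; ring
  obtain ⟨N, c, y, hc, hy, hxy⟩ := rational_decomp M hM _ hx
  refine ⟨N, c, fun n j => y n (Sum.inl j), hc, ?_, fun j => hxy (Sum.inl j)⟩
  intro n
  refine ⟨∏ k : f.support, (k : Kˣ) ^ y n (Sum.inr k), ?_⟩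
  intro Q hQ
  have h1 := hy n ⟨Q, hQ⟩
  rw [Fintype.sum_sum_type] at h1
  change 0 ≤ ∑ j, hypZ H j Q * y n (Sum.inl j) +
    ∑ k : f.support, Q.ord ((k : Kˣ) : K) * y n (Sum.inr k) at h1
  rw [ord_prod_zpow' Q (fun k : f.support => (k : Kˣ)) (fun k => y n (Sum.inr k))]
  have h2 : (0 : ℝ) ≤ ((∑ j, hypZ H j Q * y n (Sum.inl j) +
    ∑ k : f.support, Q.ord ((k : Kˣ) : K) * y n (Sum.inr k) : ℤ) : ℝ) := by exact_mod_cast h1
  rw [Int.cast_add, add_comm] at h2
  refine h2.trans (le_of_eq ?_)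
  congr 1
  push_cast
  refine Finset.sum_congr rfl fun j _ => ?_
  rw [hypZ_cast]; ring

end Pool.Agent.LibGMW
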