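import Pool.Agent.LibGMW.Base

/-! TASK FIB2: the dimension, if all coordinates are algebraic over the field of some of them. -/

open scoped Classical KaehlerDifferential

namespace Pool.Agent.LibGMW

open Pool.Agent.LibGMM MvPolynomial

variable {K : Type} [Field K] [Algebra ℂ K] {J : Type} [Fintype J] {m : J → ℕ}

/-- The field of constants of a derivation. -/
private def Fib2_ker {M : Type} [AddCommGroup M] [Module K M] [Module ℂ M] [IsScalarTower ℂ K M]
    (d : Derivation ℂ K M) : IntermediateField ℂ K where
  carrier := {y | d y = 0}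
  mul_mem' := by
    intro a b ha hb
    simp only [Set.mem_ofPred_eq] at *
    rw [d.leibniz, ha, hb, smul_zero, smul_zero, add_zero]
  add_mem' := by
    intro a b ha hb
    simp only [Set.mem_ofPred_eq] at *
    rw [map_add, ha, hb, add_zero]
  algebraMap_mem' := by
    intro c
    simp only [Set.mem_ofPred_eq]
    exact d.map_algebraMap c
  inv_mem' := by
    intro a ha
    simp only [Set.mem_ofPred_eq] at *
    change d a = 0 at ha
    rw [d.leibniz_inv, ha, smul_zero]

/-- A derivation which is zero on a subfield, over which `K` is algebraic, is zero. -/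
private theorem Fib2_zero {M : Type} [AddCommGroup M] [Module K M] [Module ℂ M]
    [IsScalarTower ℂ K M] (d : Derivation ℂ K M) (L : IntermediateField ℂ K)
    [Algebra.IsAlgebraic L K] (hL : ∀ y ∈ L, d y = 0) (y : K) : d y = 0 := by
  have : CharZero L := charZero_of_injective_algebraMap (algebraMap ℂ L).injective
  have : Algebra.IsSeparable L K := inferInstance
  have : Algebra.FormallyUnramified L K := Algebra.FormallyUnramified.of_isSeparable L K
  let d' : Derivation L K M := Derivation.mk'
    { toFun := d
      map_add' := fun a b => map_add d a b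
      map_smul' := by
        intro c a
        change d ((c : K) * a) = (c : K) • d a
        rw [d.leibniz, hL c c.2, smul_zero, add_zero] }
    (fun a b => d.leibniz a b)
  have h1 : d' y = 0 := by
    rw [← d'.liftKaehlerDifferential_comp_D y,
      Subsingleton.elim (KaehlerDifferential.D L K y) 0, map_zero]
  exact h1

/-- If the ratios of all coordinates are algebraic over the field `L = E.base S` generated by those of
the factors in `S`, then `K` is algebraic over `L` (`E.frac`, `E.chart_eq_proj`: the elements of `K` are
ratios of polynomials in the ratios of the coordinates), so the `K`-vector space `Ω[K⁄ℂ]` is spanned by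
the differentials of the elements of `L` (for `y` algebraic over `L` with minimal polynomial `p`,
`0 = D (p y) = p'(y) D y + ∑ y ^ k D (coefficients)`, `p'(y) ≠ 0` in characteristic zero; or use that
`K / L` is formally unramified), and hence by the differentials of the generators
`x j r / x j 0`, `j ∈ S`, `r ≠ 0` (`D` of a ratio, a product, a sum; `IntermediateField.adjoin`
induction; `x j r / x j r' = (x j r / x j 0) / (x j r' / x j 0)`, the generators with `r = 0` are
`1`). Their number is `∑ j ∈ S, m j` (`finrank_range_le_card` or `finrank_span_le_card`). -/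
theorem Emb.finrank_le_of_isAlgebraic (E : Emb K m) (S : Set J)
    (h : ∀ j r r', IsAlgebraic (E.base S) ((E.x j r : K) / E.x j r')) :
    Module.finrank K (Ω[K⁄ℂ]) ≤ ∑ j ∈ Finset.univ.filter (fun j => j ∈ S), m j := by
  have hchart : ∀ c ∈ chart (segre E.x) (fun _ => 0), IsAlgebraic (E.base S) c := by
    intro c hc
    rw [E.chart_eq_proj] at hc
    unfold Emb.proj at hc
    induction hc using Algebra.adjoin_induction with
    | mem x hx => obtain ⟨j, -, r, rfl⟩ := hx; exact h j r 0
    | algebraMap z => exact isAlgebraic_algebraMap (algebraMap ℂ (E.base S) z)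
    | add x y _ _ h1 h2 => exact h1.add h2
    | mul x y _ _ h1 h2 => exact h1.mul h2
  have halg : Algebra.IsAlgebraic (E.base S) K := by
    constructor
    intro y
    obtain ⟨a, ha, b, hb, -, rfl⟩ := E.frac (fun _ => 0) y
    rw [div_eq_mul_inv]
    exact (hchart a ha).mul (hchart b hb).inv
  let gen : (Σ j : {j // j ∈ S}, Fin (m j)) → K := fun i =>
    (E.x i.1 i.2.succ : K) / E.x i.1 0
  let v : (Σ j : {j // j ∈ S}, Fin (m j)) → Ω[K⁄ℂ] := fun i => KaehlerDifferential.D ℂ K (gen i)
  let N : Submodule K (Ω[K⁄ℂ]) := Submodule.span K (Set.range v)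
  let d : Derivation ℂ K (Ω[K⁄ℂ] ⧸ N) := N.mkQ.compDer (KaehlerDifferential.D ℂ K)
  have hgen : ∀ i, d (gen i) = 0 := by
    intro i
    change N.mkQ (KaehlerDifferential.D ℂ K (gen i)) = 0
    rw [Submodule.mkQ_apply, Submodule.Quotient.mk_eq_zero]
    exact Submodule.subset_span ⟨i, rfl⟩
  have hr : ∀ j ∈ S, ∀ r, (E.x j r : K) / E.x j 0 ∈ Fib2_ker d := by
    intro j hj r
    rcases Fin.eq_zero_or_eq_succ r with rfl | ⟨r, rfl⟩
    · rw [div_self (Units.ne_zero _)]
      exact (Fib2_ker d).one_mem
    · exact hgen ⟨⟨j, hj⟩, r⟩
  have hle : E.base S ≤ Fib2_ker d := by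
    unfold Emb.base
    rw [IntermediateField.adjoin_le_iff]
    rintro _ ⟨j, hj, r, r', rfl⟩
    have h1 : (E.x j r : K) / E.x j r' = ((E.x j r : K) / E.x j 0) / ((E.x j r' : K) / E.x j 0) := by
      rw [div_div_div_cancel_right₀ (Units.ne_zero _)]
    rw [h1]
    exact (Fib2_ker d).div_mem (hr j hj r) (hr j hj r')
  have hd : ∀ y, d y = 0 := Fib2_zero d (E.base S) fun y hy => hle hy
  have htop : N = ⊤ := by
    rw [eq_top_iff, ← KaehlerDifferential.span_range_derivation, Submodule.span_le]
    rintro _ ⟨y, rfl⟩
    have h1 := hd y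
    change N.mkQ (KaehlerDifferential.D ℂ K y) = 0 at h1
    rwa [Submodule.mkQ_apply, Submodule.Quotient.mk_eq_zero] at h1
  have h1 : Module.finrank K (Ω[K⁄ℂ]) ≤ Fintype.card (Σ j : {j // j ∈ S}, Fin (m j)) := by
    have h2 := finrank_range_le_card (R := K) v
    unfold Set.finrank at h2
    change Module.finrank K N ≤ _ at h2
    rw [htop, finrank_top] at h2
    exact h2
  refine h1.trans (le_of_eq ?_)
  rw [Fintype.card_sigma]
  simp only [Fintype.card_fin]
  rw [← Finset.sum_subtype (Finset.univ.filter (fun j => j ∈ S)) (by simp) (fun j => m j)]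

end Pool.Agent.LibGMW
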