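import Pool.Agent.LibGMW.Liou
import Pool.Agent.LibGMW.EmbApi

/-! TASK FIB3: coordinates of effective classes, general position. -/

open scoped Classical

namespace Pool.Agent.LibGMW

open Pool.Agent.LibGMM MvPolynomial

variable {K : Type} [Field K] [Algebra ℂ K] {J : Type} [Fintype J] {m : J → ℕ}

/-- The function `g_s`. -/
private noncomputable def Fib3_g (D : Emb K m) (j : J) (a : J → ℤ) (g : Kˣ)
    (s : Fin (m j + 1)) : Kˣ :=
  g * (∏ h ∈ Finset.univ.erase j, D.x h 0 ^ (- a h)) * D.x j s ^ (- a j)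

private theorem Fib3_ord (D : Emb K m) (j : J) (a : J → ℤ) (g : Kˣ)
    (s : Fin (m j + 1)) (Q : DVal K) :
    Q.ord (Fib3_g D j a g s : K) = Q.ord (g : K) +
      ∑ h ∈ Finset.univ.erase j, (- a h) * Q.ord (D.x h 0 : K) +
      (- a j) * Q.ord (D.x j s : K) := by
  unfold Fib3_g
  rw [Units.val_mul, Units.val_mul,
    Q.ord_mul' (mul_ne_zero (Units.ne_zero _) (Units.ne_zero _)) (Units.ne_zero _),
    Q.ord_mul' (Units.ne_zero _) (Units.ne_zero _),
    Units.coe_prod, Q.ord_prod _ _ (fun h _ => Units.ne_zero _), Units.val_zpow_eq_zpow_val,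
    Q.ord_zpow]
  congr 2
  refine Finset.sum_congr rfl fun h _ => ?_
  rw [Units.val_zpow_eq_zpow_val, Q.ord_zpow]

private theorem Fib3_ratio (D : Emb K m) (j : J) (a : J → ℤ) (g : Kˣ)
    (s s' : Fin (m j + 1)) :
    (Fib3_g D j a g s : K) / (Fib3_g D j a g s' : K) =
      ((D.x j s : K) / (D.x j s' : K)) ^ (- a j) := by
  have h1 : Fib3_g D j a g s / Fib3_g D j a g s' = (D.x j s / D.x j s') ^ (- a j) := by
    unfold Fib3_g
    rw [div_zpow, mul_div_mul_left_eq_div]
  have h2 := congrArg (Units.val) h1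
  rw [Units.val_div_eq_div_val, Units.val_zpow_eq_zpow_val, Units.val_div_eq_div_val] at h2
  exact h2

/-- Suppose the class `a` is effective and `a j < 0`. Then the ratios of the coordinates of the `j`-th
factor are algebraic over the field generated by the coordinates of all other factors. (Same proof as
`Multilin.soft` in LibGMW/Soft.lean, with all factors `≠ j` in the place of the factors `≠ l, i, j`:
let `g_s = g * ∏ (x h 0) ^ (- a h) * (x j s) ^ (- a j)`, the product over all `h ≠ j`; by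
`Emb.liouville` the `g_s` are algebraic, hence `g_s / g_s' = (x j s / x j s') ^ (- a j)` is.) -/
theorem Emb.isAlgebraic_of_neg (E : Emb K m) (a : J → ℤ) (ha : a ∈ E.EffZ) (j : J) (hj : a j < 0)
    (r r' : Fin (m j + 1)) : IsAlgebraic (E.base {h | h ≠ j}) ((E.x j r : K) / E.x j r') := by
  obtain ⟨g, hg⟩ := ha
  have halg : ∀ s, IsAlgebraic (E.base {h | h ≠ j}) (Fib3_g E j a g s : K) := by
    intro s
    by_contra htr
    obtain ⟨Q, hQ, hQneg, hQS⟩ := E.liouville {h | h ≠ j} (Fib3_g E j a g s : K) htr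
    have h1 := hg Q hQ
    rw [← Finset.add_sum_erase _ _ (Finset.mem_univ j)] at h1
    have h2 : ∑ h ∈ Finset.univ.erase j, (a h : ℝ) * E.hyp h Q =
        ∑ h ∈ Finset.univ.erase j, (((- a h) * Q.ord (E.x h 0 : K) : ℤ) : ℝ) := by
      refine Finset.sum_congr rfl fun h hh => ?_
      rw [Finset.mem_erase] at hh
      obtain ⟨t, ht⟩ := E.exists_hyp_eq h Q
      have h3 := hQS h hh.1 t 0
      rw [ht, h3]
      push_cast
      ring
    have h3 := E.neg_hyp_le j s Q
    have h5 : (a j : ℝ) * E.hyp j Q ≤ (((- a j) * Q.ord (E.x j s : K) : ℤ) : ℝ) := by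
      have h6 : (0 : ℝ) ≤ -(a j : ℝ) := by
        have : (a j : ℝ) < 0 := by exact_mod_cast hj
        linarith
      push_cast
      nlinarith
    have h8 : (0 : ℝ) ≤ (Q.ord (Fib3_g E j a g s : K) : ℝ) := by
      rw [Fib3_ord]
      rw [h2] at h1
      push_cast at h1 h5 ⊢
      linarith
    have h9 : (0 : ℤ) ≤ Q.ord (Fib3_g E j a g s : K) := by exact_mod_cast h8
    omega
  have h1 := (halg r).mul (halg r').inv
  rw [← div_eq_mul_inv, Fib3_ratio] at h1
  have h2 : - a j = ((- a j).toNat : ℤ) := (Int.toNat_of_nonneg (by omega)).symm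
  rw [h2, zpow_natCast] at h1
  exact IsAlgebraic.of_pow (by omega) h1

end Pool.Agent.LibGMW
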