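import Pool.Agent.LibGMW.CanApp
import Pool.Agent.LibGMW.CompatCls
import Pool.Agent.LibGMW.Fib2
import Pool.Agent.LibGMW.Fib3

/-! Coordinates of effective classes at the factors of large dimension. -/

open scoped Classical KaehlerDifferential

namespace Pool.Agent.LibGMW

open Pool.Agent.LibGMM MvPolynomial

theorem card_affIdx {J : Type} [Fintype J] {m : J → ℕ} (s : (j : J) → Fin (m j + 1)) :
    Fintype.card (AffIdx s) = ∑ j, m j := by
  have h1 := sum_affIdx s (fun v : Σ j, Fin (m j + 1) => if v.2 = s v.1 then 0 else 1)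
    (fun j => by simp)
  have h2 : ∑ v : AffIdx s, (if v.1.2 = s v.1.1 then 0 else 1) = Fintype.card (AffIdx s) := by
    rw [← Finset.card_univ, Finset.card_eq_sum_ones]
    exact Finset.sum_congr rfl fun v _ => if_neg v.2
  rw [← h2, ← h1, Fintype.sum_sigma]
  refine Finset.sum_congr rfl fun j _ => ?_
  have h3 : ∑ r : Fin (m j + 1), (if r = s j then 0 else 1) + 1 = m j + 1 := by
    have h4 : ∑ r : Fin (m j + 1), ((if r = s j then 0 else 1) + (if r = s j then 1 else 0)) =
        m j + 1 := by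
      have h5 : ∀ r : Fin (m j + 1), ((if r = s j then 0 else 1) + (if r = s j then 1 else 0)) = 1 := by
        intro r
        split_ifs <;> rfl
      rw [Finset.sum_congr rfl fun r _ => h5 r]
      simp
    rw [Finset.sum_add_distrib] at h4
    simpa using h4
  exact Nat.succ_injective h3

variable {P R : Type} [Fintype P] [Fintype R] {n : ℕ} {m e : R → ℕ}
  {K : Type} [Field K] [Algebra ℂ K] {T : FormTensor P n m e} {l i : P}

/-- The dimension of `X_l`. -/
theorem Multilin.finrank_add_one (D : Multilin K T l) (h : l ≠ i)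
    (hdims : ∀ j, 1 ≤ dims (P := P) n m j) (hdet : (matP T l i).det ≠ 0)
    (hadj : ∃ a b, (D.mat i).adjugate a b ≠ 0) (he : ∀ r, 1 ≤ e r) :
    Module.finrank K (Ω[K⁄ℂ]) + 1 =
      ∑ j ∈ (Finset.univ.erase (Sum.inl l)).erase (Sum.inl i), dims n m j := by
  have hd : ∀ j : others (P := P) (R := R) l i, 1 ≤ (n + 1) * degs e j.1 := by
    intro j
    have h1 : 1 ≤ degs e j.1 := by
      rcases j with ⟨p | r, _⟩
      · exact le_rfl
      · exact he r
    exact Nat.mul_pos (Nat.succ_pos n) h1
  set H := D.preHyp h hdims hdet hadj with hH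
  obtain ⟨k, hk, -⟩ := H.exists_ld_ne_zero' (fun _ => 0) hd
  have h1 := (H.finrank_eq (fun _ => 0) hd).2 ⟨k, hk⟩
  have h2 : Fintype.card {v : AffIdx (m := subDim (dims n m) (others (P := P) l i))
      (fun _ => 0) // v ≠ ⟨k, hk⟩} + 1 =
      Fintype.card (AffIdx (m := subDim (dims n m) (others (P := P) l i)) (fun _ => 0)) := by
    have h3 := Fintype.card_subtype_compl (fun v : AffIdx (m := subDim (dims n m)
      (others (P := P) l i)) (fun _ => 0) => v = ⟨k, hk⟩)
    rw [Fintype.card_subtype_eq] at h3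
    have h4 : 0 < Fintype.card (AffIdx (m := subDim (dims n m) (others (P := P) l i))
      (fun _ => 0)) := Fintype.card_pos_iff.2 ⟨⟨k, hk⟩⟩
    simp only [ne_eq]
    omega
  have h5 : Module.finrank K (Ω[K⁄ℂ]) + 1 =
      Fintype.card (AffIdx (m := subDim (dims n m) (others (P := P) l i)) (fun _ => 0)) := by
    rw [← h1]
    convert h2
  rw [h5, card_affIdx]
  have h3 : (Finset.univ.erase (Sum.inl l)).erase (Sum.inl i) =
      Finset.univ.filter fun j : P ⊕ R => j ∈ others l i := by
    ext j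
    simp [others, and_comm]
  rw [h3, Finset.sum_subtype (p := fun j => j ∈ others l i) _ (by simp) (fun j => dims n m j)]

/-- The coordinates of effective classes at the factors of dimension at least `n + 2` are not
negative. -/
theorem Multilin.nonneg_of_large (D : Multilin K T l) (h : l ≠ i)
    (hdims : ∀ j, 1 ≤ dims (P := P) n m j) (hdet : (matP T l i).det ≠ 0)
    (hadj : ∃ a b, (D.mat i).adjugate a b ≠ 0) (he : ∀ r, 1 ≤ e r) (r : R) (hr : n + 2 ≤ m r)
    (a : P ⊕ R → ℤ) (ha : a ∈ D.EffZ) : 0 ≤ a (Sum.inr r) := by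
  by_contra hneg
  push Not at hneg
  have halg := D.toEmb.isAlgebraic_of_neg a ha (Sum.inr r) hneg
  have hbase : D.base {h | h ≠ Sum.inr r} = D.base {h | h ≠ Sum.inr r ∧ h ≠ Sum.inl l} := by
    unfold Emb.base
    apply le_antisymm
    · rw [IntermediateField.adjoin_le_iff]
      rintro _ ⟨j, hj, t, t', rfl⟩
      by_cases hjl : j = Sum.inl l
      · subst hjl
        rw [D.one, D.one]
        simp only [Units.val_one, div_one]
        exact one_mem _
      · exact IntermediateField.subset_adjoin _ _ ⟨j, ⟨hj, hjl⟩, t, t', rfl⟩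
    · apply IntermediateField.adjoin.mono
      rintro _ ⟨j, hj, t, t', rfl⟩
      exact ⟨j, hj.1, t, t', rfl⟩
  have h1 : ∀ j t t', IsAlgebraic (D.base {h | h ≠ Sum.inr r ∧ h ≠ Sum.inl l})
      ((D.x j t : K) / D.x j t') := by
    intro j t t'
    rw [← hbase]
    by_cases hj : j = Sum.inr r
    · subst hj
      exact halg t t'
    · have h2 : (D.x j t : K) / D.x j t' ∈ D.base {h | h ≠ Sum.inr r} :=
        IntermediateField.subset_adjoin _ _ ⟨j, hj, t, t', rfl⟩
      exact isAlgebraic_algebraMap (⟨_, h2⟩ : D.base {h | h ≠ Sum.inr r})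
  have h2 := D.toEmb.finrank_le_of_isAlgebraic _ h1
  have h3 := D.finrank_add_one h hdims hdet hadj he
  have hil : (Sum.inl i : P ⊕ R) ≠ Sum.inl l := fun h' => h (Sum.inl_injective h').symm
  replace h2 := h2.trans (le_of_eq (Finset.sum_congr (s₂ := (Finset.univ.erase
    (Sum.inl l : P ⊕ R)).erase (Sum.inr r)) (by ext j; simp) fun _ _ => rfl))
  rw [← Finset.add_sum_erase _ (fun j => dims n m j) (a := Sum.inl i)
    (Finset.mem_erase.2 ⟨Sum.inl_ne_inr, Finset.mem_erase.2 ⟨hil, Finset.mem_univ _⟩⟩)] at h2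
  rw [← Finset.add_sum_erase ((Finset.univ.erase (Sum.inl l)).erase (Sum.inl i))
    (fun j => dims n m j) (a := Sum.inr r)
    (Finset.mem_erase.2 ⟨Sum.inr_ne_inl, Finset.mem_erase.2 ⟨Sum.inr_ne_inl, Finset.mem_univ _⟩⟩),
    Finset.erase_right_comm] at h3
  simp only [Sum.elim_inl, Sum.elim_inr] at h2 h3
  omega

end Pool.Agent.LibGMW
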