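import Pool.Agent.LibGMW.Compat

/-! TASK WORDS: sequences of flops, numerically. -/

open scoped Classical

namespace Pool.Agent.LibGMW

variable {P R : Type}

/-- The label of the last variety of a sequence of flops starting at `X_l` (the sequence is read from
the right to the left). -/
def lab (l : P) : List P → P
  | [] => l
  | i :: _ => i

/-- The action of a sequence of flops on classes. -/
noncomputable def act {A : Type} [CommRing A] (n : ℕ) (e : R → ℕ) (l : P) : List P → (P ⊕ R → A) → (P ⊕ R → A)
  | [], b => b
  | i :: w, b => flip n e (lab l w) i (act n e l w b)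

/-- Consecutive labels are different. -/
def Valid (l : P) : List P → Prop
  | [] => True
  | i :: w => lab l w ≠ i ∧ Valid l w

theorem flip_flip {A : Type} [CommRing A] (n : ℕ) (e : R → ℕ) (l i : P) (h : l ≠ i) (b : P ⊕ R → A)
    (hb : b (Sum.inl l) = 0) : flip n e i l (flip n e l i b) = b := by
  have hli : (Sum.inl l : P ⊕ R) ≠ Sum.inl i := fun h' => h (Sum.inl_injective h')
  funext j
  by_cases hji : j = Sum.inl i
  · subst hji
    simp [flip]
  · by_cases hjl : j = Sum.inl l
    · subst hjl
      simp [flip, hli, hb]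
    · simp [flip, hji, hjl]

theorem flip_real (n : ℕ) (e : R → ℕ) (l i : P) (a : P ⊕ R → ℤ) :
    (flip n e l i fun j => (a j : ℝ)) = fun j => ((flip n e l i a j : ℤ) : ℝ) := by
  funext j
  unfold flip
  split_ifs <;> push_cast <;> rfl

theorem flip_add {A : Type} [CommRing A] (n : ℕ) (e : R → ℕ) (l i : P) (b b' : P ⊕ R → A) :
    flip n e l i (b + b') = flip n e l i b + flip n e l i b' := by
  funext j
  simp only [flip, Pi.add_apply]
  split_ifs <;> ring

theorem flip_smul {A : Type} [CommRing A] (n : ℕ) (e : R → ℕ) (l i : P) (c : A) (b : P ⊕ R → A) :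
    flip n e l i (c • b) = c • flip n e l i b := by
  funext j
  simp only [flip, Pi.smul_apply, smul_eq_mul]
  split_ifs <;> ring

theorem act_real (n : ℕ) (e : R → ℕ) (l : P) (w : List P) (a : P ⊕ R → ℤ) :
    (act n e l w fun j => (a j : ℝ)) = fun j => ((act n e l w a j : ℤ) : ℝ) := by
  induction w with
  | nil => rfl
  | cons i w ih =>
    change flip n e (lab l w) i (act n e l w fun j => (a j : ℝ)) =
      fun j => ((flip n e (lab l w) i (act n e l w a) j : ℤ) : ℝ)
    rw [ih, flip_real]

theorem act_add {A : Type} [CommRing A] (n : ℕ) (e : R → ℕ) (l : P) (w : List P) (b b' : P ⊕ R → A) :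
    act n e l w (b + b') = act n e l w b + act n e l w b' := by
  induction w with
  | nil => rfl
  | cons i w ih =>
    change flip n e (lab l w) i (act n e l w (b + b')) =
      flip n e (lab l w) i (act n e l w b) + flip n e (lab l w) i (act n e l w b')
    rw [ih, flip_add]

theorem act_smul {A : Type} [CommRing A] (n : ℕ) (e : R → ℕ) (l : P) (w : List P) (c : A) (b : P ⊕ R → A) :
    act n e l w (c • b) = c • act n e l w b := by
  induction w with
  | nil => rfl
  | cons i w ih =>
    change flip n e (lab l w) i (act n e l w (c • b)) = c • flip n e (lab l w) i (act n e l w b)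
    rw [ih, flip_smul]

theorem act_sum {A : Type} [CommRing A] (n : ℕ) (e : R → ℕ) (l : P) (w : List P) (N : ℕ) (c : Fin N → A)
    (b : Fin N → P ⊕ R → A) :
    (act n e l w fun j => ∑ k, c k * b k j) = fun j => ∑ k, c k * act n e l w (b k) j := by
  induction w with
  | nil => rfl
  | cons i w ih =>
    change flip n e (lab l w) i (act n e l w fun j => ∑ k, c k * b k j) =
      fun j => ∑ k, c k * flip n e (lab l w) i (act n e l w (b k)) j
    rw [ih]
    funext j
    simp only [flip]
    split_ifs
    · rw [← Finset.sum_neg_distrib]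
      exact Finset.sum_congr rfl fun k _ => by ring
    · simp
    · rw [Finset.mul_sum, ← Finset.sum_add_distrib]
      exact Finset.sum_congr rfl fun k _ => by ring

/-- Classes with coordinates `0` at all labels in `P` do not change. -/
theorem act_fix {A : Type} [CommRing A] (n : ℕ) (e : R → ℕ) (l : P) (w : List P) (b : P ⊕ R → A)
    (hb : ∀ p, b (Sum.inl p) = 0) : act n e l w b = b := by
  induction w with
  | nil => rfl
  | cons i w ih =>
    change flip n e (lab l w) i (act n e l w b) = b
    rw [ih]
    funext j
    simp only [flip]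
    split_ifs with h1 h2
    · rw [h1, hb, hb, neg_zero]
    · rw [h2, hb]
    · rw [hb, mul_zero, add_zero]

/-- The coordinate with the label of the last variety is `0`. -/
theorem act_lab {A : Type} [CommRing A] (n : ℕ) (e : R → ℕ) (l : P) (w : List P) (hw : Valid l w)
    (b : P ⊕ R → A) (hb : b (Sum.inl l) = 0) : act n e l w b (Sum.inl (lab l w)) = 0 := by
  cases w with
  | nil => exact hb
  | cons i w =>
    change flip n e (lab l w) i (act n e l w b) (Sum.inl i) = 0
    have h1 : (Sum.inl i : P ⊕ R) ≠ Sum.inl (lab l w) := fun h' => hw.1 (Sum.inl_injective h').symm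
    simp [flip, h1]

variable [Fintype P] [Fintype R]

/-- The sum of the coordinates. -/
theorem sum_flip (n : ℕ) (e : R → ℕ) (l i : P) (h : l ≠ i) (b : P ⊕ R → ℤ) (hb : b (Sum.inl l) = 0) :
    ∑ j, flip n e l i b j = ∑ j, b j +
      (((Fintype.card P : ℤ) + (∑ r, (e r : ℤ)) - 2) * n - 2) * b (Sum.inl i) := by
  have hli : (Sum.inl i : P ⊕ R) ≠ Sum.inl l := fun h' => h (Sum.inl_injective h').symm
  have h1 : ∀ j, flip n e l i b j = (b j + ((n * degs e j : ℕ) : ℤ) * b (Sum.inl i)) +
      ((if j = Sum.inl l then (- b (Sum.inl i) - (b (Sum.inl l) + n * b (Sum.inl i))) else 0) +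
      (if j = Sum.inl i then (0 - (b (Sum.inl i) + n * b (Sum.inl i))) else 0)) := by
    intro j
    by_cases hjl : j = Sum.inl l
    · subst hjl
      simp [flip, hli.symm]
    · by_cases hji : j = Sum.inl i
      · subst hji
        simp [flip, hli]
      · simp [flip, hji, hjl]
  rw [Finset.sum_congr rfl fun j _ => h1 j, Finset.sum_add_distrib, Finset.sum_add_distrib,
    Finset.sum_add_distrib, Finset.sum_ite_eq' Finset.univ, Finset.sum_ite_eq' Finset.univ]
  have h2 : ∑ j : P ⊕ R, ((n * degs e j : ℕ) : ℤ) * b (Sum.inl i) =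
      ((Fintype.card P : ℤ) + ∑ r, (e r : ℤ)) * n * b (Sum.inl i) := by
    rw [← Finset.sum_mul, Fintype.sum_sum_type]
    congr 1
    simp only [Sum.elim_inl, Sum.elim_inr, mul_one, Finset.sum_const, Finset.card_univ,
      nsmul_eq_mul, Nat.cast_mul]
    rw [← Finset.mul_sum]
    ring
  rw [h2]
  simp only [Finset.mem_univ, if_true, hb]
  ring

end Pool.Agent.LibGMW
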