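import Pool.Agent.LibGMW.CompatEx
import Pool.Agent.LibGMW.CompatSym
import Pool.Agent.LibGMW.CompatPr
import Pool.Agent.LibGMW.CompatCls
import Pool.Agent.LibGMW.Words

/-! Sequences of flops. -/

open scoped Classical

namespace Pool.Agent.LibGMW

open Pool.Agent.LibGMM

section trans

variable {K : Type} [Field K] [Algebra ℂ K] {J : Type} [Fintype J] {m : J → ℕ}

/-- An identification of the prime divisors and of the classes of two varieties. -/
structure Trans (E E' : Emb K m) (τ : K ≃ₐ[ℂ] K) (w : (J → ℝ) → (J → ℝ)) : Prop where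
  prime : ∀ Q, E'.model.IsPrimeDiv (Q.map τ) ↔ E.model.IsPrimeDiv Q
  cls : ∀ b : J → ℝ, E.model.RLinEq (fun Q => ∑ j, w b j * E'.hyp j (Q.map τ))
    (fun Q => ∑ j, b j * E.hyp j Q)

theorem trans_id (E : Emb K m) : Trans E E AlgEquiv.refl id where
  prime Q := by
    have : Q.map (AlgEquiv.refl : K ≃ₐ[ℂ] K) = Q := by cases Q; rfl
    rw [this]
  cls b := ⟨0, fun Q _ => by
    have : Q.map (AlgEquiv.refl : K ≃ₐ[ℂ] K) = Q := by cases Q; rfl
    beta_reduce
    rw [this]; simp⟩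

theorem Trans.comp {E E' E'' : Emb K m} {τ τ' : K ≃ₐ[ℂ] K} {w w' : (J → ℝ) → (J → ℝ)}
    (h : Trans E E' τ w) (h' : Trans E' E'' τ' w') : Trans E E'' (τ.trans τ') (w' ∘ w) where
  prime Q := by rw [DVal.map_trans, h'.prime, h.prime]
  cls b := by
    obtain ⟨f, hf⟩ := h.cls b
    obtain ⟨g, hg⟩ := h'.cls (w b)
    obtain ⟨g', hg'⟩ := exists_ordR_map τ g
    refine ⟨f + g', fun Q hQ => ?_⟩
    have h1 := hf Q hQ
    have h2 := hg (Q.map τ) ((h.prime Q).2 hQ)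
    simp only [Function.comp] at h1 h2 ⊢
    rw [DVal.map_trans, h2, h1, ordR_add, hg']; ring

theorem Trans.effR {E E' : Emb K m} {τ : K ≃ₐ[ℂ] K} {w : (J → ℝ) → (J → ℝ)}
    (h : Trans E E' τ w) {b : J → ℝ} (hb : b ∈ E.EffR) : w b ∈ E'.EffR := by
  obtain ⟨f, hf⟩ := hb
  obtain ⟨g, hg⟩ := h.cls b
  obtain ⟨f', hf'⟩ := exists_ordR_map τ.symm (f - g)
  refine ⟨f', fun Q' hQ' => ?_⟩
  have hQ : E.model.IsPrimeDiv (Q'.map τ.symm) := by
    rw [← h.prime, DVal.map_symm_map]; exact hQ'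
  have h1 := hf _ hQ
  have h2 := hg _ hQ
  simp only [DVal.map_symm_map] at h2
  rw [h2, ← hf', ordR_sub]
  linarith

end trans

variable {P R : Type} [Fintype P] [Fintype R] {n : ℕ} {m e : R → ℕ}
  {K : Type} [Field K] [Algebra ℂ K] {T : FormTensor P n m e}

/-- One flop. -/
theorem exists_flop {l i : P} (D : Multilin K T l) (D' : Multilin K T i) (h : l ≠ i)
    (hs : D.Small i) (hs' : D'.Small l) :
    ∃ τ : K ≃ₐ[ℂ] K, Trans D.toEmb D'.toEmb τ (flip n e l i) ∧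
      ∀ a ∈ D.EffZ, flip n e l i a ∈ D'.EffZ := by
  obtain ⟨σ, hc⟩ := exists_compat D D' h hs.1
  obtain ⟨u, hu⟩ := hc.cls h hs
  have hprime : ∀ Q, D'.model.IsPrimeDiv (Q.map σ.symm) ↔ D.model.IsPrimeDiv Q := by
    intro Q
    refine ⟨fun hQ => ?_, fun hQ => hc.prime h hs Q hQ⟩
    have h1 := (hc.symm h).prime h.symm hs' _ hQ
    rw [AlgEquiv.symm_symm, DVal.map_symm_map] at h1
    exact h1
  refine ⟨σ.symm, ⟨hprime, fun b => ?_⟩, ?_⟩
  · refine ⟨∑ j, Finsupp.single (u j) (flip n e l i b j), fun Q hQ => ?_⟩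
    have h1 := hu Q hQ b
    beta_reduce
    rw [h1, ordR_sum]
    simp only [ordR_single]
  · rintro a ⟨g, hg⟩
    refine ⟨Units.map (σ.symm : K →* K) (g * ∏ j, (u j) ^ (- flip n e l i a j)), fun Q' hQ' => ?_⟩
    have hQ : D.model.IsPrimeDiv (Q'.map σ) := by
      rw [← hprime, DVal.map_map_symm]; exact hQ'
    have h1 := hg _ hQ
    have h2 := hu _ hQ (fun j => (a j : ℝ))
    rw [DVal.map_map_symm, flip_real] at h2
    have h3 : (Q'.ord ((Units.map (σ.symm : K →* K) (g * ∏ j, (u j) ^ (- flip n e l i a j)) : Kˣ) : K)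
        : ℝ) = ((Q'.map σ).ord g : ℝ) -
          ∑ j, ((flip n e l i a j : ℤ) : ℝ) * ((Q'.map σ).ord (u j : K) : ℝ) := by
      have h4 : Q'.ord ((Units.map (σ.symm : K →* K) (g * ∏ j, (u j) ^ (- flip n e l i a j)) : Kˣ) : K)
          = (Q'.map σ).ord ((g * ∏ j, (u j) ^ (- flip n e l i a j) : Kˣ) : K) := rfl
      rw [h4, Units.val_mul, DVal.ord_mul _ _ _ (Units.ne_zero _) (Units.ne_zero _), Units.coe_prod,
        DVal.ord_prod _ _ _ (fun j _ => Units.ne_zero _)]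
      push_cast
      rw [sub_eq_add_neg, ← Finset.sum_neg_distrib]
      congr 1
      refine Finset.sum_congr rfl fun j _ => ?_
      rw [DVal.ord_zpow]; push_cast; ring
    rw [h3]
    linarith

variable (D : ∀ l : P, Multilin K T l)

theorem exists_trans (hs : ∀ l i, l ≠ i → (D l).Small i) (l : P) (w : List P) (hw : Valid l w) :
    ∃ τ : K ≃ₐ[ℂ] K, Trans (D l).toEmb (D (lab l w)).toEmb τ (act n e l w) := by
  induction w with
  | nil => exact ⟨AlgEquiv.refl, trans_id _⟩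
  | cons i w ih =>
    obtain ⟨τ, hτ⟩ := ih hw.2
    obtain ⟨τ', hτ', -⟩ := exists_flop (D (lab l w)) (D i) hw.1 (hs _ _ hw.1) (hs _ _ hw.1.symm)
    exact ⟨τ.trans τ', hτ.comp hτ'⟩

theorem act_effZ (hs : ∀ l i, l ≠ i → (D l).Small i) (l : P) (w : List P) (hw : Valid l w)
    (a : P ⊕ R → ℤ) (ha : a ∈ (D l).EffZ) : act n e l w a ∈ (D (lab l w)).EffZ := by
  induction w with
  | nil => exact ha
  | cons i w ih =>
    obtain ⟨τ', -, h⟩ := exists_flop (D (lab l w)) (D i) hw.1 (hs _ _ hw.1) (hs _ _ hw.1.symm)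
    exact h _ (ih hw.2)

end Pool.Agent.LibGMW
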