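import Pool.Agent.LibGMW.Compat
import Pool.Agent.LibGMW.Loc

/-! TASK HOM: points of `X_i` over `K` give homomorphisms of the charts. -/

open scoped Classical

namespace Pool.Agent.LibGMW

open Pool.Agent.LibGMM MvPolynomial

variable {P R : Type} [Fintype P] [Fintype R] {n : ℕ} {m e : R → ℕ}
  {K : Type} [Field K] [Algebra ℂ K] {T : FormTensor P n m e} {i : P}

/-- A common homogenisation for two points with affine coordinates. -/
theorem Hom_homog {J : Type} [Fintype J] {m : J → ℕ} (u u' : (Σ j, Fin (m j + 1)) → K)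
    (s : (j : J) → Fin (m j + 1)) (hs : ∀ j, u ⟨j, s j⟩ = 1) (hs' : ∀ j, u' ⟨j, s j⟩ = 1)
    (g : MvPolynomial (Σ j, Fin (m j + 1)) ℂ) :
    ∃ (e : J → ℕ) (G : MvPolynomial (Σ j, Fin (m j + 1)) ℂ), MultiHom G e ∧
      aeval u G = aeval u g ∧ aeval u' G = aeval u' g := by
  have hfst : ∀ G : MvPolynomial (Σ j, Fin (m j + 1)) ℂ,
      (aeval (fun v => ((u v, u' v) : K × K)) G).1 = aeval u G := by
    intro G
    exact MvPolynomial.comp_aeval_apply (f := fun v => ((u v, u' v) : K × K)) (AlgHom.fst ℂ K K) G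
  have hsnd : ∀ G : MvPolynomial (Σ j, Fin (m j + 1)) ℂ,
      (aeval (fun v => ((u v, u' v) : K × K)) G).2 = aeval u' G := by
    intro G
    exact MvPolynomial.comp_aeval_apply (f := fun v => ((u v, u' v) : K × K)) (AlgHom.snd ℂ K K) G
  obtain ⟨e, G, hG, h⟩ := exists_multiHom (A := K × K) (fun v => ((u v, u' v) : K × K)) s
    (fun j => by
      show ((u ⟨j, s j⟩, u' ⟨j, s j⟩) : K × K) = 1
      rw [hs j, hs' j]
      rfl) (aeval (fun v => ((u v, u' v) : K × K)) g) (by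
      rw [Algebra.adjoin_range_eq_range_aeval]
      exact ⟨g, rfl⟩)
  refine ⟨e, G, hG, ?_, ?_⟩
  · rw [← hfst G, h, hfst g]
  · rw [← hsnd G, h, hsnd g]

/-- Putting the variables of one group equal to one. -/
theorem Hom_kill {J : Type} [Fintype J] {m : J → ℕ} (G : MvPolynomial (Σ j, Fin (m j + 1)) ℂ)
    (e : J → ℕ) (hG : MultiHom G e) (j₀ : J) :
    ∃ (e' : J → ℕ) (G' : MvPolynomial (Σ j, Fin (m j + 1)) ℂ), MultiHom G' e' ∧ e' j₀ = 0 ∧
      ∀ z : (Σ j, Fin (m j + 1)) → K, (∀ v, v.1 = j₀ → z v = 1) → aeval z G' = aeval z G := by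
  refine ⟨_, _, MultiHom.kill G e hG j₀, Function.update_self _ _ _, ?_⟩
  intro z hz
  rw [MvPolynomial.comp_aeval_apply]
  congr 2
  funext v
  by_cases hv : v.1 = j₀
  · rw [if_pos hv, map_one, hz v hv]
  · rw [if_neg hv, aeval_X]

/-- The kernel of the evaluation at the generic point is contained in the kernel of the evaluation
at `w`. -/
theorem Multilin.Hom_ker (D' : Multilin K T i)
    (w : (j : P ⊕ R) → Fin (dims n m j + 1) → K) (hone : ∀ s, w (Sum.inl i) s = 1)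
    (hw : ∀ a, aeval (fun v : Σ j, Fin (dims n m j + 1) => w v.1 v.2) (eqn T i a) = 0)
    (s : (j : P ⊕ R) → Fin (dims n m j + 1)) (hs : ∀ j, w j (s j) ≠ 0)
    (g : MvPolynomial (Σ j : P ⊕ R, Fin (dims n m j + 1)) ℂ)
    (hg : aeval (fun v : Σ j : P ⊕ R, Fin (dims n m j + 1) =>
      (D'.x v.1 v.2 : K) / D'.x v.1 (s v.1)) g = 0) :
    aeval (fun v : Σ j : P ⊕ R, Fin (dims n m j + 1) => w v.1 v.2 / w v.1 (s v.1)) g = 0 := by
  set u : (Σ j : P ⊕ R, Fin (dims n m j + 1)) → K := fun v =>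
    (D'.x v.1 v.2 : K) / D'.x v.1 (s v.1) with hu
  set u' : (Σ j : P ⊕ R, Fin (dims n m j + 1)) → K := fun v => w v.1 v.2 / w v.1 (s v.1) with hu'
  have hus : ∀ j, u ⟨j, s j⟩ = 1 := fun j => div_self (Units.ne_zero _)
  have hus' : ∀ j, u' ⟨j, s j⟩ = 1 := fun j => div_self (hs j)
  obtain ⟨e, G, hG, h1, h2⟩ := Hom_homog u u' s hus hus' g
  rw [← h2]
  rw [hg] at h1
  -- put the variables of the group `i` equal to one
  obtain ⟨e', G', hGh, he', hev⟩ := Hom_kill (K := K) G e hG (Sum.inl i)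
  have hui : ∀ v : Σ j : P ⊕ R, Fin (dims n m j + 1), v.1 = Sum.inl i → u v = 1 := by
    rintro ⟨j, r⟩ hv
    simp only at hv
    subst hv
    show (D'.x (Sum.inl i) r : K) / D'.x (Sum.inl i) (s (Sum.inl i)) = 1
    rw [D'.one, D'.one]
    simp
  have hui' : ∀ v : Σ j : P ⊕ R, Fin (dims n m j + 1), v.1 = Sum.inl i → u' v = 1 := by
    rintro ⟨j, r⟩ hv
    simp only at hv
    subst hv
    show w (Sum.inl i) r / w (Sum.inl i) (s (Sum.inl i)) = 1
    rw [hone, hone]
    simp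
  have hx : aeval (fun v : Σ j : P ⊕ R, Fin (dims n m j + 1) => (D'.x v.1 v.2 : K)) G' = 0 := by
    have h3 := aeval_scale (fun j r => u ⟨j, r⟩) (fun j => (D'.x j (s j) : K)) G' _ hGh
    have h4 : (fun v : Σ j : P ⊕ R, Fin (dims n m j + 1) =>
        (D'.x v.1 (s v.1) : K) * u ⟨v.1, v.2⟩) = fun v => (D'.x v.1 v.2 : K) := by
      funext v
      exact mul_div_cancel₀ _ (Units.ne_zero _)
    rw [h4] at h3
    rw [h3]
    have h5 : aeval (fun v : Σ j : P ⊕ R, Fin (dims n m j + 1) => u ⟨v.1, v.2⟩) G' = 0 := by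
      have h6 := hev u hui
      rw [h1] at h6
      exact h6
    rw [h5, mul_zero]
  obtain ⟨N, hN⟩ := D'.relations G' _ hGh he' hx s
  have hker : ∀ q ∈ Ideal.span (Set.range (eqn T i)),
      aeval (fun v : Σ j : P ⊕ R, Fin (dims n m j + 1) => w v.1 v.2) q = 0 := by
    intro q hq
    have h7 : Ideal.span (Set.range (eqn T i)) ≤
        RingHom.ker (aeval (fun v : Σ j : P ⊕ R, Fin (dims n m j + 1) => w v.1 v.2) :
          MvPolynomial (Σ j : P ⊕ R, Fin (dims n m j + 1)) ℂ →ₐ[ℂ] K) := by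
      rw [Ideal.span_le]
      rintro _ ⟨a, rfl⟩
      exact hw a
    exact h7 hq
  have h8 := hker _ hN
  rw [map_mul, map_pow, map_prod] at h8
  have h9 : (∏ j ∈ Finset.univ.erase (Sum.inl i),
      aeval (fun v : Σ j : P ⊕ R, Fin (dims n m j + 1) => w v.1 v.2)
        (X ⟨j, s j⟩ : MvPolynomial (Σ j : P ⊕ R, Fin (dims n m j + 1)) ℂ)) ^ N ≠ 0 := by
    apply pow_ne_zero
    rw [Finset.prod_ne_zero_iff]
    intro j _
    rw [aeval_X]
    exact hs j
  have h10 : aeval (fun v : Σ j : P ⊕ R, Fin (dims n m j + 1) => w v.1 v.2) G' = 0 :=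
    (mul_eq_zero.1 h8).resolve_left h9
  have h3 := aeval_scale (fun j r => u' ⟨j, r⟩) (fun j => w j (s j)) G' _ hGh
  have h4 : (fun v : Σ j : P ⊕ R, Fin (dims n m j + 1) =>
      w v.1 (s v.1) * u' ⟨v.1, v.2⟩) = fun v => w v.1 v.2 := by
    funext v
    exact mul_div_cancel₀ _ (hs v.1)
  rw [h4, h10] at h3
  have h5 : aeval (fun v : Σ j : P ⊕ R, Fin (dims n m j + 1) => u' ⟨v.1, v.2⟩) G' = 0 := by
    refine (mul_eq_zero.1 h3.symm).resolve_left ?_
    exact Finset.prod_ne_zero_iff.2 fun j _ => pow_ne_zero _ (hs j)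
  rw [← hev u' hui']
  exact h5

/-- A point `w` of `X_i` over `K` in the chart `s` gives a homomorphism of the coordinate ring of the
chart. A polynomial relation `g` between the affine coordinates `x j r / x j (s j)` of `X_i` can be
homogenised in the groups of variables `j ≠ i` (`exists_multiHom_vars` in LibGMM/H1, or as in
`exists_homogenisation` in LibGMM/CanChart; the variables of the group `i` are put equal to `1` by
`MultiHom.kill`), so that `D'.relations` applies: a monomial in the variables `(j, s j)` times the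
homogenisation `G` is in the ideal of the equations, hence `G` vanishes at `w`. -/
theorem Multilin.exists_hom (D' : Multilin K T i)
    (w : (j : P ⊕ R) → Fin (dims n m j + 1) → K) (hone : ∀ s, w (Sum.inl i) s = 1)
    (hw : ∀ a, aeval (fun v : Σ j, Fin (dims n m j + 1) => w v.1 v.2) (eqn T i a) = 0)
    (s : (j : P ⊕ R) → Fin (dims n m j + 1)) (hs : ∀ j, w j (s j) ≠ 0) :
    ∃ φ : D'.proj Set.univ s →ₐ[ℂ] K, ∀ j r, ∃ hm : (D'.x j r : K) / D'.x j (s j) ∈
      D'.proj Set.univ s, φ ⟨_, hm⟩ = w j r / w j (s j) := by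
  set u : (Σ j : P ⊕ R, Fin (dims n m j + 1)) → K := fun v =>
    (D'.x v.1 v.2 : K) / D'.x v.1 (s v.1) with hu
  have hmem : ∀ v, u v ∈ D'.proj Set.univ s := fun v =>
    Algebra.subset_adjoin ⟨v.1, Set.mem_univ _, v.2, rfl⟩
  let f : MvPolynomial (Σ j : P ⊕ R, Fin (dims n m j + 1)) ℂ →ₐ[ℂ] D'.proj Set.univ s :=
    aeval (fun v => ⟨u v, hmem v⟩)
  have hf : ∀ g, ((f g : D'.proj Set.univ s) : K) = aeval u g := by
    intro g
    exact MvPolynomial.comp_aeval_apply (f := fun v => (⟨u v, hmem v⟩ : D'.proj Set.univ s))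
      (D'.proj Set.univ s).val g
  have hsurj : Function.Surjective f := by
    rintro ⟨y, hy⟩
    have h1 : y ∈ Algebra.adjoin ℂ (Set.range u) := by
      refine Algebra.adjoin_mono ?_ hy
      rintro _ ⟨j, _, r, rfl⟩
      exact ⟨⟨j, r⟩, rfl⟩
    rw [Algebra.adjoin_range_eq_range_aeval] at h1
    obtain ⟨g, hg⟩ := h1
    refine ⟨g, Subtype.ext ?_⟩
    rw [hf g]
    exact hg
  have hker : RingHom.ker f.toRingHom ≤ RingHom.ker (aeval
      (fun v : Σ j : P ⊕ R, Fin (dims n m j + 1) => w v.1 v.2 / w v.1 (s v.1)) :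
      MvPolynomial (Σ j : P ⊕ R, Fin (dims n m j + 1)) ℂ →ₐ[ℂ] K).toRingHom := by
    intro g hg
    have h1 : f g = 0 := hg
    have h2 : aeval u g = 0 := by rw [← hf g, h1]; rfl
    exact D'.Hom_ker w hone hw s hs g h2
  refine ⟨AlgHom.liftOfSurjective f hsurj _ hker, fun j r => ⟨hmem ⟨j, r⟩, ?_⟩⟩
  have h1 : (⟨(D'.x j r : K) / D'.x j (s j), hmem ⟨j, r⟩⟩ : D'.proj Set.univ s) = f (X ⟨j, r⟩) := by
    apply Subtype.ext
    rw [hf, aeval_X]
  rw [h1, AlgHom.liftOfSurjective_apply, aeval_X]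

end Pool.Agent.LibGMW
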