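import Pool.Agent.LibGMW.ConvT
import Pool.Agent.LibGMMT.Key

/-! The inequality for effective classes on `X_l`, `n ≥ 3`. -/

open scoped Classical

namespace Pool.Agent.LibGMW

open Pool.Agent.LibGMM MvPolynomial

variable {P R : Type} [Fintype P] [Fintype R] {n : ℕ} {m e : R → ℕ}
  {K : Type} [Field K] [Algebra ℂ K] {T : FormTensor P n m e} {l i : P}

/-- Variables of the factors with labels `≠ l`. -/
def extVar (l : P) : (Σ g : {p // p ≠ l} ⊕ R, Fin (LibGMMT.dims {p // p ≠ l} n m g + 1)) →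
    Σ j : P ⊕ R, Fin (dims n m j + 1)
  | ⟨Sum.inl p, t⟩ => ⟨Sum.inl p.1, t⟩
  | ⟨Sum.inr r, t⟩ => ⟨Sum.inr r, t⟩

theorem extVar_injective (l : P) : Function.Injective (extVar (n := n) (m := m) l) := by
  rintro ⟨g | g, t⟩ ⟨g' | g', t'⟩ h
  · simp only [extVar, Sigma.mk.injEq, Sum.inl.injEq] at h
    obtain ⟨h1, h2⟩ := h
    have h1 := Subtype.ext h1
    subst h1
    rw [heq_eq_eq] at h2
    subst h2
    rfl
  · simp [extVar] at h
  · simp [extVar] at h
  · simp only [extVar, Sigma.mk.injEq, Sum.inr.injEq] at h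
    obtain ⟨h1, h2⟩ := h
    subst h1
    rw [heq_eq_eq] at h2
    subst h2
    rfl

/-- Extension of a multidegree by zero. -/
noncomputable def extDeg (l : P) (d : {p // p ≠ l} ⊕ R → ℕ) : P ⊕ R → ℕ
  | Sum.inl p => if h : p ≠ l then d (Sum.inl ⟨p, h⟩) else 0
  | Sum.inr r => d (Sum.inr r)

theorem multiHom_rename (l : P)
    (G : MvPolynomial (Σ g : {p // p ≠ l} ⊕ R, Fin (LibGMMT.dims {p // p ≠ l} n m g + 1)) ℂ)
    (d : {p // p ≠ l} ⊕ R → ℕ) (hG : MultiHom G d) :
    MultiHom (rename (extVar l) G) (extDeg l d) := by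
  intro c hc j
  rw [support_rename_of_injective (extVar_injective l), Finset.mem_image] at hc
  obtain ⟨c', hc', rfl⟩ := hc
  rcases j with p | r
  · by_cases h : p ≠ l
    · have h1 : extDeg l d (Sum.inl p) = d (Sum.inl ⟨p, h⟩) := dif_pos h
      rw [h1, ← hG c' hc' (Sum.inl ⟨p, h⟩)]
      refine Finset.sum_congr rfl fun s _ => ?_
      exact Finsupp.mapDomain_apply (extVar_injective l) c' ⟨Sum.inl ⟨p, h⟩, s⟩
    · refine Eq.trans ?_ (dif_neg h).symm
      refine Finset.sum_eq_zero fun s _ => ?_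
      apply Finsupp.mapDomain_of_notMem_range
      rintro ⟨⟨g | g, t⟩, h'⟩
      · simp only [extVar, Sigma.mk.injEq, Sum.inl.injEq] at h'
        exact h (h'.1 ▸ g.2)
      · simp [extVar] at h'
  · refine Eq.trans ?_ (hG c' hc' (Sum.inr r))
    refine Finset.sum_congr rfl fun s _ => ?_
    exact Finsupp.mapDomain_apply (extVar_injective l) c' ⟨Sum.inr r, s⟩

theorem aeval_rename_extVar (l : P) {A : Type} [CommRing A] [Algebra ℂ A]
    (q : (j : P ⊕ R) → Fin (dims n m j + 1) → A)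
    (G : MvPolynomial (Σ g : {p // p ≠ l} ⊕ R, Fin (LibGMMT.dims {p // p ≠ l} n m g + 1)) ℂ) :
    aeval (fun v : Σ j : P ⊕ R, Fin (dims n m j + 1) => q v.1 v.2) (rename (extVar l) G) =
      aeval (fun v : Σ g : {p // p ≠ l} ⊕ R, Fin (LibGMMT.dims {p // p ≠ l} n m g + 1) =>
        res l q v.1 v.2) G := by
  rw [aeval_rename]
  congr 1
  congr 1
  funext v
  rcases v with ⟨g | g, t⟩ <;> rfl

/-- The variety `X_l` is the variety attached to the tensor. -/
noncomputable def Multilin.toTV (D : Multilin K T l) (h : l ≠ i)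
    (hdims : ∀ j, 1 ≤ dims (P := P) n m j) (hdet : (matP T l i).det ≠ 0)
    (hadj : ∃ a b, (D.mat i).adjugate a b ≠ 0) (he : ∀ r, 1 ≤ e r) :
    LibGMMT.TensorVariety K (T.toTensor l) where
  toMulti := D.multi
  vanish := by
    intro a
    have h1 := eqn_toTensor T l (fun j t => (D.x j t : K)) a
    rw [D.vanish a] at h1
    rw [← h1]
    congr 1
    funext g
    rcases g with g | g <;> rfl
  complete := by
    intro s p hp hE Pl hPl
    set u : (Σ g : {p // p ≠ l} ⊕ R, Fin (LibGMMT.dims {p // p ≠ l} n m g + 1)) → K × ℂ :=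
      fun v => ((D.y v.1 v.2 : K) / D.y v.1 (s v.1), p v.1 v.2) with hu
    obtain ⟨d, G, hG, hGP⟩ := exists_multiHom u s (fun g => by
      simp only [hu]
      rw [div_self (Units.ne_zero _), hp g]
      rfl) (aeval u Pl) (by
      rw [Algebra.adjoin_range_eq_range_aeval]
      exact ⟨Pl, rfl⟩)
    have h1 : aeval (fun v : Σ g : {p // p ≠ l} ⊕ R,
        Fin (LibGMMT.dims {p // p ≠ l} n m g + 1) => (D.y v.1 v.2 : K) / D.y v.1 (s v.1)) G = 0 := by
      have h2 := congrArg (AlgHom.fst ℂ K ℂ) hGP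
      rw [comp_aeval_apply, comp_aeval_apply] at h2
      exact h2.trans hPl
    have h3 : aeval (fun v : Σ g : {p // p ≠ l} ⊕ R,
        Fin (LibGMMT.dims {p // p ≠ l} n m g + 1) => p v.1 v.2) G =
        aeval (fun v : Σ g : {p // p ≠ l} ⊕ R,
        Fin (LibGMMT.dims {p // p ≠ l} n m g + 1) => p v.1 v.2) Pl := by
      have h2 := congrArg (AlgHom.snd ℂ K ℂ) hGP
      rw [comp_aeval_apply, comp_aeval_apply] at h2
      exact h2
    rw [← h3]
    have h4 : aeval (fun v : Σ g : {p // p ≠ l} ⊕ R,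
        Fin (LibGMMT.dims {p // p ≠ l} n m g + 1) => (D.y v.1 v.2 : K)) G = 0 := by
      have h5 := aeval_scale (fun g t => (D.y g t : K) / D.y g (s g)) (fun g => (D.y g (s g) : K))
        G d hG
      rw [h1, mul_zero] at h5
      rw [← h5]
      congr 2
      funext v
      exact (mul_div_cancel₀ _ (Units.ne_zero _)).symm
    have h5 : aeval (fun v : Σ j : P ⊕ R, Fin (dims n m j + 1) => (D.x v.1 v.2 : K))
        (rename (extVar l) G) = 0 := by
      rw [aeval_rename_extVar l (fun j t => (D.x j t : K)), ← h4]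
      congr 2
      funext v
      rcases v with ⟨g | g, t⟩ <;> rfl
    obtain ⟨N, hN⟩ := D.relations (rename (extVar l) G) (extDeg l d) (multiHom_rename l G d hG)
      (dif_neg (not_not.2 rfl)) h5 (extIdx l s)
    have h6 : Ideal.span (Set.range (eqn T l)) ≤ RingHom.ker
        (aeval (fun v : Σ j : P ⊕ R, Fin (dims n m j + 1) => ext l p v.1 v.2) :
          MvPolynomial (Σ j : P ⊕ R, Fin (dims n m j + 1)) ℂ →ₐ[ℂ] ℂ) := by
      rw [Ideal.span_le]
      rintro _ ⟨a, rfl⟩
      have h7 := eqn_toTensor T l (ext l p) a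
      rw [res_ext', hE] at h7
      exact h7.symm
    have h7 := h6 hN
    rw [RingHom.mem_ker, map_mul, map_pow, map_prod, Finset.prod_eq_one, one_pow, one_mul,
      aeval_rename_extVar, res_ext'] at h7
    · exact h7
    · rintro (q | r) hj
      · have hq : q ≠ l := fun h' => (Finset.mem_erase.1 hj).1 (congrArg Sum.inl h')
        rw [aeval_X]
        change ext l p (Sum.inl q) (extIdx l s (Sum.inl q)) = 1
        have h8 : extIdx l s (Sum.inl q) = s (Sum.inl ⟨q, hq⟩) := dif_pos hq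
        have h9 : ext l p (Sum.inl q) = p (Sum.inl ⟨q, hq⟩) := dif_pos hq
        rw [h8, h9]
        exact hp _
      · rw [aeval_X]
        exact hp _
  dim := by
    rw [D.trdeg_add_one h hdims hdet hadj he]
    have h1 : n + ∑ j ∈ Finset.univ.erase (Sum.inl l : P ⊕ R), dims n m j =
        ∑ j : P ⊕ R, dims n m j :=
      Finset.add_sum_erase Finset.univ (fun j : P ⊕ R => dims n m j)
        (Finset.mem_univ (Sum.inl l : P ⊕ R))
    rw [Fintype.sum_sum_type, sum_ne l] at h1
    simp only [Sum.elim_inl, Sum.elim_inr, Finset.sum_const, Finset.card_univ, smul_eq_mul] at h1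
    congr 1
    omega

theorem Multilin.rankAt (D : Multilin K T l) (i : {p // p ≠ l}) (hs : D.Small i.1) (Q : DVal K)
    (hQ : D.multi.model.IsPrimeDiv Q) : LibGMMT.RankAt (T.toTensor l) D.multi i Q := by
  obtain ⟨a, b, hab, hord⟩ := hs.2 Q (D.isPrimeDiv_of_multi Q hQ)
  choose t ht using fun j => D.toEmb.exists_hyp_eq j Q
  have hmin : ∀ j r, Q.ord (D.x j (t j) : K) ≤ Q.ord (D.x j r : K) := by
    intro j r
    have h1 := D.toEmb.neg_hyp_le j r Q
    rw [ht j, neg_neg] at h1
    exact_mod_cast h1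
  have hratio : D.multi.ratio (resIdx l t) =
      res l (fun j r => (D.x j r : K) / D.x j (t j)) := by
    funext g
    rcases g with g | g <;> rfl
  have hmat : LibGMMT.mat (T.toTensor l) (D.multi.ratio (resIdx l t)) i =
      (matP T l i.1).map (aeval fun v : Σ j : P ⊕ R, Fin (dims n m j + 1) =>
        (D.x v.1 v.2 : K) / D.x v.1 (t v.1)) := by
    rw [hratio]
    ext a b
    exact mat_toTensor T l _ i a b
  have hadj : (LibGMMT.mat (T.toTensor l) (D.multi.ratio (resIdx l t)) i).adjugate a b =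
      aeval (fun v : Σ j : P ⊕ R, Fin (dims n m j + 1) => (D.x v.1 v.2 : K) / D.x v.1 (t v.1))
        ((matP T l i.1).adjugate a b) := by
    rw [hmat]
    have h := AlgHom.map_adjugate
      (aeval (fun v : Σ j : P ⊕ R, Fin (dims n m j + 1) => (D.x v.1 v.2 : K) / D.x v.1 (t v.1)) :
        MvPolynomial (Σ j : P ⊕ R, Fin (dims n m j + 1)) ℂ →ₐ[ℂ] K) (matP T l i.1)
    exact (congrFun (congrFun h a) b).symm
  have hscale := aeval_scale (fun j r => (D.x j r : K) / D.x j (t j)) (fun j => (D.x j (t j) : K))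
    ((matP T l i.1).adjugate a b) _ (adj_multiHom T l i.1 a b)
  have h1 : aeval (fun v : Σ j : P ⊕ R, Fin (dims n m j + 1) => (D.x v.1 (t v.1) : K) *
      ((D.x v.1 v.2 : K) / D.x v.1 (t v.1))) ((matP T l i.1).adjugate a b) =
      (D.mat i.1).adjugate a b := by
    rw [D.mat_adjugate]
    congr 2
    funext v
    exact mul_div_cancel₀ _ (Units.ne_zero _)
  rw [h1, ← hadj] at hscale
  set z := (LibGMMT.mat (T.toTensor l) (D.multi.ratio (resIdx l t)) i).adjugate a b with hz
  have hz0 : z ≠ 0 := by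
    intro h0
    rw [h0, mul_zero] at hscale
    exact hab hscale
  have hprod : (∏ j, (D.x j (t j) : K) ^ degLI e l i.1 n j) ≠ 0 :=
    Finset.prod_ne_zero_iff.2 fun j _ => pow_ne_zero _ (Units.ne_zero _)
  refine ⟨resIdx l t, ?_, a, b, hz0, ?_⟩
  · rintro (g | g) r
    · exact hmin _ _
    · exact hmin _ _
  rw [hscale, Q.ord_mul _ _ hprod hz0, Q.ord_prod _ _ (fun j _ => pow_ne_zero _ (Units.ne_zero _))]
    at hord
  have h2 : ((∑ j, Q.ord ((D.x j (t j) : K) ^ degLI e l i.1 n j) : ℤ) : ℝ) =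
      - ∑ j ∈ (Finset.univ.erase (Sum.inl l)).erase (Sum.inl i.1),
        (n * degs e j : ℕ) * D.hyp j Q := by
    push_cast
    rw [← Finset.sum_neg_distrib]
    have h3 : ∀ j, j ∉ (Finset.univ.erase (Sum.inl l)).erase (Sum.inl i.1) →
        degLI e l i.1 n j = 0 := by
      intro j hj
      simp only [Finset.mem_erase, Finset.mem_univ, and_true, not_and_or, not_not] at hj
      exact if_pos hj.symm
    rw [← Finset.sum_subset (Finset.subset_univ
      ((Finset.univ.erase (Sum.inl l)).erase (Sum.inl i.1)))]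
    · refine Finset.sum_congr rfl fun j hj => ?_
      simp only [Finset.mem_erase, Finset.mem_univ, and_true] at hj
      have h4 : degLI e l i.1 n j = n * degs e j := if_neg fun h => h.elim hj.2 hj.1
      rw [h4, Q.ord_pow, ht j]
      push_cast
      ring
    · intro j _ hj
      rw [h3 j hj, pow_zero, Q.ord_one]
      simp
  rw [Int.cast_add, h2] at hord
  have h3 : (Q.ord z : ℝ) = 0 := by linarith
  exact_mod_cast h3

/-- **The main inequality.** -/
theorem Multilin.key_ineq (D : Multilin K T l) (hn : 3 ≤ n) (he : ∀ r, 1 ≤ e r)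
    (hdims : ∀ j, 1 ≤ dims (P := P) n m j) (hdet : ∀ i, l ≠ i → (matP T l i).det ≠ 0)
    (hs : ∀ i, l ≠ i → D.Small i) (i j : P) (hi : l ≠ i) (hj : l ≠ j) (hij : i ≠ j)
    (a : P ⊕ R → ℤ) (ha : a ∈ D.EffZ) (hneg : a (Sum.inl i) < 0) :
    - a (Sum.inl i) ≤ (n - 1) * a (Sum.inl j) := by
  set H := D.toTV hi hdims (hdet i hi) (hs i hi).1 he with hH
  have hS : H.Small := fun i' Q hQ => D.rankAt i' (hs i'.1 i'.2.symm) Q hQ
  have hK : ¬ Algebra.IsAlgebraic ℂ K := by
    intro hK
    have h1 := H.dim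
    rw [trdeg_eq_zero_iff.2 hK, zero_add] at h1
    have h2 : n + 1 = Fintype.card {p // p ≠ l} * n + ∑ f, m f := by exact_mod_cast h1
    have h3 : 1 < Fintype.card {p // p ≠ l} := Fintype.one_lt_card_iff.2
      ⟨⟨i, hi.symm⟩, ⟨j, hj.symm⟩, fun h => hij (congrArg Subtype.val h)⟩
    have h4 : 2 * n ≤ Fintype.card {p // p ≠ l} * n := Nat.mul_le_mul_right _ h3
    omega
  exact H.key_ineq e (fun s => T.homog _) hn hS hK ⟨i, hi.symm⟩ ⟨j, hj.symm⟩
    (fun h => hij (congrArg Subtype.val h)) (resCls l a) (D.effZ_res a ha) hneg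

end Pool.Agent.LibGMW
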