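import Pool.Agent.LibGMW.Defs
import Pool.Agent.LibGMM.H1

/-! TASK KILL: groups of variables which do not occur. -/

open scoped Classical

namespace Pool.Agent.LibGMW

open Pool.Agent.LibGMM MvPolynomial

variable {J : Type} [Fintype J] {m : J → ℕ}

/-- The value of a multihomogeneous polynomial only depends on the variables of the groups of
positive degree. -/
theorem aeval_congr {A : Type} [CommRing A] [Algebra ℂ A]
    (G : MvPolynomial (Σ j, Fin (m j + 1)) ℂ) (e : J → ℕ) (hG : MultiHom G e)
    (w w' : (Σ j, Fin (m j + 1)) → A) (h : ∀ v : Σ j, Fin (m j + 1), e v.1 ≠ 0 → w v = w' v) :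
    aeval w G = aeval w' G := by
  have h1 : ∀ v ∈ G.vars, e v.1 ≠ 0 := by
    intro v hv
    obtain ⟨c, hc, hvc⟩ := (mem_vars v).1 hv
    have h2 := hG c hc v.1
    intro h3
    rw [h3] at h2
    have h4 := (Finset.sum_eq_zero_iff.1 h2) v.2 (Finset.mem_univ _)
    exact (Finsupp.mem_support_iff.1 hvc) h4
  exact eval₂Hom_congr' rfl (fun i hi _ => h i (h1 i hi)) rfl

private theorem Kill_sum {ι : Type} (S : Finset ι)
    (F : ι → MvPolynomial (Σ j, Fin (m j + 1)) ℂ) (d : J → ℕ) (h : ∀ i ∈ S, MultiHom (F i) d) :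
    MultiHom (∑ i ∈ S, F i) d := by
  induction S using Finset.induction_on with
  | empty =>
    intro c hc
    simp at hc
  | insert a S ha ih =>
    rw [Finset.sum_insert ha]
    exact (h a (Finset.mem_insert_self _ _)).add
      (ih fun i hi => h i (Finset.mem_insert_of_mem hi))

omit [Fintype J] in
private theorem Kill_monomial (c : (Σ j, Fin (m j + 1)) →₀ ℕ) (a : ℂ) (j₀ : J) :
    aeval (fun v : Σ j, Fin (m j + 1) =>
      if v.1 = j₀ then (1 : MvPolynomial (Σ j, Fin (m j + 1)) ℂ) else X v) (monomial c a) =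
      monomial (c.filter (fun v => v.1 ≠ j₀)) a := by
  rw [aeval_monomial, monomial_eq, algebraMap_eq, Finsupp.prod_filter_index,
    Finsupp.support_filter, Finset.prod_filter, Finsupp.prod]
  congr 1
  refine Finset.prod_congr rfl fun v _ => ?_
  by_cases h : v.1 = j₀
  · rw [if_pos h, one_pow, if_neg (fun h' => h' h)]
  · rw [if_neg h, if_pos h]

/-- Putting the variables of one group equal to `1`. (In every exponent `c` of `G` replace the
coordinates of the group `j₀` by `0`; cancellation does no harm.) -/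
theorem MultiHom.kill (G : MvPolynomial (Σ j, Fin (m j + 1)) ℂ) (e : J → ℕ) (hG : MultiHom G e)
    (j₀ : J) :
    MultiHom (aeval (fun v : Σ j, Fin (m j + 1) =>
      if v.1 = j₀ then (1 : MvPolynomial (Σ j, Fin (m j + 1)) ℂ) else X v) G)
      (Function.update e j₀ 0) := by
  have h1 : aeval (fun v : Σ j, Fin (m j + 1) =>
      if v.1 = j₀ then (1 : MvPolynomial (Σ j, Fin (m j + 1)) ℂ) else X v) G =
      ∑ c ∈ G.support, monomial (c.filter (fun v => v.1 ≠ j₀)) (coeff c G) := by
    conv_lhs => rw [← support_sum_monomial_coeff G]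
    rw [map_sum]
    exact Finset.sum_congr rfl fun c _ => Kill_monomial c _ j₀
  rw [h1]
  refine Kill_sum _ _ _ fun c hc => ?_
  intro b hb j
  have hb' : b = c.filter (fun v => v.1 ≠ j₀) := by
    have := support_monomial_subset hb
    exact Finset.mem_singleton.1 this
  rw [hb']
  by_cases h : j = j₀
  · rw [h, Function.update_self]
    refine Finset.sum_eq_zero fun s _ => ?_
    rw [Finsupp.filter_apply, if_neg (fun h' => h' rfl)]
  · rw [Function.update_of_ne h, ← hG c hc j]
    refine Finset.sum_congr rfl fun s _ => ?_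
    rw [Finsupp.filter_apply, if_pos h]

end Pool.Agent.LibGMW
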