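import Pool.Agent.LibGMW.Base
import Pool.Agent.LibGMM.G3
import Pool.Agent.LibGMM.G5

/-! TASK LIOU: rational functions without horizontal poles. -/

open scoped Classical

namespace Pool.Agent.LibGMW

open Pool.Agent.LibGMM MvPolynomial

variable {K : Type} [Field K] [Algebra ℂ K] {J : Type} [Fintype J] {m : J → ℕ}

/-- A valuation ring which contains the subfield `L` and not the transcendental element `g`. -/
private theorem Liou_exists_val (L : IntermediateField ℂ K) (g : K) (hg : Transcendental L g) :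
    ∃ V : ValuationSubring K, (∀ a ∈ L, a ∈ V) ∧ g ∉ V := by
  have hg0 : g ≠ 0 := by
    rintro rfl
    exact hg isAlgebraic_zero
  let B : Subalgebra L K := Algebra.adjoin L {g⁻¹}
  let xinv : B.toSubring := ⟨g⁻¹, Algebra.subset_adjoin rfl⟩
  have hne : Ideal.span {xinv} ≠ ⊤ := by
    intro h
    rw [Ideal.eq_top_iff_one, Ideal.mem_span_singleton'] at h
    obtain ⟨⟨a, ha⟩, hab⟩ := h
    have h1 : a * g⁻¹ = 1 := congrArg Subtype.val hab
    have ha' : a ∈ Algebra.adjoin L {g⁻¹} := ha
    rw [Algebra.adjoin_singleton_eq_range_aeval] at ha'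
    obtain ⟨p, rfl⟩ := ha'
    apply hg
    rw [← inv_inv g]
    refine IsAlgebraic.inv ⟨p * Polynomial.X - 1, ?_, ?_⟩
    · intro h2
      have h3 := congrArg (Polynomial.eval 0) h2
      simp at h3
    · rw [map_sub, map_mul, Polynomial.aeval_X, map_one, sub_eq_zero]
      exact h1
  obtain ⟨V, hV1, hV2⟩ := Ideal.image_subset_nonunits_valuationSubring _ hne
  refine ⟨V, fun a ha => hV1 (B.algebraMap_mem ⟨a, ha⟩), ?_⟩
  have h1 : g⁻¹ ∈ V.nonunits := hV2 ⟨xinv, Ideal.subset_span rfl, rfl⟩
  rw [V.inv_mem_nonunits_iff] at h1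
  exact h1.resolve_left hg0

/-- A rational function `g` which is transcendental over the field `E.base S` has a pole along a prime
divisor on which the coordinates of the factors in `S` have no zeros or poles up to a common factor.

Since `g⁻¹` is transcendental over `L₀ = E.base S`, it generates a proper ideal of the ring `L₀[g⁻¹]`;
there is a valuation ring `V` of `K` which contains `L₀` and with `g⁻¹` not invertible in `V`
(`Ideal.image_subset_nonunits_valuationSubring` or `LocalSubring.exists_le_valuationSubring`), so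
`g ∉ V`. By `NormalModel.exists_index` there is a chart `A = chart (segre E.x) s ≤ V`. Let `M` be the
multiplicative set of the nonzero elements of `A` which lie in `L₀`, and `I = {a ∈ A | a * g ∈ A}`, an
ideal. If `a ∈ I ∩ M` then `a * g ∈ V` and `a⁻¹ ∈ L₀ ≤ V`, so `g ∈ V`, contradiction. So there is a
prime `p ≥ I` disjoint from `M` (`Ideal.exists_le_prime_disjoint`), and `g ∉ A_p`; use
`NormalModel.exists_primeDiv_neg`. The elements of `M` are units in `A_p`, hence of order `0`;
`x h r / x h (s h) ∈ M` for `h ∈ S` (`Emb.chart_eq_proj`). -/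
theorem Emb.liouville (E : Emb K m) (S : Set J) (g : K) (hg : Transcendental (E.base S) g) :
    ∃ Q, E.model.IsPrimeDiv Q ∧ Q.ord g < 0 ∧
      ∀ h ∈ S, ∀ r r', Q.ord (E.x h r : K) = Q.ord (E.x h r' : K) := by
  obtain ⟨V, hLV, hgV⟩ := Liou_exists_val (E.base S) g hg
  have hCV : ∀ c : ℂ, algebraMap ℂ K c ∈ V := fun c =>
    hLV _ ((E.base S).algebraMap_mem c)
  obtain ⟨s, hs⟩ := E.model.exists_index V
  have hchart : ∀ a ∈ chart E.model.g s, a ∈ V := by
    intro a ha
    unfold chart at ha
    induction ha using Algebra.adjoin_induction with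
    | mem x hx => obtain ⟨j, rfl⟩ := hx; exact hs j
    | algebraMap r => exact hCV r
    | add x y _ _ h1 h2 => exact V.add_mem _ _ h1 h2
    | mul x y _ _ h1 h2 => exact V.mul_mem _ _ h1 h2
  let M : Submonoid (chart E.model.g s) :=
    { carrier := {a | (a : K) ≠ 0 ∧ (a : K) ∈ E.base S}
      mul_mem' := by
        rintro a b ⟨ha, ha'⟩ ⟨hb, hb'⟩
        exact ⟨mul_ne_zero ha hb, (E.base S).mul_mem ha' hb'⟩
      one_mem' := ⟨one_ne_zero, (E.base S).one_mem⟩ }
  let I : Ideal (chart E.model.g s) :=
    { carrier := {a | (a : K) * g ∈ chart E.model.g s}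
      add_mem' := by
        intro a b ha hb
        change ((a + b : chart E.model.g s) : K) * g ∈ chart E.model.g s
        rw [AddMemClass.coe_add, add_mul]
        exact (chart E.model.g s).add_mem ha hb
      zero_mem' := by
        change ((0 : chart E.model.g s) : K) * g ∈ chart E.model.g s
        rw [ZeroMemClass.coe_zero, zero_mul]
        exact (chart E.model.g s).zero_mem
      smul_mem' := by
        intro c a ha
        change ((c * a : chart E.model.g s) : K) * g ∈ chart E.model.g s
        rw [MulMemClass.coe_mul, mul_assoc]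
        exact (chart E.model.g s).mul_mem c.2 ha }
  have hdisj : Disjoint (I : Set (chart E.model.g s)) M := by
    rw [Set.disjoint_left]
    intro a haI haM
    obtain ⟨ha0, haL⟩ : (a : K) ≠ 0 ∧ (a : K) ∈ E.base S := haM
    have h1 : (a : K) * g ∈ V := hchart _ haI
    have h2 : (a : K)⁻¹ ∈ V := hLV _ ((E.base S).inv_mem haL)
    apply hgV
    have h3 := V.mul_mem _ _ h2 h1
    rwa [inv_mul_cancel_left₀ ha0] at h3
  obtain ⟨p, hp, hIp, hpM⟩ := Ideal.exists_le_prime_disjoint I M hdisj
  let pt : E.model.Pt := ⟨s, p, hp⟩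
  have hgloc : g ∉ E.model.loc pt := by
    rintro ⟨a, b, hb, hab⟩
    apply hb
    apply hIp
    show (b : K) * g ∈ chart E.model.g s
    have hb0 : (b : K) ≠ 0 := by
      intro hc
      apply hb
      have : b = 0 := Subtype.ext hc
      rw [this]
      exact p.zero_mem
    rw [hab, mul_div_cancel₀ _ hb0]
    exact a.2
  obtain ⟨Q, hQ, hthr, hneg⟩ := E.model.exists_primeDiv_neg pt g hgloc
  refine ⟨Q, hQ, hneg, ?_⟩
  have key : ∀ h ∈ S, ∀ r, Q.ord (E.x h r : K) = Q.ord (E.x h (s h) : K) := by
    intro h hh r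
    have hmem : (E.x h r : K) / E.x h (s h) ∈ chart E.model.g s := by
      have h1 := E.chart_eq_proj s
      change _ ∈ chart (segre E.x) s
      rw [h1]
      exact Algebra.subset_adjoin ⟨h, trivial, r, rfl⟩
    have hL : (E.x h r : K) / E.x h (s h) ∈ E.base S :=
      IntermediateField.subset_adjoin ℂ _ ⟨h, hh, r, s h, rfl⟩
    have hne : (E.x h r : K) / E.x h (s h) ≠ 0 := div_ne_zero (Units.ne_zero _) (Units.ne_zero _)
    have hnotin : (⟨_, hmem⟩ : chart E.model.g s) ∉ p := fun hc =>
      Set.disjoint_left.1 hpM hc ⟨hne, hL⟩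
    have one_not : (1 : chart E.model.g s) ∉ p := fun hc =>
      hp.ne_top ((Ideal.eq_top_iff_one _).2 hc)
    have h1 : (E.x h r : K) / E.x h (s h) ∈ E.model.loc pt :=
      ⟨⟨_, hmem⟩, 1, one_not, by simp⟩
    have h2 : ((E.x h r : K) / E.x h (s h))⁻¹ ∈ E.model.loc pt :=
      ⟨1, ⟨_, hmem⟩, hnotin, by simp⟩
    have h3 := hthr _ h1
    have h4 := hthr _ h2
    rw [Q.ord_inv] at h4
    rw [Q.ord_div (Units.ne_zero _) (Units.ne_zero _)] at h3 h4
    omega
  intro h hh r r'
  rw [key h hh r, key h hh r']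

end Pool.Agent.LibGMW
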