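import Pool.Agent.LibGMW.Defs
import Pool.Agent.LibGMM.H1

/-! TASK MDET: determinants of matrices of multihomogeneous polynomials. -/

open scoped Classical

namespace Pool.Agent.LibGMW

open Pool.Agent.LibGMM MvPolynomial

variable {J : Type} [Fintype J] {m : J → ℕ}

private theorem MDet_neg {F : MvPolynomial (Σ j, Fin (m j + 1)) ℂ} {d : J → ℕ}
    (hF : MultiHom F d) : MultiHom (-F) d := by
  intro c hc j
  rw [MvPolynomial.support_neg] at hc
  exact hF c hc j

private theorem MDet_zero (d : J → ℕ) :
    MultiHom (0 : MvPolynomial (Σ j, Fin (m j + 1)) ℂ) d := by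
  intro c hc
  rw [MvPolynomial.support_zero] at hc
  exact absurd hc (Finset.notMem_empty c)

private theorem MDet_sum {ι : Type} (s : Finset ι)
    (F : ι → MvPolynomial (Σ j, Fin (m j + 1)) ℂ) {d : J → ℕ} (hF : ∀ i ∈ s, MultiHom (F i) d) :
    MultiHom (∑ i ∈ s, F i) d := by
  induction s using Finset.induction_on with
  | empty =>
    rw [Finset.sum_empty]
    exact MDet_zero d
  | insert a s ha ih =>
    rw [Finset.sum_insert ha]
    exact (hF a (Finset.mem_insert_self a s)).add
      (ih fun i hi => hF i (Finset.mem_insert_of_mem hi))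

private theorem MDet_prod {ι : Type} (s : Finset ι)
    (F : ι → MvPolynomial (Σ j, Fin (m j + 1)) ℂ) {e : J → ℕ} (hF : ∀ i ∈ s, MultiHom (F i) e) :
    MultiHom (∏ i ∈ s, F i) (fun j => s.card * e j) := by
  induction s using Finset.induction_on with
  | empty =>
    rw [Finset.prod_empty]
    have h1 : (fun j => (∅ : Finset ι).card * e j) = fun _ => 0 := by
      funext j
      simp
    rw [h1]
    have h2 := MultiHom.C (m := m) 1
    rwa [MvPolynomial.C_1] at h2
  | insert a s ha ih =>
    rw [Finset.prod_insert ha]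
    have h1 : (fun j => (insert a s).card * e j) = fun j => e j + s.card * e j := by
      funext j
      rw [Finset.card_insert_of_notMem ha]
      ring
    rw [h1]
    exact (hF a (Finset.mem_insert_self a s)).mul
      (ih fun i hi => hF i (Finset.mem_insert_of_mem hi))

/-- The determinant of a matrix of multihomogeneous polynomials of the same degree. -/
theorem MultiHom.det {N : ℕ} (M : Matrix (Fin N) (Fin N) (MvPolynomial (Σ j, Fin (m j + 1)) ℂ))
    (e : J → ℕ) (hM : ∀ a b, MultiHom (M a b) e) : MultiHom M.det (fun j => N * e j) := by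
  rw [Matrix.det_apply]
  refine MDet_sum _ _ fun σ _ => ?_
  have h1 := MDet_prod Finset.univ (fun i => M (σ i) i) (e := e) fun i _ => hM _ _
  rw [Finset.card_univ, Fintype.card_fin] at h1
  rcases Int.units_eq_one_or (Equiv.Perm.sign σ) with h | h
  · rw [h, one_smul]
    exact h1
  · rw [h, Units.neg_smul, one_smul]
    exact MDet_neg h1

/-- The adjugate of a matrix of multihomogeneous polynomials of the same degree
(`Matrix.adjugate_fin_succ_eq_det_submatrix`). -/
theorem MultiHom.adjugate {N : ℕ}
    (M : Matrix (Fin (N + 1)) (Fin (N + 1)) (MvPolynomial (Σ j, Fin (m j + 1)) ℂ))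
    (e : J → ℕ) (hM : ∀ a b, MultiHom (M a b) e) (a b : Fin (N + 1)) :
    MultiHom (M.adjugate a b) (fun j => N * e j) := by
  rw [Matrix.adjugate_fin_succ_eq_det_submatrix]
  have h1 := MultiHom.det (M.submatrix b.succAbove a.succAbove) e fun i j => hM _ _
  rcases neg_one_pow_eq_or (MvPolynomial (Σ j, Fin (m j + 1)) ℂ) ((b : ℕ) + (a : ℕ)) with h | h
  · rw [h, one_mul]
    exact h1
  · rw [h, neg_one_mul]
    exact MDet_neg h1

end Pool.Agent.LibGMW
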