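import Pool.Agent.LibGMW.Words

/-! TASK NUMBIG: bigness and sequences of flops, numerically. -/

open scoped Classical

namespace Pool.Agent.LibGMW

variable {P R : Type} [Fintype P] [Fintype R]

/-- `E l` is the cone of the effective classes of `X_l` (the coordinate with label `l` plays no role).
A class which is big after a flop is big: let `b' = flip n e l i b`, `b' - ε ∈ E i`. Let `η` be `1` at
all labels `≠ l`, and `- 1 / (2 q)` at `l`, `q` large; `η ≤ 1`, so `b' - ε η ∈ E i`, and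
`flip n e i l (b' - ε η) = b - ε flip n e i l η` off the label `l`, where the coordinates of
`flip n e i l η` at the labels `≠ l` are `1 / (2 q)` at `i` and at least `1 / 2` otherwise. -/
theorem big_of_flip (n : ℕ) (e : R → ℕ) (E : P → Set (P ⊕ R → ℝ))
    (hadd : ∀ l, ∀ b ∈ E l, ∀ b' ∈ E l, b + b' ∈ E l)
    (hnonneg : ∀ l (b : P ⊕ R → ℝ), (∀ j, 0 ≤ b j) → b ∈ E l)
    (hcongr : ∀ l (b b' : P ⊕ R → ℝ), (∀ j, j ≠ Sum.inl l → b j = b' j) → b ∈ E l → b' ∈ E l)
    (hflip : ∀ l i, l ≠ i → ∀ b ∈ E l, flip n e l i b ∈ E i) (l i : P) (h : l ≠ i)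
    (b : P ⊕ R → ℝ) (hb : ∃ ε : ℝ, 0 < ε ∧ (fun j => flip n e l i b j - ε) ∈ E i) :
    ∃ ε : ℝ, 0 < ε ∧ (fun j => b j - ε) ∈ E l := by
  obtain ⟨ε, hε, hmem⟩ := hb
  set q : ℕ := 1 + ∑ j : P ⊕ R, n * degs e j with hq
  have hn0 : (0 : ℝ) < q := by exact_mod_cast (by omega : 0 < q)
  have hn1 : (1 : ℝ) ≤ q := by exact_mod_cast (by omega : 1 ≤ q)
  have hqj : ∀ j : P ⊕ R, ((n * degs e j : ℕ) : ℝ) ≤ q := by
    intro j
    have h1 : n * degs e j ≤ ∑ j : P ⊕ R, n * degs e j :=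
      Finset.single_le_sum (f := fun j : P ⊕ R => n * degs e j) (fun _ _ => Nat.zero_le _)
        (Finset.mem_univ j)
    exact_mod_cast (by omega : n * degs e j ≤ q)
  have hli : (Sum.inl i : P ⊕ R) ≠ Sum.inl l := fun h' => h (Sum.inl_injective h').symm
  set η : P ⊕ R → ℝ := fun j => if j = Sum.inl l then - (1 / (2 * q)) else 1 with hη
  have hη1 : ∀ j, η j ≤ 1 := by
    intro j
    simp only [hη]
    split_ifs
    · have : 0 < 1 / (2 * (q : ℝ)) := by positivity
      linarith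
    · exact le_rfl
  set c : P ⊕ R → ℝ := fun j => flip n e l i b j - ε * η j with hc
  have hcmem : c ∈ E i := by
    have h1 : (fun j => ε * (1 - η j)) ∈ E i :=
      hnonneg i _ (fun j => mul_nonneg hε.le (by linarith [hη1 j]))
    have h2 := hadd i _ hmem _ h1
    have h3 : (fun j => flip n e l i b j - ε) + (fun j => ε * (1 - η j)) = c := by
      funext j
      simp only [Pi.add_apply, hc]
      ring
    rwa [h3] at h2
  have hF := hflip i l (Ne.symm h) c hcmem
  set F : P ⊕ R → ℝ := flip n e i l c with hFdef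
  have hcl : c (Sum.inl l) = - b (Sum.inl i) + ε / (2 * q) := by
    simp only [hc, hη, flip, if_true]
    ring
  refine ⟨ε / (2 * q), by positivity, ?_⟩
  have hle : ∀ j, j ≠ Sum.inl l → F j ≤ b j - ε / (2 * q) := by
    intro j hj
    by_cases hji : j = Sum.inl i
    · subst hji
      have h1 : F (Sum.inl i) = - c (Sum.inl l) := by
        simp only [hFdef, flip, if_true]
      rw [h1, hcl]
      linarith
    · have h1 : F j = c j + ((n * degs e j : ℕ) : ℝ) * c (Sum.inl l) := by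
        simp only [hFdef, flip, if_neg hji, if_neg hj]
      have h2 : c j = b j + ((n * degs e j : ℕ) : ℝ) * b (Sum.inl i) - ε := by
        simp only [hc, hη, flip, if_neg hji, if_neg hj]
        ring
      rw [h1, h2, hcl]
      have h3 : ((n * degs e j : ℕ) : ℝ) * (ε / (2 * q)) ≤ ε / 2 := by
        have h5 : (q : ℝ) * (ε / (2 * q)) = ε / 2 := by field_simp
        rw [← h5]
        exact mul_le_mul_of_nonneg_right (hqj j) (by positivity)
      have h4 : ε / (2 * q) ≤ ε / 2 := by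
        apply div_le_div_of_nonneg_left hε.le (by norm_num)
        linarith
      nlinarith
  have h5 : (fun j => if j = Sum.inl l then 0 else b j - ε / (2 * q) - F j) ∈ E l := by
    refine hnonneg l _ (fun j => ?_)
    split_ifs with hj
    · exact le_rfl
    · linarith [hle j hj]
  refine hcongr l _ _ ?_ (hadd l _ hF _ h5)
  intro j hj
  simp only [Pi.add_apply, if_neg hj]
  ring

/-- The same for a sequence of flops (induction on `w`). -/
theorem big_of_act (n : ℕ) (e : R → ℕ) (E : P → Set (P ⊕ R → ℝ))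
    (hadd : ∀ l, ∀ b ∈ E l, ∀ b' ∈ E l, b + b' ∈ E l)
    (hnonneg : ∀ l (b : P ⊕ R → ℝ), (∀ j, 0 ≤ b j) → b ∈ E l)
    (hcongr : ∀ l (b b' : P ⊕ R → ℝ), (∀ j, j ≠ Sum.inl l → b j = b' j) → b ∈ E l → b' ∈ E l)
    (hflip : ∀ l i, l ≠ i → ∀ b ∈ E l, flip n e l i b ∈ E i) (l : P) (w : List P) (hw : Valid l w)
    (b : P ⊕ R → ℝ)
    (hb : ∃ ε : ℝ, 0 < ε ∧ (fun j => act n e l w b j - ε) ∈ E (lab l w)) :
    ∃ ε : ℝ, 0 < ε ∧ (fun j => b j - ε) ∈ E l := by
  induction w with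
  | nil => exact hb
  | cons i w ih =>
    exact ih hw.2 (big_of_flip n e E hadd hnonneg hcongr hflip (lab l w) i hw.1 (act n e l w b) hb)

/-- If all coordinates with labels in `P`, `≠ l`, of an effective class `b` are positive, then
`κ + b` is big: `κ + b = (κ + t b) + (1 - t) b` for a small `t > 0`, and the coordinates with labels
`≠ l` of `κ + t b` are positive. -/
theorem big_of_pos (E : Set (P ⊕ R → ℝ)) (l : P)
    (hadd : ∀ b ∈ E, ∀ b' ∈ E, b + b' ∈ E) (hsmul : ∀ c : ℝ, 0 ≤ c → ∀ b ∈ E, c • b ∈ E)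
    (hnonneg : ∀ b : P ⊕ R → ℝ, (∀ j, 0 ≤ b j) → b ∈ E)
    (hcongr : ∀ b b' : P ⊕ R → ℝ, (∀ j, j ≠ Sum.inl l → b j = b' j) → b ∈ E → b' ∈ E)
    (κ : P ⊕ R → ℝ) (hκP : ∀ p, κ (Sum.inl p) = 0) (hκR : ∀ r, 0 < κ (Sum.inr r))
    (b : P ⊕ R → ℝ) (hb : b ∈ E) (hpos : ∀ i, l ≠ i → 0 < b (Sum.inl i)) :
    ∃ ε : ℝ, 0 < ε ∧ (fun j => κ j + b j - ε) ∈ E := by
  have ht : ∀ᶠ t : ℝ in nhdsWithin 0 (Set.Ioi 0), (∀ r, 0 < κ (Sum.inr r) + t * b (Sum.inr r)) ∧
      t < 1 ∧ 0 < t := by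
    refine Filter.Eventually.and (Filter.eventually_all.2 fun r => ?_)
      (Filter.Eventually.and ?_ self_mem_nhdsWithin)
    · have hcont : Continuous fun t : ℝ => κ (Sum.inr r) + t * b (Sum.inr r) := by fun_prop
      have h1 : ∀ᶠ t : ℝ in nhds 0, 0 < κ (Sum.inr r) + t * b (Sum.inr r) := by
        apply hcont.continuousAt.eventually (lt_mem_nhds ?_)
        simpa using hκR r
      exact h1.filter_mono nhdsWithin_le_nhds
    · exact (gt_mem_nhds (by norm_num : (0 : ℝ) < 1)).filter_mono nhdsWithin_le_nhds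
  obtain ⟨t, htR, ht1, ht0⟩ := ht.exists
  have hposj : ∀ j : P ⊕ R, j ≠ Sum.inl l → 0 < κ j + t * b j := by
    rintro (i | r) hj
    · rw [hκP, zero_add]
      exact mul_pos ht0 (hpos i (fun h => hj (by rw [h])))
    · exact htR r
  have hδ : ∀ᶠ δ : ℝ in nhdsWithin 0 (Set.Ioi 0), (∀ j : P ⊕ R, j ≠ Sum.inl l → δ < κ j + t * b j) ∧
      0 < δ := by
    refine Filter.Eventually.and (Filter.eventually_all.2 fun j => ?_) self_mem_nhdsWithin
    by_cases hj : j = Sum.inl l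
    · exact Filter.Eventually.of_forall fun δ h => absurd hj h
    · have h1 : ∀ᶠ δ : ℝ in nhds 0, δ < κ j + t * b j := gt_mem_nhds (hposj j hj)
      exact (h1.filter_mono nhdsWithin_le_nhds).mono fun δ h _ => h
  obtain ⟨δ, hδ1, hδ0⟩ := hδ.exists
  refine ⟨δ, hδ0, ?_⟩
  have h1 : (fun j => if j = Sum.inl l then 0 else κ j + t * b j - δ) ∈ E := by
    refine hnonneg _ (fun j => ?_)
    split_ifs with hj
    · exact le_rfl
    · linarith [hδ1 j hj]
  have h2 := hsmul (1 - t) (by linarith) b hb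
  refine hcongr _ _ ?_ (hadd _ h1 _ h2)
  intro j hj
  simp only [Pi.add_apply, Pi.smul_apply, smul_eq_mul, if_neg hj]
  ring

end Pool.Agent.LibGMW
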