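import Pool.Agent.LibGMW.Words

/-! TASK NUMLOW: the sum of the coordinates is not negative. -/

open scoped Classical

namespace Pool.Agent.LibGMW

variable {P R : Type} [Fintype P] [Fintype R]

/-- `hsoft`: for a class `a` in `Z l` with `a i ≤ 0` for a label `i ≠ l` in `P`, all coordinates with
labels `≠ l, i` are `≥ 0`.

If no coordinate of `a` with a label in `P` is negative, all are `≥ 0`. Otherwise let `a i < 0`,
`i ∈ P`. All other coordinates of `a` are `≥ 0` by `hsoft`. It is enough to find a label `j ≠ l, i`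
with `a j + n d_j a i ≥ 0`, `d_j ≥ 1` (as `n ≥ 1`). Let `a' = flip n e l i a ∈ Z i`,
`a' j = a j + n d_j a i` for `j ≠ l, i`. If there is a label `r` in `R`, `hr'` says `a' r ≥ 0`. Otherwise there are at least two
labels `h, h' ≠ l, i` in `P`; if `a' h < 0` then `a' h' ≥ 0` by `hsoft` for `a'`. -/
theorem sum_nonneg_of_soft (n : ℕ) (hn : 1 ≤ n) (e : R → ℕ) (he : ∀ r, 1 ≤ e r) (hcard : 4 ≤ Fintype.card P + Fintype.card R)
    (Z : P → Set (P ⊕ R → ℤ)) (hZ : ∀ l, ∀ a ∈ Z l, a (Sum.inl l) = 0)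
    (hflip : ∀ l i, l ≠ i → ∀ a ∈ Z l, flip n e l i a ∈ Z i)
    (hsoft : ∀ l i, l ≠ i → ∀ j, j ≠ Sum.inl l → j ≠ Sum.inl i → ∀ a ∈ Z l, a (Sum.inl i) ≤ 0 →
      0 ≤ a j) (l : P) (a : P ⊕ R → ℤ) (ha : a ∈ Z l) (hr : ∀ r : R, 0 ≤ a (Sum.inr r))
    (hr' : ∀ i, l ≠ i → ∀ r : R, 0 ≤ flip n e l i a (Sum.inr r)) : 0 ≤ ∑ j, a j := by
  by_cases hall : ∀ p : P, 0 ≤ a (Sum.inl p)
  · refine Finset.sum_nonneg ?_
    rintro (p | r) _
    · exact hall p
    · exact hr r
  push Not at hall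
  obtain ⟨i, hi⟩ := hall
  have hal := hZ l a ha
  have hli : l ≠ i := by
    rintro rfl
    rw [hal] at hi
    exact lt_irrefl _ hi
  have hne : (Sum.inl i : P ⊕ R) ≠ Sum.inl l := fun h' => hli (Sum.inl_injective h').symm
  have hnn : ∀ j, j ≠ Sum.inl i → 0 ≤ a j := by
    intro j hji
    by_cases hjl : j = Sum.inl l
    · rw [hjl, hal]
    · exact hsoft l i hli j hjl hji a ha hi.le
  have hkey : ∃ j, j ≠ Sum.inl l ∧ j ≠ Sum.inl i ∧
      0 ≤ a j + ((n * degs e j : ℕ) : ℤ) * a (Sum.inl i) := by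
    have hfl : ∀ j : P ⊕ R, j ≠ Sum.inl l → j ≠ Sum.inl i →
        flip n e l i a j = a j + ((n * degs e j : ℕ) : ℤ) * a (Sum.inl i) := by
      intro j hjl hji
      simp [flip, hjl, hji]
    by_cases hR : Nonempty R
    · obtain ⟨r⟩ := hR
      refine ⟨Sum.inr r, Sum.inr_ne_inl, Sum.inr_ne_inl, ?_⟩
      rw [← hfl _ Sum.inr_ne_inl Sum.inr_ne_inl]
      exact hr' i hli r
    · have hRc : Fintype.card R = 0 := Fintype.card_eq_zero_iff.mpr (not_nonempty_iff.mp hR)
      have hPc : 4 ≤ Fintype.card P := by omega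
      have hcardS : 2 ≤ ((Finset.univ.erase l).erase i).card := by
        rw [Finset.card_erase_of_mem (Finset.mem_erase.mpr ⟨hli.symm, Finset.mem_univ i⟩),
          Finset.card_erase_of_mem (Finset.mem_univ l), Finset.card_univ]
        omega
      obtain ⟨h, hh, h', hh', hhh⟩ := Finset.one_lt_card.mp (by omega : 1 <
        ((Finset.univ.erase l).erase i).card)
      rw [Finset.mem_erase, Finset.mem_erase] at hh hh'
      have e1 : (Sum.inl h : P ⊕ R) ≠ Sum.inl l := fun e => hh.2.1 (Sum.inl_injective e)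
      have e2 : (Sum.inl h : P ⊕ R) ≠ Sum.inl i := fun e => hh.1 (Sum.inl_injective e)
      have e1' : (Sum.inl h' : P ⊕ R) ≠ Sum.inl l := fun e => hh'.2.1 (Sum.inl_injective e)
      have e2' : (Sum.inl h' : P ⊕ R) ≠ Sum.inl i := fun e => hh'.1 (Sum.inl_injective e)
      have e3 : (Sum.inl h' : P ⊕ R) ≠ Sum.inl h := fun e => hhh (Sum.inl_injective e).symm
      by_cases hneg : 0 ≤ a (Sum.inl h) + ((n * degs e (Sum.inl h) : ℕ) : ℤ) * a (Sum.inl i)
      · exact ⟨_, e1, e2, hneg⟩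
      · push Not at hneg
        refine ⟨_, e1', e2', ?_⟩
        rw [← hfl _ e1' e2']
        refine hsoft i h hh.1.symm _ e2' e3 _ (hflip l i hli a ha) ?_
        rw [hfl _ e1 e2]
        exact hneg.le
  obtain ⟨j, hjl, hji, hj⟩ := hkey
  have hn' : (1 : ℤ) ≤ ((n * degs e j : ℕ) : ℤ) := by
    have h1 : 1 ≤ degs e j := by
      rcases j with p | r
      · exact le_rfl
      · exact he r
    exact_mod_cast Nat.mul_pos hn h1
  have h1 : 0 ≤ a j + a (Sum.inl i) := by nlinarith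
  rw [← Finset.add_sum_erase _ _ (Finset.mem_univ (Sum.inl i)),
    ← Finset.add_sum_erase _ _ (Finset.mem_erase.mpr ⟨hji, Finset.mem_univ j⟩)]
  have h2 : 0 ≤ ∑ x ∈ (Finset.univ.erase (Sum.inl i)).erase j, a x := by
    refine Finset.sum_nonneg fun x hx => hnn x ?_
    rw [Finset.mem_erase, Finset.mem_erase] at hx
    exact hx.2.1
  linarith

end Pool.Agent.LibGMW
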