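import Pool.Agent.LibGMW.Words

/-! TASK NUMTERM: termination. -/

open scoped Classical

namespace Pool.Agent.LibGMW

variable {P R : Type} [Fintype P] [Fintype R]

/-- Termination (see `terminate` in LibGMM/Num, whose proof can be adapted). Among the valid words `w`
choose one for which the real number `∑ k, c k * S_k`, `S_k = ∑ j, act n e l w (a k) j`, is minimal: the
`S_k` are natural numbers and `c k > 0`, so the set of values below a bound is finite. If the
coordinate with label `p ∈ P` of `∑ k, c k * act n e l w (a k)` is negative then `p ≠ lab l w`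
(`act_lab`), and by `sum_flip` the word `p :: w` has a smaller value. -/
theorem terminate (n : ℕ) (e : R → ℕ) (hne : 2 < (Fintype.card P + ∑ r, e r - 2) * n)
    (hP : 2 ≤ Fintype.card P) (l : P)
    (N : ℕ) (c : Fin N → ℝ) (hc : ∀ k, 0 < c k) (a : Fin N → P ⊕ R → ℤ)
    (ha : ∀ k, a k (Sum.inl l) = 0)
    (hS : ∀ w, Valid l w → ∀ k, 0 ≤ ∑ j, act n e l w (a k) j) :
    ∃ w, Valid l w ∧ ∀ p : P, 0 ≤ ∑ k, c k * ((act n e l w (a k) (Sum.inl p) : ℤ) : ℝ) := by
  set f : (Fin N → ℤ) → ℝ := fun v => ∑ k, c k * (v k : ℝ) with hf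
  set V : Set (Fin N → ℤ) := {v | (∃ w : List P, Valid l w ∧
    v = fun k => ∑ j, act n e l w (a k) j) ∧ f v ≤ f fun k => ∑ j, a k j} with hV
  have hVne : V.Nonempty := ⟨fun k => ∑ j, a k j, ⟨[], trivial, rfl⟩, le_rfl⟩
  have hVfin : V.Finite := by
    refine (Set.finite_Icc (0 : Fin N → ℤ)
      (fun k => ⌊(f fun k => ∑ j, a k j) / c k⌋)).subset ?_
    rintro v ⟨⟨w, hw, rfl⟩, hv⟩
    have hnn : ∀ k, 0 ≤ ∑ j, act n e l w (a k) j := fun k => hS w hw k
    refine ⟨fun k => hnn k, fun k => ?_⟩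
    change (∑ j, act n e l w (a k) j) ≤ ⌊(f fun k => ∑ j, a k j) / c k⌋
    rw [Int.le_floor, le_div_iff₀ (hc k)]
    refine le_trans ?_ hv
    rw [hf, mul_comm]
    exact Finset.single_le_sum (f := fun k => c k * (((∑ j, act n e l w (a k) j : ℤ)) : ℝ))
      (fun m _ => mul_nonneg (hc m).le (by exact_mod_cast hnn m)) (Finset.mem_univ k)
  obtain ⟨v, ⟨⟨w, hw, hvw⟩, hvB⟩, hmin⟩ := Set.exists_min_image V f hVfin hVne
  refine ⟨w, hw, fun p => ?_⟩
  by_contra hneg
  push Not at hneg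
  have hlab : lab l w ≠ p := by
    rintro rfl
    have h0 : ∑ k, c k * ((act n e l w (a k) (Sum.inl (lab l w)) : ℤ) : ℝ) = 0 := by
      refine Finset.sum_eq_zero fun k _ => ?_
      rw [act_lab n e l w hw (a k) (ha k)]
      simp
    rw [h0] at hneg
    exact lt_irrefl _ hneg
  set κ : ℤ := (((Fintype.card P : ℤ) + (∑ r, (e r : ℤ)) - 2) * n - 2) with hκ
  have hκpos : 0 < κ := by
    have h1 : ((Fintype.card P + ∑ r, e r - 2 : ℕ) : ℤ) =
        (Fintype.card P : ℤ) + (∑ r, (e r : ℤ)) - 2 := by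
      rw [Nat.cast_sub (by omega)]
      push_cast
      ring
    have h2 : (2 : ℤ) < ((Fintype.card P + ∑ r, e r - 2 : ℕ) : ℤ) * n := by exact_mod_cast hne
    rw [h1] at h2
    rw [hκ]
    linarith
  set v' : Fin N → ℤ := fun k => ∑ j, act n e l (p :: w) (a k) j with hv'
  have h1 : f v' = f v + κ * ∑ k, c k * ((act n e l w (a k) (Sum.inl p) : ℤ) : ℝ) := by
    rw [hf]
    simp only
    rw [Finset.mul_sum, ← Finset.sum_add_distrib]
    refine Finset.sum_congr rfl fun k _ => ?_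
    have h2 : v' k = v k + κ * act n e l w (a k) (Sum.inl p) := by
      rw [hv', hvw, hκ]
      exact sum_flip n e (lab l w) p hlab (act n e l w (a k)) (act_lab n e l w hw (a k) (ha k))
    rw [h2]
    push_cast
    ring
  have hκp : (0 : ℝ) < κ := by exact_mod_cast hκpos
  have h2 : f v' < f v := by
    rw [h1]
    have := mul_neg_of_pos_of_neg hκp hneg
    linarith
  have h3 : v' ∈ V := ⟨⟨p :: w, ⟨hlab, hw⟩, rfl⟩, (h2.trans_le hvB).le⟩
  exact absurd (hmin v' h3) (not_le.mpr h2)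

/-- If there are only two labels in `P`, at most one flop is needed. -/
theorem terminate_two (n : ℕ) (e : R → ℕ) (hP : Fintype.card P = 2) (l : P)
    (N : ℕ) (c : Fin N → ℝ) (a : Fin N → P ⊕ R → ℤ) (ha : ∀ k, a k (Sum.inl l) = 0) :
    ∃ w, Valid l w ∧ ∀ p : P, 0 ≤ ∑ k, c k * ((act n e l w (a k) (Sum.inl p) : ℤ) : ℝ) := by
  obtain ⟨i, hi, huniv⟩ : ∃ i, i ≠ l ∧ ∀ p : P, p = l ∨ p = i := by
    have h1 : (Finset.univ.erase l).card = 1 := by
      rw [Finset.card_erase_of_mem (Finset.mem_univ _), Finset.card_univ, hP]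
    obtain ⟨i, hi⟩ := Finset.card_eq_one.1 h1
    have h2 : i ∈ Finset.univ.erase l := by rw [hi]; exact Finset.mem_singleton_self i
    refine ⟨i, Finset.ne_of_mem_erase h2, fun p => ?_⟩
    by_cases hp : p = l
    · exact Or.inl hp
    · right
      have h3 : p ∈ Finset.univ.erase l := Finset.mem_erase.2 ⟨hp, Finset.mem_univ _⟩
      rw [hi] at h3
      exact Finset.mem_singleton.1 h3
  have hl : ∑ k, c k * ((a k (Sum.inl l) : ℤ) : ℝ) = 0 :=
    Finset.sum_eq_zero fun k _ => by rw [ha]; simp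
  by_cases h : 0 ≤ ∑ k, c k * ((a k (Sum.inl i) : ℤ) : ℝ)
  · refine ⟨[], trivial, fun p => ?_⟩
    rcases huniv p with rfl | rfl
    · exact hl.ge
    · exact h
  · have hli : (Sum.inl i : P ⊕ R) ≠ Sum.inl l := fun h' => hi (Sum.inl_injective h')
    refine ⟨[i], ⟨hi.symm, trivial⟩, fun p => ?_⟩
    rcases huniv p with rfl | rfl
    · have h1 : ∀ k, act n e p [i] (a k) (Sum.inl p) = - a k (Sum.inl i) := fun k => by
        simp [act, flip, lab]
      simp only [h1]
      push_cast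
      simp only [mul_neg, Finset.sum_neg_distrib]
      linarith
    · refine (Finset.sum_eq_zero fun k _ => ?_).ge
      have h1 : act n e l [p] (a k) (Sum.inl p) = 0 := by
        simp [act, flip, lab, hli]
      rw [h1]; simp

end Pool.Agent.LibGMW
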