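import Pool.Agent.LibGMW.Tran
import Pool.Agent.LibGMW.Liou
import Pool.Agent.LibGMW.CompatCls

/-! TASK SOFT: the inequality for effective classes. -/

open scoped Classical

namespace Pool.Agent.LibGMW

open Pool.Agent.LibGMM MvPolynomial

variable {P R : Type} [Fintype P] [Fintype R] {n : ℕ} {m e : R → ℕ}
  {K : Type} [Field K] [Algebra ℂ K] {T : FormTensor P n m e} {l i : P}

/-- The function `g_s`. -/
private noncomputable def Soft_g (D : Multilin K T l) (i : P) (j : P ⊕ R) (a : P ⊕ R → ℤ) (g : Kˣ)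
    (s : Fin (dims n m j + 1)) : Kˣ :=
  g * (∏ h ∈ ((Finset.univ.erase (Sum.inl l)).erase (Sum.inl i)).erase j, D.x h 0 ^ (- a h)) *
    D.x j s ^ (- a j) * D.x (Sum.inl i) 0 ^ (- a (Sum.inl i))

private theorem Soft_ord (D : Multilin K T l) (i : P) (j : P ⊕ R) (a : P ⊕ R → ℤ) (g : Kˣ)
    (s : Fin (dims n m j + 1)) (Q : DVal K) :
    Q.ord (Soft_g D i j a g s : K) = Q.ord (g : K) +
      ∑ h ∈ ((Finset.univ.erase (Sum.inl l)).erase (Sum.inl i)).erase j,
        (- a h) * Q.ord (D.x h 0 : K) + (- a j) * Q.ord (D.x j s : K) +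
      (- a (Sum.inl i)) * Q.ord (D.x (Sum.inl i) 0 : K) := by
  unfold Soft_g
  rw [Units.val_mul, Units.val_mul, Units.val_mul,
    Q.ord_mul' (mul_ne_zero (mul_ne_zero (Units.ne_zero _) (Units.ne_zero _)) (Units.ne_zero _))
      (Units.ne_zero _),
    Q.ord_mul' (mul_ne_zero (Units.ne_zero _) (Units.ne_zero _)) (Units.ne_zero _),
    Q.ord_mul' (Units.ne_zero _) (Units.ne_zero _),
    Units.coe_prod, Q.ord_prod _ _ (fun h _ => Units.ne_zero _), Units.val_zpow_eq_zpow_val,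
    Units.val_zpow_eq_zpow_val, Q.ord_zpow, Q.ord_zpow]
  congr 3
  refine Finset.sum_congr rfl fun h _ => ?_
  rw [Units.val_zpow_eq_zpow_val, Q.ord_zpow]

private theorem Soft_ratio (D : Multilin K T l) (i : P) (j : P ⊕ R) (a : P ⊕ R → ℤ) (g : Kˣ)
    (s s' : Fin (dims n m j + 1)) :
    (Soft_g D i j a g s : K) / (Soft_g D i j a g s' : K) =
      ((D.x j s : K) / (D.x j s' : K)) ^ (- a j) := by
  have h1 : Soft_g D i j a g s / Soft_g D i j a g s' = (D.x j s / D.x j s') ^ (- a j) := by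
    unfold Soft_g
    rw [div_zpow, mul_div_mul_right_eq_div, mul_div_mul_left_eq_div]
  have h2 := congrArg (Units.val) h1
  rw [Units.val_div_eq_div_val, Units.val_zpow_eq_zpow_val, Units.val_div_eq_div_val] at h2
  exact h2

/-- Suppose `a j < 0` and `a i ≤ 0`; let `g` be as in the definition of `EffZ`. For an index `s` of
the group `j` let `g_s = g * ∏ (x h 0) ^ (- a h) * (x j s) ^ (- a j) * (x i 0) ^ (- a i)`, the product
over all `h ≠ l, i, j`. Along a prime divisor `Q` on which the coordinates of the factors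
`h ≠ l, i, j` have constant order `hyp h Q = - ord (x h 0)`, so `0 ≤ ord g_s` for all `s` (as
`hyp j Q ≥ - ord (x j s)` and `hyp i Q ≥ - ord (x i 0)`, `D.hyp_self`). By `Emb.liouville` all `g_s`
are algebraic, so all `(x j s / x j s') ^ (- a j)` are, against `Multilin.exists_transcendental`. -/
theorem Multilin.soft (D : Multilin K T l) (h : l ≠ i)
    (hdims : ∀ j, 1 ≤ dims (P := P) n m j) (hdet : (matP T l i).det ≠ 0)
    (hadj : ∃ a b, (D.mat i).adjugate a b ≠ 0) (j : P ⊕ R) (hjl : j ≠ Sum.inl l)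
    (hji : j ≠ Sum.inl i) (hj : 2 ≤ dims n m j) (hej : 1 ≤ degs e j) (a : P ⊕ R → ℤ) (ha : a ∈ D.EffZ)
    (hai : a (Sum.inl i) ≤ 0) : 0 ≤ a j := by
  by_contra hneg
  push Not at hneg
  obtain ⟨g, hg⟩ := ha
  have hli : (Sum.inl i : P ⊕ R) ≠ Sum.inl l := fun h' => h (Sum.inl_injective h').symm
  have halg : ∀ s, IsAlgebraic (D.base {h | h ≠ Sum.inl l ∧ h ≠ Sum.inl i ∧ h ≠ j})
      (Soft_g D i j a g s : K) := by
    intro s
    by_contra htr
    obtain ⟨Q, hQ, hQneg, hQS⟩ := D.liouville {h | h ≠ Sum.inl l ∧ h ≠ Sum.inl i ∧ h ≠ j}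
      (Soft_g D i j a g s : K) htr
    have h1 := hg Q hQ
    rw [← Finset.add_sum_erase _ _ (Finset.mem_univ (Sum.inl l)),
      ← Finset.add_sum_erase _ _ (Finset.mem_erase.mpr ⟨hli, Finset.mem_univ (Sum.inl i)⟩),
      ← Finset.add_sum_erase _ _ (Finset.mem_erase.mpr
        ⟨hji, Finset.mem_erase.mpr ⟨hjl, Finset.mem_univ j⟩⟩), D.hyp_self, mul_zero,
      zero_add] at h1
    have h2 : ∑ h ∈ ((Finset.univ.erase (Sum.inl l)).erase (Sum.inl i)).erase j,
        (a h : ℝ) * D.hyp h Q = ∑ h ∈ ((Finset.univ.erase (Sum.inl l)).erase (Sum.inl i)).erase j,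
        (((- a h) * Q.ord (D.x h 0 : K) : ℤ) : ℝ) := by
      refine Finset.sum_congr rfl fun h hh => ?_
      rw [Finset.mem_erase, Finset.mem_erase, Finset.mem_erase] at hh
      obtain ⟨t, ht⟩ := D.exists_hyp_eq h Q
      have h3 := hQS h ⟨hh.2.2.1, hh.2.1, hh.1⟩ t 0
      rw [ht, h3]
      push_cast
      ring
    have h3 := D.neg_hyp_le j s Q
    have h4 := D.neg_hyp_le (Sum.inl i) 0 Q
    have h5 : (a j : ℝ) * D.hyp j Q ≤ (((- a j) * Q.ord (D.x j s : K) : ℤ) : ℝ) := by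
      have h6 : (0 : ℝ) ≤ -(a j : ℝ) := by
        have : (a j : ℝ) < 0 := by exact_mod_cast hneg
        linarith
      push_cast
      nlinarith
    have h7 : (a (Sum.inl i) : ℝ) * D.hyp (Sum.inl i) Q ≤
        (((- a (Sum.inl i)) * Q.ord (D.x (Sum.inl i) 0 : K) : ℤ) : ℝ) := by
      have h6 : (0 : ℝ) ≤ -(a (Sum.inl i) : ℝ) := by
        have : (a (Sum.inl i) : ℝ) ≤ 0 := by exact_mod_cast hai
        linarith
      push_cast
      nlinarith
    have h8 : (0 : ℝ) ≤ (Q.ord (Soft_g D i j a g s : K) : ℝ) := by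
      rw [Soft_ord]
      rw [h2] at h1
      push_cast at h1 h5 h7 ⊢
      linarith
    have h9 : (0 : ℤ) ≤ Q.ord (Soft_g D i j a g s : K) := by exact_mod_cast h8
    omega
  obtain ⟨r, r', hrr⟩ := D.exists_transcendental h hdims hdet hadj j hjl hji hj hej
  apply hrr
  have h1 := (halg r).mul (halg r').inv
  rw [← div_eq_mul_inv, Soft_ratio] at h1
  have h2 : - a j = ((- a j).toNat : ℤ) := (Int.toNat_of_nonneg (by omega)).symm
  rw [h2, zpow_natCast] at h1
  exact IsAlgebraic.of_pow (by omega) h1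

end Pool.Agent.LibGMW
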