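import Pool.Agent.LibGMW.Geom
import Pool.Agent.LibGMW.Fib
import Pool.Agent.LibGMW.Soft
import Pool.Agent.LibGMW.NumLow
import Pool.Agent.LibGMW.NumTerm
import Pool.Agent.LibGMW.NumBig

/-! Good minimal models of complete intersections of multilinear forms. -/

open scoped Classical

namespace Pool.Agent.LibGMW

open Pool.Agent.LibGMM

variable {P R : Type} [Fintype P] [Fintype R] {n : ℕ} {m e : R → ℕ}
  {K : Type} [Field K] [Algebra ℂ K] {T : FormTensor P n m e}

theorem Multilin.sum_hyp_congr {l : P} (D : Multilin K T l) (b b' : P ⊕ R → ℝ)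
    (h : ∀ j, j ≠ Sum.inl l → b j = b' j) (Q : DVal K) :
    ∑ j, b j * D.hyp j Q = ∑ j, b' j * D.hyp j Q := by
  refine Finset.sum_congr rfl fun j _ => ?_
  by_cases hj : j = Sum.inl l
  · subst hj
    rw [D.hyp_self, mul_zero, mul_zero]
  · rw [h j hj]

theorem Multilin.effR_congr {l : P} (D : Multilin K T l) (b b' : P ⊕ R → ℝ)
    (h : ∀ j, j ≠ Sum.inl l → b j = b' j) (hb : b ∈ D.EffR) : b' ∈ D.EffR := by
  obtain ⟨f, hf⟩ := hb
  refine ⟨f, fun Q hQ => ?_⟩
  rw [← D.sum_hyp_congr b b' h Q]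
  exact hf Q hQ

theorem Multilin.effZ_congr {l : P} (D : Multilin K T l) (a a' : P ⊕ R → ℤ)
    (h : ∀ j, j ≠ Sum.inl l → a j = a' j) (ha : a ∈ D.EffZ) : a' ∈ D.EffZ := by
  obtain ⟨g, hg⟩ := ha
  refine ⟨g, fun Q hQ => ?_⟩
  rw [← D.sum_hyp_congr (fun j => (a j : ℝ)) (fun j => (a' j : ℝ))
    (fun j hj => by rw [h j hj]) Q]
  exact hg Q hQ

theorem nonneg_of_limit (x y : ℝ) (h : ∀ ε : ℝ, 0 < ε → 0 ≤ x + ε * y) : 0 ≤ x := by
  by_contra hneg
  push Not at hneg
  have h0 : 0 < - x / (2 * (|y| + 1)) := div_pos (by linarith) (by positivity)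
  have h1 := h _ h0
  have h2 : - x / (2 * (|y| + 1)) * y ≤ - x / 2 := by
    have h3 : - x / (2 * (|y| + 1)) * y ≤ - x / (2 * (|y| + 1)) * (|y| + 1) := by
      apply mul_le_mul_of_nonneg_left _ h0.le
      have := le_abs_self y
      linarith
    refine h3.trans (le_of_eq ?_)
    field_simp
  linarith

/-- The main theorem. -/
theorem goodMinimalModel (hn : 2 ≤ n) (he : ∀ r, 1 ≤ e r) (hP : 2 ≤ Fintype.card P)
    (hcard : Fintype.card P = 2 ∨ 4 ≤ Fintype.card P + Fintype.card R)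
    (D : ∀ l : P, Multilin K T l)
    (hdet : ∀ l i, l ≠ i → (matP T l i).det ≠ 0) (hs : ∀ l i, l ≠ i → (D l).Small i)
    (ω : TopForm K) (hω : ω ≠ 0) (l : P) (Δ : DVal K → ℝ) (hΔ : IsKlt (D l).model ω Δ)
    (hspan : ∃ δ : P ⊕ R → ℝ, (D l).model.RLinEq Δ fun Q => ∑ j, δ j * (D l).hyp j Q)
    (hcase : (PseudoEffective (D l).model (lcDiv ω Δ) ∧ ∀ r, n + 2 ≤ m r) ∨
      (¬ (D l).model.Big (lcDiv ω Δ) ∧ ∀ r, 2 ≤ m r ∧ m r + 1 < (n + 1) * e r)) :
    ∃ (l' : P) (σ : K ≃ₐ[ℂ] K), IsGoodMinimalModel (D l).model ω Δ ((D l').model.map σ) := by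
  have hm2 : ∀ r, 2 ≤ m r := by
    rcases hcase with h | h
    · intro r; have := h.2 r; omega
    · exact fun r => (h.2 r).1
  have hdims2 : ∀ j, 2 ≤ dims (P := P) n m j := by
    rintro (p | r)
    · exact hn
    · exact hm2 r
  have hdegs : ∀ j, 1 ≤ degs (P := P) e j := by
    rintro (p | r)
    · exact le_rfl
    · exact he r
  have hdims1 : ∀ j, 1 ≤ dims (P := P) n m j := fun j => by have := hdims2 j; omega
  have hex : ∀ l : P, ∃ i, l ≠ i := by
    intro l
    have : Nontrivial P := Fintype.one_lt_card_iff_nontrivial.1 (by omega)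
    obtain ⟨i, hi⟩ := exists_ne l
    exact ⟨i, hi.symm⟩
  obtain ⟨i, hi⟩ := hex l
  -- the canonical class
  obtain ⟨u, hu⟩ := (D l).canonical_class hi hdims1 (hdet _ _ hi) (hs _ _ hi) he ω hω
  set κ : P ⊕ R → ℝ := Sum.elim (fun _ => 0) (fun r => ((n : ℝ) + 1) * e r - m r - 1) with hκ
  have hκP : ∀ p, κ (Sum.inl p) = 0 := fun p => rfl
  have hcan : ∀ Q, (D l).model.IsPrimeDiv Q →
      (canOrd Q ω : ℝ) = ∑ j, κ j * (D l).hyp j Q + Q.ord u := by
    intro Q hQ
    rw [hu Q hQ]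
    congr 1
    have hil : (Sum.inl i : P ⊕ R) ≠ Sum.inl l := fun h' => hi (Sum.inl_injective h').symm
    rw [← Finset.add_sum_erase Finset.univ (fun j => κ j * (D l).hyp j Q)
      (Finset.mem_univ (Sum.inl l)),
      ← Finset.add_sum_erase (Finset.univ.erase (Sum.inl l)) (fun j => κ j * (D l).hyp j Q)
      (a := Sum.inl i) (Finset.mem_erase.2 ⟨hil, Finset.mem_univ _⟩)]
    rw [hκP, hκP, zero_mul, zero_mul, zero_add, zero_add]
    refine Finset.sum_congr rfl fun j _ => ?_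
    congr 1
    rcases j with p | r
    · change ((n : ℝ) + 1) * ((1 : ℕ) : ℝ) - (n : ℝ) - 1 = 0
      push_cast
      ring
    · rfl
  obtain ⟨δ, f, hf⟩ := hspan
  -- normalisation
  set δ' : P ⊕ R → ℝ := Function.update δ (Sum.inl l) 0 with hδ'
  have hδδ' : ∀ j, j ≠ Sum.inl l → δ j = δ' j := fun j hj => by
    rw [hδ', Function.update_of_ne hj]
  have hδ'0 : δ' (Sum.inl l) = 0 := by rw [hδ', Function.update_self]
  have hf' : ∀ Q, (D l).model.IsPrimeDiv Q → Δ Q = ∑ j, δ' j * (D l).hyp j Q + ordR Q f := by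
    intro Q hQ
    rw [← (D l).sum_hyp_congr δ δ' hδδ' Q]
    exact hf Q hQ
  have hδeff : δ' ∈ (D l).EffR := ⟨f, fun Q hQ => by
    have h1 := hf' Q hQ
    have h2 := hΔ.nonneg Q hQ
    linarith⟩
  have hD : (D l).model.RLinEq (lcDiv ω Δ) fun Q => ∑ j, (κ + δ') j * (D l).hyp j Q := by
    refine ⟨Finsupp.single u 1 + f, fun Q hQ => ?_⟩
    simp only [lcDiv, ordR_add, ordR_single, Pi.add_apply, add_mul, Finset.sum_add_distrib]
    rw [hcan Q hQ, hf' Q hQ]
    ring
  -- decomposition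
  obtain ⟨N, c, a₀, hc, ha₀, hδa₀⟩ := (D l).effR_decomp δ' hδeff
  set a : Fin N → P ⊕ R → ℤ := fun k => Function.update (a₀ k) (Sum.inl l) 0 with ha
  have ha0 : ∀ k, a k (Sum.inl l) = 0 := fun k => by simp [ha]
  have haE : ∀ k, a k ∈ (D l).EffZ := fun k =>
    (D l).effZ_congr (a₀ k) (a k) (fun j hj => by simp [ha, hj]) (ha₀ k)
  have hδa : δ' = fun j => ∑ k, c k * (a k j : ℝ) := by
    funext j
    by_cases hj : j = Sum.inl l
    · subst hj
      rw [hδ'0]
      symm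
      apply Finset.sum_eq_zero
      intro k _
      rw [ha0]; simp
    · rw [hδa₀ j]
      refine Finset.sum_congr rfl fun k _ => ?_
      simp [ha, hj]
  -- the cones
  set Z : P → Set (P ⊕ R → ℤ) := fun l => {a | a (Sum.inl l) = 0 ∧ a ∈ (D l).EffZ} with hZ
  have hZflip : ∀ l i, l ≠ i → ∀ a ∈ Z l, flip n e l i a ∈ Z i := by
    intro l i h a ha
    obtain ⟨τ, -, hτ⟩ := exists_flop (D l) (D i) h (hs _ _ h) (hs _ _ h.symm)
    refine ⟨?_, hτ a ha.2⟩
    simp [flip, h.symm]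
  have hsoft : ∀ l i, l ≠ i → ∀ j, j ≠ Sum.inl l → j ≠ Sum.inl i → ∀ a ∈ Z l,
      a (Sum.inl i) ≤ 0 → 0 ≤ a j := fun l i h j hjl hji a ha hai =>
    (D l).soft h hdims1 (hdet _ _ h) (hs _ _ h).1 j hjl hji (hdims2 j) (hdegs j) a ha.2 hai
  have haw : ∀ w, Valid l w → ∀ k, act n e l w (a k) ∈ Z (lab l w) := fun w hw k =>
    ⟨act_lab n e l w hw (a k) (ha0 k), act_effZ D hs l w hw (a k) (haE k)⟩
  have hadd : ∀ l, ∀ b ∈ (D l).EffR, ∀ b' ∈ (D l).EffR, b + b' ∈ (D l).EffR :=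
    fun l b hb b' hb' => (D l).effR_add hb hb'
  have hnonneg : ∀ l (b : P ⊕ R → ℝ), (∀ j, 0 ≤ b j) → b ∈ (D l).EffR :=
    fun l b hb => (D l).effR_of_nonneg hb
  have hcongr : ∀ l (b b' : P ⊕ R → ℝ), (∀ j, j ≠ Sum.inl l → b j = b' j) → b ∈ (D l).EffR →
      b' ∈ (D l).EffR := fun l b b' h hb => (D l).effR_congr b b' h hb
  have hflipR : ∀ l i, l ≠ i → ∀ b ∈ (D l).EffR, flip n e l i b ∈ (D i).EffR := by
    intro l i h b hb
    obtain ⟨τ, hτ, -⟩ := exists_flop (D l) (D i) h (hs _ _ h) (hs _ _ h.symm)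
    exact hτ.effR hb
  -- the coordinates with labels in `R` are not negative
  have hrest : ∀ w, Valid l w → ∀ k, ∀ r : R, 0 ≤ act n e l w (a k) (Sum.inr r) := by
    rcases hcase with ⟨-, hm⟩ | ⟨hbig, hm⟩
    · intro w hw k r
      obtain ⟨i', hi'⟩ := hex (lab l w)
      exact (D (lab l w)).nonneg_of_large hi' hdims1 (hdet _ _ hi') (hs _ _ hi').1 he r (hm r) _
        (haw w hw k).2
    have hκR : ∀ r, 0 < κ (Sum.inr r) := by
      intro r
      change 0 < ((n : ℝ) + 1) * e r - m r - 1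
      have h1 : ((m r + 1 : ℕ) : ℝ) < (((n + 1) * e r : ℕ) : ℝ) := by exact_mod_cast (hm r).2
      push_cast at h1
      linarith
    have hnb : ∀ ε : ℝ, 0 < ε → (fun j => (κ + δ') j - ε) ∉ (D l).EffR := fun ε hε h =>
      hbig ((D l).big_of_class _ _ hD ε hε h)
    intro w hw k r
    by_contra hneg
    have hpos : ∀ i', lab l w ≠ i' → 0 < act n e l w (a k) (Sum.inl i') := by
      intro i' hi'
      by_contra hcon
      exact hneg (hsoft _ i' hi' (Sum.inr r) (by simp) (by simp) _ (haw w hw k) (not_lt.1 hcon))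
    set b : P ⊕ R → ℝ := fun j => c k * ((act n e l w (a k) j : ℤ) : ℝ) with hb
    have hbE : b ∈ (D (lab l w)).EffR := by
      have h1 := (D (lab l w)).effR_smul (hc k).le
        ((D (lab l w)).effZ_sub_effR (act_effZ D hs l w hw (a k) (haE k)))
      exact h1
    have h1 := big_of_pos (D (lab l w)).EffR (lab l w) (hadd _)
      (fun c hc b hb => (D (lab l w)).effR_smul hc hb) (hnonneg _) (hcongr _) κ hκP hκR b hbE
      (fun i' hi' => mul_pos (hc k) (by exact_mod_cast hpos i' hi'))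
    have h2 : act n e l w (κ + c k • fun j => (a k j : ℝ)) = κ + b := by
      rw [act_add, act_smul, act_fix n e l w κ hκP, act_real]
      rfl
    obtain ⟨ε, hε, h3⟩ := big_of_act n e (fun l => (D l).EffR) hadd hnonneg hcongr
      hflipR l w hw (κ + c k • fun j => (a k j : ℝ)) (by rw [h2]; exact h1)
    apply hnb ε hε
    have h4 : (fun j => ∑ k' ∈ Finset.univ.erase k, c k' * (a k' j : ℝ)) ∈ (D l).EffR := by
      have h5 : ∀ s : Finset (Fin N), (fun j => ∑ k' ∈ s, c k' * (a k' j : ℝ)) ∈ (D l).EffR := by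
        intro s
        induction s using Finset.induction_on with
        | empty => exact hnonneg l _ (fun j => by simp)
        | insert k' s hk' ih =>
          have h6 := hadd l _ ((D l).effR_smul (hc k').le ((D l).effZ_sub_effR (haE k'))) _ ih
          refine hcongr l _ _ (fun j _ => ?_) h6
          rw [Finset.sum_insert hk']
          rfl
      exact h5 _
    have h6 := hadd l _ h3 _ h4
    refine hcongr l _ _ (fun j _ => ?_) h6
    simp only [Pi.add_apply, Pi.smul_apply, smul_eq_mul, hδa]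
    rw [← Finset.add_sum_erase Finset.univ (fun k => c k * (a k j : ℝ)) (Finset.mem_univ k)]
    ring
  -- termination
  obtain ⟨w, hw, hwpos⟩ : ∃ w, Valid l w ∧
      ∀ p : P, 0 ≤ ∑ k, c k * ((act n e l w (a k) (Sum.inl p) : ℤ) : ℝ) := by
    rcases hcard with h2 | hcard
    · exact terminate_two n e h2 l N c a ha0
    · have hS : ∀ w, Valid l w → ∀ k, 0 ≤ ∑ j, act n e l w (a k) j := by
        intro w hw k
        refine sum_nonneg_of_soft n (by omega) e he hcard Z (fun l a ha => ha.1) hZflip hsoft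
          (lab l w) (act n e l w (a k)) (haw w hw k) (hrest w hw k) ?_
        intro i' hi' r
        exact hrest (i' :: w) ⟨hi', hw⟩ k r
      refine terminate n e ?_ hP l N c hc a ha0 hS
      have h1 : Fintype.card R ≤ ∑ r, e r := by
        rw [← Finset.card_univ, Finset.card_eq_sum_ones]
        exact Finset.sum_le_sum fun r _ => he r
      have h2 : 2 ≤ Fintype.card P + ∑ r, e r - 2 := by omega
      calc 2 < 2 * 2 := by norm_num
        _ ≤ (Fintype.card P + ∑ r, e r - 2) * n := Nat.mul_le_mul h2 hn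
  obtain ⟨τ, hτ⟩ := exists_trans D hs l w hw
  have hwδ' : act n e l w δ' = fun j => ∑ k, c k * ((act n e l w (a k) j : ℤ) : ℝ) := by
    rw [hδa, act_sum n e l w N c (fun k j => (a k j : ℝ))]
    funext j
    refine Finset.sum_congr rfl fun k _ => ?_
    rw [act_real]
  have hwδ : act n e l w (κ + δ') = κ + fun j => ∑ k, c k * ((act n e l w (a k) j : ℤ) : ℝ) := by
    rw [act_add, act_fix n e l w κ hκP, hwδ']
  have hpos : ∀ j, 0 ≤ (act n e l w (κ + δ')) j := by
    rintro (p | r)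
    · rw [hwδ]
      simp only [Pi.add_apply, hκP, zero_add]
      exact hwpos p
    rcases hcase with ⟨hpe, hm⟩ | ⟨-, hm⟩
    · refine nonneg_of_limit _ (act n e l w (fun _ => (1 : ℝ)) (Sum.inr r)) fun ε hε => ?_
      have h1 : (κ + δ' + ε • fun _ => (1 : ℝ)) ∈ (D l).EffR := by
        obtain ⟨g, hg⟩ := hpe ε hε
        obtain ⟨f₁, hf₁⟩ := hD
        refine ⟨g + f₁, fun Q hQ => ?_⟩
        have h2 := hg Q hQ
        have h3 := hf₁ Q hQ
        simp only at h2 h3
        rw [(D l).hyperplane_eq] at h2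
        simp only [Pi.add_apply, Pi.smul_apply, smul_eq_mul, mul_one, add_mul,
          Finset.sum_add_distrib, ← Finset.mul_sum] at h3 ⊢
        rw [ordR_add]
        linarith
      have h2 := hτ.effR h1
      rw [act_add, act_smul] at h2
      obtain ⟨N', c', a', hc', ha', hb'⟩ := (D (lab l w)).effR_decomp _ h2
      have h3 := hb' (Sum.inr r)
      simp only [Pi.add_apply, Pi.smul_apply, smul_eq_mul] at h3
      rw [h3]
      obtain ⟨i', hi'⟩ := hex (lab l w)
      refine Finset.sum_nonneg fun k _ => mul_nonneg (hc' k).le ?_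
      exact_mod_cast (D (lab l w)).nonneg_of_large hi' hdims1 (hdet _ _ hi') (hs _ _ hi').1 he r
        (hm r) _ (ha' k)
    · rw [hwδ]
      simp only [Pi.add_apply]
      refine add_nonneg ?_ (Finset.sum_nonneg fun k _ => mul_nonneg (hc k).le ?_)
      · change 0 ≤ ((n : ℝ) + 1) * e r - m r - 1
        have h1 : ((m r + 1 : ℕ) : ℝ) < (((n + 1) * e r : ℕ) : ℝ) := by exact_mod_cast (hm r).2
        push_cast at h1
        linarith
      · exact_mod_cast hrest w hw k r
  -- the good minimal model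
  set X' := (D (lab l w)).model.map τ.symm with hX'
  have hprime : ∀ Q, X'.IsPrimeDiv Q ↔ (D l).model.IsPrimeDiv Q := by
    intro Q
    have h1 := NormalModel.isPrimeDiv_map τ.symm (D (lab l w)).model (Q.map τ)
    rw [DVal.map_map_symm] at h1
    rw [hX', h1]
    exact hτ.prime Q
  have hss : X'.Semiample (lcDiv ω Δ) := by
    apply NormalModel.semiample_map
    obtain ⟨g, hg⟩ := hτ.cls (κ + δ')
    obtain ⟨f₁, hf₁⟩ := hD
    obtain ⟨f₂, hf₂⟩ := exists_ordR_map τ.symm (f₁ - g)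
    refine (D (lab l w)).semiample_of_nonneg _ _ hpos ⟨f₂, fun Q hQ => ?_⟩
    have hQ' : (D l).model.IsPrimeDiv (Q.map τ.symm) := by
      rw [← hτ.prime, DVal.map_symm_map]; exact hQ
    have h1 := hf₁ _ hQ'
    have h2 := hg _ hQ'
    simp only [DVal.map_symm_map] at h2
    rw [← hf₂, ordR_sub]
    beta_reduce at h1 ⊢
    rw [h1, h2]
    ring
  obtain ⟨N', c', G, hc', hG, f'', hf''⟩ := id hss
  have hklt := klt_of_semiample (D l).model X' ω Δ hΔ (fun Q hQ => (hprime Q).1 hQ) N' c' G f''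
    hc' hG hf'' (fun Q hQ => (hf'' Q ((hprime Q).2 hQ)).ge)
  exact ⟨lab l w, τ.symm, fun Q hQ => (hprime Q).1 hQ, hklt.1, hss,
    fun Q p f₃ hQ hQ' => absurd ((hprime Q).2 hQ) hQ'⟩

end Pool.Agent.LibGMW
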