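import Pool.Agent.LibGMW.Kill
import Pool.Agent.LibGMW.MDet

/-! TASK MAT: the matrix `M` and the equations of `X_l`. -/

open scoped Classical

namespace Pool.Agent.LibGMW

open Pool.Agent.LibGMM MvPolynomial

variable {P R : Type} [Fintype P] [Fintype R] {n : ℕ} {m e : R → ℕ}

/-- The multidegree `k` times the multidegree of the equations in all groups of variables with labels
`j ≠ l, i`. -/
noncomputable def degLI {P R : Type} (e : R → ℕ) (l i : P) (k : ℕ) : P ⊕ R → ℕ := fun j =>
  if j = Sum.inl l ∨ j = Sum.inl i then 0 else k * degs e j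

theorem eqn_eq (T : FormTensor P n m e) {l i : P} (h : l ≠ i) (a : Fin (n + 1)) :
    eqn T l a = ∑ b : Fin (n + 1), matP T l i a b * X ⟨Sum.inl i, b⟩ := by
  have hi : i ∈ Finset.univ.erase l := Finset.mem_erase.2 ⟨h.symm, Finset.mem_univ _⟩
  have h1 : ∀ b : Fin (n + 1), matP T l i a b * X ⟨Sum.inl i, b⟩ =
      ∑ t : P → Fin (n + 1), (if t l = a ∧ t i = b then
        T.entry t * ∏ p ∈ (Finset.univ.erase l).erase i, X ⟨Sum.inl p, t p⟩ else 0) *
        X ⟨Sum.inl i, b⟩ := by
    intro b
    rw [matP, Finset.sum_filter, Finset.sum_mul]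
  rw [Finset.sum_congr rfl fun b _ => h1 b, Finset.sum_comm, eqn, Finset.sum_filter]
  refine Finset.sum_congr rfl fun t _ => ?_
  by_cases ha : t l = a
  · rw [if_pos ha]
    symm
    refine (Finset.sum_eq_single (t i) (fun b _ hb => ?_) (fun h' => ?_)).trans ?_
    · exact (congrArg (· * _) (if_neg fun h' => hb h'.2.symm)).trans (zero_mul _)
    · exact absurd (Finset.mem_univ _) h'
    · refine (congrArg (· * _) (if_pos ⟨ha, rfl⟩)).trans ?_
      rw [← Finset.mul_prod_erase _ _ hi]
      ring
  · rw [if_neg ha]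
    symm
    refine Finset.sum_eq_zero fun b _ => ?_
    rw [if_neg (fun h' => ha h'.1), zero_mul]

theorem matP_symm (T : FormTensor P n m e) (l i : P) (a b : Fin (n + 1)) :
    matP T i l b a = matP T l i a b := by
  rw [matP, matP, Finset.erase_right_comm]
  refine Finset.sum_congr ?_ fun _ _ => rfl
  ext t
  simp only [Finset.mem_filter, Finset.mem_univ, true_and]
  exact and_comm

private theorem Mat_sum {J : Type} [Fintype J] {m : J → ℕ} {ι : Type} (s : Finset ι)
    (F : ι → MvPolynomial (Σ j, Fin (m j + 1)) ℂ) {d : J → ℕ} (hF : ∀ i ∈ s, MultiHom (F i) d) :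
    MultiHom (∑ i ∈ s, F i) d := by
  induction s using Finset.induction_on with
  | empty =>
    intro c hc
    rw [Finset.sum_empty, MvPolynomial.support_zero] at hc
    exact absurd hc (Finset.notMem_empty c)
  | insert a s ha ih =>
    rw [Finset.sum_insert ha]
    exact (hF a (Finset.mem_insert_self a s)).add
      (ih fun i hi => hF i (Finset.mem_insert_of_mem hi))

private theorem Mat_prod (s : Finset P) (t : P → Fin (n + 1)) :
    MultiHom (∏ p ∈ s, X ⟨Sum.inl p, t p⟩ :
        MvPolynomial (Σ j : P ⊕ R, Fin (dims n m j + 1)) ℂ)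
      (Sum.elim (fun p => if p ∈ s then 1 else 0) (fun _ => 0)) := by
  induction s using Finset.induction_on with
  | empty =>
    rw [Finset.prod_empty]
    have h2 := MultiHom.C (m := dims (P := P) n m) 1
    rw [MvPolynomial.C_1] at h2
    intro c hc j
    rw [h2 c hc j]
    rcases j with p | r <;> simp
  | insert a s ha ih =>
    rw [Finset.prod_insert ha]
    have h1 := (MultiHom.X (m := dims (P := P) n m) (Sum.inl a) (t a)).mul ih
    intro c hc j
    rw [h1 c hc j]
    rcases j with p | r
    · by_cases hj : p = a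
      · subst hj
        simp [ha]
      · simp [hj]
    · simp

private theorem Mat_entry (T : FormTensor P n m e) (t : P → Fin (n + 1)) :
    MultiHom (T.entry t) (Sum.elim (fun _ => 0) e) := by
  have hinj : Function.Injective (fun v : Σ r : R, Fin (m r + 1) =>
      (⟨Sum.inr v.1, v.2⟩ : Σ j : P ⊕ R, Fin (dims n m j + 1))) := by
    rintro ⟨r, s⟩ ⟨r', s'⟩ h
    simp only [Sigma.mk.injEq, Sum.inr.injEq] at h
    obtain ⟨h1, h2⟩ := h
    subst h1
    rw [heq_eq_eq] at h2
    subst h2
    rfl
  intro c hc j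
  unfold FormTensor.entry at hc
  rw [support_rename_of_injective hinj, Finset.mem_image] at hc
  obtain ⟨c', hc', rfl⟩ := hc
  rcases j with p | r
  · refine Finset.sum_eq_zero fun s _ => ?_
    apply Finsupp.mapDomain_of_notMem_range
    rintro ⟨⟨r, s'⟩, h⟩
    simp at h
  · refine Eq.trans ?_ (T.homog t c' hc' r)
    refine Finset.sum_congr rfl fun s _ => ?_
    exact Finsupp.mapDomain_apply hinj c' ⟨r, s⟩

theorem matP_multiHom (T : FormTensor P n m e) (l i : P) (a b : Fin (n + 1)) :
    MultiHom (matP T l i a b) (degLI e l i 1) := by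
  rw [matP]
  refine Mat_sum _ _ fun t _ => ?_
  have h1 := (Mat_entry T t).mul (Mat_prod (m := m) ((Finset.univ.erase l).erase i) t)
  intro c hc j
  rw [h1 c hc j]
  rcases j with p | r
  · simp only [degLI, Finset.mem_erase, Finset.mem_univ, and_true, Sum.elim_inl, Nat.zero_add,
      Sum.inl.injEq]
    by_cases h3 : p = l <;> by_cases h4 : p = i <;> simp [h3, h4]
  · simp [degLI]

theorem det_multiHom (T : FormTensor P n m e) (l i : P) :
    MultiHom (matP T l i).det (degLI e l i (n + 1)) := by
  have h := MultiHom.det (matP T l i) _ (matP_multiHom T l i)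
  have h1 : (fun j => (n + 1) * degLI e l i 1 j) = degLI e l i (n + 1) := by
    funext j
    simp only [degLI]
    split_ifs <;> simp
  rwa [h1] at h

theorem adj_multiHom (T : FormTensor P n m e) (l i : P) (a b : Fin (n + 1)) :
    MultiHom ((matP T l i).adjugate a b) (degLI e l i n) := by
  have h := MultiHom.adjugate (matP T l i) _ (matP_multiHom T l i) a b
  have h1 : (fun j => n * degLI e l i 1 j) = degLI e l i n := by
    funext j
    simp only [degLI]
    split_ifs <;> simp
  rwa [h1] at h

/-- Scaling of the coordinates. -/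
theorem aeval_matP_scale {A : Type} [CommRing A] [Algebra ℂ A] (T : FormTensor P n m e) (l i : P)
    (w w' : (Σ j : P ⊕ R, Fin (dims n m j + 1)) → A) (c : P ⊕ R → A)
    (hw : ∀ j, j ≠ Sum.inl l → j ≠ Sum.inl i → ∀ s, w' ⟨j, s⟩ = c j * w ⟨j, s⟩)
    (a b : Fin (n + 1)) :
    aeval w' (matP T l i a b) = (∏ j, c j ^ degLI e l i 1 j) * aeval w (matP T l i a b) := by
  have h1 : aeval w' (matP T l i a b) =
      aeval (fun v : Σ j : P ⊕ R, Fin (dims n m j + 1) => c v.1 * w v) (matP T l i a b) := by
    refine aeval_congr _ _ (matP_multiHom T l i a b) _ _ ?_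
    rintro ⟨j, s⟩ hv
    simp only [degLI] at hv
    have h2 : ¬ (j = Sum.inl l ∨ j = Sum.inl i) := fun h => hv (if_pos h)
    push Not at h2
    exact hw j h2.1 h2.2 s
  rw [h1, aeval_def, aeval_def, eval₂_eq', eval₂_eq', Finset.mul_sum]
  refine Finset.sum_congr rfl fun d hd => ?_
  have h2 : ∏ v : Σ j : P ⊕ R, Fin (dims n m j + 1), (c v.1 * w v) ^ d v =
      (∏ j, c j ^ degLI e l i 1 j) * ∏ v : Σ j : P ⊕ R, Fin (dims n m j + 1), w v ^ d v := by
    simp only [mul_pow]
    rw [Finset.prod_mul_distrib]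
    congr 1
    rw [Fintype.prod_sigma]
    refine Finset.prod_congr rfl fun j _ => ?_
    show ∏ y, c j ^ d ⟨j, y⟩ = _
    rw [Finset.prod_pow_eq_pow_sum, matP_multiHom T l i a b d hd j]
  rw [h2]
  ring

namespace Multilin

variable {K : Type} [Field K] [Algebra ℂ K] {T : FormTensor P n m e} {l i : P}

theorem mat_apply (D : Multilin K T l) (i : P) (a b : Fin (n + 1)) : D.mat i a b =
    aeval (fun v : Σ j, Fin (dims n m j + 1) => (D.x v.1 v.2 : K)) (matP T l i a b) := rfl

theorem mat_det (D : Multilin K T l) (i : P) : (D.mat i).det =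
    aeval (fun v : Σ j, Fin (dims n m j + 1) => (D.x v.1 v.2 : K)) (matP T l i).det := by
  rw [AlgHom.map_det]
  rfl

theorem mat_adjugate (D : Multilin K T l) (i : P) (a b : Fin (n + 1)) : (D.mat i).adjugate a b =
    aeval (fun v : Σ j, Fin (dims n m j + 1) => (D.x v.1 v.2 : K))
      ((matP T l i).adjugate a b) := by
  have h := AlgHom.map_adjugate
    (aeval (fun v : Σ j, Fin (dims n m j + 1) => (D.x v.1 v.2 : K)) :
      MvPolynomial (Σ j : P ⊕ R, Fin (dims n m j + 1)) ℂ →ₐ[ℂ] K) (matP T l i)
  exact (congrFun (congrFun h a) b).symm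

theorem mat_mulVec (D : Multilin K T l) (h : l ≠ i) (a : Fin (n + 1)) :
    ∑ b : Fin (n + 1), D.mat i a b * (D.x (Sum.inl i) b : K) = 0 := by
  have h1 := D.vanish a
  rw [eqn_eq T h, map_sum] at h1
  rw [← h1]
  refine Finset.sum_congr rfl fun b _ => ?_
  rw [map_mul, aeval_X]
  rfl

end Multilin

end Pool.Agent.LibGMW
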