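import Pool.Agent.LibGMM.CanRes
import Pool.Agent.LibGMM.CanOrd
import Pool.Agent.LibGMM.CanDim
import Pool.Agent.LibGMM.Canon

/-!
The canonical divisor of a hypersurface of multidegree `d` in a product of projective spaces, at the
discrete valuations whose ring is the localization of a chart (no normality needed). The proofs are
those of LibGMM.CanChart, ..., LibGMM.Canon.
-/

open scoped KaehlerDifferential

namespace Pool.Agent.LibGMW

open Pool.Agent.LibGMM

set_option linter.unusedSectionVars false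
set_option linter.unusedVariables false
set_option maxHeartbeats 400000

/-- A hypersurface of multidegree `d` in the product of the projective spaces of dimension `m j`,
`j : J`, with function field `K`: the homogeneous coordinates of its generic point are `x`, and
the (multihomogeneous) equations are the multiples of `F`, which has multidegree `d`. -/
structure PreHyp (K : Type) [Field K] [Algebra ℂ K] {J : Type} [Fintype J] (m d : J → ℕ) where
  x : (j : J) → Fin (m j + 1) → Kˣ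
  F : MvPolynomial (Σ j, Fin (m j + 1)) ℂ
  F_ne : F ≠ 0
  homog : MultiHom F d
  vanish : MvPolynomial.aeval (fun v : Σ j, Fin (m j + 1) => (x v.1 v.2 : K)) F = 0
  minimal : ∀ (G : MvPolynomial (Σ j, Fin (m j + 1)) ℂ) (e : J → ℕ), MultiHom G e →
    MvPolynomial.aeval (fun v : Σ j, Fin (m j + 1) => (x v.1 v.2 : K)) G = 0 → F ∣ G
  frac : ∀ (s : (j : J) → Fin (m j + 1)) (y : K),
    ∃ a ∈ chart (segre x) s, ∃ b ∈ chart (segre x) s, b ≠ 0 ∧ y = a / b

section chart

variable {K : Type} [Field K] [Algebra ℂ K] {J : Type} [Fintype J] {m d : J → ℕ}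

/-- The affine coordinates of the chart `s`. -/
noncomputable def PreHyp.aff (H : PreHyp K m d) (s : (j : J) → Fin (m j + 1))
    (v : Σ j, Fin (m j + 1)) : K :=
  (H.x v.1 v.2 : K) / H.x v.1 (s v.1)

variable (H : PreHyp K m d) (s : (j : J) → Fin (m j + 1))

theorem PreHyp.aff_self (j : J) : H.aff s ⟨j, s j⟩ = 1 :=
  div_self (Units.ne_zero _)

theorem PreHyp.aff_ne_zero (v : Σ j, Fin (m j + 1)) : H.aff s v ≠ 0 :=
  div_ne_zero (Units.ne_zero _) (Units.ne_zero _)

theorem PreHyp.segre_div (t : (j : J) → Fin (m j + 1)) :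
    (segre H.x t : K) / segre H.x s = ∏ j, H.aff s ⟨j, t j⟩ := by
  unfold segre PreHyp.aff
  push_cast
  rw [Finset.prod_div_distrib]

theorem PreHyp.chart_eq :
    chart (segre H.x) s = Algebra.adjoin ℂ (Set.range (H.aff s)) := by
  classical
  apply le_antisymm
  · refine Algebra.adjoin_le ?_
    rintro _ ⟨t, rfl⟩
    simp only
    rw [H.segre_div s t]
    exact Subalgebra.prod_mem _ fun j _ => Algebra.subset_adjoin ⟨_, rfl⟩
  · refine Algebra.adjoin_le ?_
    rintro _ ⟨⟨j, r⟩, rfl⟩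
    refine Algebra.subset_adjoin ⟨Function.update s j r, ?_⟩
    simp only
    rw [H.segre_div s, ← Finset.mul_prod_erase Finset.univ _ (Finset.mem_univ j)]
    rw [Function.update_self, Finset.prod_eq_one, mul_one]
    intro i hi
    rw [Function.update_of_ne (Finset.ne_of_mem_erase hi)]
    exact H.aff_self s i

theorem PreHyp.aff_mem (v : Σ j, Fin (m j + 1)) : H.aff s v ∈ chart (segre H.x) s := by
  rw [H.chart_eq s]
  exact Algebra.subset_adjoin ⟨v, rfl⟩

theorem PreHyp.mem_chart_iff (y : K) :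
    y ∈ chart (segre H.x) s ↔ ∃ g : MvPolynomial (Σ j, Fin (m j + 1)) ℂ,
      MvPolynomial.aeval (H.aff s) g = y := by
  rw [H.chart_eq s, Algebra.adjoin_range_eq_range_aeval]
  rfl

/-- Homogenisation of polynomials in the chart `s`. -/
theorem exists_homogenisation_pre (g : MvPolynomial (Σ j, Fin (m j + 1)) ℂ) :
    ∃ (e : ℕ) (G : MvPolynomial (Σ j, Fin (m j + 1)) ℂ), MultiHom G (fun _ => e) ∧
      (∀ (B : Type) [CommRing B] [Algebra ℂ B] (z : (Σ j, Fin (m j + 1)) → B),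
        (∀ j, z ⟨j, s j⟩ = 1) → MvPolynomial.aeval z G = MvPolynomial.aeval z g) ∧
      MvPolynomial.aeval (fun v : Σ j, Fin (m j + 1) => (H.x v.1 v.2 : K)) G =
        (∏ j, (H.x j (s j) : K) ^ e) * MvPolynomial.aeval (H.aff s) g := by
  classical
  set e := g.totalDegree with he
  have hle : ∀ c ∈ g.support, ∀ j, ∑ r, c ⟨j, r⟩ ≤ e := by
    intro c hc j
    have h1 : c.sum (fun _ k => k) ≤ e := MvPolynomial.le_totalDegree hc
    rw [Finsupp.sum_fintype _ _ (by intro; simp), ← Finset.univ_sigma_univ, Finset.sum_sigma] at h1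
    refine le_trans ?_ h1
    exact Finset.single_le_sum (f := fun j => ∑ r, c ⟨j, r⟩) (fun _ _ => Nat.zero_le _)
      (Finset.mem_univ j)
  set G : MvPolynomial (Σ j, Fin (m j + 1)) ℂ :=
    ∑ c ∈ g.support, MvPolynomial.monomial (homExp s e c) (g.coeff c) with hG
  refine ⟨e, G, ?_, ?_, ?_⟩
  · intro c hc j
    have h1 := MvPolynomial.support_sum hc
    rw [Finset.mem_biUnion] at h1
    obtain ⟨c', hc', h2⟩ := h1
    have h3 := MvPolynomial.support_monomial_subset h2
    rw [Finset.mem_singleton] at h3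
    rw [h3]
    exact homExp_sum s e c' j (hle c' hc' j)
  · intro B _ _ z hz
    rw [hG, map_sum]
    conv_rhs => rw [g.as_sum, map_sum]
    refine Finset.sum_congr rfl fun c hc => ?_
    rw [MvPolynomial.aeval_monomial, MvPolynomial.aeval_monomial, prod_sigma_pow, prod_sigma_pow]
    congr 1
    refine Finset.prod_congr rfl fun j _ => Finset.prod_congr rfl fun r _ => ?_
    rw [homExp_apply, pow_add]
    by_cases h : r = s j
    · subst h; rw [hz j]; simp
    · rw [if_neg h]; simp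
  · rw [hG, map_sum]
    conv_rhs => rw [g.as_sum, map_sum, Finset.mul_sum]
    refine Finset.sum_congr rfl fun c hc => ?_
    rw [MvPolynomial.aeval_monomial, MvPolynomial.aeval_monomial, prod_sigma_pow, prod_sigma_pow,
      mul_left_comm, ← Finset.prod_mul_distrib]
    congr 1
    refine Finset.prod_congr rfl fun j _ => ?_
    have h1 : ∏ r, (H.x j r : K) ^ (homExp s e c ⟨j, r⟩) =
        (∏ r, (H.x j r : K) ^ c ⟨j, r⟩) * (H.x j (s j) : K) ^ (e - ∑ r, c ⟨j, r⟩) := by
      simp only [homExp_apply, pow_add, Finset.prod_mul_distrib]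
      congr 1
      rw [Finset.prod_eq_single (s j)]
      · simp
      · intro r _ hr; rw [if_neg hr, pow_zero]
      · intro h; exact absurd (Finset.mem_univ _) h
    rw [h1]
    have h2 : ∏ r, H.aff s ⟨j, r⟩ ^ c ⟨j, r⟩ =
        (∏ r, (H.x j r : K) ^ c ⟨j, r⟩) / (H.x j (s j) : K) ^ (∑ r, c ⟨j, r⟩) := by
      simp only [PreHyp.aff, div_pow, Finset.prod_div_distrib, Finset.prod_pow_eq_pow_sum]
    rw [h2]
    have h3 : (H.x j (s j) : K) ^ e =
        (H.x j (s j) : K) ^ (e - ∑ r, c ⟨j, r⟩) * (H.x j (s j) : K) ^ (∑ r, c ⟨j, r⟩) := by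
      rw [← pow_add]; congr 1; have := hle c hc j; omega
    rw [h3]
    have h4 : (H.x j (s j) : K) ^ (∑ r, c ⟨j, r⟩) ≠ 0 := pow_ne_zero _ (Units.ne_zero _)
    field_simp

/-- The relations between the affine coordinates are consequences of `F`. -/
theorem PreHyp.relations (g : MvPolynomial (Σ j, Fin (m j + 1)) ℂ)
    (hg : MvPolynomial.aeval (H.aff s) g = 0)
    (B : Type) [CommRing B] [Algebra ℂ B] (z : (Σ j, Fin (m j + 1)) → B)
    (hz : ∀ j, z ⟨j, s j⟩ = 1) (hF : MvPolynomial.aeval z H.F = 0) :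
    MvPolynomial.aeval z g = 0 := by
  obtain ⟨e, G, hG, h1, h2⟩ := exists_homogenisation_pre H s g
  rw [hg, mul_zero] at h2
  obtain ⟨Q, hQ⟩ := H.minimal G _ hG h2
  rw [← h1 B z hz, hQ, map_mul, hF, zero_mul]

end chart

section der

variable {K : Type} [Field K] [Algebra ℂ K]
variable {J : Type} [Fintype J] {m d : J → ℕ} (H : PreHyp K m d)
  (s : (j : J) → Fin (m j + 1))

theorem PreHyp.aeval_multiHom (G : MvPolynomial (Σ j, Fin (m j + 1)) ℂ) (e : J → ℕ)
    (hG : MultiHom G e) :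
    MvPolynomial.aeval (fun v : Σ j, Fin (m j + 1) => (H.x v.1 v.2 : K)) G =
      (∏ j, (H.x j (s j) : K) ^ e j) * MvPolynomial.aeval (H.aff s) G := by
  conv_lhs => rw [G.as_sum, map_sum]
  conv_rhs => rw [G.as_sum, map_sum, Finset.mul_sum]
  refine Finset.sum_congr rfl fun c hc => ?_
  rw [MvPolynomial.aeval_monomial, MvPolynomial.aeval_monomial, prod_sigma_pow, prod_sigma_pow,
    mul_left_comm, ← Finset.prod_mul_distrib]
  congr 1
  refine Finset.prod_congr rfl fun j _ => ?_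
  have h2 : ∏ r, H.aff s ⟨j, r⟩ ^ c ⟨j, r⟩ =
      (∏ r, (H.x j r : K) ^ c ⟨j, r⟩) / (H.x j (s j) : K) ^ (∑ r, c ⟨j, r⟩) := by
    simp only [PreHyp.aff, div_pow, Finset.prod_div_distrib, Finset.prod_pow_eq_pow_sum]
  rw [h2, hG c hc j]
  have h4 : (H.x j (s j) : K) ^ (e j) ≠ 0 := pow_ne_zero _ (Units.ne_zero _)
  field_simp

theorem PreHyp.aeval_aff_F : MvPolynomial.aeval (H.aff s) H.F = 0 := by
  have h := H.aeval_multiHom s H.F d H.homog
  rw [H.vanish] at h
  rcases mul_eq_zero.1 h.symm with h1 | h1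
  · exact absurd h1 (Finset.prod_ne_zero_iff.2 fun j _ => pow_ne_zero _ (Units.ne_zero _))
  · exact h1

theorem PreHyp.aeval_mem (g : MvPolynomial (Σ j, Fin (m j + 1)) ℂ) :
    MvPolynomial.aeval (H.aff s) g ∈ chart (segre H.x) s :=
  (H.mem_chart_iff s _).2 ⟨g, rfl⟩

/-- Existence of derivations with prescribed values at the affine coordinates. -/
theorem PreHyp.exists_der (S : Subalgebra ℂ K) (hS : chart (segre H.x) s ≤ S)
    {B : Type} [Field B] [Algebra ℂ B] (ρ : S →ₐ[ℂ] B)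
    (hfrac : ∀ x : S, ∃ p q : MvPolynomial (Σ j, Fin (m j + 1)) ℂ,
      (x : K) * MvPolynomial.aeval (H.aff s) q = MvPolynomial.aeval (H.aff s) p ∧
      ρ ⟨MvPolynomial.aeval (H.aff s) q, hS (H.aeval_mem s q)⟩ ≠ 0)
    (c : (Σ j, Fin (m j + 1)) → B) (hc : ∀ j, c ⟨j, s j⟩ = 0)
    (hrel : ∑ v, ρ ⟨MvPolynomial.aeval (H.aff s) (MvPolynomial.pderiv v H.F),
      hS (H.aeval_mem s _)⟩ * c v = 0) :
    ∃ D ∈ Ders ρ, ∀ v, D ⟨H.aff s v, hS (H.aff_mem s v)⟩ = c v := by
  classical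
  set z : (Σ j, Fin (m j + 1)) → B := fun v => ρ ⟨H.aff s v, hS (H.aff_mem s v)⟩ with hz
  set z' : (Σ j, Fin (m j + 1)) → TrivSqZeroExt B B :=
    fun v => TrivSqZeroExt.inl (z v) + TrivSqZeroExt.inr (c v) with hz'
  have hev : ∀ p, MvPolynomial.aeval z p =
      ρ ⟨MvPolynomial.aeval (H.aff s) p, hS (H.aeval_mem s p)⟩ := by
    intro p
    have h1 : (MvPolynomial.aeval z : MvPolynomial (Σ j, Fin (m j + 1)) ℂ →ₐ[ℂ] B) =
        ρ.comp (MvPolynomial.aeval fun v => (⟨H.aff s v, hS (H.aff_mem s v)⟩ : S)) := by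
      apply MvPolynomial.algHom_ext
      intro v
      simp [hz]
    rw [h1]
    change ρ _ = _
    congr 1
    apply Subtype.ext
    change S.val _ = _
    have h2 : S.val.comp (MvPolynomial.aeval fun v => (⟨H.aff s v, hS (H.aff_mem s v)⟩ : S)) =
        (MvPolynomial.aeval (H.aff s) : MvPolynomial (Σ j, Fin (m j + 1)) ℂ →ₐ[ℂ] K) := by
      apply MvPolynomial.algHom_ext
      intro v
      simp
    exact congrArg (fun f => f p) h2
  have hdual : ∀ p, MvPolynomial.aeval z' p = TrivSqZeroExt.inl (MvPolynomial.aeval z p) +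
      TrivSqZeroExt.inr (∑ v, MvPolynomial.aeval z (MvPolynomial.pderiv v p) * c v) :=
    fun p => aeval_dual z c p
  have hz1 : ∀ j, z' ⟨j, s j⟩ = 1 := by
    intro j
    have h1 : z ⟨j, s j⟩ = 1 := by
      have h2 : (⟨H.aff s ⟨j, s j⟩, hS (H.aff_mem s _)⟩ : S) = 1 := Subtype.ext (H.aff_self s j)
      simp only [hz, h2, map_one]
    simp only [hz', h1, hc j]
    simp
  have hF0 : MvPolynomial.aeval z' H.F = 0 := by
    rw [hdual, hev]
    have h1 : (⟨MvPolynomial.aeval (H.aff s) H.F, hS (H.aeval_mem s H.F)⟩ : S) = 0 :=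
      Subtype.ext (H.aeval_aff_F s)
    rw [h1, map_zero]
    simp only [hev]
    rw [hrel]; simp
  have hker : ∀ p q : MvPolynomial (Σ j, Fin (m j + 1)) ℂ,
      MvPolynomial.aeval (H.aff s) p = MvPolynomial.aeval (H.aff s) q →
      MvPolynomial.aeval z' p = MvPolynomial.aeval z' q := by
    intro p q h
    rw [← sub_eq_zero, ← map_sub]
    exact H.relations s (p - q) (by rw [map_sub, h, sub_self]) _ z' hz1 hF0
  have hunit : ∀ q, ρ ⟨MvPolynomial.aeval (H.aff s) q, hS (H.aeval_mem s q)⟩ ≠ 0 →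
      IsUnit (MvPolynomial.aeval z' q) := by
    intro q hq
    rw [TrivSqZeroExt.isUnit_iff_isUnit_fst, hdual]
    simp only [TrivSqZeroExt.fst_add, TrivSqZeroExt.fst_inl, TrivSqZeroExt.fst_inr, add_zero, hev]
    exact isUnit_iff_ne_zero.2 hq
  have hW : ∀ x : S, ∃ w : TrivSqZeroExt B B, ∀ p q : MvPolynomial (Σ j, Fin (m j + 1)) ℂ,
      (x : K) * MvPolynomial.aeval (H.aff s) q = MvPolynomial.aeval (H.aff s) p →
      w * MvPolynomial.aeval z' q = MvPolynomial.aeval z' p := by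
    intro x
    obtain ⟨p0, q0, h1, h2⟩ := hfrac x
    obtain ⟨u, hu⟩ := hunit q0 h2
    refine ⟨MvPolynomial.aeval z' p0 * (u⁻¹ : (TrivSqZeroExt B B)ˣ), fun p q hpq => ?_⟩
    have h3 : MvPolynomial.aeval (H.aff s) (q * p0) = MvPolynomial.aeval (H.aff s) (p * q0) := by
      rw [map_mul, map_mul, ← h1, ← hpq]; ring
    have h4 := hker _ _ h3
    rw [map_mul, map_mul, ← hu] at h4
    calc MvPolynomial.aeval z' p0 * (u⁻¹ : (TrivSqZeroExt B B)ˣ) * MvPolynomial.aeval z' q
        = (MvPolynomial.aeval z' q * MvPolynomial.aeval z' p0) *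
          (u⁻¹ : (TrivSqZeroExt B B)ˣ) := by ring
      _ = MvPolynomial.aeval z' p * (u * (u⁻¹ : (TrivSqZeroExt B B)ˣ)) := by rw [h4]; ring
      _ = MvPolynomial.aeval z' p := by rw [Units.mul_inv, mul_one]
  choose W hW using hW
  have hWadd : ∀ x y, W (x + y) = W x + W y := by
    intro x y
    obtain ⟨p0, q0, h1, h2⟩ := hfrac x
    obtain ⟨p1, q1, h3, h4⟩ := hfrac y
    have e0 := hW x p0 q0 h1
    have e1 := hW y p1 q1 h3
    have e2 := hW (x + y) (p0 * q1 + p1 * q0) (q0 * q1) (by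
      rw [map_add, map_mul, map_mul, map_mul, ← h1, ← h3]
      push_cast; ring)
    rw [map_add, map_mul, map_mul, map_mul, ← e0, ← e1] at e2
    have e3 : W (x + y) * (MvPolynomial.aeval z' q0 * MvPolynomial.aeval z' q1) =
        (W x + W y) * (MvPolynomial.aeval z' q0 * MvPolynomial.aeval z' q1) := by
      rw [e2]; ring
    exact ((hunit q0 h2).mul (hunit q1 h4)).mul_right_cancel e3
  have hWmul : ∀ x y, W (x * y) = W x * W y := by
    intro x y
    obtain ⟨p0, q0, h1, h2⟩ := hfrac x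
    obtain ⟨p1, q1, h3, h4⟩ := hfrac y
    have e0 := hW x p0 q0 h1
    have e1 := hW y p1 q1 h3
    have e2 := hW (x * y) (p0 * p1) (q0 * q1) (by
      rw [map_mul, map_mul, ← h1, ← h3]
      push_cast; ring)
    rw [map_mul, map_mul, ← e0, ← e1] at e2
    have e3 : W (x * y) * (MvPolynomial.aeval z' q0 * MvPolynomial.aeval z' q1) =
        (W x * W y) * (MvPolynomial.aeval z' q0 * MvPolynomial.aeval z' q1) := by
      rw [e2]; ring
    exact ((hunit q0 h2).mul (hunit q1 h4)).mul_right_cancel e3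
  have hWfst : ∀ x, (W x).fst = ρ x := by
    intro x
    obtain ⟨p0, q0, h1, h2⟩ := hfrac x
    have e0 := congrArg TrivSqZeroExt.fst (hW x p0 q0 h1)
    rw [TrivSqZeroExt.fst_mul, hdual, hdual] at e0
    simp only [TrivSqZeroExt.fst_add, TrivSqZeroExt.fst_inl, TrivSqZeroExt.fst_inr, add_zero,
      hev] at e0
    have e1 : (⟨MvPolynomial.aeval (H.aff s) p0, hS (H.aeval_mem s p0)⟩ : S) =
        x * ⟨MvPolynomial.aeval (H.aff s) q0, hS (H.aeval_mem s q0)⟩ := Subtype.ext h1.symm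
    rw [e1, map_mul] at e0
    exact mul_right_cancel₀ h2 e0
  refine ⟨fun x => (W x).snd, ⟨fun x y => ?_, fun x y => ?_, fun a => ?_⟩, fun v => ?_⟩
  · simp only [hWadd, TrivSqZeroExt.snd_add]
  · simp only [hWmul, TrivSqZeroExt.snd_mul, hWfst]
    simp [mul_comm]
  · have e0 := hW (algebraMap ℂ S a) (MvPolynomial.C a) 1 (by
      rw [map_one, mul_one, MvPolynomial.aeval_C]; rfl)
    rw [map_one, mul_one, MvPolynomial.aeval_C] at e0
    simp only [e0]
    rfl
  · have e0 := hW ⟨H.aff s v, hS (H.aff_mem s v)⟩ (MvPolynomial.X v) 1 (by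
      rw [map_one, mul_one, MvPolynomial.aeval_X])
    rw [map_one, mul_one, MvPolynomial.aeval_X] at e0
    simp only [e0]
    simp [hz']

end der

section rel



variable {K : Type} [Field K] [Algebra ℂ K] {J : Type} [Fintype J] {m d : J → ℕ}
  (H : PreHyp K m d) (s : (j : J) → Fin (m j + 1))

/-- `x_v ∂F/∂x_v` at the generic point. -/
noncomputable def PreHyp.ld (v : Σ j, Fin (m j + 1)) : K :=
  MvPolynomial.aeval (fun v : Σ j, Fin (m j + 1) => (H.x v.1 v.2 : K))
    (MvPolynomial.X v * MvPolynomial.pderiv v H.F)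

/-- The partial derivative of the equation in the chart `s`. -/
noncomputable def PreHyp.pd (v : Σ j, Fin (m j + 1)) : K :=
  MvPolynomial.aeval (H.aff s) (MvPolynomial.pderiv v H.F)

theorem PreHyp.ld_sum (j : J) : ∑ r, H.ld ⟨j, r⟩ = 0 := by
  unfold PreHyp.ld
  rw [← map_sum, euler_group H.F d H.homog j, map_nsmul, H.vanish, smul_zero]

theorem PreHyp.ld_eq (v : Σ j, Fin (m j + 1)) :
    H.ld v = (∏ j, (H.x j (s j) : K) ^ d j) * (H.aff s v * H.pd s v) := by
  unfold PreHyp.ld PreHyp.pd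
  rw [H.aeval_multiHom s _ d (multiHom_X_pderiv H.F d H.homog v), map_mul, MvPolynomial.aeval_X]

theorem PreHyp.exists_ld_ne_zero (hd : ∀ j, 1 ≤ d j) : ∃ v, H.ld v ≠ 0 := by
  have hJ : Nonempty J := by
    by_contra hcon
    rw [not_nonempty_iff] at hcon
    have h1 : H.F = MvPolynomial.C (H.F.coeff 0) := MvPolynomial.eq_C_of_isEmpty H.F
    have h2 := H.vanish
    rw [h1, MvPolynomial.aeval_C, map_eq_zero_iff _ (algebraMap ℂ K).injective] at h2
    rw [h2, map_zero] at h1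
    exact H.F_ne h1
  obtain ⟨j⟩ := hJ
  obtain ⟨v, hv⟩ := pderiv_ne_zero_of_multiHom H.F d H.homog H.F_ne j (hd j)
  refine ⟨v, ?_⟩
  unfold PreHyp.ld
  rw [map_mul, MvPolynomial.aeval_X]
  refine mul_ne_zero (Units.ne_zero _) fun h => ?_
  exact not_dvd_pderiv H.F v H.F_ne hv (H.minimal _ _ (multiHom_pderiv H.F d H.homog v) h)

theorem PreHyp.exists_ld_ne_zero' (hd : ∀ j, 1 ≤ d j) :
    ∃ v : Σ j, Fin (m j + 1), v.2 ≠ s v.1 ∧ H.ld v ≠ 0 := by
  obtain ⟨⟨j, r⟩, hv⟩ := H.exists_ld_ne_zero hd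
  by_contra hcon
  push Not at hcon
  have h1 := H.ld_sum j
  have h2 : r = s j := by
    by_contra h
    exact hv (hcon ⟨j, r⟩ h)
  rw [Finset.sum_eq_single (s j)] at h1
  · subst h2; exact hv h1
  · intro r' _ hr'
    exact hcon ⟨j, r'⟩ hr'
  · intro h; exact absurd (Finset.mem_univ _) h

theorem PreHyp.rel_D :
    ∑ v, H.pd s v • KaehlerDifferential.D ℂ K (H.aff s v) = 0 := by
  have h := derivation_aeval (KaehlerDifferential.D ℂ K) (H.aff s) H.F
  rw [H.aeval_aff_F, map_zero] at h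
  exact h.symm

/-- The logarithmic differentials of the affine coordinates. -/
noncomputable def PreHyp.dl (v : Σ j, Fin (m j + 1)) : Ω[K⁄ℂ] :=
  (H.aff s v)⁻¹ • KaehlerDifferential.D ℂ K (H.aff s v)

theorem PreHyp.rel_dl : ∑ v, H.ld v • H.dl s v = 0 := by
  have h : ∀ v, H.ld v • H.dl s v =
      (∏ j, (H.x j (s j) : K) ^ d j) • (H.pd s v • KaehlerDifferential.D ℂ K (H.aff s v)) := by
    intro v
    rw [H.ld_eq s, PreHyp.dl, smul_smul, smul_smul]
    congr 1
    have := H.aff_ne_zero s v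
    field_simp
  rw [Finset.sum_congr rfl fun v _ => h v, ← Finset.smul_sum, H.rel_D, smul_zero]

theorem PreHyp.dl_self (j : J) : H.dl s ⟨j, s j⟩ = 0 := by
  rw [PreHyp.dl, H.aff_self]
  simp

theorem PreHyp.dl_eq (v : Σ j, Fin (m j + 1)) :
    H.dl s v = (H.x v.1 v.2 : K)⁻¹ • KaehlerDifferential.D ℂ K (H.x v.1 v.2 : K) -
      (H.x v.1 (s v.1) : K)⁻¹ • KaehlerDifferential.D ℂ K (H.x v.1 (s v.1) : K) := by
  unfold PreHyp.dl
  have hx : (H.x v.1 v.2 : K) ≠ 0 := Units.ne_zero _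
  have hy : (H.x v.1 (s v.1) : K) ≠ 0 := Units.ne_zero _
  have h1 : (H.x v.1 v.2 : K) = H.aff s v * H.x v.1 (s v.1) := by
    unfold PreHyp.aff; rw [div_mul_cancel₀ _ hy]
  have h2 : KaehlerDifferential.D ℂ K (H.x v.1 v.2 : K) =
      H.aff s v • KaehlerDifferential.D ℂ K (H.x v.1 (s v.1) : K) +
      (H.x v.1 (s v.1) : K) • KaehlerDifferential.D ℂ K (H.aff s v) := by
    rw [h1, Derivation.leibniz]
  have ha := H.aff_ne_zero s v
  rw [h2, smul_add, smul_smul, smul_smul]
  have e1 : (H.x v.1 v.2 : K)⁻¹ * H.aff s v = (H.x v.1 (s v.1) : K)⁻¹ := by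
    rw [h1]; field_simp
  have e2 : (H.x v.1 v.2 : K)⁻¹ * (H.x v.1 (s v.1) : K) = (H.aff s v)⁻¹ := by
    rw [h1]; field_simp
  rw [e1, e2]
  abel

end rel

section dim

variable {K : Type} [Field K] [Algebra ℂ K] {J : Type} [Fintype J] {m d : J → ℕ}
  (H : PreHyp K m d) (s : (j : J) → Fin (m j + 1))

theorem PreHyp.adjoin_affIdx :
    Algebra.adjoin ℂ (Set.range fun v : AffIdx s => H.aff s v) = chart (segre H.x) s := by
  rw [H.chart_eq]
  apply le_antisymm
  · exact Algebra.adjoin_mono (by rintro _ ⟨v, rfl⟩; exact ⟨v, rfl⟩)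
  · refine Algebra.adjoin_le ?_
    rintro _ ⟨⟨j, r⟩, rfl⟩
    by_cases h : r = s j
    · subst h
      rw [H.aff_self]
      exact Subalgebra.one_mem _
    · exact Algebra.subset_adjoin ⟨⟨⟨j, r⟩, h⟩, rfl⟩

include H in
theorem PreHyp.trdeg_lt (hd : ∀ j, 1 ≤ d j) :
    Algebra.trdeg ℂ K < (Fintype.card (AffIdx s) : Cardinal) := by
  classical
  by_contra hcon
  push Not at hcon
  set x : AffIdx s → K := fun v => H.aff s v with hx
  have halg : Algebra.IsAlgebraic (Algebra.adjoin ℂ (Set.range x)) K := by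
    refine ⟨fun z => ?_⟩
    obtain ⟨a, ha, b, hb, hb0, hz⟩ := H.frac s z
    rw [← H.adjoin_affIdx] at ha hb
    refine ⟨Polynomial.C ⟨b, hb⟩ * Polynomial.X - Polynomial.C ⟨a, ha⟩, ?_, ?_⟩
    · intro h
      have h1 := congrArg (fun p => Polynomial.coeff p 1) h
      simp only [Polynomial.coeff_sub, Polynomial.coeff_C_mul, Polynomial.coeff_X_one, mul_one,
        Polynomial.coeff_C_succ, sub_zero, Polynomial.coeff_zero] at h1
      exact hb0 (congrArg Subtype.val h1)
    · rw [map_sub, map_mul, Polynomial.aeval_C, Polynomial.aeval_C, Polynomial.aeval_X]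
      change b * z - a = 0
      rw [hz]; field_simp; ring
  have hle : Cardinal.mk (AffIdx s) ≤ Algebra.trdeg ℂ K := by
    rw [Cardinal.mk_fintype]; exact hcon
  have hb := Algebra.IsAlgebraic.isTranscendenceBasis_of_le_trdeg_of_finite ℂ x hle
  have hinj := hb.1
  obtain ⟨k, hk, hk0⟩ := H.exists_ld_ne_zero' s hd
  let φv : (Σ j, Fin (m j + 1)) → MvPolynomial (AffIdx s) ℂ :=
    fun v => if h : v.2 ≠ s v.1 then MvPolynomial.X ⟨v, h⟩ else 1
  have hφ : ∀ p : MvPolynomial (Σ j, Fin (m j + 1)) ℂ,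
      MvPolynomial.aeval x (MvPolynomial.aeval φv p) = MvPolynomial.aeval (H.aff s) p := by
    intro p
    have h1 : (MvPolynomial.aeval x).comp (MvPolynomial.aeval φv) =
        (MvPolynomial.aeval (H.aff s) : MvPolynomial (Σ j, Fin (m j + 1)) ℂ →ₐ[ℂ] K) := by
      apply MvPolynomial.algHom_ext
      rintro ⟨j, r⟩
      by_cases h : r = s j
      · subst h
        simp [φv, H.aff_self]
      · simp [φv, h, hx]
    exact congrArg (fun f => f p) h1
  have h0 : MvPolynomial.aeval φv H.F = 0 := by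
    apply (injective_iff_map_eq_zero _).1 hinj
    rw [hφ]
    exact H.aeval_aff_F s
  have h1 := derivation_aeval (MvPolynomial.pderiv (⟨k, hk⟩ : AffIdx s)) φv H.F
  rw [h0, map_zero, Finset.sum_eq_single k] at h1
  · have h2 : (MvPolynomial.pderiv (⟨k, hk⟩ : AffIdx s)) (φv k) = 1 := by
      simp only [φv, dif_pos hk]
      simp
    rw [h2, smul_eq_mul, mul_one] at h1
    have h3 := hφ (MvPolynomial.pderiv k H.F)
    rw [← h1, map_zero] at h3
    apply hk0
    rw [H.ld_eq s, PreHyp.pd, ← h3]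
    simp
  · intro v _ hv
    by_cases h : v.2 ≠ s v.1
    · simp only [φv, dif_pos h]
      rw [MvPolynomial.pderiv_X_of_ne, smul_zero]
      intro h4
      exact hv (congrArg Subtype.val h4)
    · simp only [φv, dif_neg h]
      simp
  · intro h; exact absurd (Finset.mem_univ _) h

theorem coe_smul_mem_span {V : Type} [AddCommGroup V] [Module K V] (S : Subalgebra ℂ K) (T : Set V)
    (c : K) (hc : c ∈ S) (z : V) (hz : z ∈ Submodule.span S T) : c • z ∈ Submodule.span S T :=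
  Submodule.smul_mem _ (⟨c, hc⟩ : S) hz

theorem D_mem_span (S : Subalgebra ℂ K) (hS : chart (segre H.x) s ≤ S)
    (hfrac : ∀ x ∈ S, ∃ a ∈ chart (segre H.x) s, ∃ b ∈ chart (segre H.x) s,
      b ≠ 0 ∧ b⁻¹ ∈ S ∧ x = a / b) (x : K) (hx : x ∈ S) :
    KaehlerDifferential.D ℂ K x ∈
      Submodule.span S (Set.range fun v : AffIdx s => KaehlerDifferential.D ℂ K (H.aff s v)) := by
  have hchart : ∀ a ∈ chart (segre H.x) s, KaehlerDifferential.D ℂ K a ∈
      Submodule.span S (Set.range fun v : AffIdx s => KaehlerDifferential.D ℂ K (H.aff s v)) := by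
    intro a ha
    obtain ⟨g, rfl⟩ := (H.mem_chart_iff s a).1 ha
    rw [derivation_aeval, sum_affIdx s]
    · refine Submodule.sum_mem _ fun v _ => ?_
      exact Submodule.smul_mem _ (⟨_, hS (H.aeval_mem s _)⟩ : S) (Submodule.subset_span ⟨v, rfl⟩)
    · intro j
      rw [H.aff_self]; simp
  obtain ⟨a, ha, b, hb, hb0, hbS, rfl⟩ := hfrac x hx
  rw [div_eq_mul_inv, Derivation.leibniz, Derivation.leibniz_inv]
  refine Submodule.add_mem _ ?_ ?_
  · refine coe_smul_mem_span S _ a (hS ha) _ ?_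
    exact coe_smul_mem_span S _ _ (S.neg_mem (S.pow_mem hbS 2)) _ (hchart b hb)
  · exact coe_smul_mem_span S _ _ hbS _ (hchart a ha)

theorem mem_span_drop {V : Type} [AddCommGroup V] [Module K V] (S : Subalgebra ℂ K) {I : Type}
    [Fintype I] (E : I → V) (a : I → K) (hrel : ∑ i, a i • E i = 0) (k : I)
    (hk : a k ≠ 0) (ha : ∀ i, a i / a k ∈ S) (i : I) :
    E i ∈ Submodule.span S (Set.range fun i : {i // i ≠ k} => E i) := by
  classical
  by_cases hi : i = k
  · subst hi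
    have h1 : E i = ∑ l ∈ Finset.univ.erase i, (-(a l / a i)) • E l := by
      rw [← Finset.add_sum_erase Finset.univ _ (Finset.mem_univ i)] at hrel
      have h2 : E i = (a i)⁻¹ • (a i • E i) := by rw [smul_smul, inv_mul_cancel₀ hk, one_smul]
      rw [h2, eq_neg_of_add_eq_zero_left hrel, smul_neg, Finset.smul_sum, ← Finset.sum_neg_distrib]
      refine Finset.sum_congr rfl fun l _ => ?_
      rw [smul_smul, neg_smul, div_eq_inv_mul]
    rw [h1]
    refine Submodule.sum_mem _ fun l hl => ?_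
    exact coe_smul_mem_span S _ _ (S.neg_mem (ha l)) _
      (Submodule.subset_span ⟨⟨l, Finset.ne_of_mem_erase hl⟩, rfl⟩)
  · exact Submodule.subset_span ⟨⟨i, hi⟩, rfl⟩

theorem PreHyp.rel_D' :
    ∑ v : AffIdx s, H.pd s v • KaehlerDifferential.D ℂ K (H.aff s v) = 0 := by
  rw [← H.rel_D s, sum_affIdx s]
  intro j
  rw [H.aff_self]; simp

theorem PreHyp.rel_dl' : ∑ v : AffIdx s, H.ld v • H.dl s v = 0 := by
  rw [← H.rel_dl s, sum_affIdx s]
  intro j
  rw [H.dl_self, smul_zero]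

theorem PreHyp.pd_ne_zero {v : Σ j, Fin (m j + 1)} (hv : H.ld v ≠ 0) : H.pd s v ≠ 0 := by
  intro h
  apply hv
  rw [H.ld_eq s, h, mul_zero, mul_zero]

open Classical in
theorem PreHyp.basis_D (k : AffIdx s) (hk : H.pd s k ≠ 0) :
    LinearIndependent K (fun v : {v : AffIdx s // v ≠ k} => KaehlerDifferential.D ℂ K (H.aff s v)) ∧
    ∀ z, z ∈ Submodule.span K
      (Set.range fun v : {v : AffIdx s // v ≠ k} => KaehlerDifferential.D ℂ K (H.aff s v)) := by
  classical
  constructor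
  · rw [Fintype.linearIndependent_iff]
    intro g hg w
    let c : (Σ j, Fin (m j + 1)) → K := fun v =>
      if v = w.1.1 then 1 else if v = k.1 then - (H.pd s w.1.1 / H.pd s k) else 0
    have hwk : k.1 ≠ w.1.1 := fun h => w.2 (Subtype.ext h.symm)
    obtain ⟨D, ⟨hD1, hD2, hD3⟩, hDv⟩ := H.exists_der s ⊤ le_top (B := K) (Subalgebra.val ⊤)
      (by
        rintro ⟨x, hx⟩
        obtain ⟨a, ha, b, hb, hb0, hz⟩ := H.frac s x
        obtain ⟨p, rfl⟩ := (H.mem_chart_iff s a).1 ha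
        obtain ⟨q, rfl⟩ := (H.mem_chart_iff s b).1 hb
        refine ⟨p, q, ?_, hb0⟩
        simp only
        rw [hz]; field_simp)
      c
      (by
        intro j
        have h1 : (⟨j, s j⟩ : Σ j, Fin (m j + 1)) ≠ w.1.1 := by
          intro h; apply w.1.2; rw [← h]
        have h2 : (⟨j, s j⟩ : Σ j, Fin (m j + 1)) ≠ k.1 := by
          intro h; apply k.2; rw [← h]
        simp only [c, if_neg h1, if_neg h2])
      (by
        change ∑ v, H.pd s v * c v = 0
        rw [← Finset.add_sum_erase Finset.univ _ (Finset.mem_univ w.1.1),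
          ← Finset.add_sum_erase (Finset.univ.erase w.1.1) _
            (Finset.mem_erase.2 ⟨hwk, Finset.mem_univ k.1⟩)]
        have h3 : ∑ v ∈ (Finset.univ.erase w.1.1).erase k.1, H.pd s v * c v = 0 := by
          apply Finset.sum_eq_zero
          intro v hv
          simp only [Finset.mem_erase, Finset.mem_univ, and_true] at hv
          simp only [c, if_neg hv.1, if_neg hv.2, mul_zero]
        rw [h3]
        simp only [c, if_true, if_neg hwk]
        field_simp
        ring)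
    let δ : Derivation ℂ K K := Derivation.mk'
      { toFun := fun x => D ⟨x, trivial⟩
        map_add' := fun x y => hD1 ⟨x, trivial⟩ ⟨y, trivial⟩
        map_smul' := by
          intro a x
          have h1 : (⟨a • x, trivial⟩ : (⊤ : Subalgebra ℂ K)) =
              algebraMap ℂ (⊤ : Subalgebra ℂ K) a * ⟨x, trivial⟩ :=
            Subtype.ext (Algebra.smul_def a x)
          rw [h1, hD2, hD3, mul_zero, add_zero, RingHom.id_apply, Algebra.smul_def]
          rfl }
      (by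
        intro x y
        exact hD2 ⟨x, trivial⟩ ⟨y, trivial⟩)
    have hδ : ∀ v, δ (H.aff s v) = c v := hDv
    have h1 := congrArg (Derivation.liftKaehlerDifferential δ) hg
    rw [map_sum, map_zero, Finset.sum_eq_single w] at h1
    · rw [map_smul, Derivation.liftKaehlerDifferential_comp_D, hδ] at h1
      simpa [c] using h1
    · intro v _ hv
      rw [map_smul, Derivation.liftKaehlerDifferential_comp_D, hδ]
      have h2 : v.1.1 ≠ w.1.1 := fun h => hv (Subtype.ext (Subtype.ext h))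
      have h3 : v.1.1 ≠ k.1 := fun h => v.2 (Subtype.ext h)
      simp only [c, if_neg h2, if_neg h3, smul_zero]
    · intro h; exact absurd (Finset.mem_univ _) h
  · intro z
    have hz : z ∈ (⊤ : Submodule K (Ω[K⁄ℂ])) := trivial
    rw [← KaehlerDifferential.span_range_derivation] at hz
    refine (Submodule.span_le.2 ?_) hz
    rintro _ ⟨x, rfl⟩
    have h1 := D_mem_span H s ⊤ le_top (by
      intro x _
      obtain ⟨a, ha, b, hb, hb0, hz⟩ := H.frac s x
      exact ⟨a, ha, b, hb, hb0, trivial, hz⟩) x trivial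
    have h2 : Submodule.span (⊤ : Subalgebra ℂ K)
        (Set.range fun v : AffIdx s => KaehlerDifferential.D ℂ K (H.aff s v)) ≤
        Submodule.span (⊤ : Subalgebra ℂ K) (Set.range fun v : {v : AffIdx s // v ≠ k} =>
          KaehlerDifferential.D ℂ K (H.aff s v)) := by
      refine Submodule.span_le.2 ?_
      rintro _ ⟨v, rfl⟩
      exact mem_span_drop ⊤ (fun v : AffIdx s => KaehlerDifferential.D ℂ K (H.aff s v))
        (fun v => H.pd s v) (H.rel_D' s) k hk (fun _ => trivial) v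
    have h3 := h2 h1
    clear h1 h2
    refine Submodule.span_induction ?_ ?_ ?_ ?_ h3
    · intro y hy; exact Submodule.subset_span hy
    · exact Submodule.zero_mem _
    · intro y z _ _ hy hz; exact Submodule.add_mem _ hy hz
    · intro a y _ hy; exact Submodule.smul_mem _ (a : K) hy

open Classical in
include H in
theorem PreHyp.finrank_eq (hd : ∀ j, 1 ≤ d j) : Module.Finite K (Ω[K⁄ℂ]) ∧
    ∀ k : AffIdx s, Fintype.card {v : AffIdx s // v ≠ k} = Module.finrank K (Ω[K⁄ℂ]) := by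
  classical
  obtain ⟨k, hk, hk0⟩ := H.exists_ld_ne_zero' s hd
  obtain ⟨h1, h2⟩ := H.basis_D s ⟨k, hk⟩ (H.pd_ne_zero s hk0)
  let b := Module.Basis.mk h1 (fun z _ => h2 z)
  refine ⟨Module.Finite.of_basis b, fun l => ?_⟩
  rw [Module.finrank_eq_card_basis b]
  rw [Fintype.card_subtype_compl, Fintype.card_subtype_compl]
  simp

end dim

section jac

variable {K : Type} [Field K] [Algebra ℂ K] {J : Type} [Fintype J] {m d : J → ℕ}
  (H : PreHyp K m d)

theorem PreHyp.jacobian (hd : ∀ j, 1 ≤ d j) (O : DVal K) (s : (j : J) → Fin (m j + 1))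
    (hAS : chart (segre H.x) s ≤ O.ring)
    (hfr : ∀ x, 0 ≤ O.ord x → ∃ a ∈ chart (segre H.x) s, ∃ b ∈ chart (segre H.x) s,
      b ≠ 0 ∧ O.ord b = 0 ∧ x = a / b) :
    ∃ k : AffIdx (m := m) s, H.pd s k ≠ 0 ∧ O.ord (H.pd s k) = 0 := by
  classical
  obtain ⟨κ, _, _, ρ, hsurj, hρ⟩ := O.exists_residue
  by_contra hcon
  push Not at hcon
  have hpd : ∀ k : AffIdx s, ρ ⟨H.pd s k, hAS (H.aeval_mem s _)⟩ = 0 := by
    intro k
    rw [hρ]
    by_cases h : H.pd s k = 0
    · exact Or.inl h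
    · right
      have h1 := hcon k h
      have h2 : 0 ≤ O.ord (H.pd s k) := hAS (H.aeval_mem s _)
      change 0 < O.ord (H.pd s k)
      omega
  obtain ⟨t, ht⟩ := O.exists_ord_one
  have htR : t ∈ O.ring := by change 0 ≤ O.ord t; omega
  obtain ⟨ι, β, hβ⟩ := exists_isTranscendenceBasis' ℂ κ
  choose b hb using fun i => hsurj (β i)
  have hb' : (fun i => ρ (b i)) = β := funext hb
  rw [← hb'] at hβ
  have hindep := algebraicIndependent_residue O ρ hρ t ht b hβ.1
  have hcard := hindep.cardinalMk_le_trdeg.trans_lt (H.trdeg_lt s hd)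
  have hfin : Finite (Option ι) := by
    rw [← Cardinal.lt_aleph0_iff_finite]
    exact hcard.trans Cardinal.natCast_lt_aleph0
  have : Fintype (Option ι) := Fintype.ofFinite _
  rw [Cardinal.mk_fintype] at hcard
  have hcard' : Fintype.card (Option ι) < Fintype.card (AffIdx s) := by exact_mod_cast hcard
  let L1 : Ders ρ →ₗ[κ] (Option ι → κ) :=
    { toFun := fun D o => o.elim (D.1 ⟨t, htR⟩) (fun i => D.1 (b i))
      map_add' := by
        intro D D'
        funext o
        cases o <;> rfl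
      map_smul' := by
        intro c D
        funext o
        cases o <;> rfl }
  have hL1 : Function.Injective L1 := by
    rw [injective_iff_map_eq_zero]
    intro D hD
    apply Subtype.ext
    exact ders_eq_zero O ρ hρ hsurj ⟨t, htR⟩ ht b hβ D.1 D.2 (congrFun hD none)
      (fun i => congrFun hD (some i))
  let L2 : Ders ρ →ₗ[κ] (AffIdx s → κ) :=
    { toFun := fun D v => D.1 ⟨H.aff s v, hAS (H.aff_mem s v)⟩
      map_add' := fun D D' => rfl
      map_smul' := fun c D => rfl }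
  have hL2 : Function.Surjective L2 := by
    intro c
    obtain ⟨D, hD, hDv⟩ := H.exists_der s O.ring hAS ρ
      (by
        rintro ⟨x, hx⟩
        obtain ⟨a, ha, b, hb, hb0, hb1, hz⟩ := hfr x hx
        obtain ⟨p, rfl⟩ := (H.mem_chart_iff s a).1 ha
        obtain ⟨q, rfl⟩ := (H.mem_chart_iff s b).1 hb
        refine ⟨p, q, ?_, ?_⟩
        · simp only
          rw [hz]; field_simp
        · rw [Ne, hρ]
          push Not
          exact ⟨hb0, hb1.le⟩)
      (fun v => if h : v.2 ≠ s v.1 then c ⟨v, h⟩ else 0)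
      (by intro j; simp)
      (by
        apply Finset.sum_eq_zero
        intro v _
        by_cases h : v.2 ≠ s v.1
        · have := hpd ⟨v, h⟩
          simp only [PreHyp.pd] at this
          rw [this, zero_mul]
        · simp only [dif_neg h, mul_zero])
    refine ⟨⟨D, hD⟩, ?_⟩
    funext v
    change D _ = c v
    rw [hDv, dif_pos v.2]
  have hfd : Module.Finite κ (Ders ρ) := Module.Finite.of_injective L1 hL1
  have h1 := LinearMap.finrank_le_finrank_of_injective hL1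
  have h2 := LinearMap.finrank_le_finrank_of_surjective hL2
  rw [Module.finrank_fintype_fun_eq_card] at h1 h2
  omega

end jac

section canon

variable {K : Type} [Field K] [Algebra ℂ K]
variable {J : Type} [Fintype J] {m d : J → ℕ} (H : PreHyp K m d)

theorem PreHyp.exists_min (hd : ∀ j, 1 ≤ d j) (O : DVal K) (s : (j : J) → Fin (m j + 1)) :
    ∃ l : AffIdx s, H.ld l ≠ 0 ∧ ∀ v, H.ld v ≠ 0 → O.ord (H.ld l) ≤ O.ord (H.ld v) := by
  classical
  obtain ⟨l0, hl0, hmin⟩ := Finset.exists_min_image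
    (Finset.univ.filter fun v : Σ j, Fin (m j + 1) => H.ld v ≠ 0) (fun v => O.ord (H.ld v))
    (by
      obtain ⟨v, hv⟩ := H.exists_ld_ne_zero hd
      exact ⟨v, by simpa using hv⟩)
  simp only [Finset.mem_filter, Finset.mem_univ, true_and] at hl0 hmin
  by_cases h : l0.2 ≠ s l0.1
  · exact ⟨⟨l0, h⟩, hl0, hmin⟩
  · push Not at h
    obtain ⟨j, r⟩ := l0
    simp only at h
    subst h
    by_contra hcon
    push Not at hcon
    have h1 : ∀ r ∈ Finset.univ.erase (s j), H.ld ⟨j, r⟩ = 0 ∨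
        O.ord (H.ld ⟨j, s j⟩) + 1 ≤ O.ord (H.ld ⟨j, r⟩) := by
      intro r hr
      by_cases h0 : H.ld ⟨j, r⟩ = 0
      · exact Or.inl h0
      right
      obtain ⟨v, hv, hlt⟩ := hcon ⟨⟨j, r⟩, Finset.ne_of_mem_erase hr⟩ h0
      have h2 := hmin v hv
      simp only at hlt
      omega
    have h2 := ord_sum_ge O _ _ _ h1
    have h3 := H.ld_sum j
    rw [← Finset.add_sum_erase Finset.univ _ (Finset.mem_univ (s j))] at h3
    have h4 : ∑ r ∈ Finset.univ.erase (s j), H.ld ⟨j, r⟩ = - H.ld ⟨j, s j⟩ :=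
      (neg_eq_of_add_eq_zero_right h3).symm
    rw [h4, O.ord_neg] at h2
    rcases h2 with h2 | h2
    · exact hl0 (neg_eq_zero.1 h2)
    · omega

theorem PreHyp.lam_D_eq (s : (j : J) → Fin (m j + 1)) {n : ℕ}
    (lam : (Ω[K⁄ℂ]) [⋀^Fin n]→ₗ[K] K) {α : Type} (ν : Fin n → α) (e : α → Σ j, Fin (m j + 1)) :
    (lam fun i => KaehlerDifferential.D ℂ K (H.aff s (e (ν i)))) =
      (∏ i, H.aff s (e (ν i))) * lam fun i => H.dl s (e (ν i)) := by
  have h1 : (fun i => KaehlerDifferential.D ℂ K (H.aff s (e (ν i)))) =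
      fun i => H.aff s (e (ν i)) • H.dl s (e (ν i)) := by
    funext i
    rw [PreHyp.dl, smul_smul, mul_inv_cancel₀ (H.aff_ne_zero s _), one_smul]
  rw [h1]
  have h2 := MultilinearMap.map_smul_univ lam.toMultilinearMap (fun i => H.aff s (e (ν i)))
    (fun i => H.dl s (e (ν i)))
  exact h2

theorem PreHyp.dl_mem_span (S : Subalgebra ℂ K) (s s' : (j : J) → Fin (m j + 1))
    (v : Σ j, Fin (m j + 1)) :
    H.dl s v ∈ Submodule.span S (Set.range fun v : AffIdx s' => H.dl s' v) := by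
  have h1 : ∀ w : Σ j, Fin (m j + 1),
      H.dl s' w ∈ Submodule.span S (Set.range fun v : AffIdx s' => H.dl s' v) := by
    rintro ⟨j, r⟩
    by_cases h : r = s' j
    · subst h
      rw [H.dl_self]
      exact Submodule.zero_mem _
    · exact Submodule.subset_span ⟨⟨⟨j, r⟩, h⟩, rfl⟩
  have h2 : H.dl s v = H.dl s' v - H.dl s' ⟨v.1, s v.1⟩ := by
    rw [H.dl_eq, H.dl_eq, H.dl_eq]
    abel
  rw [h2]
  exact Submodule.sub_mem _ (h1 _) (h1 _)

theorem PreHyp.dl_mem_span_drop (O : DVal K) (s s' : (j : J) → Fin (m j + 1))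
    (l : AffIdx s') (hl : H.ld l ≠ 0) (hmin : ∀ v, H.ld v ≠ 0 → O.ord (H.ld l) ≤ O.ord (H.ld v))
    (v : Σ j, Fin (m j + 1)) :
    H.dl s v ∈ Submodule.span O.ring (Set.range fun v : {v : AffIdx s' // v ≠ l} => H.dl s' v) := by
  have h1 := H.dl_mem_span O.ring s s' v
  refine (Submodule.span_le.2 ?_) h1
  rintro _ ⟨w, rfl⟩
  refine mem_span_drop O.ring (fun v : AffIdx s' => H.dl s' v) (fun v => H.ld v) (H.rel_dl' s') l hl
    (fun i => ?_) w
  change 0 ≤ O.ord (H.ld i / H.ld l)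
  by_cases hi : H.ld i = 0
  · rw [hi, zero_div, O.ord_zero]
  · rw [O.ord_div hi hl]
    have := hmin i hi
    omega

/-- The divisor of a rational top form is `∑ (d j - m j - 1) H j` up to the divisor of a
rational function, at the valuations whose ring is the localization of a chart. -/
theorem PreHyp.canonical_class (H : PreHyp K m d)
    (hd : ∀ j, 1 ≤ d j) (ω : TopForm K) (hω : ω ≠ 0) :
    ∃ u : Kˣ, ∀ (Q : DVal K) (s : (j : J) → Fin (m j + 1)), chart (segre H.x) s ≤ Q.ring →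
      (∀ x, 0 ≤ Q.ord x → ∃ a ∈ chart (segre H.x) s, ∃ b ∈ chart (segre H.x) s,
        b ≠ 0 ∧ Q.ord b = 0 ∧ x = a / b) →
      (canOrd Q ω : ℝ) = ∑ j, ((d j : ℝ) - m j - 1) * (- (Q.ord (H.x j (s j) : K) : ℝ)) +
        Q.ord u := by
  classical
  let s0 : (j : J) → Fin (m j + 1) := fun _ => 0
  obtain ⟨hfin, _⟩ := H.finrank_eq s0 hd
  obtain ⟨lam, hlam0, hlam⟩ := exists_coord hfin ω hω
  -- enumerations
  have hcard : ∀ (s : (j : J) → Fin (m j + 1)) (k : AffIdx s),
      Nonempty (Fin (Module.finrank K (Ω[K⁄ℂ])) ≃ {v : AffIdx s // v ≠ k}) := by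
    intro s k
    have h1 := (H.finrank_eq s hd).2 k
    exact ⟨(Fintype.equivFinOfCardEq (by convert h1)).symm⟩
  obtain ⟨ν⟩ : Nonempty (∀ (s : (j : J) → Fin (m j + 1)) (k : AffIdx s),
      Fin (Module.finrank K (Ω[K⁄ℂ])) ≃ {v : AffIdx s // v ≠ k}) :=
    ⟨fun s k => (hcard s k).some⟩
  -- nonvanishing
  have hne : ∀ (s : (j : J) → Fin (m j + 1)) (k : AffIdx s), H.ld k ≠ 0 →
      (lam fun i => KaehlerDifferential.D ℂ K (H.aff s (ν s k i).1.1)) ≠ 0 ∧
      (lam fun i => H.dl s (ν s k i).1.1) ≠ 0 := by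
    intro s k hk
    have h1 : (lam fun i => KaehlerDifferential.D ℂ K (H.aff s (ν s k i).1.1)) ≠ 0 := by
      apply coord_ne_zero lam hlam0
      intro z
      have h2 := (H.basis_D s k (H.pd_ne_zero s hk)).2 z
      refine Submodule.span_mono ?_ h2
      rintro _ ⟨v, rfl⟩
      exact ⟨(ν s k).symm v, by simp⟩
    refine ⟨h1, fun h2 => h1 ?_⟩
    have h3 := H.lam_D_eq s lam (ν s k) (fun v => v.1.1)
    rw [h3, h2, mul_zero]
  obtain ⟨k0, hk0, hk0'⟩ := H.exists_ld_ne_zero' s0 hd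
  set k : AffIdx s0 := ⟨k0, hk0⟩ with hk
  set κ0 : K := (lam fun i => H.dl s0 (ν s0 k i).1.1) / H.ld k with hκ0
  have hκ : κ0 ≠ 0 := div_ne_zero (hne s0 k hk0').2 hk0'
  have hP : (∏ v : Σ j, Fin (m j + 1), (H.x v.1 v.2 : K)) ≠ 0 :=
    Finset.prod_ne_zero_iff.2 fun v _ => Units.ne_zero _
  refine ⟨(Units.mk0 (κ0 * ∏ v : Σ j, Fin (m j + 1), (H.x v.1 v.2 : K)) (mul_ne_zero hκ hP))⁻¹,
    fun Q s hAS hfr => ?_⟩
  obtain ⟨l, hl0, hl1⟩ := H.jacobian hd Q s hAS hfr
  have hldl : H.ld l ≠ 0 := by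
    rw [H.ld_eq s]
    exact mul_ne_zero (Finset.prod_ne_zero_iff.2 fun j _ => pow_ne_zero _ (Units.ne_zero _))
      (mul_ne_zero (H.aff_ne_zero s _) hl0)
  -- the canonical order
  have hcan : canOrd Q ω = - Q.ord (lam fun i =>
      KaehlerDifferential.D ℂ K (H.aff s (ν s l i).1.1)) := by
    refine canOrd_eq Q hω lam hlam (fun i => ⟨H.aff s (ν s l i).1.1, hAS (H.aff_mem s _)⟩) ?_
      (hne s l hldl).1
    intro z
    have h1 := D_mem_span H s Q.ring hAS (by
      intro x hx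
      obtain ⟨a, ha, b, hb, hb0, hb1, hz⟩ := hfr x hx
      refine ⟨a, ha, b, hb, hb0, ?_, hz⟩
      change 0 ≤ Q.ord b⁻¹
      rw [Q.ord_inv]; omega) z z.2
    have h2 : Submodule.span Q.ring
        (Set.range fun v : AffIdx s => KaehlerDifferential.D ℂ K (H.aff s v)) ≤
        Submodule.span Q.ring (Set.range fun v : {v : AffIdx s // v ≠ l} =>
          KaehlerDifferential.D ℂ K (H.aff s v)) := by
      refine Submodule.span_le.2 ?_
      rintro _ ⟨v, rfl⟩
      refine mem_span_drop Q.ring (fun v : AffIdx s => KaehlerDifferential.D ℂ K (H.aff s v))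
        (fun v => H.pd s v) (H.rel_D' s) l hl0 (fun i => ?_) v
      change 0 ≤ Q.ord (H.pd s i / H.pd s l)
      by_cases hi : H.pd s i = 0
      · rw [hi, zero_div, Q.ord_zero]
      · rw [Q.ord_div hi hl0, hl1]
        have : 0 ≤ Q.ord (H.pd s i) := hAS (H.aeval_mem s _)
        omega
    refine Submodule.span_mono ?_ (h2 h1)
    rintro _ ⟨v, rfl⟩
    exact ⟨(ν s l).symm v, by simp⟩
  -- comparison of the charts s and s0
  obtain ⟨l1, hl1a, hl1b⟩ := H.exists_min hd Q s
  obtain ⟨l2, hl2a, hl2b⟩ := H.exists_min hd Q s0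
  have e1 := alt_exchange Q lam (fun v : AffIdx s => H.dl s v) (fun v => H.ld v) (H.rel_dl' s)
    l1 l hl1a hldl (ν s l1) (ν s l) (hne s l1 hl1a).2
  have e2 := alt_exchange Q lam (fun v : AffIdx s0 => H.dl s0 v) (fun v => H.ld v) (H.rel_dl' s0)
    k l2 hk0' hl2a (ν s0 k) (ν s0 l2) (hne s0 k hk0').2
  have e3 := alt_ord_eq Q lam (fun i => H.dl s (ν s l1 i).1.1) (fun i => H.dl s0 (ν s0 l2 i).1.1)
    (by
      intro i
      refine Submodule.span_mono ?_ (H.dl_mem_span_drop Q s0 s l1 hl1a hl1b _)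
      rintro _ ⟨v, rfl⟩
      exact ⟨(ν s l1).symm v, by simp⟩)
    (by
      intro i
      refine Submodule.span_mono ?_ (H.dl_mem_span_drop Q s s0 l2 hl2a hl2b _)
      rintro _ ⟨v, rfl⟩
      exact ⟨(ν s0 l2).symm v, by simp⟩)
    (hne s l1 hl1a).2
  have e4 : Q.ord (H.ld l1) = Q.ord (H.ld l2) :=
    le_antisymm (hl1b _ hl2a) (hl2b _ hl1a)
  have e5 : Q.ord κ0 = Q.ord (lam fun i => H.dl s0 (ν s0 k i).1.1) - Q.ord (H.ld k) :=
    Q.ord_div (hne s0 k hk0').2 hk0'
  have e6 : Q.ord (lam fun i => H.dl s (ν s l i).1.1) = Q.ord (H.ld l) + Q.ord κ0 := by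
    have e1' := e1.2
    have e2' := e2.2
    have e3' := e3.2
    omega
  -- products
  have e7 : Q.ord (lam fun i => KaehlerDifferential.D ℂ K (H.aff s (ν s l i).1.1)) =
      ∑ v : {v : AffIdx s // v ≠ l}, Q.ord (H.aff s v.1.1) + Q.ord (H.ld l) + Q.ord κ0 := by
    have h3 := H.lam_D_eq s lam (ν s l) (fun v => v.1.1)
    rw [h3, Q.ord_mul _ _ (Finset.prod_ne_zero_iff.2 fun i _ => H.aff_ne_zero s _)
      (hne s l hldl).2, e6, Q.ord_prod _ _ (fun i _ => H.aff_ne_zero s _),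
      Equiv.sum_comp (ν s l) (fun v : {v : AffIdx s // v ≠ l} => Q.ord (H.aff s v.1.1))]
    ring
  have e8 : Q.ord (H.ld l) = ∑ j, (d j : ℤ) * Q.ord (H.x j (s j) : K) + Q.ord (H.aff s l) := by
    rw [H.ld_eq s, Q.ord_mul _ _
      (Finset.prod_ne_zero_iff.2 fun j _ => pow_ne_zero _ (Units.ne_zero _))
      (mul_ne_zero (H.aff_ne_zero s _) hl0), Q.ord_mul _ _ (H.aff_ne_zero s _) hl0, hl1,
      Q.ord_prod _ _ (fun j _ => pow_ne_zero _ (Units.ne_zero _))]
    simp only [Q.ord_pow]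
    ring
  have e9 : ∑ v : {v : AffIdx s // v ≠ l}, Q.ord (H.aff s v.1.1) + Q.ord (H.aff s l) =
      ∑ v : Σ j, Fin (m j + 1), Q.ord (H.aff s v) := by
    rw [sum_affIdx s (fun v => Q.ord (H.aff s v)) (fun j => by rw [H.aff_self]; simp),
      ← Finset.add_sum_erase Finset.univ _ (Finset.mem_univ l), add_comm]
    congr 1
    exact (Finset.sum_subtype (p := fun i => i ≠ l) (Finset.univ.erase l) (by simp)
      (fun v : AffIdx s => Q.ord (H.aff s v))).symm
  have e10 : ∑ v : Σ j, Fin (m j + 1), Q.ord (H.aff s v) =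
      ∑ v : Σ j, Fin (m j + 1), Q.ord (H.x v.1 v.2 : K) -
        ∑ j, ((m j : ℤ) + 1) * Q.ord (H.x j (s j) : K) := by
    have h1 : ∀ v : Σ j, Fin (m j + 1), Q.ord (H.aff s v) =
        Q.ord (H.x v.1 v.2 : K) - Q.ord (H.x v.1 (s v.1) : K) := fun v =>
      Q.ord_div (Units.ne_zero _) (Units.ne_zero _)
    rw [Finset.sum_congr rfl fun v _ => h1 v, Finset.sum_sub_distrib]
    congr 1
    rw [← Finset.univ_sigma_univ, Finset.sum_sigma]
    refine Finset.sum_congr rfl fun j _ => ?_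
    simp
  have e11 : Q.ord ((Units.mk0 (κ0 * ∏ v : Σ j, Fin (m j + 1), (H.x v.1 v.2 : K))
      (mul_ne_zero hκ hP))⁻¹ : Kˣ) =
      - (Q.ord κ0 + ∑ v : Σ j, Fin (m j + 1), Q.ord (H.x v.1 v.2 : K)) := by
    rw [Units.val_inv_eq_inv_val, Units.val_mk0, Q.ord_inv, Q.ord_mul _ _ hκ hP,
      Q.ord_prod _ _ fun v _ => Units.ne_zero _]
  rw [e11, hcan, e7, e8]
  have e12 : ∑ j, ((d j : ℝ) - m j - 1) * (- (Q.ord (H.x j (s j) : K) : ℝ)) =
      ((∑ j, ((m j : ℤ) + 1) * Q.ord (H.x j (s j) : K) -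
        ∑ j, (d j : ℤ) * Q.ord (H.x j (s j) : K) : ℤ) : ℝ) := by
    push_cast
    rw [← Finset.sum_sub_distrib]
    refine Finset.sum_congr rfl fun j _ => ?_
    ring
  rw [e12]
  rw [e10] at e9
  have e13 : -(∑ v : {v : AffIdx s // v ≠ l}, Q.ord (H.aff s v.1.1) +
      (∑ j, (d j : ℤ) * Q.ord (H.x j (s j) : K) + Q.ord (H.aff s l)) + Q.ord κ0) =
      (∑ j, ((m j : ℤ) + 1) * Q.ord (H.x j (s j) : K) -
        ∑ j, (d j : ℤ) * Q.ord (H.x j (s j) : K)) +
      -(Q.ord κ0 + ∑ v : Σ j, Fin (m j + 1), Q.ord (H.x v.1 v.2 : K)) := by linarith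
  rw [e13]
  push_cast
  ring

end canon

end Pool.Agent.LibGMW
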