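import Pool.Agent.LibGMW.Base
import Pool.Agent.LibGMM.H1

/-! TASK REL: algebraic ratios give multihomogeneous relations. -/

open scoped Classical

namespace Pool.Agent.LibGMW

open Pool.Agent.LibGMM MvPolynomial

variable {K : Type} [Field K] [Algebra ℂ K] {J : Type} [Fintype J] {m : J → ℕ}

/-- an element algebraic over the field generated by `T` is algebraic over the algebra -/
private theorem Rel_algebraic (T : Set K) (y : K) (h : IsAlgebraic (IntermediateField.adjoin ℂ T) y) :
    IsAlgebraic (Algebra.adjoin ℂ T) y := by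
  open scoped IntermediateField.algebraAdjoinAdjoin in
  exact (IsFractionRing.isAlgebraic_iff (Algebra.adjoin ℂ T) (IntermediateField.adjoin ℂ T) K).2 h

/-- the field `E.base S` is generated by the affine coordinates -/
private theorem Rel_base (E : Emb K m) (S : Set J) (s : (j : J) → Fin (m j + 1)) :
    E.base S = IntermediateField.adjoin ℂ {y | ∃ j ∈ S, ∃ r, y = (E.x j r : K) / E.x j (s j)} := by
  apply le_antisymm
  · unfold Emb.base
    rw [IntermediateField.adjoin_le_iff]
    rintro _ ⟨j, hj, r, r', rfl⟩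
    have h1 : (E.x j r : K) / E.x j (s j) ∈ IntermediateField.adjoin ℂ
        {y | ∃ j ∈ S, ∃ r, y = (E.x j r : K) / E.x j (s j)} :=
      IntermediateField.subset_adjoin _ _ ⟨j, hj, r, rfl⟩
    have h2 : (E.x j r' : K) / E.x j (s j) ∈ IntermediateField.adjoin ℂ
        {y | ∃ j ∈ S, ∃ r, y = (E.x j r : K) / E.x j (s j)} :=
      IntermediateField.subset_adjoin _ _ ⟨j, hj, r', rfl⟩
    have h3 : (E.x j r : K) / E.x j r' =
        ((E.x j r : K) / E.x j (s j)) / ((E.x j r' : K) / E.x j (s j)) := by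
      rw [div_div_div_cancel_right₀ (Units.ne_zero _)]
    rw [h3]
    exact div_mem h1 h2
  · rw [IntermediateField.adjoin_le_iff]
    rintro _ ⟨j, hj, r, rfl⟩
    exact IntermediateField.subset_adjoin _ _ ⟨j, hj, r, s j, rfl⟩

/-- If the ratio of two coordinates of the `j`-th factor is algebraic over the field generated by the
coordinates of the factors in `S`, there is a multihomogeneous relation `G` which involves, of the
`j`-th group of variables, only the two variables. (`E.base S` is the fraction field of `E.proj S s`,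
`s` any index: clear denominators in an algebraic equation of `y = x j r / x j r'`, so
`∑ c_k y ^ k = 0`, `k ≤ N`, with `c_k` in `E.proj S s`, not all zero. Homogenise the `c_k` to the same
multidegree, `C_k` (`exists_multiHom_vars` in LibGMM/H1 and multiplication by powers of the variables
`(h, s h)`, `h ∈ S`); the value of `C_k` at `x` is `c_k` times a monomial which does not depend on `k`.
Take `G = ∑ C_k X (j, r) ^ k X (j, r') ^ (N - k)`; it is not zero since some `C_k ≠ 0`.) -/
theorem Emb.exists_relation (E : Emb K m) (S : Set J) (j : J) (hj : j ∉ S) (r r' : Fin (m j + 1))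
    (hr : r ≠ r') (h : IsAlgebraic (E.base S) ((E.x j r : K) / E.x j r')) :
    ∃ (G : MvPolynomial (Σ j, Fin (m j + 1)) ℂ) (e : J → ℕ), MultiHom G e ∧ G ≠ 0 ∧
      (∀ j', j' ∉ S → j' ≠ j → e j' = 0) ∧ (∀ v ∈ G.vars, v.1 = j → v = ⟨j, r⟩ ∨ v = ⟨j, r'⟩) ∧
      aeval (fun v : Σ j, Fin (m j + 1) => (E.x v.1 v.2 : K)) G = 0 := by
  let s : (h : J) → Fin (m h + 1) := fun h => if hh : h = j then hh ▸ r' else 0
  have hsj : s j = r' := by
    simp [s]
  set T0 : Set K := {y | ∃ j ∈ S, ∃ r, y = (E.x j r : K) / E.x j (s j)} with hT0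
  rw [Rel_base E S s] at h
  obtain ⟨p, hp0, hpy⟩ := Rel_algebraic T0 _ h
  -- the variables
  let ι : (Σ h : {h : J // h ∈ S ∨ h = j}, Fin (m h.1 + 1)) → (Σ j, Fin (m j + 1)) :=
    fun v => ⟨v.1.1, v.2⟩
  have hι : Function.Injective ι := by
    rintro ⟨⟨a, ha⟩, a'⟩ ⟨⟨b, hb⟩, b'⟩ hab
    simp only [ι, Sigma.mk.injEq] at hab
    obtain ⟨rfl, h2⟩ := hab
    rw [eq_of_heq h2]
  let w : (Σ h : {h : J // h ∈ S ∨ h = j}, Fin (m h.1 + 1)) → K :=
    fun v => (E.x v.1.1 v.2 : K) / E.x v.1.1 (s v.1.1)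
  let u : (Σ h : {h : J // h ∈ S ∨ h = j}, Fin (m h.1 + 1)) → Polynomial K :=
    fun v => if ι v = ⟨j, r⟩ then Polynomial.X else Polynomial.C (w v)
  let T : Set (Σ h : {h : J // h ∈ S ∨ h = j}, Fin (m h.1 + 1)) :=
    {v | v.1.1 ∈ S ∨ ι v = ⟨j, r⟩ ∨ ι v = ⟨j, r'⟩}
  have hu : ∀ h : {h : J // h ∈ S ∨ h = j}, u ⟨h, s h.1⟩ = 1 := by
    rintro ⟨h, hh⟩
    have h1 : ι ⟨⟨h, hh⟩, s h⟩ ≠ ⟨j, r⟩ := by
      intro h2
      simp only [ι, Sigma.mk.injEq] at h2
      obtain ⟨rfl, h3⟩ := h2
      apply hr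
      rw [← hsj]
      exact (eq_of_heq h3).symm
    simp only [u]
    rw [if_neg h1]
    simp only [w]
    rw [div_self (Units.ne_zero _), Polynomial.C_1]
  have hTs : ∀ h : {h : J // h ∈ S ∨ h = j},
      (⟨h, s h.1⟩ : Σ h : {h : J // h ∈ S ∨ h = j}, Fin (m h.1 + 1)) ∈ T := by
    rintro ⟨h, hh | rfl⟩
    · exact Or.inl hh
    · refine Or.inr (Or.inr ?_)
      simp only [ι, hsj]
  -- the polynomial
  let P : Polynomial K := p.map (algebraMap (Algebra.adjoin ℂ T0) K)
  have hP0 : P ≠ 0 := by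
    intro h0
    apply hp0
    exact (Polynomial.map_eq_zero_iff (Subtype.val_injective)).1 h0
  have hPy : P.eval ((E.x j r : K) / E.x j r') = 0 := by
    rw [Polynomial.eval_map]
    exact hpy
  have hXmem : (Polynomial.X : Polynomial K) ∈ Algebra.adjoin ℂ (u '' T) := by
    apply Algebra.subset_adjoin
    refine ⟨⟨⟨j, Or.inr rfl⟩, r⟩, Or.inr (Or.inl rfl), ?_⟩
    simp only [u]
    rw [if_pos rfl]
  have hCmem : ∀ c ∈ Algebra.adjoin ℂ T0, Polynomial.C c ∈ Algebra.adjoin ℂ (u '' T) := by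
    intro c hc
    have h1 : Algebra.adjoin ℂ T0 ≤ (Algebra.adjoin ℂ (u '' T)).comap
        (Polynomial.CAlgHom : K →ₐ[ℂ] Polynomial K) := by
      rw [Algebra.adjoin_le_iff]
      rintro _ ⟨h, hh, t, rfl⟩
      apply Algebra.subset_adjoin
      refine ⟨⟨⟨h, Or.inl hh⟩, t⟩, Or.inl hh, ?_⟩
      have h2 : ι ⟨⟨h, Or.inl hh⟩, t⟩ ≠ ⟨j, r⟩ := by
        intro h3
        have h4 : h = j := congrArg Sigma.fst h3
        exact hj (h4 ▸ hh)
      simp only [u]
      rw [if_neg h2]
      rfl
    exact h1 hc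
  have hP : P ∈ Algebra.adjoin ℂ (u '' T) := by
    rw [Polynomial.as_sum_range_C_mul_X_pow P]
    refine Subalgebra.sum_mem _ fun k _ => ?_
    refine Subalgebra.mul_mem _ (hCmem _ ?_) (Subalgebra.pow_mem _ hXmem k)
    simp only [P]
    rw [Polynomial.coeff_map]
    exact (p.coeff k).2
  obtain ⟨e', G', hG', hvars, hval⟩ := exists_multiHom_vars u (fun h => s h.1) hu T hTs P hP
  let e : J → ℕ := fun h => if hh : h ∈ S ∨ h = j then e' ⟨h, hh⟩ else 0
  refine ⟨rename ι G', e, ?_, ?_, ?_, ?_, ?_⟩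
  · intro c hc h
    rw [support_rename_of_injective hι, Finset.mem_image] at hc
    obtain ⟨c', hc', rfl⟩ := hc
    by_cases hh : h ∈ S ∨ h = j
    · have h1 : e h = e' ⟨h, hh⟩ := dif_pos hh
      rw [h1, ← hG' c' hc' ⟨h, hh⟩]
      refine Finset.sum_congr rfl fun t _ => ?_
      exact Finsupp.mapDomain_apply hι c' ⟨⟨h, hh⟩, t⟩
    · have h1 : e h = 0 := dif_neg hh
      rw [h1]
      refine Finset.sum_eq_zero fun t _ => ?_
      refine Finsupp.mapDomain_of_notMem_range c' _ ?_
      rintro ⟨v, hv⟩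
      have h2 : v.1.1 = h := congrArg Sigma.fst hv
      exact hh (h2 ▸ v.1.2)
  · intro h0
    apply hP0
    rw [← hval, (map_eq_zero_iff _ (rename_injective ι hι)).1 h0, map_zero]
  · intro h h1 h2
    exact dif_neg (by
      rintro (h3 | h3)
      · exact h1 h3
      · exact h2 h3)
  · intro v hv hvj
    obtain ⟨v', hv', rfl⟩ := Finset.mem_image.1 (vars_rename ι G' hv)
    rcases hvars hv' with h1 | h1 | h1
    · have h2 : v'.1.1 = j := hvj
      exact absurd (h2 ▸ h1) hj
    · exact Or.inl h1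
    · exact Or.inr h1
  · rw [aeval_rename]
    have h1 : ((fun v : Σ j, Fin (m j + 1) => (E.x v.1 v.2 : K)) ∘ ι) =
        fun v : Σ h : {h : J // h ∈ S ∨ h = j}, Fin (m h.1 + 1) =>
          (E.x v.1.1 (s v.1.1) : K) * ((E.x v.1.1 v.2 : K) / E.x v.1.1 (s v.1.1)) := by
      funext v
      simp only [Function.comp, ι]
      rw [mul_div_cancel₀ _ (Units.ne_zero _)]
    have h10 := aeval_scale (fun (h : {h : J // h ∈ S ∨ h = j}) (t : Fin (m h.1 + 1)) =>
      (E.x h.1 t : K) / E.x h.1 (s h.1)) (fun h => (E.x h.1 (s h.1) : K)) G' e' hG'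
    rw [h1]
    refine h10.trans ?_
    have h2 : aeval (fun v : Σ h : {h : J // h ∈ S ∨ h = j}, Fin (m h.1 + 1) =>
        (E.x v.1.1 v.2 : K) / E.x v.1.1 (s v.1.1)) G' = 0 := by
      have h3 := congrArg (Polynomial.eval ((E.x j r : K) / E.x j r')) hval
      rw [hPy] at h3
      have h4 := MvPolynomial.comp_aeval (R := ℂ) u
        ((Polynomial.aeval ((E.x j r : K) / E.x j r') : Polynomial K →ₐ[K] K).restrictScalars ℂ)
      have h5 := congrArg (fun g => g G') h4
      have h6 : (fun v => ((Polynomial.aeval ((E.x j r : K) / E.x j r') :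
          Polynomial K →ₐ[K] K).restrictScalars ℂ) (u v)) = w := by
        funext v
        show Polynomial.aeval ((E.x j r : K) / E.x j r') (u v) = w v
        simp only [u]
        split_ifs with h7
        · rw [Polynomial.aeval_X]
          obtain ⟨⟨a, ha⟩, a'⟩ := v
          simp only [ι, Sigma.mk.injEq] at h7
          obtain ⟨rfl, h8⟩ := h7
          have h9 : a' = r := eq_of_heq h8
          subst h9
          simp only [w, hsj]
        · rw [Polynomial.aeval_C]
          rfl
      rw [h6] at h5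
      have h7 : aeval w G' = Polynomial.aeval ((E.x j r : K) / E.x j r') (aeval u G') := h5.symm
      have h8 : aeval w G' = 0 := by
        rw [h7]
        exact h3
      exact h8
    exact mul_eq_zero_of_right _ h2

end Pool.Agent.LibGMW
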