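import Pool.Agent.LibGMW.Fib

/-! The transcendence degree of the function field of `X_l`. -/

open scoped Classical KaehlerDifferential

namespace Pool.Agent.LibGMW

open Pool.Agent.LibGMM MvPolynomial

/-- The field of constants of a derivation. -/
private def Tdeg_ker {K : Type} [Field K] [Algebra ℂ K] {M : Type} [AddCommGroup M] [Module K M]
    [Module ℂ M] [IsScalarTower ℂ K M]
    (d : Derivation ℂ K M) : IntermediateField ℂ K where
  carrier := {y | d y = 0}
  mul_mem' := by
    intro a b ha hb
    simp only [Set.mem_ofPred_eq] at *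
    rw [d.leibniz, ha, hb, smul_zero, smul_zero, add_zero]
  add_mem' := by
    intro a b ha hb
    simp only [Set.mem_ofPred_eq] at *
    rw [map_add, ha, hb, add_zero]
  algebraMap_mem' := by
    intro c
    simp only [Set.mem_ofPred_eq]
    exact d.map_algebraMap c
  inv_mem' := by
    intro a ha
    simp only [Set.mem_ofPred_eq] at *
    change d a = 0 at ha
    rw [d.leibniz_inv, ha, smul_zero]

/-- A derivation which is zero on a subfield, over which `K` is algebraic, is zero. -/
private theorem Tdeg_zero {K : Type} [Field K] [Algebra ℂ K] {M : Type} [AddCommGroup M]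
    [Module K M] [Module ℂ M]
    [IsScalarTower ℂ K M] (d : Derivation ℂ K M) (L : IntermediateField ℂ K)
    [Algebra.IsAlgebraic L K] (hL : ∀ y ∈ L, d y = 0) (y : K) : d y = 0 := by
  have : CharZero L := charZero_of_injective_algebraMap (algebraMap ℂ L).injective
  have : Algebra.IsSeparable L K := inferInstance
  have : Algebra.FormallyUnramified L K := Algebra.FormallyUnramified.of_isSeparable L K
  let d' : Derivation L K M := Derivation.mk'
    { toFun := d
      map_add' := fun a b => map_add d a b
      map_smul' := by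
        intro c a
        change d ((c : K) * a) = (c : K) • d a
        rw [d.leibniz, hL c c.2, smul_zero, add_zero] }
    (fun a b => d.leibniz a b)
  have h1 : d' y = 0 := by
    rw [← d'.liftKaehlerDifferential_comp_D y,
      Subsingleton.elim (KaehlerDifferential.D L K y) 0, map_zero]
  exact h1

/-- The module of differentials is spanned by the differentials of a transcendence basis. -/
theorem finrank_kaehler_le {K : Type} [Field K] [Algebra ℂ K] {ι : Type} [Fintype ι] (y : ι → K)
    (hy : IsTranscendenceBasis ℂ y) : Module.finrank K (Ω[K⁄ℂ]) ≤ Fintype.card ι := by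
  let v : ι → Ω[K⁄ℂ] := fun i => KaehlerDifferential.D ℂ K (y i)
  let N : Submodule K (Ω[K⁄ℂ]) := Submodule.span K (Set.range v)
  let d : Derivation ℂ K (Ω[K⁄ℂ] ⧸ N) := N.mkQ.compDer (KaehlerDifferential.D ℂ K)
  have halg : Algebra.IsAlgebraic (IntermediateField.adjoin ℂ (Set.range y)) K :=
    hy.isAlgebraic_field
  have hle : IntermediateField.adjoin ℂ (Set.range y) ≤ Tdeg_ker d := by
    rw [IntermediateField.adjoin_le_iff]
    rintro _ ⟨i, rfl⟩
    change N.mkQ (KaehlerDifferential.D ℂ K (y i)) = 0
    rw [Submodule.mkQ_apply, Submodule.Quotient.mk_eq_zero]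
    exact Submodule.subset_span ⟨i, rfl⟩
  have hd : ∀ z, d z = 0 := Tdeg_zero d (IntermediateField.adjoin ℂ (Set.range y))
    fun z hz => hle hz
  have htop : N = ⊤ := by
    rw [eq_top_iff, ← KaehlerDifferential.span_range_derivation, Submodule.span_le]
    rintro _ ⟨z, rfl⟩
    have h1 := hd z
    change N.mkQ (KaehlerDifferential.D ℂ K z) = 0 at h1
    rwa [Submodule.mkQ_apply, Submodule.Quotient.mk_eq_zero] at h1
  have h2 := finrank_range_le_card (R := K) v
  unfold Set.finrank at h2
  change Module.finrank K N ≤ _ at h2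
  rwa [htop, finrank_top] at h2

/-- If the transcendence degree is at most the dimension of the module of differentials, they are
equal. -/
theorem trdeg_eq_finrank {K : Type} [Field K] [Algebra ℂ K] (N : ℕ)
    (h : Algebra.trdeg ℂ K ≤ (N : Cardinal)) (hN : Module.finrank K (Ω[K⁄ℂ]) = N) :
    Algebra.trdeg ℂ K = (N : Cardinal) := by
  refine le_antisymm h ?_
  obtain ⟨s, hs⟩ := exists_isTranscendenceBasis ℂ K
  have h1 := hs.cardinalMk_eq_trdeg
  have hfin : Finite s := by
    rw [← Cardinal.lt_aleph0_iff_finite, h1]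
    exact h.trans_lt Cardinal.natCast_lt_aleph0
  have := Fintype.ofFinite s
  have h2 := finrank_kaehler_le (fun i : s => (i : K)) hs
  rw [← h1, Cardinal.mk_fintype]
  exact_mod_cast hN.symm.le.trans h2

variable {P R : Type} [Fintype P] [Fintype R] {n : ℕ} {m e : R → ℕ}
  {K : Type} [Field K] [Algebra ℂ K] {T : FormTensor P n m e} {l i : P}

/-- The transcendence degree of the function field of `X_l`. -/
theorem Multilin.trdeg_add_one (D : Multilin K T l) (h : l ≠ i)
    (hdims : ∀ j, 1 ≤ dims (P := P) n m j) (hdet : (matP T l i).det ≠ 0)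
    (hadj : ∃ a b, (D.mat i).adjugate a b ≠ 0) (he : ∀ r, 1 ≤ e r) :
    Algebra.trdeg ℂ K + (n + 1 : ℕ) =
      (∑ j ∈ Finset.univ.erase (Sum.inl l), dims n m j : ℕ) := by
  have hd : ∀ j : others (P := P) (R := R) l i, 1 ≤ (n + 1) * degs e j.1 := by
    intro j
    have h1 : 1 ≤ degs e j.1 := by
      rcases j with ⟨p | r, _⟩
      · exact le_rfl
      · exact he r
    exact Nat.mul_pos (Nat.succ_pos n) h1
  have h1 := D.finrank_add_one h hdims hdet hadj he
  have h2 := (D.preHyp h hdims hdet hadj).trdeg_lt (fun _ => 0) hd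
  have h3 : Fintype.card (AffIdx (m := subDim (dims n m) (others (P := P) (R := R) l i))
      (fun _ => 0)) = ∑ j ∈ (Finset.univ.erase (Sum.inl l)).erase (Sum.inl i), dims n m j := by
    rw [card_affIdx]
    have h3 : (Finset.univ.erase (Sum.inl l)).erase (Sum.inl i) =
        Finset.univ.filter fun j : P ⊕ R => j ∈ others l i := by
      ext j
      simp [others, and_comm]
    rw [h3, Finset.sum_subtype (p := fun j => j ∈ others l i) _ (by simp) (fun j => dims n m j)]
  rw [h3, ← h1] at h2
  have h4 : Algebra.trdeg ℂ K ≤ (Module.finrank K (Ω[K⁄ℂ]) : Cardinal) := by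
    obtain ⟨N, hN⟩ := Cardinal.lt_aleph0.1 (h2.trans Cardinal.natCast_lt_aleph0)
    rw [hN] at h2 ⊢
    have h5 : N < Module.finrank K (Ω[K⁄ℂ]) + 1 := by exact_mod_cast h2
    exact_mod_cast Nat.lt_succ_iff.1 h5
  rw [trdeg_eq_finrank _ h4 rfl]
  have hil : (Sum.inl i : P ⊕ R) ≠ Sum.inl l := fun h' => h (Sum.inl_injective h').symm
  rw [← Finset.add_sum_erase _ (fun j => dims n m j) (a := Sum.inl i)
    (Finset.mem_erase.2 ⟨hil, Finset.mem_univ _⟩), ← h1]
  simp only [Sum.elim_inl]
  norm_cast
  omega

end Pool.Agent.LibGMW
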