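import Pool.Agent.LibGMW.Rel
import Pool.Agent.LibGMW.DetC

/-! TASK TRAN: the coordinates of a factor are not all algebraic. -/

open scoped Classical

namespace Pool.Agent.LibGMW

open Pool.Agent.LibGMM MvPolynomial

variable {P R : Type} [Fintype P] [Fintype R] {n : ℕ} {m e : R → ℕ}
  {K : Type} [Field K] [Algebra ℂ K] {T : FormTensor P n m e} {l i : P}

private theorem Tran_two_others {N : ℕ} (hN : 2 ≤ N) (t : Fin (N + 1)) :
    ∃ r r' : Fin (N + 1), r ≠ r' ∧ t ≠ r ∧ t ≠ r' := by
  have h1 : 1 < ((Finset.univ : Finset (Fin (N + 1))).erase t).card := by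
    rw [Finset.card_erase_of_mem (Finset.mem_univ t), Finset.card_univ, Fintype.card_fin]
    omega
  obtain ⟨r, hr, r', hr', hne⟩ := Finset.one_lt_card.mp h1
  exact ⟨r, r', hne, (Finset.ne_of_mem_erase hr).symm, (Finset.ne_of_mem_erase hr').symm⟩

/-- If all ratios of the coordinates with label `j` are algebraic over the field generated by the
coordinates with labels `≠ l, i, j`, then by `Emb.exists_relation` and `Multilin.det_dvd` the
determinant divides, for every pair `r ≠ r'`, a polynomial `G ≠ 0` with no variables `(j, t)`,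
`t ≠ r, r'`, so it does not contain these variables (`MvPolynomial.degreeOf`); since there are at least
three indices, it contains no variable of the group `j`, against `det_multiHom`. -/
theorem Multilin.exists_transcendental (D : Multilin K T l) (h : l ≠ i)
    (hdims : ∀ j, 1 ≤ dims (P := P) n m j) (hdet : (matP T l i).det ≠ 0)
    (hadj : ∃ a b, (D.mat i).adjugate a b ≠ 0) (j : P ⊕ R) (hjl : j ≠ Sum.inl l)
    (hji : j ≠ Sum.inl i) (hj : 2 ≤ dims n m j) (hej : 1 ≤ degs e j) :
    ∃ r r' : Fin (dims n m j + 1), Transcendental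
      (D.base {h | h ≠ Sum.inl l ∧ h ≠ Sum.inl i ∧ h ≠ j}) ((D.x j r : K) / D.x j r') := by
  by_contra hcon
  push Not at hcon
  have halg : ∀ r r' : Fin (dims n m j + 1), IsAlgebraic
      (D.base {h | h ≠ Sum.inl l ∧ h ≠ Sum.inl i ∧ h ≠ j}) ((D.x j r : K) / D.x j r') := by
    intro r r'
    have := hcon r r'
    unfold Transcendental at this
    exact not_not.mp this
  -- no variable of the group `j` occurs in the determinant
  have hdeg : ∀ t : Fin (dims n m j + 1), degreeOf (⟨j, t⟩ : Σ j : P ⊕ R, Fin (dims n m j + 1))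
      (matP T l i).det = 0 := by
    intro t
    obtain ⟨r, r', hrr, htr, htr'⟩ := Tran_two_others hj t
    obtain ⟨G, e', hG, hG0, he, hv, hz⟩ := Emb.exists_relation D.toEmb
      {h | h ≠ Sum.inl l ∧ h ≠ Sum.inl i ∧ h ≠ j} j (fun hh => hh.2.2 rfl) r r' hrr (halg r r')
    have hel : e' (Sum.inl l) = 0 := he _ (fun hh => hh.1 rfl) (Ne.symm hjl)
    have hei : e' (Sum.inl i) = 0 := he _ (fun hh => hh.2.1 rfl) (Ne.symm hji)
    obtain ⟨H, hH⟩ := D.det_dvd h hdims hdet hadj G e' hG hel hei hz
    have hH0 : H ≠ 0 := by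
      rintro rfl
      exact hG0 (by rw [hH, mul_zero])
    have h1 : degreeOf (⟨j, t⟩ : Σ j : P ⊕ R, Fin (dims n m j + 1)) G = 0 := by
      by_contra hne
      have hmem : (⟨j, t⟩ : Σ j : P ⊕ R, Fin (dims n m j + 1)) ∈ G.vars :=
        mem_vars_iff_degreeOf_ne_zero.mpr hne
      rcases hv _ hmem rfl with h2 | h2
      · exact htr (by simpa using h2)
      · exact htr' (by simpa using h2)
    rw [hH, degreeOf_mul_eq hdet hH0] at h1
    omega
  -- but the determinant has degree `n + 1` in the group `j`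
  obtain ⟨c, hc⟩ := (MvPolynomial.support_nonempty).mpr hdet
  have h3 := det_multiHom T l i c hc j
  have h4 : degLI e l i (n + 1) j = (n + 1) * degs e j := by
    simp [degLI, hjl, hji]
  rw [h4] at h3
  have h5 : ∀ t : Fin (dims n m j + 1), c ⟨j, t⟩ = 0 := by
    intro t
    have h6 := monomial_le_degreeOf (⟨j, t⟩ : Σ j : P ⊕ R, Fin (dims n m j + 1)) hc
    rw [hdeg t] at h6
    omega
  rw [Finset.sum_eq_zero (fun t _ => h5 t)] at h3
  have h6 : 0 < (n + 1) * degs e j := Nat.mul_pos (Nat.succ_pos n) hej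
  omega

end Pool.Agent.LibGMW
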